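import Pool.Agent.CUB.Defs

/-!
# Alternating sums of exterior products
-/

set_option autoImplicit false

noncomputable section

namespace Pool.Agent.CUB

open scoped Classical

variable {T : Type}

/-- Relations `R N` for families of `N` points, relations `R₁` for one point. -/
structure RSys (R : ∀ N : ℕ, Submodule ℚ ((Fin N → T) →₀ ℚ)) (R₁ : Submodule ℚ (T →₀ ℚ)) :
    Prop where
  update : ∀ {w : T →₀ ℚ}, w ∈ R₁ → ∀ {N : ℕ} (j : Fin N) (c : Fin N → T),
    Finsupp.mapDomain (fun x => Function.update c j x) w ∈ R N
  perm : ∀ {N : ℕ} {z : (Fin N → T) →₀ ℚ}, z ∈ R N → ∀ σ : Equiv.Perm (Fin N),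
    Finsupp.mapDomain (fun x j => x (σ j)) z ∈ R N
  append : ∀ {N : ℕ} {z : (Fin N → T) →₀ ℚ}, z ∈ R N → ∀ (M : ℕ) (c : Fin M → T),
    Finsupp.mapDomain (fun x => Fin.append x c) z ∈ R (N + M)

/-- the values of the exterior product -/
private lemma ext_val {n : ℕ} (z : Fin n → (T →₀ ℚ)) (x : Fin n → T) :
    ext z x = ∏ j, z j (x j) := by
  unfold ext
  rw [Finsupp.finsetSum_apply]
  simp only [Finsupp.single_apply]
  rw [Finset.sum_ite_eq' (Fintype.piFinset fun j => (z j).support) x
    (fun x => ∏ j, z j (x j))]
  split_ifs with h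
  · rfl
  · rw [Fintype.mem_piFinset] at h
    push Not at h
    obtain ⟨j, hj⟩ := h
    have h0 : z j (x j) = 0 := Finsupp.notMem_support_iff.1 hj
    exact (Finset.prod_eq_zero (f := fun j => z j (x j)) (Finset.mem_univ j) h0).symm

private lemma prod_upd {n : ℕ} (z : Fin n → (T →₀ ℚ)) (i : Fin n) (w : T →₀ ℚ)
    (x : Fin n → T) : ∏ j, Function.update z i w j (x j) =
      w (x i) * ∏ j ∈ Finset.univ \ {i}, z j (x j) := by
  have h : (fun j => Function.update z i w j (x j)) =
      Function.update (fun j => z j (x j)) i (w (x i)) := by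
    funext j
    by_cases hj : j = i
    · subst hj
      simp
    · simp [Function.update_of_ne hj]
  rw [show (∏ j, Function.update z i w j (x j)) =
      ∏ j, Function.update (fun j => z j (x j)) i (w (x i)) j from
      Finset.prod_congr rfl fun j _ => congrFun h j]
  exact Finset.prod_update_of_mem (Finset.mem_univ i) _ _

/-- the exterior product as a multilinear map -/
private def extMul (T : Type) (n : ℕ) :
    MultilinearMap ℚ (fun _ : Fin n => T →₀ ℚ) ((Fin n → T) →₀ ℚ) where
  toFun z := ext z
  map_update_add' := by
    intro inst m i a b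
    have : inst = instDecidableEqFin n := Subsingleton.elim _ _
    subst this
    apply Finsupp.ext
    intro x
    rw [Finsupp.add_apply, ext_val, ext_val, ext_val]
    have h1 := prod_upd m i (a + b) x
    have h2 := prod_upd m i a x
    have h3 := prod_upd m i b x
    refine h1.trans ?_
    rw [Finsupp.add_apply, add_mul]
    exact congrArg₂ (· + ·) h2.symm h3.symm
  map_update_smul' := by
    intro inst m i c a
    have : inst = instDecidableEqFin n := Subsingleton.elim _ _
    subst this
    apply Finsupp.ext
    intro x
    rw [Finsupp.smul_apply, ext_val, ext_val]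
    have h1 := prod_upd m i (c • a) x
    have h2 := prod_upd m i a x
    refine h1.trans ?_
    rw [Finsupp.smul_apply, smul_eq_mul, mul_assoc, smul_eq_mul]
    exact congrArg (c * ·) h2.symm

/-- the exterior product and the alternating sum are multilinear -/
theorem exists_altM (T : Type) (n : ℕ) :
    ∃ A : MultilinearMap ℚ (fun _ : Fin n => T →₀ ℚ) ((Fin n → T) →₀ ℚ), ∀ z, A z = alt z := by
  refine ⟨∑ τ : Equiv.Perm (Fin n), (Equiv.Perm.sign τ : ℤ) •
    (extMul T n).domDomCongr τ, fun z => ?_⟩
  rw [MultilinearMap.sum_apply]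
  rfl

theorem exists_extM (T : Type) (n : ℕ) :
    ∃ A : MultilinearMap ℚ (fun _ : Fin n => T →₀ ℚ) ((Fin n → T) →₀ ℚ), ∀ z, A z = ext z :=
  ⟨extMul T n, fun _ => rfl⟩

/-- a multilinear map and generators -/
private lemma mul_span {M M' : Type} [AddCommGroup M] [Module ℚ M] [AddCommGroup M']
    [Module ℚ M'] {n : ℕ} (A : MultilinearMap ℚ (fun _ : Fin n => M) M') (R : Submodule ℚ M')
    (G : Fin n → Set M) (h : ∀ z : Fin n → M, (∀ j, z j ∈ G j) → A z ∈ R) (z : Fin n → M)
    (hz : ∀ j, z j ∈ Submodule.span ℚ (G j)) : A z ∈ R := by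
  have key : ∀ (s : Finset (Fin n)) (z : Fin n → M), (∀ j ∈ s, z j ∈ Submodule.span ℚ (G j)) →
      (∀ j ∉ s, z j ∈ G j) → A z ∈ R := by
    intro s
    induction s using Finset.induction_on with
    | empty => exact fun z _ h2 => h z fun j => h2 j (Finset.notMem_empty j)
    | insert a s ha ih =>
      intro z h1 h2
      have h3 : ∀ x ∈ Submodule.span ℚ (G a), A (Function.update z a x) ∈ R := by
        intro x hx
        induction hx using Submodule.span_induction with
        | mem x hx =>
          refine ih _ (fun j hj => ?_) fun j hj => ?_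
          · have : j ≠ a := fun e => ha (e ▸ hj)
            rw [Function.update_of_ne this]
            exact h1 j (Finset.mem_insert_of_mem hj)
          · by_cases e : j = a
            · subst e
              rw [Function.update_self]
              exact hx
            · rw [Function.update_of_ne e]
              exact h2 j fun hh => (Finset.mem_insert.1 hh).elim e hj
        | zero => rw [A.map_update_zero]; exact R.zero_mem
        | add x y _ _ hx hy => rw [A.map_update_add]; exact R.add_mem hx hy
        | smul c x _ hx => rw [A.map_update_smul]; exact R.smul_mem c hx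
      have h4 := h3 (z a) (h1 a (Finset.mem_insert_self a s))
      rwa [Function.update_eq_self] at h4
  exact key Finset.univ z (fun j _ => hz j) fun j hj => absurd (Finset.mem_univ j) hj

private lemma ext_update (z : T →₀ ℚ) {N : ℕ} (w : Fin N → (T →₀ ℚ)) (i : Fin N)
    (c : Fin N → T) (hi : w i = z) (hw : ∀ j, j ≠ i → w j = Finsupp.single (c j) 1) :
    ext w = Finsupp.mapDomain (fun x => Function.update c i x) z := by
  have hinj : Function.Injective (fun x : T => Function.update c i x) :=
    Function.update_injective c i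
  apply Finsupp.ext
  intro x
  rw [ext_val]
  by_cases h : ∀ j, j ≠ i → x j = c j
  · have hx : x = Function.update c i (x i) := by
      funext j
      by_cases hj : j = i
      · subst hj; rw [Function.update_self]
      · rw [Function.update_of_ne hj]; exact h j hj
    have h2 : (Finsupp.mapDomain (fun x => Function.update c i x) z) x = z (x i) := by
      conv_lhs => rw [hx]
      exact Finsupp.mapDomain_apply hinj z (x i)
    rw [h2, ← Finset.mul_prod_erase Finset.univ _ (Finset.mem_univ i), hi]
    rw [Finset.prod_eq_one, mul_one]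
    intro j hj
    have hji : j ≠ i := Finset.ne_of_mem_erase hj
    rw [hw j hji, h j hji, Finsupp.single_eq_same]
  · push Not at h
    obtain ⟨j, hj, hne⟩ := h
    rw [Finset.prod_eq_zero (Finset.mem_univ j)]
    · symm
      apply Finsupp.mapDomain_notin_range
      rintro ⟨y, hy⟩
      apply hne
      rw [← hy]
      exact Function.update_of_ne hj _ _
    · rw [hw j hj, Finsupp.single_apply, if_neg (Ne.symm hne)]

private lemma ext_one {R : ∀ N : ℕ, Submodule ℚ ((Fin N → T) →₀ ℚ)}
    {R₁ : Submodule ℚ (T →₀ ℚ)} (S : RSys R R₁) {N : ℕ} (z : Fin N → (T →₀ ℚ)) (i : Fin N)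
    (hz : z i ∈ R₁) : ext z ∈ R N := by
  by_cases hT : Nonempty T
  · obtain ⟨t0⟩ := hT
    have h := mul_span (extMul T N) (R N)
      (fun j => if j = i then (R₁ : Set (T →₀ ℚ)) else Set.range fun t => Finsupp.single t 1)
      (fun w hw => by
        have hi : w i ∈ R₁ := by simpa using hw i
        have hj : ∀ j, j ≠ i → ∃ t, Finsupp.single t 1 = w j := by
          intro j hj
          simpa [hj] using hw j
        let c : Fin N → T := fun j => if h : j ≠ i then (hj j h).choose else t0
        have hc : ∀ j, j ≠ i → w j = Finsupp.single (c j) 1 := by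
          intro j h
          simp only [c, dif_pos h]
          exact (hj j h).choose_spec.symm
        change ext w ∈ R N
        rw [ext_update (w i) w i c rfl hc]
        exact S.update hi i c) z
      (fun j => by
        by_cases hj : j = i
        · subst hj
          rw [if_pos rfl]
          exact Submodule.subset_span hz
        · rw [if_neg hj]
          rw [← Finsupp.sum_single (z j)]
          refine Submodule.sum_mem _ fun t _ => ?_
          have : Finsupp.single t (z j t) = (z j t) • Finsupp.single t (1 : ℚ) := by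
            rw [Finsupp.smul_single, smul_eq_mul, mul_one]
          rw [this]
          exact Submodule.smul_mem _ _ (Submodule.subset_span ⟨t, rfl⟩))
    exact h
  · have h0 : z i = 0 := by
      apply Finsupp.ext
      intro t
      exact absurd ⟨t⟩ hT
    have h1 : ext z = 0 := by
      apply Finsupp.ext
      intro x
      rw [ext_val, Finset.prod_eq_zero (Finset.mem_univ i) (by rw [h0]; rfl)]
      rfl
    rw [h1]
    exact (R N).zero_mem

/-- one factor is a relation -/
theorem alt_one {R : ∀ N : ℕ, Submodule ℚ ((Fin N → T) →₀ ℚ)} {R₁ : Submodule ℚ (T →₀ ℚ)}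
    (S : RSys R R₁) {N : ℕ} (z : Fin N → (T →₀ ℚ)) (j : Fin N) (hz : z j ∈ R₁) : alt z ∈ R N := by
  unfold alt
  refine Submodule.sum_mem _ fun τ _ => ?_
  refine zsmul_mem ?_ _
  refine ext_one S (fun i => z (τ i)) (τ.symm j) ?_
  simpa using hz

/-- It is enough to check generators. -/
theorem alt_span {N : ℕ} {R : Submodule ℚ ((Fin N → T) →₀ ℚ)} {G : Set (T →₀ ℚ)}
    (h : ∀ z : Fin N → (T →₀ ℚ), (∀ j, z j ∈ G) → alt z ∈ R) (z : Fin N → (T →₀ ℚ))
    (hz : ∀ j, z j ∈ Submodule.span ℚ G) : alt z ∈ R := by
  obtain ⟨A, hA⟩ := exists_altM T N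
  rw [← hA]
  exact mul_span A R (fun _ => G) (fun w hw => by rw [hA]; exact h w hw) z hz

end Pool.Agent.CUB
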