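import Pool.Agent.CUB.Alt

/-!
# Many factors in a subspace
-/

set_option autoImplicit false

noncomputable section

namespace Pool.Agent.CUB

open scoped Classical

variable {T : Type}

private theorem extB_apply {n : ℕ} (z : Fin n → (T →₀ ℚ)) (x : Fin n → T) :
    ext z x = ∏ j, z j (x j) := by
  unfold ext
  rw [Finsupp.finsetSum_apply]
  by_cases hx : x ∈ Fintype.piFinset fun j => (z j).support
  · rw [Finset.sum_eq_single x]
    · rw [Finsupp.single_eq_same]
    · intro y _ hy
      exact Finsupp.single_eq_of_ne (Ne.symm hy)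
    · intro h
      exact absurd hx h
  · rw [Finset.sum_eq_zero]
    · rw [Fintype.mem_piFinset] at hx
      push Not at hx
      obtain ⟨j, hj⟩ := hx
      exact (Finset.prod_eq_zero (Finset.mem_univ j) (by simpa using hj)).symm
    · intro y hy
      apply Finsupp.single_eq_of_ne
      rintro rfl
      exact hx hy

private theorem extB_perm {n : ℕ} (z : Fin n → (T →₀ ℚ)) (τ : Equiv.Perm (Fin n)) :
    Finsupp.mapDomain (fun x j => x (τ j)) (ext z) = ext fun j => z (τ j) := by
  ext y
  have hinj : Function.Injective (fun (x : Fin n → T) (j : Fin n) => x (τ j)) := by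
    intro x x' h
    funext j
    have := congrFun h (τ.symm j)
    simpa using this
  have hy : y = (fun (x : Fin n → T) (j : Fin n) => x (τ j)) (fun j => y (τ.symm j)) := by
    funext j
    simp
  have h := Finsupp.mapDomain_apply hinj (ext z) (fun j => y (τ.symm j))
  rw [show (fun j => (fun j => y (τ.symm j)) (τ j)) = y from hy.symm] at h
  rw [h, extB_apply, extB_apply, ← Equiv.prod_comp τ]
  simp

private theorem extB_append {m M : ℕ} (u : Fin m → (T →₀ ℚ)) (c : Fin M → T) :
    Finsupp.mapDomain (fun x => Fin.append x c) (ext u) =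
      ext (Fin.append u fun j => Finsupp.single (c j) (1 : ℚ)) := by
  ext y
  have hinj : Function.Injective (fun (x : Fin m → T) => Fin.append x c) := by
    intro x x' h
    funext j
    have := congrFun h (Fin.castAdd M j)
    simpa using this
  rw [extB_apply, Fin.prod_univ_add]
  simp only [Fin.append_left, Fin.append_right]
  by_cases hc : (fun j => y (Fin.natAdd m j)) = c
  · have hy : y = (fun (x : Fin m → T) => Fin.append x c) (fun j => y (Fin.castAdd M j)) := by
      funext i
      refine Fin.addCases (fun i => ?_) (fun i => ?_) i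
      · simp
      · simp [← hc]
    have h := Finsupp.mapDomain_apply hinj (ext u) (fun j => y (Fin.castAdd M j))
    rw [show Fin.append (fun j => y (Fin.castAdd M j)) c = y from hy.symm] at h
    rw [h, extB_apply]
    have h1 : ∀ j, (Finsupp.single (c j) (1 : ℚ)) (y (Fin.natAdd m j)) = 1 := by
      intro j
      rw [← hc]
      simp
    simp [h1]
  · rw [Finsupp.mapDomain_of_notMem_range]
    · have : ∃ j, y (Fin.natAdd m j) ≠ c j := by
        by_contra h
        push Not at h
        exact hc (funext h)
      obtain ⟨j, hj⟩ := this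
      have h0 : (∏ j, (Finsupp.single (c j) (1 : ℚ)) (y (Fin.natAdd m j))) = 0 :=
        Finset.prod_eq_zero (Finset.mem_univ j) (Finsupp.single_eq_of_ne hj)
      rw [h0, mul_zero]
    · rintro ⟨x, hx⟩
      apply hc
      funext j
      rw [← hx]
      simp

private theorem altB_perm {n : ℕ} (z : Fin n → (T →₀ ℚ)) (σ : Equiv.Perm (Fin n)) :
    alt (fun j => z (σ j)) = (Equiv.Perm.sign σ : ℤ) • alt z := by
  unfold alt
  rw [Finset.smul_sum]
  conv_rhs => rw [← Equiv.sum_comp (Equiv.mulLeft σ)]
  refine Finset.sum_congr rfl fun τ _ => ?_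
  rw [smul_smul]
  simp only [Equiv.coe_mulLeft, Equiv.Perm.sign_mul, Equiv.Perm.coe_mul, Function.comp_apply]
  congr 1
  push_cast
  rw [← mul_assoc]
  rcases Int.units_eq_one_or (Equiv.Perm.sign σ) with h | h <;> simp [h]

private theorem redB {V : Type} [AddCommGroup V] [Module ℚ V] {N : ℕ}
    (A : MultilinearMap ℚ (fun _ : Fin N => T →₀ ℚ) V) (R : Submodule ℚ V) (s : Finset (Fin N)) :
    ∀ z : Fin N → (T →₀ ℚ), (∀ w : Fin N → (T →₀ ℚ), (∀ j, j ∉ s → w j = z j) →
      (∀ j ∈ s, ∃ c, w j = Finsupp.single c (1 : ℚ)) → A w ∈ R) → A z ∈ R := by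
  induction s using Finset.induction_on with
  | empty =>
    intro z H
    exact H z (fun _ _ => rfl) (by simp)
  | insert a s ha ih =>
    intro z H
    have key : ∀ u : T →₀ ℚ, A (Function.update z a u) ∈ R := by
      intro u
      induction u using Finsupp.induction_linear with
      | zero =>
        rw [MultilinearMap.map_update_zero]
        exact R.zero_mem
      | add f g hf hg =>
        rw [MultilinearMap.map_update_add]
        exact R.add_mem hf hg
      | single c r =>
        have : (Finsupp.single c r : T →₀ ℚ) = r • Finsupp.single c 1 := by simp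
        rw [this, MultilinearMap.map_update_smul]
        apply R.smul_mem
        apply ih
        intro w hw1 hw2
        apply H w
        · intro j hj
          rw [Finset.mem_insert, not_or] at hj
          rw [hw1 j hj.2, Function.update_of_ne hj.1]
        · intro j hj
          rcases Finset.mem_insert.1 hj with rfl | hj
          · exact ⟨c, by rw [hw1 j ha, Function.update_self]⟩
          · exact hw2 j hj
    have := key (z a)
    rwa [Function.update_eq_self] at this

private theorem altB_points {R : ∀ N : ℕ, Submodule ℚ ((Fin N → T) →₀ ℚ)}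
    {R₁ : Submodule ℚ (T →₀ ℚ)} (S : RSys R R₁) {m M : ℕ} (u : Fin m → (T →₀ ℚ))
    (hu : alt u ∈ R m) (c : Fin M → T) :
    alt (Fin.append u fun j => Finsupp.single (c j) (1 : ℚ)) ∈ R (m + M) := by
  set w : Fin (m + M) → (T →₀ ℚ) := Fin.append u fun j => Finsupp.single (c j) (1 : ℚ) with hw
  -- the embedding of `S_m`
  set e : Equiv.Perm (Fin m) → Equiv.Perm (Fin (m + M)) := fun ρ =>
    (finSumFinEquiv.symm.trans ((Equiv.sumCongr ρ (Equiv.refl (Fin M))).trans finSumFinEquiv))
    with he
  have hsign : ∀ ρ, Equiv.Perm.sign (e ρ) = Equiv.Perm.sign ρ := by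
    intro ρ
    have h := Equiv.Perm.sign_symm_trans_trans (Equiv.Perm.sumCongr ρ (1 : Equiv.Perm (Fin M)))
      (finSumFinEquiv (m := m) (n := M))
    rw [Equiv.Perm.sign_sumCongr, Equiv.Perm.sign_one, mul_one] at h
    exact h
  have hwe : ∀ ρ, (fun j => w (e ρ j)) =
      Fin.append (fun j => u (ρ j)) fun j => Finsupp.single (c j) (1 : ℚ) := by
    intro ρ
    funext j
    refine Fin.addCases (fun i => ?_) (fun i => ?_) j
    · simp [hw, he]
    · simp [hw, he]
  -- the sum over `S_m`
  have hin : ∑ ρ : Equiv.Perm (Fin m), (Equiv.Perm.sign ρ : ℤ) • ext (fun j => w (e ρ j)) ∈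
      R (m + M) := by
    have h1 : ∑ ρ : Equiv.Perm (Fin m), (Equiv.Perm.sign ρ : ℤ) • ext (fun j => w (e ρ j)) =
        Finsupp.mapDomain (fun x => Fin.append x c) (alt u) := by
      unfold alt
      rw [Finsupp.mapDomain_finsetSum]
      refine Finset.sum_congr rfl fun ρ _ => ?_
      rw [hwe ρ, ← extB_append]
      rcases Int.units_eq_one_or (Equiv.Perm.sign ρ) with h | h
      · simp [h]
      · simp only [h, Units.val_neg, Units.val_one, neg_smul, one_smul]
        exact (map_neg (Finsupp.mapDomain.addMonoidHom (M := ℚ)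
          (fun x : Fin m → T => Fin.append x c)) _).symm
    rw [h1]
    exact S.append hu M c
  -- the sum over `S_(m+M)` is a multiple of the sum over the pairs
  have hpair : ∀ τ : Equiv.Perm (Fin (m + M)),
      ∑ ρ : Equiv.Perm (Fin m), (Equiv.Perm.sign (e ρ * τ) : ℤ) •
        ext (fun j => w ((e ρ * τ) j)) ∈ R (m + M) := by
    intro τ
    have h2 := S.perm hin τ
    have h3 : ∑ ρ : Equiv.Perm (Fin m), (Equiv.Perm.sign (e ρ * τ) : ℤ) •
        ext (fun j => w ((e ρ * τ) j)) = (Equiv.Perm.sign τ : ℤ) •
        Finsupp.mapDomain (fun x j => x (τ j))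
        (∑ ρ : Equiv.Perm (Fin m), (Equiv.Perm.sign ρ : ℤ) • ext (fun j => w (e ρ j))) := by
      rw [Finsupp.mapDomain_finsetSum, Finset.smul_sum]
      refine Finset.sum_congr rfl fun ρ _ => ?_
      have h4 : ext (fun j => w ((e ρ * τ) j)) =
          Finsupp.mapDomain (fun x j => x (τ j)) (ext (fun j => w (e ρ j))) := by
        rw [extB_perm]
        rfl
      rw [h4, Equiv.Perm.sign_mul, hsign]
      rcases Int.units_eq_one_or (Equiv.Perm.sign ρ) with h | h
      · simp [h]
      · have h5 := (map_neg (Finsupp.mapDomain.addMonoidHom (M := ℚ)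
          (fun (x : Fin (m + M) → T) j => x (τ j))) (ext (fun j => w (e ρ j)))).symm
        simp only [Finsupp.mapDomain.addMonoidHom_apply] at h5
        simp only [h, Units.val_neg, Units.val_one, neg_smul, one_smul, ← h5, neg_one_mul,
          smul_neg]
    rw [h3]
    exact zsmul_mem h2 _
  have hsum : (Fintype.card (Equiv.Perm (Fin m)) : ℚ) • alt w ∈ R (m + M) := by
    have h6 : (Fintype.card (Equiv.Perm (Fin m)) : ℚ) • alt w =
        ∑ τ : Equiv.Perm (Fin (m + M)), ∑ ρ : Equiv.Perm (Fin m),
          (Equiv.Perm.sign (e ρ * τ) : ℤ) • ext (fun j => w ((e ρ * τ) j)) := by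
      rw [Finset.sum_comm]
      have h7 : ∀ ρ : Equiv.Perm (Fin m), ∑ τ : Equiv.Perm (Fin (m + M)),
          (Equiv.Perm.sign (e ρ * τ) : ℤ) • ext (fun j => w ((e ρ * τ) j)) = alt w := by
        intro ρ
        unfold alt
        exact Equiv.sum_comp (Equiv.mulLeft (e ρ)) fun τ : Equiv.Perm (Fin (m + M)) =>
          (Equiv.Perm.sign τ : ℤ) • ext (fun j => w (τ j))
      rw [Finset.sum_congr rfl fun ρ _ => h7 ρ, Finset.sum_const, Finset.card_univ]
      rw [Nat.cast_smul_eq_nsmul]
    rw [h6]
    exact Submodule.sum_mem _ fun τ _ => hpair τ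
  have hne : (Fintype.card (Equiv.Perm (Fin m)) : ℚ) ≠ 0 := by
    exact_mod_cast Fintype.card_ne_zero
  exact ((R (m + M)).smul_mem_iff hne).1 hsum

/-- If the alternating sums of `m` elements of `A` are relations, then the alternating sums of `N ≥ m`
cycles, such that at least `m` of them are in `A`, are relations. Proof: `alt` is antisymmetric, so the
first `m` cycles are in `A`; by linearity the other ones are points `c`. The sum over `S_N` is a sum
over the cosets of `S_m`; the sum over one coset is, up to a permutation of the coordinates (`perm`) and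
the sign, the product of `alt` of the first `m` cycles and of the points `c` (`append`). -/
theorem alt_many {R : ∀ N : ℕ, Submodule ℚ ((Fin N → T) →₀ ℚ)} {R₁ : Submodule ℚ (T →₀ ℚ)}
    (S : RSys R R₁) {A : Submodule ℚ (T →₀ ℚ)} {m : ℕ}
    (hA : ∀ z : Fin m → (T →₀ ℚ), (∀ j, z j ∈ A) → alt z ∈ R m) {N : ℕ}
    (z : Fin N → (T →₀ ℚ)) (J : Finset (Fin N)) (hJ : m ≤ J.card) (hz : ∀ j ∈ J, z j ∈ A) :
    alt z ∈ R N := by
  have hmN : m ≤ N := hJ.trans (by simpa using Finset.card_le_univ J)
  obtain ⟨M, rfl⟩ := Nat.exists_eq_add_of_le hmN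
  obtain ⟨J', hJ', hcard⟩ := Finset.exists_subset_card_eq hJ
  -- a permutation which moves the first `m` indices into `J'`
  obtain ⟨σ, hσ⟩ : ∃ σ : Equiv.Perm (Fin (m + M)), ∀ i : Fin m, σ (Fin.castAdd M i) ∈ J' := by
    have h0 : Nat.card {x : Fin (m + M) // x.val < m} = m := by
      rw [Nat.card_congr (Fin.castLEquiv (Nat.le_add_right m M)).symm]; simp
    have h1 : Fintype.card {x : Fin (m + M) // x.val < m} =
        Fintype.card {x : Fin (m + M) // x ∈ J'} := by
      rw [← Nat.card_eq_fintype_card, h0]
      simp [hcard]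
    let e₀ : {x : Fin (m + M) // x.val < m} ≃
        {x : Fin (m + M) // x ∈ J'} := Fintype.equivOfCardEq h1
    refine ⟨e₀.extendSubtype, fun i => ?_⟩
    exact Equiv.extendSubtype_mem e₀ _ (by simp)
  have h2 : alt (fun j => z (σ j)) ∈ R (m + M) → alt z ∈ R (m + M) := by
    intro h
    rw [altB_perm] at h
    rcases Int.units_eq_one_or (Equiv.Perm.sign σ) with h3 | h3
    · simpa [h3] using h
    · simpa [h3] using h
  apply h2
  obtain ⟨A', hA'⟩ := exists_altM T (m + M)
  rw [← hA']
  apply redB A' (R (m + M)) (Finset.univ.filter fun j : Fin (m + M) => m ≤ j.val)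
  intro w hw1 hw2
  rw [hA']
  have h4 : ∀ j : Fin M, ∃ c, w (Fin.natAdd m j) = Finsupp.single c (1 : ℚ) := fun j =>
    hw2 _ (by simp)
  choose c hc using h4
  have h5 : w = Fin.append (fun i => w (Fin.castAdd M i)) fun j =>
      Finsupp.single (c j) (1 : ℚ) := by
    funext j
    refine Fin.addCases (fun i => ?_) (fun i => ?_) j
    · simp
    · simp [hc]
  rw [h5]
  apply altB_points S
  apply hA
  intro i
  show w (Fin.castAdd M i) ∈ A
  rw [hw1 _ (by simp)]
  exact hz _ (hJ' (hσ i))

end Pool.Agent.CUB
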