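import Pool.Agent.CUB.AltB

/-!
# Two subspaces
-/

set_option autoImplicit false

noncomputable section

namespace Pool.Agent.CUB

open scoped Classical

variable {T : Type}

/-- Two subspaces: expand, in every term there are `m` factors in `A`, or `n` factors in `B`, or one
factor in `R₁`. -/
theorem alt_sup {R : ∀ N : ℕ, Submodule ℚ ((Fin N → T) →₀ ℚ)} {R₁ : Submodule ℚ (T →₀ ℚ)}
    (S : RSys R R₁) {A B : Submodule ℚ (T →₀ ℚ)} {m n : ℕ}
    (hA : ∀ z : Fin m → (T →₀ ℚ), (∀ j, z j ∈ A) → alt z ∈ R m)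
    (hB : ∀ z : Fin n → (T →₀ ℚ), (∀ j, z j ∈ B) → alt z ∈ R n) {N : ℕ} (hN : m + n ≤ N)
    (z : Fin N → (T →₀ ℚ)) (hz : ∀ j, z j ∈ R₁ ⊔ A ⊔ B) : alt z ∈ R N := by
  have hG : R₁ ⊔ A ⊔ B = Submodule.span ℚ ((R₁ : Set (T →₀ ℚ)) ∪ A ∪ B) := by
    rw [Submodule.span_union, Submodule.span_union, Submodule.span_eq, Submodule.span_eq,
      Submodule.span_eq]
  refine alt_span (G := (R₁ : Set (T →₀ ℚ)) ∪ A ∪ B) ?_ z fun j => hG ▸ hz j
  intro y hy
  by_cases h1 : ∃ j, y j ∈ R₁
  · obtain ⟨j, hj⟩ := h1
    exact alt_one S y j hj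
  · push Not at h1
    have hAB : ∀ j, y j ∈ A ∨ y j ∈ B := by
      intro j
      rcases hy j with (h | h) | h
      · exact absurd h (h1 j)
      · exact Or.inl h
      · exact Or.inr h
    have hcard : N ≤ (Finset.univ.filter fun j => y j ∈ A).card +
        (Finset.univ.filter fun j => y j ∈ B).card := by
      calc N = (Finset.univ : Finset (Fin N)).card := by simp
        _ ≤ ((Finset.univ.filter fun j => y j ∈ A) ∪ (Finset.univ.filter fun j => y j ∈ B)).card := by
          apply Finset.card_le_card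
          intro j _
          simp only [Finset.mem_union, Finset.mem_filter, Finset.mem_univ, true_and]
          exact hAB j
        _ ≤ _ := Finset.card_union_le _ _
    rcases le_or_gt m (Finset.univ.filter fun j => y j ∈ A).card with h | h
    · exact alt_many S hA y _ h fun j hj => (Finset.mem_filter.1 hj).2
    · exact alt_many S hB y (Finset.univ.filter fun j => y j ∈ B) (by omega)
        fun j hj => (Finset.mem_filter.1 hj).2

end Pool.Agent.CUB
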