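import Mathlib

/-!
# The generic symmetric matrix of rank four
-/

set_option autoImplicit false

noncomputable section

namespace Pool.Agent.CUB

open scoped Classical

variable {K : Type} [Field K]

/-- the index type of the variables -/
abbrev DetA_Ix : Type := {p : Fin 6 × Fin 6 // p.1 ≤ p.2 ∧ p.1 < 4}

/-- the variable with the indices `i`, `j` -/
def detA_gx (i j : Fin 6) (h : i < 4) : DetA_Ix :=
  ⟨(min i j, max i j), min_le_max, lt_of_le_of_lt (min_le_left i j) h⟩

theorem detA_lt (i : Fin 4) : (Fin.castAdd 2 i : Fin 6) < 4 := by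
  revert i
  decide

/-- the block `P` -/
def detA_PR (K : Type) [Field K] : Matrix (Fin 4) (Fin 4) (MvPolynomial DetA_Ix K) :=
  Matrix.of fun i j => MvPolynomial.X (detA_gx (Fin.castAdd 2 i) (Fin.castAdd 2 j) (detA_lt i))

/-- the block `Q` -/
def detA_QR (K : Type) [Field K] : Matrix (Fin 4) (Fin 2) (MvPolynomial DetA_Ix K) :=
  Matrix.of fun i j => MvPolynomial.X (detA_gx (Fin.castAdd 2 i) (Fin.natAdd 4 j) (detA_lt i))

theorem detA_det (K : Type) [Field K] : (detA_PR K).det ≠ 0 := by
  intro h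
  let φ : MvPolynomial DetA_Ix K →+* K :=
    MvPolynomial.eval (fun p : DetA_Ix => if p.1.1 = p.1.2 then (1 : K) else 0)
  have h1 : φ.mapMatrix (detA_PR K) = 1 := by
    ext i j
    rw [RingHom.mapMatrix_apply, Matrix.map_apply, detA_PR, Matrix.of_apply]
    simp only [φ, MvPolynomial.eval_X, detA_gx]
    by_cases hij : i = j
    · subst hij
      simp
    · rw [Matrix.one_apply_ne hij, if_neg]
      intro h2
      apply hij
      have h3 : (Fin.castAdd 2 i : Fin 6) = Fin.castAdd 2 j :=
        le_antisymm ((le_max_left _ _).trans (h2.symm.le.trans (min_le_right _ _)))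
          ((le_max_right _ _).trans (h2.symm.le.trans (min_le_left _ _)))
      exact Fin.castAdd_injective 4 2 h3
  have h2 : φ ((detA_PR K).det) = 1 := by
    rw [RingHom.map_det, h1, Matrix.det_one]
  rw [h, map_zero] at h2
  exact zero_ne_one h2

/-- The generic symmetric matrix of rank four: a field `M`, a symmetric matrix `a` over `M` such that
the `18` entries `a i j` with `i ≤ j`, `i < 4` are algebraically independent over `K`, and the kernel
contains two linearly independent vectors. Take the block matrix with the blocks `P`, `Q`, `Qᵀ`,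
`Qᵀ P⁻¹ Q`, where the entries of `P` (symmetric, `4 × 4`) and `Q` (`4 × 2`) are variables (`P` is
invertible because it is for `P = 1`). -/
theorem exists_generic (K : Type) [Field K] : ∃ (M : Type) (_ : Field M) (_ : Algebra K M)
    (a : Matrix (Fin 6) (Fin 6) M),
    a.IsSymm ∧ (AlgebraicIndependent K fun p : {p : Fin 6 × Fin 6 // p.1 ≤ p.2 ∧ p.1 < 4} =>
      a p.1.1 p.1.2) ∧
    ∃ r s : Fin 6 → M, LinearIndependent M ![r, s] ∧ a.mulVec r = 0 ∧ a.mulVec s = 0 := by
  let R := MvPolynomial DetA_Ix K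
  let M := FractionRing R
  let f : R →+* M := algebraMap R M
  have hf : Function.Injective f := IsFractionRing.injective R M
  let P : Matrix (Fin 4) (Fin 4) M := f.mapMatrix (detA_PR K)
  let Q : Matrix (Fin 4) (Fin 2) M := (detA_QR K).map f
  have hPdet : P.det ≠ 0 := by
    rw [show P.det = f (detA_PR K).det from (RingHom.map_det f _).symm]
    intro h
    exact detA_det K (hf (by rw [h, map_zero]))
  have hPu : IsUnit P.det := isUnit_iff_ne_zero.2 hPdet
  have hPs : P.IsSymm := by
    ext i j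
    change f _ = f _
    rw [detA_PR, Matrix.of_apply, Matrix.of_apply]
    congr 2
    simp only [detA_gx]
    congr 2
    · exact min_comm _ _
    · exact max_comm _ _
  have hPinv : (P⁻¹).IsSymm := by
    have h1 : (P⁻¹).transpose = P⁻¹ := by
      rw [Matrix.transpose_nonsing_inv, hPs.eq]
    exact h1
  let S : Matrix (Fin 2) (Fin 2) M := Q.transpose * P⁻¹ * Q
  have hS : S.IsSymm := by
    have h1 : S.transpose = S := by
      simp only [S]
      rw [Matrix.transpose_mul, Matrix.transpose_mul, Matrix.transpose_transpose, hPinv.eq,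
        Matrix.mul_assoc]
    exact h1
  let e : Fin 4 ⊕ Fin 2 ≃ Fin 6 := finSumFinEquiv
  let B : Matrix (Fin 4 ⊕ Fin 2) (Fin 4 ⊕ Fin 2) M := Matrix.fromBlocks P Q Q.transpose S
  have hB : B.IsSymm := Matrix.IsSymm.fromBlocks hPs rfl hS
  let u : (Fin 2 → M) → (Fin 6 → M) := fun c =>
    (Sum.elim (-((P⁻¹ * Q).mulVec c)) c) ∘ e.symm
  have hu : ∀ c, (B.submatrix e.symm e.symm).mulVec (u c) = 0 := by
    intro c
    rw [Matrix.submatrix_mulVec_equiv]
    have h1 : (u c) ∘ e.symm.symm = Sum.elim (-((P⁻¹ * Q).mulVec c)) c := by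
      funext x
      simp [u]
    rw [h1, Matrix.fromBlocks_mulVec]
    have h2 : P.mulVec ((Sum.elim (-((P⁻¹ * Q).mulVec c)) c) ∘ Sum.inl) +
        Q.mulVec ((Sum.elim (-((P⁻¹ * Q).mulVec c)) c) ∘ Sum.inr) = 0 := by
      rw [Sum.elim_comp_inl, Sum.elim_comp_inr, Matrix.mulVec_neg, Matrix.mulVec_mulVec,
        ← Matrix.mul_assoc, Matrix.mul_nonsing_inv _ hPu, Matrix.one_mul, neg_add_cancel]
    have h3 : Q.transpose.mulVec ((Sum.elim (-((P⁻¹ * Q).mulVec c)) c) ∘ Sum.inl) +
        S.mulVec ((Sum.elim (-((P⁻¹ * Q).mulVec c)) c) ∘ Sum.inr) = 0 := by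
      rw [Sum.elim_comp_inl, Sum.elim_comp_inr, Matrix.mulVec_neg, Matrix.mulVec_mulVec,
        ← Matrix.mul_assoc, neg_add_cancel]
    rw [h2, h3]
    funext x
    simp only [Function.comp_apply]
    cases e.symm x <;> rfl
  refine ⟨M, inferInstance, inferInstance, B.submatrix e.symm e.symm, ?_, ?_,
    u (Pi.single 0 1), u (Pi.single 1 1), ?_, hu _, hu _⟩
  · exact hB.submatrix _
  · have h1 : (fun p : {p : Fin 6 × Fin 6 // p.1 ≤ p.2 ∧ p.1 < 4} =>
        (B.submatrix e.symm e.symm) p.1.1 p.1.2) =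
        fun p : DetA_Ix => (IsScalarTower.toAlgHom K R M) (MvPolynomial.X p) := by
      funext p
      obtain ⟨⟨i, j⟩, hij, hi⟩ := p
      change B (e.symm i) (e.symm j) = f (MvPolynomial.X ⟨(i, j), hij, hi⟩)
      obtain ⟨i', rfl⟩ : ∃ i' : Fin 4, i = Fin.castAdd 2 i' :=
        ⟨⟨i.1, hi⟩, rfl⟩
      have h2 : e.symm (Fin.castAdd 2 i') = Sum.inl i' := finSumFinEquiv_symm_apply_castAdd i'
      rw [h2]
      have h3 : detA_gx (Fin.castAdd 2 i') j (detA_lt i') = ⟨(Fin.castAdd 2 i', j), hij, hi⟩ := by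
        simp only [detA_gx]
        congr 2
        · exact min_eq_left hij
        · exact max_eq_right hij
      by_cases hj : j < 4
      · obtain ⟨j', rfl⟩ : ∃ j' : Fin 4, j = Fin.castAdd 2 j' := ⟨⟨j.1, hj⟩, rfl⟩
        have h4 : e.symm (Fin.castAdd 2 j') = Sum.inl j' := finSumFinEquiv_symm_apply_castAdd j'
        rw [h4, ← h3]
        rfl
      · obtain ⟨j', rfl⟩ : ∃ j' : Fin 2, j = Fin.natAdd 4 j' := by
          have h5 : 4 ≤ j.1 := not_lt.1 hj
          have h6 := j.2
          refine ⟨⟨j.1 - 4, by omega⟩, ?_⟩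
          apply Fin.ext
          simp only [Fin.natAdd_mk]
          omega
        have h4 : e.symm (Fin.natAdd 4 j') = Sum.inr j' := finSumFinEquiv_symm_apply_natAdd j'
        rw [h4, ← h3]
        rfl
    rw [h1]
    exact (MvPolynomial.algebraicIndependent_X DetA_Ix K).map'
      (f := IsScalarTower.toAlgHom K R M) hf
  · rw [LinearIndependent.pair_iff]
    intro α β h
    have h4 : e.symm (Fin.natAdd 4 (0 : Fin 2)) = Sum.inr 0 := finSumFinEquiv_symm_apply_natAdd 0
    have h5 : e.symm (Fin.natAdd 4 (1 : Fin 2)) = Sum.inr 1 := finSumFinEquiv_symm_apply_natAdd 1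
    have h6 := congrFun h (Fin.natAdd 4 (0 : Fin 2))
    have h7 := congrFun h (Fin.natAdd 4 (1 : Fin 2))
    simp only [u, Pi.add_apply, Pi.smul_apply, Function.comp_apply, h4, h5, Sum.elim_inr,
      Pi.zero_apply] at h6 h7
    constructor
    · simpa using h6
    · simpa using h7

end Pool.Agent.CUB
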