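import Mathlib

/-!
# The adjugate of a matrix with a kernel of dimension two
-/

set_option autoImplicit false

noncomputable section

namespace Pool.Agent.CUB

open scoped Classical

variable {K : Type} [Field K]

/-- The condition `rank ≤ 4` for a matrix is given by homogeneous polynomials of degree `5` in the
entries, the entries of the adjugate. If the kernel of `a` has dimension `≥ 2` then the adjugate is
zero: the matrix with one row replaced by any vector still has a kernel. -/
theorem adjugate_zero {M : Type} [Field M] (a : Matrix (Fin 6) (Fin 6) M)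
    (h : ∃ r s : Fin 6 → M, LinearIndependent M ![r, s] ∧ a.mulVec r = 0 ∧ a.mulVec s = 0) :
    a.adjugate = 0 := by
  obtain ⟨r, s, hrs, hr, hs⟩ := h
  have hrs' := LinearIndependent.pair_iff.1 hrs
  ext i j
  rw [Matrix.adjugate_apply, Matrix.zero_apply, ← Matrix.exists_mulVec_eq_zero_iff]
  have key : ∀ w : Fin 6 → M, a.mulVec w = 0 → w i = 0 →
      (a.updateRow j (Pi.single i 1)).mulVec w = 0 := by
    intro w hw hi
    funext k
    by_cases hk : k = j
    · subst hk
      simp [Matrix.mulVec, Matrix.updateRow_self, hi]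
    · have h1 := congrFun hw k
      simpa [Matrix.mulVec, Matrix.updateRow_ne hk] using h1
  by_cases hri : r i = 0
  · refine ⟨r, ?_, key r hr hri⟩
    intro h0
    have h1 := hrs' 1 0 (by rw [h0]; simp)
    exact one_ne_zero h1.1
  · refine ⟨(s i) • r - (r i) • s, ?_, key _ ?_ ?_⟩
    · intro h0
      have h1 := hrs' (s i) (-(r i)) (by rw [neg_smul, ← sub_eq_add_neg]; exact h0)
      exact hri (neg_eq_zero.1 h1.2)
    · rw [Matrix.mulVec_sub, Matrix.mulVec_smul, Matrix.mulVec_smul, hr, hs]
      simp
    · simp only [Pi.sub_apply, Pi.smul_apply, smul_eq_mul]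
      ring

/-- Conversely, if the adjugate is zero then the kernel has dimension at least two. (If the rank is
at least five then some five rows are linearly independent, and replacing the remaining row `i` by a
suitable unit vector `e_j` gives a basis, so the entry `j`, `i` of the adjugate is not zero.) -/
theorem ker_of_adjugate {M : Type} [Field M] (a : Matrix (Fin 6) (Fin 6) M)
    (h : a.adjugate = 0) :
    ∃ r s : Fin 6 → M, LinearIndependent M ![r, s] ∧ a.mulVec r = 0 ∧ a.mulVec s = 0 := by
  have hdet : a.det = 0 := by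
    have h1 := Matrix.mul_adjugate a
    rw [h, Matrix.mul_zero] at h1
    have h2 := congrFun (congrFun h1 0) 0
    simpa using h2.symm
  obtain ⟨r, hr0, hr⟩ := Matrix.exists_mulVec_eq_zero_iff.2 hdet
  obtain ⟨l, hl0, hl⟩ := Matrix.exists_vecMul_eq_zero_iff.2 hdet
  obtain ⟨i, hi⟩ := Function.ne_iff.1 hr0
  obtain ⟨j, hj⟩ := Function.ne_iff.1 hl0
  have hb : (a.updateRow j (a j + Pi.single i 1)).det = 0 := by
    rw [Matrix.det_updateRow_add, Matrix.updateRow_eq_self, hdet, ← Matrix.adjugate_apply, h]
    simp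
  obtain ⟨w, hw0, hw⟩ := Matrix.exists_mulVec_eq_zero_iff.2 hb
  have hk : ∀ k, k ≠ j → (a.mulVec w) k = 0 := by
    intro k hk
    have h1 := congrFun hw k
    simpa [Matrix.mulVec, Matrix.updateRow_ne hk] using h1
  have hjj : (a.mulVec w) j + w i = 0 := by
    have h1 : dotProduct ((a.updateRow j (a j + Pi.single i 1)) j) w = 0 := congrFun hw j
    rw [Matrix.updateRow_self, add_dotProduct, single_dotProduct, one_mul] at h1
    exact h1
  have hlw : dotProduct l (a.mulVec w) = 0 := by
    rw [Matrix.dotProduct_mulVec, hl, zero_dotProduct]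
  have hj0 : (a.mulVec w) j = 0 := by
    rw [dotProduct, Finset.sum_eq_single j (fun k _ hkj => by rw [hk k hkj, mul_zero])
      (fun hn => absurd (Finset.mem_univ j) hn)] at hlw
    exact (mul_eq_zero.1 hlw).resolve_left hj
  have hwi : w i = 0 := by rw [hj0, zero_add] at hjj; exact hjj
  have haw : a.mulVec w = 0 := by
    funext k
    by_cases hkj : k = j
    · rw [hkj, hj0]; rfl
    · rw [hk k hkj]; rfl
  refine ⟨r, w, ?_, hr, haw⟩
  rw [LinearIndependent.pair_iff]
  intro s t hst
  have h1 := congrFun hst i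
  simp only [Pi.add_apply, Pi.smul_apply, smul_eq_mul, hwi, mul_zero, add_zero,
    Pi.zero_apply] at h1
  have hs : s = 0 := (mul_eq_zero.1 h1).resolve_right hi
  rw [hs, zero_smul, zero_add] at hst
  exact ⟨hs, (smul_eq_zero.1 hst).resolve_right hw0⟩

/-- the entries of the adjugate are homogeneous polynomials of degree five -/
theorem exists_adj (i j : Fin 6) : ∃ g : MvPolynomial (Fin 6 × Fin 6) K, g.IsHomogeneous 5 ∧
    ∀ (M : Type) [Field M] [Algebra K M] (a : Matrix (Fin 6) (Fin 6) M),
      MvPolynomial.aeval (fun p : Fin 6 × Fin 6 => a p.1 p.2) g = a.adjugate i j := by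
  let X : Matrix (Fin 6) (Fin 6) (MvPolynomial (Fin 6 × Fin 6) K) :=
    Matrix.of fun k l => MvPolynomial.X (k, l)
  refine ⟨X.adjugate i j, ?_, ?_⟩
  · rw [Matrix.adjugate_fin_succ_eq_det_submatrix, Matrix.det_apply, Finset.mul_sum]
    refine MvPolynomial.IsHomogeneous.sum _ _ _ fun σ _ => ?_
    have h1 : (∏ k : Fin 5, (X.submatrix j.succAbove i.succAbove) (σ k) k).IsHomogeneous 5 := by
      have h2 := MvPolynomial.IsHomogeneous.prod (Finset.univ : Finset (Fin 5))
        (fun k : Fin 5 => (X.submatrix j.succAbove i.succAbove) (σ k) k) (fun _ => 1)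
        (fun k _ => MvPolynomial.isHomogeneous_X _ _)
      simpa using h2
    have h3 : ((-1 : MvPolynomial (Fin 6 × Fin 6) K) ^ ((j : ℕ) + i)) *
        (Equiv.Perm.sign σ • ∏ k : Fin 5, (X.submatrix j.succAbove i.succAbove) (σ k) k) =
        MvPolynomial.C ((-1 : K) ^ ((j : ℕ) + i) * ((Equiv.Perm.sign σ : ℤ) : K)) *
          ∏ k : Fin 5, (X.submatrix j.succAbove i.succAbove) (σ k) k := by
      rw [map_mul, map_pow, map_neg, map_one, map_intCast, Units.smul_def, zsmul_eq_mul, mul_assoc]
    rw [h3]
    exact h1.C_mul _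
  · intro M _ _ a
    have h1 : (MvPolynomial.aeval (fun p : Fin 6 × Fin 6 => a p.1 p.2)) (X.adjugate i j)
        = ((MvPolynomial.aeval (R := K) (fun p : Fin 6 × Fin 6 => a p.1 p.2)).mapMatrix
          X.adjugate) i j := rfl
    rw [h1, AlgHom.map_adjugate]
    congr 2
    ext k l
    simp [X]

end Pool.Agent.CUB
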