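import Pool.Agent.CUB.Cone
import Pool.Agent.CUB.DetA
import Pool.Agent.CUB.DetB

/-!
# Symmetric matrices of rank at most four
-/

set_option autoImplicit false

noncomputable section

namespace Pool.Agent.CUB

open scoped Classical

variable {K : Type} [Field K]

/-- a vector of entries as a matrix -/
private def dzM : (Fin 6 × Fin 6 → K) →ₗ[K] Matrix (Fin 6) (Fin 6) K where
  toFun x := Matrix.of fun i j => x (i, j)
  map_add' _ _ := rfl
  map_smul' _ _ := rfl

/-- a linear form as a polynomial -/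
private def dzP (l : (Fin 6 × Fin 6 → K) →ₗ[K] K) : MvPolynomial (Fin 6 × Fin 6) K :=
  ∑ p, MvPolynomial.C (l (Pi.single p 1)) * MvPolynomial.X p

private lemma dzP_hom (l : (Fin 6 × Fin 6 → K) →ₗ[K] K) : (dzP l).IsHomogeneous 1 := by
  refine MvPolynomial.IsHomogeneous.sum _ _ _ fun p _ => ?_
  have h := (MvPolynomial.isHomogeneous_C (Fin 6 × Fin 6) (l (Pi.single p 1))).mul
    (MvPolynomial.isHomogeneous_X K p)
  rwa [zero_add] at h

private lemma dzP_eval (l : (Fin 6 × Fin 6 → K) →ₗ[K] K) (x : Fin 6 × Fin 6 → K) :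
    MvPolynomial.eval x (dzP l) = l x := by
  rw [dzP, map_sum]
  conv_rhs => rw [← Finset.univ_sum_single x, map_sum]
  refine Finset.sum_congr rfl fun p _ => ?_
  rw [map_mul, MvPolynomial.eval_C, MvPolynomial.eval_X]
  have h : (Pi.single p (x p) : Fin 6 × Fin 6 → K) = x p • Pi.single p 1 := by
    rw [← Pi.single_smul, smul_eq_mul, mul_one]
  rw [h, map_smul, smul_eq_mul, mul_comm]

/-- the symmetric matrices -/
private def dzS (K : Type) [Field K] : Submodule K (Matrix (Fin 6) (Fin 6) K) where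
  carrier := {b | b.IsSymm}
  zero_mem' := Matrix.isSymm_zero
  add_mem' ha hb := ha.add hb
  smul_mem' c _ hb := hb.smul c

private lemma dzS_finrank : Module.finrank K (dzS K) ≤ 21 := by
  let f : dzS K →ₗ[K] ({p : Fin 6 × Fin 6 // p.1 ≤ p.2} → K) :=
    { toFun := fun b p => b.1 p.1.1 p.1.2
      map_add' := fun _ _ => rfl
      map_smul' := fun _ _ => rfl }
  have hf : Function.Injective f := by
    intro b c h
    apply Subtype.ext
    have hb : ∀ i j, b.1 j i = b.1 i j := fun i j => Matrix.IsSymm.apply b.2 i j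
    have hc : ∀ i j, c.1 j i = c.1 i j := fun i j => Matrix.IsSymm.apply c.2 i j
    ext i j
    rcases le_total i j with hij | hij
    · exact congrFun h ⟨(i, j), hij⟩
    · rw [hb j i, hc j i]
      exact congrFun h ⟨(j, i), hij⟩
  have h := LinearMap.finrank_le_finrank_of_injective hf
  rw [Module.finrank_fintype_fun_eq_card] at h
  have hcard : Fintype.card {p : Fin 6 × Fin 6 // p.1 ≤ p.2} = 21 := by
    rw [Fintype.card_subtype]
    decide
  omega

/-- few linear forms cut the range of `A` out of the symmetric matrices -/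
private lemma dz_forms (A : (Fin 6 → K) →ₗ[K] Matrix (Fin 6) (Fin 6) K)
    (hA : ∀ x, (A x).IsSymm) (hinj : Function.Injective A) :
    ∃ (q : ℕ) (φ : Fin q → (Fin 6 × Fin 6 → K) →ₗ[K] K), q ≤ 15 ∧
      ∀ x : Fin 6 × Fin 6 → K, (dzM x).IsSymm → (∀ j, φ j x = 0) → ∃ y, A y = dzM x := by
  set R : Submodule K (dzS K) := (LinearMap.range A).comap (dzS K).subtype with hR
  have hRr : Module.finrank K R = 6 := by
    let A' : (Fin 6 → K) →ₗ[K] dzS K := A.codRestrict (dzS K) hA
    have hA' : Function.Injective A' := fun x y h => hinj (congrArg Subtype.val h)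
    have h1 : R = LinearMap.range A' := by
      ext b
      rw [hR, Submodule.mem_comap, LinearMap.mem_range, LinearMap.mem_range]
      constructor
      · rintro ⟨y, hy⟩
        exact ⟨y, Subtype.ext hy⟩
      · rintro ⟨y, hy⟩
        exact ⟨y, congrArg Subtype.val hy⟩
    rw [h1, LinearMap.finrank_range_of_inj hA', Module.finrank_fin_fun]
  have hq : Module.finrank K (dzS K ⧸ R) ≤ 15 := by
    have h1 := Submodule.finrank_quotient_add_finrank R
    have h2 := dzS_finrank (K := K)
    omega
  obtain ⟨π, hπ⟩ := LinearMap.exists_leftInverse_of_injective (dzS K).subtype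
    (LinearMap.ker_eq_bot.2 (dzS K).injective_subtype)
  let e : (dzS K ⧸ R) ≃ₗ[K] (Fin (Module.finrank K (dzS K ⧸ R)) → K) :=
    LinearEquiv.ofFinrankEq _ _ (by rw [Module.finrank_fin_fun])
  refine ⟨_, fun j => (LinearMap.proj j).comp (e.toLinearMap.comp (R.mkQ.comp (π.comp dzM))), hq,
    fun x hx h => ?_⟩
  have h1 : e (R.mkQ (π (dzM x))) = 0 := funext fun j => h j
  have h2 : R.mkQ (π (dzM x)) = 0 := by
    rw [← e.map_zero] at h1
    exact e.injective h1
  have h3 : π (dzM x) ∈ R := by
    rwa [Submodule.mkQ_apply, Submodule.Quotient.mk_eq_zero] at h2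
  have h4 : π (dzM x) = ⟨dzM x, hx⟩ := LinearMap.congr_fun hπ (⟨dzM x, hx⟩ : dzS K)
  rw [h4, hR, Submodule.mem_comap, LinearMap.mem_range] at h3
  exact h3

/-- A linear system of dimension six of symmetric `6 × 6` matrices, and two homogeneous equations:
there is a matrix of rank at most four which satisfies them.

Proof. `cone_zero` for `ι = Fin 6 × Fin 6`, the generic matrix `a` of `exists_generic`, and the
following `17` polynomials: `15` linear forms `φ` in the entries such that a symmetric matrix is in the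
range of `A` if all `φ` vanish (the symmetric matrices have dimension `21`, the range of `A` has
dimension `6`), and `g₁ ∘ L`, `g₂ ∘ L`, where `L` is a linear map from the matrices to `K ^ 6` with
`L (A x) = x`. The result is a matrix `b ≠ 0`, which is symmetric (`X_ij - X_ji` vanishes at `a`), whose
adjugate is zero (`adjugate_zero`, `exists_adj`), and which is in the range of `A`, `b = A x`. -/
theorem det_zero [IsAlgClosed K] (A : (Fin 6 → K) →ₗ[K] Matrix (Fin 6) (Fin 6) K)
    (hA : ∀ x, (A x).IsSymm) (hinj : Function.Injective A) {g₁ g₂ : MvPolynomial (Fin 6) K}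
    {d₁ d₂ : ℕ} (hd₁ : 0 < d₁) (hd₂ : 0 < d₂) (hg₁ : g₁.IsHomogeneous d₁)
    (hg₂ : g₂.IsHomogeneous d₂) :
    ∃ x : Fin 6 → K, x ≠ 0 ∧ MvPolynomial.eval x g₁ = 0 ∧ MvPolynomial.eval x g₂ = 0 ∧
      ∃ r s : Fin 6 → K, LinearIndependent K ![r, s] ∧ (A x).mulVec r = 0 ∧
        (A x).mulVec s = 0 := by
  obtain ⟨M, hM1, hM2, a, hsymm, hind, hker⟩ := exists_generic K
  obtain ⟨q, φ, hq, hφ⟩ := dz_forms A hA hinj
  obtain ⟨L, hL⟩ := LinearMap.exists_leftInverse_of_injective A (LinearMap.ker_eq_bot.2 hinj)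
  let lf : Fin 6 → MvPolynomial (Fin 6 × Fin 6) K := fun i =>
    dzP ((LinearMap.proj i).comp (L.comp dzM))
  have hlf : ∀ i, (lf i).IsHomogeneous 1 := fun i => dzP_hom _
  have hev : ∀ (x : Fin 6 × Fin 6 → K) (g : MvPolynomial (Fin 6) K),
      MvPolynomial.eval x (MvPolynomial.bind₁ lf g) = MvPolynomial.eval (L (dzM x)) g := by
    intro x g
    have h := MvPolynomial.aeval_bind₁ (R := K) x lf g
    rw [MvPolynomial.aeval_eq_eval, MvPolynomial.aeval_eq_eval] at h
    have h2 : (fun i => (MvPolynomial.eval x : MvPolynomial (Fin 6 × Fin 6) K →+* K) (lf i)) =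
        L (dzM x) := by
      funext i
      exact dzP_eval _ x
    have h3 : MvPolynomial.eval x (MvPolynomial.bind₁ lf g) =
        MvPolynomial.eval (fun i => MvPolynomial.eval x (lf i)) g := h
    rw [h3, h2]
  obtain ⟨x, hx0, hx1, hx2⟩ := cone_zero (K := K) (fun p : Fin 6 × Fin 6 => a p.1 p.2)
    (fun p : {p : Fin 6 × Fin 6 // p.1 ≤ p.2 ∧ p.1 < 4} => p.1) hind
    (κ := Fin q ⊕ (Unit ⊕ Unit))
    (Sum.elim (fun j => dzP (φ j)) (Sum.elim (fun _ => MvPolynomial.bind₁ lf g₁)
      (fun _ => MvPolynomial.bind₁ lf g₂)))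
    (by
      rintro (j | j | j)
      · exact ⟨1, one_pos, dzP_hom _⟩
      · refine ⟨d₁, hd₁, ?_⟩
        have h := hg₁.aeval lf hlf
        rwa [one_mul] at h
      · refine ⟨d₂, hd₂, ?_⟩
        have h := hg₂.aeval lf hlf
        rwa [one_mul] at h)
    (by
      have h1 : Fintype.card (Fin q ⊕ (Unit ⊕ Unit)) = q + 2 := by
        simp
      have h2 : Fintype.card {p : Fin 6 × Fin 6 // p.1 ≤ p.2 ∧ p.1 < 4} = 18 := by
        rw [Fintype.card_subtype]
        decide
      omega)
  -- the matrix is symmetric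
  have hbs : (dzM x).IsSymm := by
    refine Matrix.IsSymm.ext fun i j => ?_
    have h := hx2 (MvPolynomial.X (j, i) - MvPolynomial.X (i, j)) 1
      ((MvPolynomial.isHomogeneous_X K _).sub (MvPolynomial.isHomogeneous_X K _)) (by
        rw [map_sub, MvPolynomial.aeval_X, MvPolynomial.aeval_X, sub_eq_zero]
        exact hsymm.apply i j)
    rw [map_sub, MvPolynomial.eval_X, MvPolynomial.eval_X, sub_eq_zero] at h
    exact h
  have hadj : (dzM x).adjugate = 0 := by
    ext i j
    obtain ⟨g, hg, hga⟩ := exists_adj (K := K) i j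
    have h := hx2 g 5 hg (by rw [hga M a, adjugate_zero a hker]; rfl)
    have h2 := hga K (dzM x)
    rw [MvPolynomial.aeval_eq_eval] at h2
    rw [← h2]
    exact h
  obtain ⟨y, hy⟩ := hφ x hbs fun j => by
    have h := hx1 (Sum.inl j)
    rwa [Sum.elim_inl, dzP_eval] at h
  have hLy : L (dzM x) = y := by
    rw [← hy]
    exact LinearMap.congr_fun hL y
  refine ⟨y, ?_, ?_, ?_, ?_⟩
  · rintro rfl
    apply hx0
    rw [map_zero] at hy
    funext p
    have h : dzM x p.1 p.2 = 0 := by
      rw [← hy]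
      rfl
    exact h
  · have h := hx1 (Sum.inr (Sum.inl ()))
    rw [Sum.elim_inr, Sum.elim_inl, hev, hLy] at h
    exact h
  · have h := hx1 (Sum.inr (Sum.inr ()))
    rw [Sum.elim_inr, Sum.elim_inr, hev, hLy] at h
    exact h
  · rw [hy]
    exact ker_of_adjugate _ hadj

end Pool.Agent.CUB
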