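import Pool.Agent.CUB.TriA
import Pool.Agent.VFP.Util

/-!
# Limits of subspaces
-/

set_option autoImplicit false

noncomputable section

namespace Pool.Agent.CUB

open Pool.Agent.ZCyc Pool.Agent.Dess Pool.Agent.GT
open Pool.Agent.VFP (Om tt)
open scoped Classical

variable {k : Type} [Field k]

/-- the limit of a subspace at a place: the values of its vectors -/
def limW {K : Type} [Field K] [Algebra k K] {ι : Type} (v : Place k K)
    (V : Submodule K (ι → K)) : Submodule k (ι → k) where
  carrier := {b | ∃ a ∈ V, ∀ i, v.At (a i) (b i)}
  add_mem' := by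
    rintro b b' ⟨a, ha, h⟩ ⟨a', ha', h'⟩
    exact ⟨a + a', V.add_mem ha ha', fun i => (h i).add (h' i)⟩
  zero_mem' := ⟨0, V.zero_mem, fun _ => by simpa using Place.at_const (v := v) (0 : k)⟩
  smul_mem' := by
    rintro c b ⟨a, ha, h⟩
    refine ⟨algebraMap k K c • a, V.smul_mem _ ha, fun i => ?_⟩
    exact (Place.at_const (v := v) c).mul (h i)

theorem mem_limW {K : Type} [Field K] [Algebra k K] {ι : Type} {v : Place k K}
    {V : Submodule K (ι → K)} {b : ι → k} : b ∈ limW v V ↔ ∃ a ∈ V, ∀ i, v.At (a i) (b i) :=
  Iff.rfl

private theorem limW_le {K : Type} [Field K] [Algebra k K] [HasRes k K] {n : ℕ} (v : Place k K)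
    (V : Submodule K (Fin n → K)) : Module.finrank k (limW v V) ≤ Module.finrank K V := by
  let B := Module.finBasis k (limW v V)
  have hB : ∀ j, ∃ a ∈ V, ∀ i, v.At (a i) ((B j : Fin n → k) i) := fun j => mem_limW.1 (B j).2
  choose a haV ha using hB
  have hli : LinearIndependent K (fun j => (⟨a j, haV j⟩ : V)) := by
    rw [Fintype.linearIndependent_iff]
    intro c hc
    by_contra hne
    push Not at hne
    obtain ⟨j₀, hj₀⟩ := hne
    have hc0 : c ≠ 0 := fun h => hj₀ (by rw [h]; rfl)
    obtain ⟨l, y, hl, hy, hly⟩ := exists_scale v c hc0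
    have hsum : ∀ i, ∑ j, l * c j * a j i = 0 := by
      intro i
      have h1 := congrArg (fun x : V => (x : Fin n → K) i) hc
      simp only [Submodule.coe_sum, Submodule.coe_smul, Finset.sum_apply, Pi.smul_apply,
        smul_eq_mul, Submodule.coe_zero, Pi.zero_apply] at h1
      calc ∑ j, l * c j * a j i = l * ∑ j, c j * a j i := by
            rw [Finset.mul_sum]
            exact Finset.sum_congr rfl fun j _ => by ring
        _ = 0 := by rw [h1, mul_zero]
    have hval : ∀ i, ∑ j, y j * (B j : Fin n → k) i = 0 := by
      intro i
      have h1 : v.At (∑ j, l * c j * a j i) (∑ j, y j * (B j : Fin n → k) i) :=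
        Place.At.sum fun j _ => (hly j).mul (ha j i)
      rw [hsum i] at h1
      have h2 := Place.at_const (v := v) (0 : k)
      rw [map_zero] at h2
      exact Place.At.unique h1 h2
    have hB2 : ∑ j, y j • B j = 0 := by
      apply Subtype.ext
      funext i
      simp only [Submodule.coe_sum, Submodule.coe_smul, Finset.sum_apply, Pi.smul_apply,
        smul_eq_mul, Submodule.coe_zero, Pi.zero_apply]
      exact hval i
    have h3 := Fintype.linearIndependent_iff.1 B.linearIndependent y hB2
    exact hy (funext h3)
  have := hli.fintype_card_le_finrank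
  simpa using this

private theorem limW_ge {K : Type} [Field K] [Algebra k K] [HasRes k K] {n : ℕ} (v : Place k K)
    (d : ℕ) : ∀ V : Submodule K (Fin n → K), Module.finrank K V = d →
      d ≤ Module.finrank k (limW v V) := by
  induction d with
  | zero => intro V _; exact Nat.zero_le _
  | succ d ih =>
    intro V hV
    have hVb : V ≠ ⊥ := by
      rintro rfl
      simp at hV
    obtain ⟨a₀, ha₀V, ha₀⟩ := (Submodule.ne_bot_iff V).1 hVb
    obtain ⟨l, b, hl, hb, hlb⟩ := exists_scale v a₀ ha₀
    obtain ⟨i, hi⟩ : ∃ i, b i ≠ 0 := by
      by_contra h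
      push Not at h
      exact hb (funext h)
    set a : Fin n → K := l • a₀ with hadef
    have haV : a ∈ V := V.smul_mem _ ha₀V
    have hab : ∀ j, v.At (a j) (b j) := fun j => hlb j
    have h00 := Place.at_const (v := v) (0 : k)
    rw [map_zero] at h00
    have hai : a i ≠ 0 := by
      intro h
      have h1 := hab i
      rw [h] at h1
      exact hi (Place.At.unique h1 h00)
    set V' : Submodule K (Fin n → K) := V ⊓ LinearMap.ker (LinearMap.proj i : (Fin n → K) →ₗ[K] K)
      with hV'
    have hmem' : ∀ x, x ∈ V' ↔ x ∈ V ∧ x i = 0 := by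
      intro x
      simp [hV', Submodule.mem_inf]
    have hle : V ≤ V' ⊔ Submodule.span K {a} := by
      intro x hx
      rw [Submodule.mem_sup]
      refine ⟨x - (x i / a i) • a, (hmem' _).2 ⟨V.sub_mem hx (V.smul_mem _ haV), ?_⟩,
        (x i / a i) • a, Submodule.smul_mem _ _ (Submodule.mem_span_singleton_self a), ?_⟩
      · simp only [Pi.sub_apply, Pi.smul_apply, smul_eq_mul]
        field_simp
        ring
      · exact sub_add_cancel _ _
    have h1 : Module.finrank K V ≤ Module.finrank K V' + 1 := by
      calc Module.finrank K V ≤ Module.finrank K ↥(V' ⊔ Submodule.span K {a}) :=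
            Submodule.finrank_mono hle
        _ ≤ Module.finrank K V' + Module.finrank K (Submodule.span K {a}) :=
            Submodule.finrank_add_le_finrank_add_finrank _ _
        _ ≤ Module.finrank K V' + 1 := by
            have := finrank_span_le_card (R := K) ({a} : Set (Fin n → K))
            simp at this
            omega
    have h2 : Module.finrank K V' < Module.finrank K V := by
      apply Submodule.finrank_lt_finrank_of_lt
      refine lt_of_le_of_ne inf_le_left ?_
      intro h
      have : a ∈ V' := h ▸ haV
      exact hai ((hmem' a).1 this).2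
    have h3 : Module.finrank K V' = d := by omega
    have h4 := ih V' h3
    have h5 : Module.finrank k (limW v V') < Module.finrank k (limW v V) := by
      apply Submodule.finrank_lt_finrank_of_lt
      refine lt_of_le_of_ne ?_ ?_
      · rintro x ⟨y, hy, hxy⟩
        exact ⟨y, ((hmem' y).1 hy).1, hxy⟩
      · intro h
        have hbW : b ∈ limW v V := ⟨a, haV, hab⟩
        rw [← h] at hbW
        obtain ⟨y, hy, hyb⟩ := hbW
        have h6 := hyb i
        rw [((hmem' y).1 hy).2] at h6
        exact hi (Place.At.unique h6 h00)
    omega

/-- The limit has the same dimension. Proof of `≥` by induction on the dimension of `V`: a vector in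
`V` can be scaled such that it has a value `b ≠ 0` (`GT.exists_scale`), say `b i = 1` and `a i = 1`; the
subspace `V' = {x ∈ V : x i = 0}` has one dimension less, its limit is in `{x i = 0}`. Proof of `≤`:
vectors whose values are linearly independent are linearly independent (scale a relation). -/
theorem finrank_limW {K : Type} [Field K] [Algebra k K] [HasRes k K] {n : ℕ} (v : Place k K)
    (V : Submodule K (Fin n → K)) : Module.finrank k (limW v V) = Module.finrank K V :=
  le_antisymm (limW_le v V) (limW_ge v _ V rfl)

end Pool.Agent.CUB
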