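import Pool.Agent.CUB.Pole
import Pool.Agent.CUB.LimW
import Pool.Agent.CUB.Det

/-!
# The generic point of the base curve
-/

set_option autoImplicit false

noncomputable section

namespace Pool.Agent.CUB

open Pool.Agent.ZCyc Pool.Agent.Dess Pool.Agent.GT
open Pool.Agent.VFP (Om tt)
open scoped Classical

variable {k : Type} [Field k] [IsAlgClosed k] [CharZero k]

/-- `o` is a point of the cubic fourfold with coordinates in `Om k`, which is not constant, and the
kernel of the Hessian matrix at `o` has dimension at least two. -/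
structure Bp (F : MvPolynomial (Fin 6) k) (o : Fin 6 → Om k) : Prop where
  ncst : ¬ Cst o
  on : tri F o o o = 0
  ker : ∃ r s : Fin 6 → Om k, LinearIndependent (Om k) ![r, s] ∧ (∀ z, tri F o r z = 0) ∧
    ∀ z, tri F o s z = 0

/-- the values of the point `o` at the places -/
def Gam (o : Fin 6 → Om k) (z : Fin 6 → k) : Prop :=
  z ≠ 0 ∧ ∃ (v : Place k (Om k)) (c : Om k), ∀ i, v.At (c * o i) (z i)

variable {F : MvPolynomial (Fin 6) k}

/-- smoothness over `Om k`: scale `x` such that it has a value which is not zero -/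
theorem tri_ns_om (hF : Smooth F) {x : Fin 6 → Om k} (h : ∀ z, tri F x x z = 0) : x = 0 := by
  by_contra hx
  obtain ⟨v, -⟩ := exists_place_at (k := k) (x := tt k) (fun c => VFP.tt_ne c) 0
  obtain ⟨l, y, hl, hy, hxy⟩ := exists_scale v x hx
  apply hy
  refine tri_ns hF fun z => ?_
  have h1 := tri_at F (v := v) (x := l • x) (y := l • x) (z := em (Om k) z) (x' := y) (y' := y)
    (z' := z) hxy hxy (fun i => Place.at_const (z i))
  rw [tri_smul1, tri_smul2, h, mul_zero, mul_zero] at h1
  exact Place.At.unique h1 VFP.at_zero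

/-- the Hessian matrix -/
private def base_A (F : MvPolynomial (Fin 6) k) :
    (Fin 6 → Om k) →ₗ[Om k] Matrix (Fin 6) (Fin 6) (Om k) where
  toFun x := Matrix.of fun i j => tri F x (Pi.single i 1) (Pi.single j 1)
  map_add' x y := by
    ext i j
    exact tri_add1 F _ _ _ _
  map_smul' c x := by
    ext i j
    exact tri_smul1 F _ _ _ _

omit [IsAlgClosed k] [CharZero k] in
private theorem base_mulVec (x r : Fin 6 → Om k) (i : Fin 6) :
    (base_A F x).mulVec r i = tri F x (Pi.single i 1) r := by
  rw [tri_sum]
  rfl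

private theorem base_zero {x r : Fin 6 → Om k} (h : (base_A F x).mulVec r = 0)
    (z : Fin 6 → Om k) : tri F x r z = 0 := by
  rw [tri_sum]
  refine Finset.sum_eq_zero fun i _ => ?_
  rw [tri_swap23, ← base_mulVec, h, Pi.zero_apply, zero_mul]

/-- The base point exists: `det_zero` over the field `Om k` for the Hessian matrices
`A x = (tri F x e_i e_j)`, `g₁ = F`, and the linear form `g₂ = ∑ t ^ i X_i`, which has no constant
zero, because `t` is transcendental over `k`. (`A` is injective: if `A x = 0` then `tri F x x z = 0` for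
all `z`.) -/
theorem exists_bp (hF : Smooth F) : ∃ o : Fin 6 → Om k, Bp F o := by
  have hinj : Function.Injective (base_A F) := by
    rw [← LinearMap.ker_eq_bot, LinearMap.ker_eq_bot']
    intro x hx
    refine tri_ns_om hF fun z => base_zero ?_ z
    rw [hx, Matrix.zero_mulVec]
  obtain ⟨x, hx0, hx1, hx2, r, s, hrs, hr, hs⟩ := det_zero (K := Om k) (base_A F)
    (fun x => Matrix.IsSymm.ext fun i j => tri_swap23 F _ _ _) hinj
    (g₁ := MvPolynomial.map (algebraMap k (Om k)) F)
    (g₂ := ∑ i : Fin 6, MvPolynomial.C (tt k ^ (i : ℕ)) * MvPolynomial.X i)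
    (d₁ := 3) (d₂ := 1) (by norm_num) (by norm_num) (hF.hom.map _)
    (MvPolynomial.IsHomogeneous.sum _ _ _ fun i _ => by
      simpa using (MvPolynomial.isHomogeneous_C (Fin 6) (tt k ^ (i : ℕ))).mul
        (MvPolynomial.isHomogeneous_X (Om k) i))
  refine ⟨x, ?_, ?_, r, s, hrs, base_zero hr, base_zero hs⟩
  · rintro ⟨c, a, hc, hca⟩
    have h1 : ∑ i : Fin 6, tt k ^ (i : ℕ) * x i = 0 := by
      simpa using hx2
    have h2 : ∑ i : Fin 6, tt k ^ (i : ℕ) * algebraMap k (Om k) (a i) = 0 := by
      have h3 : ∑ i : Fin 6, tt k ^ (i : ℕ) * algebraMap k (Om k) (a i) =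
          c * ∑ i : Fin 6, tt k ^ (i : ℕ) * x i := by
        rw [Finset.mul_sum]
        refine Finset.sum_congr rfl fun i _ => ?_
        rw [← hca]
        ring
      rw [h3, h1, mul_zero]
    have h4 : Polynomial.aeval (tt k)
        (∑ i : Fin 6, Polynomial.monomial (i : ℕ) (a i)) = 0 := by
      rw [map_sum, ← h2]
      refine Finset.sum_congr rfl fun i _ => ?_
      rw [Polynomial.aeval_monomial, mul_comm]
    have h5 := (transcendental_iff.1 (VFP.tt_transc (k := k))) _ h4
    have h6 : ∀ i, a i = 0 := by
      intro i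
      have h7 := congrArg (fun p => Polynomial.coeff p (i : ℕ)) h5
      simp only [Polynomial.finsetSum_coeff, Polynomial.coeff_monomial,
        Polynomial.coeff_zero] at h7
      rw [Finset.sum_eq_single i] at h7
      · simpa using h7
      · intro j _ hji
        rw [if_neg]
        intro h8
        exact hji (Fin.ext h8)
      · intro h8
        exact absurd (Finset.mem_univ i) h8
    apply hx0
    funext i
    have h9 := hca i
    rw [h6 i, map_zero] at h9
    exact (mul_eq_zero.1 h9).resolve_left hc
  · rw [tri_self hF.hom, ← hx1, MvPolynomial.eval_map]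
    rfl

end Pool.Agent.CUB
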