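import Mathlib

/-!
# Matrices over a valuation ring
-/

set_option autoImplicit false

noncomputable section

namespace Pool.Agent.CUB

open scoped Classical

private theorem one_mem_aux {M ι : Type} [Field M] [DecidableEq ι] (R : ValuationSubring M) (i j : ι) :
    (1 : Matrix ι ι M) i j ∈ R := by
  rw [Matrix.one_apply]
  split_ifs
  · exact R.one_mem
  · exact R.zero_mem

private theorem mul_mem_aux {M ι κ τ : Type} [Field M] [Fintype κ] (R : ValuationSubring M)
    {x : Matrix ι κ M} {y : Matrix κ τ M} (hx : ∀ i j, x i j ∈ R) (hy : ∀ i j, y i j ∈ R)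
    (i : ι) (j : τ) : (x * y) i j ∈ R := by
  rw [Matrix.mul_apply]
  exact sum_mem fun c _ => R.mul_mem _ _ (hx i c) (hy c j)

/-- The statement for an index type. -/
private def CartanProp {M : Type} [Field M] (R : ValuationSubring M) (ι : Type) [Fintype ι]
    [DecidableEq ι] (a : Matrix ι ι M) : Prop :=
  ∃ (u u' w w' : Matrix ι ι M) (d : ι → M), u * w = 1 ∧ u' * w' = 1 ∧
      (∀ i j, u i j ∈ R) ∧ (∀ i j, w i j ∈ R) ∧ (∀ i j, u' i j ∈ R) ∧ (∀ i j, w' i j ∈ R) ∧
      u * a * u' = Matrix.diagonal d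

private theorem fromBlocks_mem {M ι : Type} [Field M] (R : ValuationSubring M)
    {A : Matrix ι ι M} {B : Matrix ι Unit M} {C : Matrix Unit ι M} {D : Matrix Unit Unit M}
    (hA : ∀ i j, A i j ∈ R) (hB : ∀ i j, B i j ∈ R) (hC : ∀ i j, C i j ∈ R)
    (hD : ∀ i j, D i j ∈ R) (i j : ι ⊕ Unit) : Matrix.fromBlocks A B C D i j ∈ R := by
  rcases i with i | i <;> rcases j with j | j
  · exact hA i j
  · exact hB i j
  · exact hC i j
  · exact hD i j

/-- One elimination step. -/
private theorem cartan_step {M ι : Type} [Field M] [Fintype ι] [DecidableEq ι] (R : ValuationSubring M)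
    (ih : ∀ a : Matrix ι ι M, CartanProp R ι a) (b : Matrix (ι ⊕ Unit) (ι ⊕ Unit) M) (p : M)
    (hp : p ≠ 0) (hbp : b (Sum.inr ()) (Sum.inr ()) = p) (hb : ∀ i j, p⁻¹ * b i j ∈ R) :
    CartanProp R (ι ⊕ Unit) b := by
  set A : Matrix ι ι M := b.toBlocks₁₁ with hA
  set B : Matrix ι Unit M := b.toBlocks₁₂ with hB
  set C : Matrix Unit ι M := b.toBlocks₂₁ with hC
  set D : Matrix Unit Unit M := b.toBlocks₂₂ with hD
  have hbb : b = Matrix.fromBlocks A B C D := (Matrix.fromBlocks_toBlocks b).symm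
  have hD1 : D = Matrix.diagonal fun _ => p := by
    ext i j
    rcases i with ⟨⟩
    rcases j with ⟨⟩
    rw [Matrix.diagonal_apply_eq]
    exact hbp
  have hD2 : D = p • (1 : Matrix Unit Unit M) := by
    rw [hD1, Matrix.smul_one_eq_diagonal]
  obtain ⟨u, u', w, w', d, huw, huw', hu, hw, hu', hw', hdiag⟩ := ih (A - B * (p⁻¹ • C))
  have hBp : ∀ i j, (p⁻¹ • B) i j ∈ R := fun i j => hb (Sum.inl i) (Sum.inr j)
  have hCp : ∀ i j, (p⁻¹ • C) i j ∈ R := fun i j => hb (Sum.inr i) (Sum.inl j)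
  have hneg : ∀ {κ τ : Type} {x : Matrix κ τ M}, (∀ i j, x i j ∈ R) → ∀ i j, (-x) i j ∈ R :=
    fun h i j => R.neg_mem _ (h i j)
  have hz : ∀ {κ τ : Type}, ∀ (i : κ) (j : τ), (0 : Matrix κ τ M) i j ∈ R :=
    fun i j => R.zero_mem
  refine ⟨Matrix.fromBlocks u (-(u * (p⁻¹ • B))) 0 1, Matrix.fromBlocks u' 0 (-((p⁻¹ • C) * u')) 1,
    Matrix.fromBlocks w (p⁻¹ • B) 0 1, Matrix.fromBlocks w' 0 (p⁻¹ • C) 1,
    Sum.elim d fun _ => p, ?_, ?_, ?_, ?_, ?_, ?_, ?_⟩
  · rw [Matrix.fromBlocks_multiply, huw, ← Matrix.fromBlocks_one]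
    congr 1 <;> simp
  · rw [Matrix.fromBlocks_multiply, huw', ← Matrix.fromBlocks_one]
    congr 1
    · simp
    · simp
    · rw [Matrix.neg_mul, Matrix.mul_assoc, huw']
      simp
    · simp
  · exact fromBlocks_mem R hu (hneg (mul_mem_aux R hu hBp)) hz (one_mem_aux R)
  · exact fromBlocks_mem R hw hBp hz (one_mem_aux R)
  · exact fromBlocks_mem R hu' hz (hneg (mul_mem_aux R hCp hu')) (one_mem_aux R)
  · exact fromBlocks_mem R hw' hz hCp (one_mem_aux R)
  · rw [hbb, Matrix.fromBlocks_multiply, Matrix.fromBlocks_multiply, hD2]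
    have e1 : u * B + -(u * p⁻¹ • B) * p • (1 : Matrix Unit Unit M) = 0 := by
      rw [Matrix.neg_mul, Matrix.mul_smul, Matrix.mul_one, Matrix.mul_smul, smul_smul,
        mul_inv_cancel₀ hp, one_smul, add_neg_cancel]
    have e2 : u * A + -(u * p⁻¹ • B) * C = u * (A - B * p⁻¹ • C) := by
      rw [Matrix.mul_sub, Matrix.neg_mul, Matrix.mul_smul, Matrix.mul_smul, Matrix.smul_mul,
        Matrix.mul_smul, Matrix.mul_assoc, sub_eq_add_neg]
    rw [e1, e2]
    have e3 : Matrix.diagonal (Sum.elim d fun _ : Unit => p) =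
        Matrix.fromBlocks (Matrix.diagonal d) 0 0 (Matrix.diagonal fun _ => p) :=
      (Matrix.fromBlocks_diagonal _ _).symm
    rw [e3]
    congr 1
    · rw [hdiag]; simp
    · simp
    · rw [Matrix.zero_mul, zero_add, Matrix.one_mul, Matrix.zero_mul, zero_add, Matrix.mul_neg,
        Matrix.smul_mul, Matrix.one_mul, Matrix.smul_mul, Matrix.one_mul, smul_smul,
        mul_inv_cancel₀ hp, one_smul, add_neg_cancel]
    · simp [Matrix.smul_one_eq_diagonal]

private theorem cartan_aux {M : Type} [Field M] (R : ValuationSubring M) : ∀ (n : ℕ)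
    (a : Matrix (Fin n) (Fin n) M), CartanProp R (Fin n) a
  | 0, a => ⟨1, 1, 1, 1, fun _ => 0, Subsingleton.elim _ _, Subsingleton.elim _ _,
      fun i => i.elim0, fun i => i.elim0, fun i => i.elim0, fun i => i.elim0,
      Subsingleton.elim _ _⟩
  | k + 1, a => by
    by_cases ha : a = 0
    · refine ⟨1, 1, 1, 1, fun _ => 0, mul_one _, mul_one _, one_mem_aux R, one_mem_aux R,
        one_mem_aux R, one_mem_aux R, ?_⟩
      rw [ha, mul_zero, zero_mul]
      exact Matrix.diagonal_zero.symm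
    · obtain ⟨x, -, hx⟩ := Finset.exists_max_image (Finset.univ : Finset (Fin (k + 1) × Fin (k + 1)))
        (fun x => R.valuation (a x.1 x.2)) ⟨(0, 0), Finset.mem_univ _⟩
      obtain ⟨i0, j0⟩ := x
      have hp : a i0 j0 ≠ 0 := by
        intro h0
        apply ha
        ext i j
        have h1 := hx (i, j) (Finset.mem_univ _)
        simp only [h0, map_zero] at h1
        exact (map_eq_zero _).1 (le_antisymm h1 zero_le)
      have hmem : ∀ i j, (a i0 j0)⁻¹ * a i j ∈ R := by
        intro i j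
        rw [← R.valuation_le_one_iff, map_mul, map_inv₀]
        have h1 := hx (i, j) (Finset.mem_univ _)
        simp only at h1
        have h2 : R.valuation (a i0 j0) ≠ 0 := (map_ne_zero _).2 hp
        rw [mul_comm, ← div_eq_mul_inv]
        exact div_le_one_of_le₀ h1 zero_le
      have hcard : Fintype.card (Fin (k + 1)) = Fintype.card (Fin k ⊕ Unit) := by simp
      have hex : ∀ i : Fin (k + 1), ∃ e : Fin (k + 1) ≃ Fin k ⊕ Unit, e i = Sum.inr () := by
        intro i
        let e0 := Fintype.equivOfCardEq hcard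
        refine ⟨e0.trans (Equiv.swap (e0 i) (Sum.inr ())), ?_⟩
        rw [Equiv.trans_apply, Equiv.swap_apply_left]
      obtain ⟨e, he⟩ := hex i0
      obtain ⟨e', he'⟩ := hex j0
      obtain ⟨u, u', w, w', d, huw, huw', hu, hw, hu', hw', hdiag⟩ :=
        cartan_step R (cartan_aux R k) (a.submatrix e.symm e'.symm) (a i0 j0) hp
        (by rw [Matrix.submatrix_apply, (Equiv.symm_apply_eq e).2 he.symm,
          (Equiv.symm_apply_eq e').2 he'.symm])
        (fun i j => hmem _ _)
      refine ⟨u.submatrix e e, u'.submatrix e' e, w.submatrix e e, w'.submatrix e e',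
        d ∘ e, ?_, ?_, fun i j => hu _ _, fun i j => hw _ _, fun i j => hu' _ _,
        fun i j => hw' _ _, ?_⟩
      · rw [Matrix.submatrix_mul_equiv, huw, Matrix.submatrix_one_equiv]
      · rw [Matrix.submatrix_mul_equiv, huw', Matrix.submatrix_one_equiv]
      · have h1 : a = (a.submatrix e.symm e'.symm).submatrix e e' := by
          ext i j
          simp
        rw [h1, Matrix.submatrix_mul_equiv, Matrix.submatrix_mul_equiv, hdiag]
        exact Matrix.submatrix_diagonal_equiv d e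

/-- A `3 × 3` matrix over the field is a product of two invertible matrices over the valuation ring and
a diagonal matrix: `u * a * u' = diag d`, `u`, `u'` and their inverses have entries in the ring (pivots
of the largest valuation). -/
theorem cartan {M : Type} [Field M] (R : ValuationSubring M) (a : Matrix (Fin 3) (Fin 3) M) :
    ∃ (u u' w w' : Matrix (Fin 3) (Fin 3) M) (d : Fin 3 → M), u * w = 1 ∧ u' * w' = 1 ∧
      (∀ i j, u i j ∈ R) ∧ (∀ i j, w i j ∈ R) ∧ (∀ i j, u' i j ∈ R) ∧ (∀ i j, w' i j ∈ R) ∧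
      u * a * u' = Matrix.diagonal d :=
  cartan_aux R 3 a

end Pool.Agent.CUB
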