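import Pool.Agent.CUB.TriA
import Pool.Agent.VFP.Util

/-!
# Conjugate functions
-/

set_option autoImplicit false

noncomputable section

namespace Pool.Agent.CUB

open Pool.Agent.ZCyc Pool.Agent.Dess Pool.Agent.GT
open Pool.Agent.VFP (Om tt)
open scoped Classical

variable {k : Type} [Field k] [IsAlgClosed k] [CharZero k]

omit [IsAlgClosed k] [CharZero k] in
private theorem cnj_trdeg : Algebra.trdeg k (Om k) = 1 := by
  have h0 : Algebra.IsAlgebraic (Polynomial k) (RatFunc k) :=
    (IsFractionRing.comap_isAlgebraic_iff (A := Polynomial k) (K := RatFunc k)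
      (C := RatFunc k)).mpr (Algebra.IsAlgebraic.of_finite (RatFunc k) (RatFunc k))
  have h1 : Algebra.IsAlgebraic (Polynomial k) (Om k) :=
    Algebra.IsAlgebraic.trans (Polynomial k) (RatFunc k) (Om k)
  have h2 : FaithfulSMul (Polynomial k) (Om k) := by
    rw [faithfulSMul_iff_algebraMap_injective,
      IsScalarTower.algebraMap_eq (Polynomial k) (RatFunc k) (Om k)]
    exact (algebraMap (RatFunc k) (Om k)).injective.comp
      (IsFractionRing.injective (Polynomial k) (RatFunc k))
  rw [← trdeg_add_eq k (Polynomial k), Polynomial.trdeg_of_isDomain,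
    trdeg_eq_zero, add_zero]

omit [CharZero k] in
private theorem cnj_basis {ρ : Om k} (h : ∀ c : k, ρ ≠ algebraMap k (Om k) c) :
    IsTranscendenceBasis k (fun _ : Unit => ρ) := by
  have ht : Transcendental k ρ := by
    intro ha
    obtain ⟨c, hc⟩ := minpoly.mem_range_of_degree_eq_one k ρ
      (IsAlgClosed.degree_eq_one_of_irreducible k (minpoly.irreducible ha.isIntegral))
    exact h c hc.symm
  have hb : AlgebraicIndependent k (fun _ : Unit => ρ) := by
    rw [algebraicIndependent_unique_type_iff]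
    exact ht
  exact hb.isTranscendenceBasis_of_trdeg_le_of_finite (by rw [cnj_trdeg]; simp)

/-- Two functions which are not constant are conjugate: `Om k` is an algebraic closure of `k(ρ)` and
of `k(ρ')`. -/
theorem exists_aut {ρ ρ' : Om k} (h : ∀ c : k, ρ ≠ algebraMap k (Om k) c)
    (h' : ∀ c : k, ρ' ≠ algebraMap k (Om k) c) : ∃ S : Om k ≃ₐ[k] Om k, S ρ = ρ' := by
  have hs := cnj_basis h
  have ht := cnj_basis h'
  let h01 : IsAlgClosure (Algebra.adjoin k (Set.range fun _ : Unit => ρ)) (Om k) :=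
    IsAlgClosed.isAlgClosure_of_transcendence_basis _ hs
  let h02 : IsAlgClosure (Algebra.adjoin k (Set.range fun _ : Unit => ρ')) (Om k) :=
    IsAlgClosed.isAlgClosure_of_transcendence_basis _ ht
  let e : Algebra.adjoin k (Set.range fun _ : Unit => ρ) ≃+*
      Algebra.adjoin k (Set.range fun _ : Unit => ρ') :=
    hs.1.aevalEquiv.symm.toRingEquiv.trans ht.1.aevalEquiv.toRingEquiv
  have hσ : ∀ p : MvPolynomial Unit k, IsAlgClosure.equivOfEquiv (Om k) (Om k) e
      (MvPolynomial.aeval (fun _ : Unit => ρ) p) = MvPolynomial.aeval (fun _ : Unit => ρ') p := by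
    intro p
    have h4 : e (hs.1.aevalEquiv p) = ht.1.aevalEquiv p := by
      change ht.1.aevalEquiv (hs.1.aevalEquiv.symm (hs.1.aevalEquiv p)) = _
      rw [AlgEquiv.symm_apply_apply]
    rw [← hs.1.algebraMap_aevalEquiv, IsAlgClosure.equivOfEquiv_algebraMap, h4,
      ht.1.algebraMap_aevalEquiv]
  refine ⟨AlgEquiv.ofRingEquiv (f := IsAlgClosure.equivOfEquiv (Om k) (Om k) e) fun a => ?_, ?_⟩
  · have h1 := hσ (MvPolynomial.C a)
    rwa [MvPolynomial.aeval_C, MvPolynomial.aeval_C] at h1
  · have h1 := hσ (MvPolynomial.X ())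
    rwa [MvPolynomial.aeval_X, MvPolynomial.aeval_X] at h1

end Pool.Agent.CUB
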