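import Pool.Agent.CUB.GeoB

/-!
# A place where the third line is in a tangent hyperplane
-/

set_option autoImplicit false

noncomputable section

namespace Pool.Agent.CUB

open Pool.Agent.ZCyc Pool.Agent.Dess Pool.Agent.GT
open Pool.Agent.VFP (Om tt)
open scoped Classical

variable {k : Type} [Field k] [IsAlgClosed k] [CharZero k] {F : MvPolynomial (Fin 6) k}

/-- the vector `∑ η_j e_(j+2)` -/
private def cp {K : Type} [Field K] [Algebra k K] (e : Fin 6 → Fin 6 → k) (η : Fin 4 → K) :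
    Fin 6 → K := fun i => ∑ j : Fin 4, η j * algebraMap k K (e (Fin.natAdd 2 j) i)

private theorem cmb_eq_cp (e : Fin 6 → Fin 6 → k) (η : Fin 4 → k) (i : Fin 6) :
    cmb e 0 0 1 η i = cp e η i := by
  simp [cmb, cp, em]

private theorem at_form {v : Place k (Om k)} {ω κ : Om k} {h x : Fin 6 → Om k}
    {h' x' : Fin 6 → k} (hω : ∀ i, v.At (ω * h i) (h' i)) (hx : ∀ i, v.At (κ * x i) (x' i)) :
    v.At (ω * (κ * ∑ i, h i * x i)) (∑ i, h' i * x' i) := by
  have h1 : ω * (κ * ∑ i, h i * x i) = ∑ i, (ω * h i) * (κ * x i) := by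
    rw [Finset.mul_sum, Finset.mul_sum]
    exact Finset.sum_congr rfl fun i _ => by ring
  rw [h1]
  exact Place.At.sum fun i _ => (hω i).mul (hx i)

private theorem at_em {v : Place k (Om k)} {ω : Om k} {h : Fin 6 → Om k}
    {h' : Fin 6 → k} (hω : ∀ i, v.At (ω * h i) (h' i)) (y : Fin 6 → k) :
    v.At (ω * ∑ i, h i * em (Om k) y i) (∑ i, h' i * y i) := by
  have h1 := at_form (κ := 1) (x := em (Om k) y) (x' := y) hω fun i => by
    rw [one_mul]
    exact Place.at_const (y i)
  rwa [one_mul] at h1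

private theorem at_cp {v : Place k (Om k)} {κ : Om k} {η : Fin 4 → Om k} {η' : Fin 4 → k}
    (hκ : ∀ j, v.At (κ * η j) (η' j)) (e : Fin 6 → Fin 6 → k) (i : Fin 6) :
    v.At (κ * cp e η i) (cp e η' i) := by
  have h1 : κ * cp e η i =
      ∑ j : Fin 4, (κ * η j) * algebraMap k (Om k) (e (Fin.natAdd 2 j) i) := by
    rw [cp, Finset.mul_sum]
    exact Finset.sum_congr rfl fun j _ => by ring
  rw [h1]
  exact Place.At.sum fun j _ => (hκ j).mul (Place.at_const _)

/-- the conclusion at a place where `ω κ d` vanishes -/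
private theorem finish {e : Fin 6 → Fin 6 → k} {h : Fin 6 → Om k} {η : Fin 4 → Om k}
    {a b c μ d : Om k} (hμ : μ ≠ 0) (ha : a = μ * ∑ i, h i * em (Om k) (e 0) i)
    (hb : b = μ * ∑ i, h i * em (Om k) (e 1) i) (hcc : c = μ * (d + ∑ i, h i * cp e η i))
    {v : Place k (Om k)} {κ ω : Om k} {η' : Fin 4 → k} {h' : Fin 6 → k} (hω0 : ω ≠ 0)
    (hη' : η' ≠ 0) (hh' : h' ≠ 0) (hκ : ∀ j, v.At (κ * η j) (η' j))
    (hω : ∀ i, v.At (ω * h i) (h' i)) (hd : v.At (ω * (κ * d)) 0) :
    ∃ (v : Place k (Om k)) (κ ω m : Om k) (η' : Fin 4 → k) (h' : Fin 6 → k), η' ≠ 0 ∧ h' ≠ 0 ∧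
      (∀ j, v.At (κ * η j) (η' j)) ∧ (∀ i, v.At (ω * h i) (h' i)) ∧ m ≠ 0 ∧
      v.At (m * a) (∑ i, h' i * e 0 i) ∧ v.At (m * b) (∑ i, h' i * e 1 i) ∧
      v.At (m * (κ * c)) (∑ i, h' i * cmb e 0 0 1 η' i) := by
  refine ⟨v, κ, ω, ω / μ, η', h', hη', hh', hκ, hω, div_ne_zero hω0 hμ, ?_, ?_, ?_⟩
  · have h1 : ω / μ * a = ω * ∑ i, h i * em (Om k) (e 0) i := by
      rw [ha, ← mul_assoc, div_mul_cancel₀ ω hμ]
    rw [h1]
    exact at_em hω (e 0)
  · have h1 : ω / μ * b = ω * ∑ i, h i * em (Om k) (e 1) i := by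
      rw [hb, ← mul_assoc, div_mul_cancel₀ ω hμ]
    rw [h1]
    exact at_em hω (e 1)
  · have h1 : ω / μ * (κ * c) = ω * (κ * d) + ω * (κ * ∑ i, h i * cp e η i) := by
      rw [hcc]
      field_simp
    have h2 : ∑ i, h' i * cmb e 0 0 1 η' i = 0 + ∑ i, h' i * cp e η' i := by
      rw [zero_add]
      exact Finset.sum_congr rfl fun i _ => by rw [cmb_eq_cp]
    rw [h1, h2]
    exact hd.add (at_form hω fun i => at_cp hκ e i)

/-- The linear form `h` (a hyperplane over `Om k`) and the linear form `a s + b t + c r` on the plane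
have proportional restrictions to the line `r = 0`, `h ≠ 0` there (over `Om k`), and not both `h` and
`η` are constant. Then there is a place where the limit of the line `a s + b t + c r = 0` is in the
limit of the hyperplane `h`.

Proof. Scale such that `a = h(e₀)`, `b = h(e₁)`, and let `d = c - h(p)`. If `d = 0` every place does.
Otherwise the vector with the `24` coordinates `h_i η_j / d` is not constant (else `h` and `η` are
constant up to a factor), use `pole`: at this place `ω h → h' ≠ 0`, `κ η → η' ≠ 0` (`exists_scale`) and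
`ω κ d → 0` (compare the scalings with `GT.scale_unique`: `h_i η_j` scaled by `ω κ` has the value
`h'_i η'_j`, not all zero, and scaled by `l / d`, `l → 0`, it has a value which is not zero). So
`ω a → h'(e₀)`, `ω b → h'(e₁)`, `ω κ c → h'(p')`. -/
theorem good_place {e : Fin 6 → Fin 6 → k} {h : Fin 6 → Om k} {η : Fin 4 → Om k} (hη : η ≠ 0)
    {a b c : Om k} (hab : a ≠ 0 ∨ b ≠ 0)
    (hp : a * ∑ i, h i * em (Om k) (e 1) i = b * ∑ i, h i * em (Om k) (e 0) i)
    (hh : ∑ i, h i * em (Om k) (e 0) i ≠ 0 ∨ ∑ i, h i * em (Om k) (e 1) i ≠ 0)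
    (hc : ¬ (Cst h ∧ Cst η)) :
    ∃ (v : Place k (Om k)) (κ ω m : Om k) (η' : Fin 4 → k) (h' : Fin 6 → k), η' ≠ 0 ∧ h' ≠ 0 ∧
      (∀ j, v.At (κ * η j) (η' j)) ∧ (∀ i, v.At (ω * h i) (h' i)) ∧ m ≠ 0 ∧
      v.At (m * a) (∑ i, h' i * e 0 i) ∧ v.At (m * b) (∑ i, h' i * e 1 i) ∧
      v.At (m * (κ * c)) (∑ i, h' i * cmb e 0 0 1 η' i) := by
  have hh0 : h ≠ 0 := by
    rintro rfl
    simp at hh
  -- the scaling
  obtain ⟨μ, hμ, ha, hb⟩ : ∃ μ : Om k, μ ≠ 0 ∧ a = μ * ∑ i, h i * em (Om k) (e 0) i ∧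
      b = μ * ∑ i, h i * em (Om k) (e 1) i := by
    generalize ∑ i, h i * em (Om k) (e 0) i = h0 at *
    generalize ∑ i, h i * em (Om k) (e 1) i = h1 at *
    by_cases h00 : h0 = 0
    · subst h00
      have h10 : h1 ≠ 0 := by
        rcases hh with hh | hh
        · exact absurd rfl hh
        · exact hh
      have ha0 : a = 0 := by
        rw [mul_zero] at hp
        exact (mul_eq_zero.1 hp).resolve_right h10
      have hb0 : b ≠ 0 := by
        rcases hab with h' | h'
        · exact absurd ha0 h'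
        · exact h'
      exact ⟨b / h1, div_ne_zero hb0 h10, by rw [mul_zero]; exact ha0,
        (div_mul_cancel₀ b h10).symm⟩
    · have hb1 : b = a / h0 * h1 := by
        field_simp
        exact hp.symm
      have ha0 : a ≠ 0 := by
        rintro rfl
        rw [zero_div, zero_mul] at hb1
        rcases hab with h' | h'
        · exact h' rfl
        · exact h' hb1
      exact ⟨a / h0, div_ne_zero ha0 h00, (div_mul_cancel₀ a h00).symm, hb1⟩
  obtain ⟨d, hcc⟩ : ∃ d : Om k, c = μ * (d + ∑ i, h i * cp e η i) :=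
    ⟨c / μ - ∑ i, h i * cp e η i, by rw [sub_add_cancel, mul_div_cancel₀ c hμ]⟩
  by_cases hd : d = 0
  · -- every place does
    obtain ⟨v⟩ : Nonempty (Place k (Om k)) := by
      by_contra hcon
      rw [not_nonempty_iff] at hcon
      apply hc
      constructor
      · by_contra h1
        obtain ⟨v, -⟩ := pole (x := h) fun ⟨a, ha⟩ =>
          h1 ⟨1, a, one_ne_zero, fun i => by rw [one_mul]; exact ha i⟩
        exact hcon.false v
      · by_contra h1
        obtain ⟨v, -⟩ := pole (x := η) fun ⟨a, ha⟩ =>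
          h1 ⟨1, a, one_ne_zero, fun i => by rw [one_mul]; exact ha i⟩
        exact hcon.false v
    obtain ⟨ω, h', hω0, hh', hω⟩ := exists_scale v h hh0
    obtain ⟨κ, η', hκ0, hη', hκ⟩ := exists_scale v η hη
    refine finish hμ ha hb hcc hω0 hη' hh' hκ hω ?_
    rw [hd, mul_zero, mul_zero]
    have h1 := Place.at_const (v := v) (0 : k)
    rwa [map_zero] at h1
  · obtain ⟨i₀, hi₀⟩ : ∃ i, h i ≠ 0 := by
      by_contra hcon
      push Not at hcon
      exact hh0 (funext hcon)
    obtain ⟨j₀, hj₀⟩ : ∃ j, η j ≠ 0 := by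
      by_contra hcon
      push Not at hcon
      exact hη (funext hcon)
    obtain ⟨v, l, Y, hl0, hl, hY, hlY⟩ := pole (x := fun q : Fin 6 × Fin 4 => h q.1 * η q.2 / d)
      (by
        rintro ⟨A, hA⟩
        apply hc
        refine ⟨⟨η j₀ / d, fun i => A (i, j₀), div_ne_zero hj₀ hd, fun i => ?_⟩,
          ⟨h i₀ / d, fun j => A (i₀, j), div_ne_zero hi₀ hd, fun j => ?_⟩⟩
        · rw [← hA (i, j₀)]
          ring
        · rw [← hA (i₀, j)]
          ring)
    obtain ⟨ω, h', hω0, hh', hω⟩ := exists_scale v h hh0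
    obtain ⟨κ, η', hκ0, hη', hκ⟩ := exists_scale v η hη
    refine finish hμ ha hb hcc hω0 hη' hh' hκ hω ?_
    obtain ⟨⟨i, j⟩, hij⟩ : ∃ q, Y q ≠ 0 := by
      by_contra hcon
      push Not at hcon
      exact hY (funext hcon)
    have h1 : v.At (l * (h i * η j / d)) (Y (i, j)) := hlY (i, j)
    have h2 : v.At (ω * h i * (κ * η j)) (h' i * η' j) := (hω i).mul (hκ j)
    have hne : h i * η j ≠ 0 := by
      intro h0
      rw [h0, zero_div, mul_zero] at h1
      have h3 := Place.at_const (v := v) (0 : k)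
      rw [map_zero] at h3
      exact hij (Place.At.unique h1 h3)
    have h3 := hl.mul (h2.div h1 hij)
    rw [zero_mul] at h3
    have h4 : l * (ω * h i * (κ * η j) / (l * (h i * η j / d))) = ω * (κ * d) := by
      have h5 := left_ne_zero_of_mul hne
      have h6 := right_ne_zero_of_mul hne
      field_simp
    rwa [h4] at h3

end Pool.Agent.CUB
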