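import Pool.Agent.CUB.GeoB

/-!
# Constant planes
-/

set_option autoImplicit false

noncomputable section

namespace Pool.Agent.CUB

open Pool.Agent.ZCyc Pool.Agent.Dess Pool.Agent.GT
open Pool.Agent.VFP (Om tt)
open scoped Classical

variable {k : Type} [Field k] [IsAlgClosed k] [CharZero k] {F : MvPolynomial (Fin 6) k}

/-- the vector `s e₀ + t e₁ + κ p` is constant for constant `s`, `t` -/
private theorem cmb_em {e : Fin 6 → Fin 6 → k} {η : Fin 4 → Om k} {κ : Om k} {η' : Fin 4 → k}
    (hη' : ∀ j, κ * η j = algebraMap k (Om k) (η' j)) (s t : k) :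
    cmb e (algebraMap k (Om k) s) (algebraMap k (Om k) t) κ η =
      em (Om k) (s • e 0 + t • e 1 + ∑ j : Fin 4, η' j • e (Fin.natAdd 2 j)) := by
  funext i
  simp only [cmb, em, Pi.add_apply, Pi.smul_apply, Finset.sum_apply, smul_eq_mul, map_add, map_mul,
    map_sum, Finset.mul_sum]
  congr 1
  refine Finset.sum_congr rfl fun j _ => ?_
  rw [← mul_assoc, hη' j]

private theorem pln_eq {o : Fin 6 → Om k} {e : Fin 6 → Fin 6 → k} {η : Fin 4 → Om k}
    {a b c : Om k} (h : Pln F o e η a b c) {κ μ : Om k} {η' : Fin 4 → k} {a' b' c' : k}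
    (hη' : ∀ j, κ * η j = algebraMap k (Om k) (η' j))
    (ha : μ * a = algebraMap k (Om k) a') (hb : μ * b = algebraMap k (Om k) b')
    (hc : μ * (κ * c) = algebraMap k (Om k) c') (s t : k) :
    ∃ q : k, (κ * tri F o o (em (Om k) (e 0)) * algebraMap k (Om k) s +
        κ * tri F o o (em (Om k) (e 1)) * algebraMap k (Om k) t +
        κ * (κ * tri F o o (∑ j : Fin 4, η j • em (Om k) (e (Fin.natAdd 2 j))))) *
      (algebraMap k (Om k) a' * algebraMap k (Om k) s +
        algebraMap k (Om k) b' * algebraMap k (Om k) t + algebraMap k (Om k) c') =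
      μ * algebraMap k (Om k) q := by
  have h1 := h (algebraMap k (Om k) s) (algebraMap k (Om k) t) κ
  have h2 : tri F o o (cmb e (algebraMap k (Om k) s) (algebraMap k (Om k) t) κ η) =
      algebraMap k (Om k) s * tri F o o (em (Om k) (e 0)) +
        algebraMap k (Om k) t * tri F o o (em (Om k) (e 1)) +
        κ * tri F o o (∑ j : Fin 4, η j • em (Om k) (e (Fin.natAdd 2 j))) := by
    rw [cmb, tri_add3, tri_add3, tri_smul3, tri_smul3, tri_smul3]
  rw [h2, cmb_em hη' s t, tri_em] at h1
  refine ⟨_, Eq.trans ?_ (congrArg (fun z => μ * z) h1.symm)⟩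
  rw [← ha, ← hb, ← hc]
  ring

/-- If `Pln` holds with constant `η` (up to a factor) and `(a, b, c)` proportional to a constant vector
`(a', b', c')` (in the basis `e₀`, `e₁`, `p'`) then the ratio of `tri F o o e₀` and `tri F o o e₁` is
constant: the cubic form on the constant plane has constant coefficients, and it is divisible by
`r` and by the constant linear form, so the third factor is proportional to a constant linear form
(compare coefficients). -/
theorem pln_cst {o : Fin 6 → Om k} {e : Fin 6 → Fin 6 → k} (he : Frm F e) {η : Fin 4 → Om k}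
    (hη : η ≠ 0) {a b c : Om k} (h : Pln F o e η a b c) (hg : tri F o o (em (Om k) (e 0)) ≠ 0 ∨
      tri F o o (em (Om k) (e 1)) ≠ 0) {κ μ : Om k} {η' : Fin 4 → k} {a' b' c' : k} (hκ : κ ≠ 0)
    (hμ : μ ≠ 0) (hη' : ∀ j, κ * η j = algebraMap k (Om k) (η' j))
    (ha : μ * a = algebraMap k (Om k) a') (hb : μ * b = algebraMap k (Om k) b')
    (hc : μ * (κ * c) = algebraMap k (Om k) c') (habc : a ≠ 0 ∨ b ≠ 0 ∨ c ≠ 0) :
    ∃ x y : k, (x ≠ 0 ∨ y ≠ 0) ∧ algebraMap k (Om k) y * tri F o o (em (Om k) (e 0)) =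
      algebraMap k (Om k) x * tri F o o (em (Om k) (e 1)) := by
  have key := pln_eq (F := F) h hη' ha hb hc
  obtain ⟨q00, h00⟩ := key 0 0
  obtain ⟨q10, h10⟩ := key 1 0
  obtain ⟨q20, h20⟩ := key (-1) 0
  obtain ⟨q01, h01⟩ := key 0 1
  obtain ⟨q02, h02⟩ := key 0 (-1)
  obtain ⟨q11, h11⟩ := key 1 1
  set g0 := tri F o o (em (Om k) (e 0)) with hg0
  set g1 := tri F o o (em (Om k) (e 1)) with hg1
  set gp := κ * (κ * tri F o o (∑ j : Fin 4, η j • em (Om k) (e (Fin.natAdd 2 j))))
  simp only [map_zero, map_one, map_neg, mul_zero, mul_one, add_zero, zero_add, mul_neg]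
    at h00 h10 h20 h01 h02 h11
  -- the coefficients
  have inj : Function.Injective (algebraMap k (Om k)) := (algebraMap k (Om k)).injective
  have two : (2 : Om k) ≠ 0 := by
    have h2 : (algebraMap k (Om k)) (2 : k) ≠ 0 := by
      rw [Ne, map_eq_zero_iff _ inj]
      exact two_ne_zero
    rwa [map_ofNat] at h2
  have i2 : (algebraMap k (Om k)) ((2 : k)⁻¹) = (2 : Om k)⁻¹ := by
    rw [map_inv₀, map_ofNat]
  -- it is enough to show that `κ g₀` and `κ g₁` are constant multiples of `μ`
  have fin : (∃ x : k, κ * g0 = μ * algebraMap k (Om k) x) →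
      (∃ y : k, κ * g1 = μ * algebraMap k (Om k) y) →
      ∃ x y : k, (x ≠ 0 ∨ y ≠ 0) ∧ algebraMap k (Om k) y * g0 = algebraMap k (Om k) x * g1 := by
    rintro ⟨x, hx⟩ ⟨y, hy⟩
    refine ⟨x, y, ?_, ?_⟩
    · by_contra hxy
      push Not at hxy
      rw [hxy.1, map_zero, mul_zero] at hx
      rw [hxy.2, map_zero, mul_zero] at hy
      rcases hg with hg | hg
      · exact (mul_ne_zero hκ hg) hx
      · exact (mul_ne_zero hκ hg) hy
    · apply mul_left_cancel₀ (mul_ne_zero hκ hμ)
      calc κ * μ * (algebraMap k (Om k) y * g0)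
          = (κ * g0) * (μ * algebraMap k (Om k) y) := by ring
        _ = (κ * g1) * (μ * algebraMap k (Om k) x) := by rw [hx, ← hy]; ring
        _ = κ * μ * (algebraMap k (Om k) x * g1) := by ring
  have cA : κ * g0 * algebraMap k (Om k) a' =
      μ * algebraMap k (Om k) ((q10 + q20 - 2 * q00) * 2⁻¹) := by
    rw [map_mul, i2, map_sub, map_add, map_mul, map_ofNat]
    field_simp
    linear_combination h10 + h20 - 2 * h00
  have cD : κ * g0 * algebraMap k (Om k) c' + gp * algebraMap k (Om k) a' =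
      μ * algebraMap k (Om k) ((q10 - q20) * 2⁻¹) := by
    rw [map_mul, i2, map_sub]
    field_simp
    linear_combination h10 - h20
  have cC : κ * g1 * algebraMap k (Om k) b' =
      μ * algebraMap k (Om k) ((q01 + q02 - 2 * q00) * 2⁻¹) := by
    rw [map_mul, i2, map_sub, map_add, map_mul, map_ofNat]
    field_simp
    linear_combination h01 + h02 - 2 * h00
  have cE : κ * g1 * algebraMap k (Om k) c' + gp * algebraMap k (Om k) b' =
      μ * algebraMap k (Om k) ((q01 - q02) * 2⁻¹) := by
    rw [map_mul, i2, map_sub]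
    field_simp
    linear_combination h01 - h02
  have cB : κ * g0 * algebraMap k (Om k) b' + κ * g1 * algebraMap k (Om k) a' =
      μ * algebraMap k (Om k) (q11 - q10 - q01 + q00) := by
    rw [map_add, map_sub, map_sub]
    linear_combination h11 - h10 - h01 + h00
  generalize (q10 + q20 - 2 * q00) * (2 : k)⁻¹ = A at cA
  generalize (q10 - q20) * (2 : k)⁻¹ = D at cD
  generalize (q01 + q02 - 2 * q00) * (2 : k)⁻¹ = C at cC
  generalize (q01 - q02) * (2 : k)⁻¹ = E at cE
  generalize q11 - q10 - q01 + q00 = B at cB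
  by_cases ha' : a' = 0
  · by_cases hb' : b' = 0
    · have hc' : a' ≠ 0 ∨ b' ≠ 0 ∨ c' ≠ 0 := by
        rcases habc with h' | h' | h'
        · refine Or.inl fun h0 => ?_
          rw [h0, map_zero] at ha
          exact (mul_ne_zero hμ h') ha
        · refine Or.inr (Or.inl fun h0 => ?_)
          rw [h0, map_zero] at hb
          exact (mul_ne_zero hμ h') hb
        · refine Or.inr (Or.inr fun h0 => ?_)
          rw [h0, map_zero] at hc
          exact (mul_ne_zero hμ (mul_ne_zero hκ h')) hc
      have hc0 : c' ≠ 0 := by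
        rcases hc' with h' | h' | h'
        · exact absurd ha' h'
        · exact absurd hb' h'
        · exact h'
      have hcm : algebraMap k (Om k) c' ≠ 0 := by
        rw [Ne, map_eq_zero_iff _ inj]
        exact hc0
      rw [ha', map_zero, mul_zero, add_zero] at cD
      rw [hb', map_zero, mul_zero, add_zero] at cE
      refine fin ⟨D / c', ?_⟩ ⟨E / c', ?_⟩
      · rw [map_div₀, ← mul_div_assoc, eq_div_iff hcm, cD]
      · rw [map_div₀, ← mul_div_assoc, eq_div_iff hcm, cE]
    · have hbm : algebraMap k (Om k) b' ≠ 0 := by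
        rw [Ne, map_eq_zero_iff _ inj]
        exact hb'
      rw [ha', map_zero, mul_zero, add_zero] at cB
      refine fin ⟨B / b', ?_⟩ ⟨C / b', ?_⟩
      · rw [map_div₀, ← mul_div_assoc, eq_div_iff hbm, cB]
      · rw [map_div₀, ← mul_div_assoc, eq_div_iff hbm, cC]
  · have ham : algebraMap k (Om k) a' ≠ 0 := by
      rw [Ne, map_eq_zero_iff _ inj]
      exact ha'
    refine fin ⟨A / a', ?_⟩ ⟨(B - A / a' * b') / a', ?_⟩
    · rw [map_div₀, ← mul_div_assoc, eq_div_iff ham, cA]
    · have hA : κ * g0 = μ * algebraMap k (Om k) (A / a') := by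
        rw [map_div₀, ← mul_div_assoc, eq_div_iff ham, cA]
      rw [map_div₀, ← mul_div_assoc, eq_div_iff ham, map_sub, map_mul]
      rw [hA] at cB
      linear_combination cB

end Pool.Agent.CUB
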