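import Pool.Agent.CUB.GeoC2

/-!
# The conclusion for a constant line from a plane section
-/

set_option autoImplicit false

noncomputable section

namespace Pool.Agent.CUB

open Pool.Agent.ZCyc Pool.Agent.Dess Pool.Agent.GT
open Pool.Agent.VFP (Om tt)
open scoped Classical

variable {k : Type} [Field k] [IsAlgClosed k] [CharZero k] {F : MvPolynomial (Fin 6) k}

/-- the line is in the tangent hyperplane at `z` -/
def Tan (F : MvPolynomial (Fin 6) k) (z : Fin 6 → k) (l : Ln F k) : Prop :=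
  ∀ w ∈ l.W, tri F z z w = 0

/-- The trichotomy for the line `l`: (1) `l` is in the tangent hyperplane at a value `z` of `o`, or
(2) there is a line `l'` in such a tangent hyperplane, and a plane in the cubic fourfold which contains
`l` and `l'`, or (3) `l + l' + l''` is a plane section, `l'` is in such a tangent hyperplane, and `l''`
too, or `l'' = l`. -/
def Chn (F : MvPolynomial (Fin 6) k) (o : Fin 6 → Om k) (l : Ln F k) : Prop :=
  (∃ z, Gam o z ∧ Tan F z l) ∨
    (∃ (l' : Ln F k) (P : Submodule k (Fin 6 → k)), Module.finrank k P = 3 ∧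
      (∀ x ∈ P, MvPolynomial.aeval x F = 0) ∧ l.W ≤ P ∧ l'.W ≤ P ∧ ∃ z, Gam o z ∧ Tan F z l') ∨
    (∃ l' l'' : Ln F k, Tri ![l, l', l''] ∧ (∃ z, Gam o z ∧ Tan F z l') ∧
      (l'' = l ∨ ∃ z, Gam o z ∧ Tan F z l''))

omit [IsAlgClosed k] [CharZero k] in
private theorem cmb_eq (e : Fin 6 → Fin 6 → k) (s t r : k) (η : Fin 4 → k) :
    cmb e s t r η = s • e 0 + t • e 1 + r • cmb e 0 0 1 η := by
  simp only [cmb, zero_smul, zero_add, one_smul]
  rfl

omit [IsAlgClosed k] [CharZero k] in
private theorem tri_cmb (z : Fin 6 → k) (e : Fin 6 → Fin 6 → k) (s t r : k) (η : Fin 4 → k) :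
    tri F z z (cmb e s t r η) = s * tri F z z (e 0) + t * tri F z z (e 1) +
      r * tri F z z (cmb e 0 0 1 η) := by
  rw [cmb_eq, tri_add3, tri_add3, tri_smul3, tri_smul3, tri_smul3]

/-- By `pln_lines`: `m = l`, `l' = m'`, `l'' = m''`; if `δ = 0` then the plane is contained in the cubic
fourfold (`Tri` would also be possible, but then we are in the first case of `pln_lines` or in the
second case, both are fine if `hc` holds; if `δ = 0` then use the first alternative directly). -/
theorem conclude (hF : Smooth F) {o : Fin 6 → Om k} {l : Ln F k} {e : Fin 6 → Fin 6 → k}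
    (he : Frm F e) (hl : l.W = Submodule.span k {e 0, e 1}) {η : Fin 4 → k} (hη : η ≠ 0)
    {g c : Fin 3 → k} (hg : g ≠ 0) (hc : c ≠ 0) {δ : k}
    (h : ∀ s t r : k, tri F (cmb e s t r η) (cmb e s t r η) (cmb e s t r η) =
      δ * r * (g 0 * s + g 1 * t + g 2 * r) * (c 0 * s + c 1 * t + c 2 * r))
    {z : Fin 6 → k} (hz : Gam o z) {κ : k}
    (hzg : ∀ s t r : k, tri F z z (cmb e s t r η) = κ * (g 0 * s + g 1 * t + g 2 * r))
    (hcase : δ = 0 ∨ (c 0 = 0 ∧ c 1 = 0) ∨ ∃ (z' : Fin 6 → k) (κ' : k), Gam o z' ∧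
      ∀ s t r : k, tri F z' z' (cmb e s t r η) = κ' * (c 0 * s + c 1 * t + c 2 * r)) :
    Chn F o l := by
  obtain ⟨P, m, m', m'', hP, hPw, hm, hm', hm'', hcs⟩ := pln_lines hF he hη hg hc h
  have hml : m = l := Ln.ext (hm.trans hl.symm)
  subst hml
  have htan : Tan F z m' := by
    intro w hw
    obtain ⟨s, t, r, rfl, hs⟩ := (hm' w).1 hw
    rw [hzg, hs, mul_zero]
  have hle : m.W ≤ P := by
    rw [hm, Submodule.span_le]
    rintro w (rfl | rfl)
    · refine (hPw _).2 ⟨1, 0, 0, ?_⟩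
      rw [cmb_eq, one_smul, zero_smul, zero_smul, add_zero, add_zero]
    · refine (hPw _).2 ⟨0, 1, 0, ?_⟩
      rw [cmb_eq, one_smul, zero_smul, zero_smul, add_zero, zero_add]
  have hle' : m'.W ≤ P := by
    intro w hw
    obtain ⟨s, t, r, h1, -⟩ := (hm' w).1 hw
    exact (hPw w).2 ⟨s, t, r, h1⟩
  rcases hcs with hcs | hcs
  · exact Or.inr (Or.inl ⟨m', P, hP, hcs, hle, hle', z, hz, htan⟩)
  · rcases hcase with hδ | ⟨h0, h1⟩ | ⟨z', κ', hz', hzc⟩
    · refine Or.inr (Or.inl ⟨m', P, hP, ?_, hle, hle', z, hz, htan⟩)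
      intro x hx
      obtain ⟨s, t, r, rfl⟩ := (hPw x).1 hx
      rw [← tri_self hF.hom, h, hδ]
      ring
    · refine Or.inr (Or.inr ⟨m', m'', hcs, ⟨z, hz, htan⟩, Or.inl ?_⟩)
      have h2 : c 2 ≠ 0 := by
        intro h2
        apply hc
        funext i
        fin_cases i
        · exact h0
        · exact h1
        · exact h2
      refine Ln.eq_of_le ?_
      intro w hw
      obtain ⟨s, t, r, rfl, hs⟩ := (hm'' w).1 hw
      rw [h0, h1, zero_mul, zero_mul, add_zero, zero_add] at hs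
      have hr : r = 0 := (mul_eq_zero.1 hs).resolve_left h2
      rw [hm, cmb_eq, hr, zero_smul, add_zero]
      exact Submodule.mem_span_pair.2 ⟨s, t, rfl⟩
    · refine Or.inr (Or.inr ⟨m', m'', hcs, ⟨z, hz, htan⟩, Or.inr ⟨z', hz', ?_⟩⟩)
      intro w hw
      obtain ⟨s, t, r, rfl, hs⟩ := (hm'' w).1 hw
      rw [hzc, hs, mul_zero]

/-- At every place: the restriction of the tangent hyperplane of the value of `o` to the limit of the
plane is a multiple of the limit `g` of the restriction of the tangent hyperplane of `o` to the plane. -/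
theorem exists_at_place (hF : Smooth F) {o : Fin 6 → Om k} (ho : o ≠ 0) {e : Fin 6 → Fin 6 → k}
    {η : Fin 4 → Om k} (hg : tri F o o (em (Om k) (e 0)) ≠ 0 ∨ tri F o o (em (Om k) (e 1)) ≠ 0)
    (v : Place k (Om k)) {κ : Om k} {η' : Fin 4 → k} (hκ : ∀ j, v.At (κ * η j) (η' j)) :
    ∃ (z : Fin 6 → k) (m : Om k) (g : Fin 3 → k) (κ' : k), Gam o z ∧ g ≠ 0 ∧ m ≠ 0 ∧
      v.At (m * tri F o o (em (Om k) (e 0))) (g 0) ∧
      v.At (m * tri F o o (em (Om k) (e 1))) (g 1) ∧
      v.At (m * tri F o o (cmb e 0 0 κ η)) (g 2) ∧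
      ∀ s t r : k, tri F z z (cmb e s t r η') = κ' * (g 0 * s + g 1 * t + g 2 * r) := by
  obtain ⟨ω, z, hω0, hz, hω⟩ := exists_scale v o ho
  -- the coefficients of the tangent hyperplane on the plane
  let T : Fin 3 → Om k := ![tri F o o (em (Om k) (e 0)), tri F o o (em (Om k) (e 1)),
    tri F o o (cmb e 0 0 κ η)]
  have hT : T ≠ 0 := by
    intro h0
    rcases hg with h | h
    · exact h (congrFun h0 0)
    · exact h (congrFun h0 1)
  obtain ⟨m, g, hm, hg0, hmg⟩ := exists_scale v T hT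
  let T' : Fin 3 → k := ![tri F z z (e 0), tri F z z (e 1), tri F z z (cmb e 0 0 1 η')]
  have hT' : ∀ i, v.At (ω ^ 2 * T i) (T' i) := by
    have hex : ∀ (w : Fin 6 → Om k) (w' : Fin 6 → k), (∀ i, v.At (w i) (w' i)) →
        v.At (ω ^ 2 * tri F o o w) (tri F z z w') := by
      intro w w' hw
      have h1 := tri_at F (v := v) (x := ω • o) (y := ω • o) (z := w) (x' := z) (y' := z)
        (z' := w') hω hω hw
      rw [tri_smul1, tri_smul2, ← mul_assoc, ← sq] at h1
      exact h1
    intro i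
    fin_cases i
    · exact hex _ _ fun i => Place.at_const (e 0 i)
    · exact hex _ _ fun i => Place.at_const (e 1 i)
    · refine hex _ _ fun i => ?_
      have h1 : cmb e 0 0 κ η i = ∑ j : Fin 4, (κ * η j) * algebraMap k (Om k)
          (e (Fin.natAdd 2 j) i) := by
        simp only [cmb, em, Pi.add_apply, Pi.smul_apply, smul_eq_mul, zero_mul, zero_add,
          Finset.sum_apply, Finset.mul_sum, mul_assoc]
      have h2 : cmb e 0 0 1 η' i = ∑ j : Fin 4, η' j * e (Fin.natAdd 2 j) i := by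
        simp only [cmb, em, Pi.add_apply, Pi.smul_apply, smul_eq_mul, zero_mul, zero_add,
          Finset.sum_apply, one_mul, Algebra.algebraMap_self, RingHom.id_apply]
      rw [h1, h2]
      exact Place.At.sum fun j _ => (hκ j).mul (Place.at_const _)
  obtain ⟨i, hi⟩ : ∃ i, g i ≠ 0 := by
    by_contra h
    push Not at h
    exact hg0 (funext h)
  have hne : m * T i ≠ 0 := by
    intro h0
    have h1 := hmg i
    rw [h0] at h1
    have h2 := Place.at_const (v := v) (0 : k)
    rw [map_zero] at h2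
    exact hi (Place.At.unique h1 h2)
  have hTi : T i ≠ 0 := right_ne_zero_of_mul hne
  have h1 : v.At (ω ^ 2 * T i / (m * T i)) (T' i / g i) := (hT' i).div (hmg i) hi
  have h2 : ∀ j, T' j = T' i / g i * g j := by
    intro j
    have h3 := h1.mul (hmg j)
    have h4 : ω ^ 2 * T i / (m * T i) * (m * T j) = ω ^ 2 * T j := by
      field_simp
    rw [h4] at h3
    exact Place.At.unique (hT' j) h3
  refine ⟨z, m, g, T' i / g i, ⟨hz, v, ω, hω⟩, hg0, hm, hmg 0, hmg 1, hmg 2, ?_⟩
  intro s t r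
  have e0 : tri F z z (e 0) = T' i / g i * g 0 := h2 0
  have e1 : tri F z z (e 1) = T' i / g i * g 1 := h2 1
  have e2 : tri F z z (cmb e 0 0 1 η') = T' i / g i * g 2 := h2 2
  rw [tri_cmb, e0, e1, e2]
  ring

end Pool.Agent.CUB
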