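import Pool.Agent.CUB.GeoC
import Pool.Agent.CUB.GeoD
import Pool.Agent.CUB.GeoD2
import Pool.Agent.CUB.GeoE
import Pool.Agent.CUB.Cnj

/-!
# Every line is connected with lines in tangent hyperplanes of points of the curve
-/

set_option autoImplicit false

noncomputable section

namespace Pool.Agent.CUB

open Pool.Agent.ZCyc Pool.Agent.Dess Pool.Agent.GT
open Pool.Agent.VFP (Om tt)
open scoped Classical

variable {k : Type} [Field k] [IsAlgClosed k] [CharZero k] {F : MvPolynomial (Fin 6) k}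

omit [CharZero k] in
/-- extension of a basis of a line -/
private theorem chain_ext {a b : Fin 6 → k} (h : LinearIndependent k ![a, b]) :
    ∃ e : Fin 6 → Fin 6 → k, LinearIndependent k e ∧ e 0 = a ∧ e 1 = b := by
  obtain ⟨W, hW⟩ := Submodule.exists_isCompl (Submodule.span k (Set.range ![a, b]))
  have h1 : Module.finrank k (Submodule.span k (Set.range ![a, b])) = 2 := by
    rw [finrank_span_eq_card h]
    simp
  have h2 : Module.finrank k W = 4 := by
    have h3 := Submodule.finrank_add_eq_of_isCompl hW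
    rw [h1, Module.finrank_fin_fun] at h3
    omega
  let B := Module.finBasisOfFinrankEq k W h2
  have h4 : LinearIndependent k fun j => (B j : Fin 6 → k) :=
    B.linearIndependent.map' W.subtype (Submodule.ker_subtype W)
  have h5 : Submodule.span k (Set.range fun j => (B j : Fin 6 → k)) ≤ W := by
    rw [Submodule.span_le]
    rintro _ ⟨j, rfl⟩
    exact (B j).2
  have h6 := h.sum_type h4 (hW.disjoint.mono_right h5)
  have h7 : LinearIndependent k ((Sum.elim ![a, b] fun j => (B j : Fin 6 → k)) ∘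
      (finSumFinEquiv (m := 2) (n := 4)).symm) := h6.comp _ (Equiv.injective _)
  refine ⟨_, h7, ?_, ?_⟩
  · rfl
  · rfl

private theorem chain_frm (hF : Smooth F) (l : Ln F k) : ∃ e : Fin 6 → Fin 6 → k, Frm F e ∧
    l.W = Submodule.span k {e 0, e 1} := by
  obtain ⟨a, b, h, hl⟩ := exists_basis l
  obtain ⟨e, he, rfl, rfl⟩ := chain_ext h
  have h0 : e 0 ∈ l.W := by
    rw [hl]
    exact Submodule.subset_span (by simp)
  have h1 : e 1 ∈ l.W := by
    rw [hl]
    exact Submodule.subset_span (by simp)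
  exact ⟨e, ⟨he, l.tri_zero hF h0 h0 h0, l.tri_zero hF h0 h0 h1, l.tri_zero hF h0 h1 h1,
    l.tri_zero hF h1 h1 h1⟩, hl⟩

omit [IsAlgClosed k] [CharZero k] in
private theorem chain_tan {l : Ln F k} {e : Fin 6 → Fin 6 → k}
    (hl : l.W = Submodule.span k {e 0, e 1}) {z : Fin 6 → k} (h0 : tri F z z (e 0) = 0)
    (h1 : tri F z z (e 1) = 0) : Tan F z l := by
  intro w hw
  rw [hl, Submodule.mem_span_pair] at hw
  obtain ⟨s, t, rfl⟩ := hw
  rw [tri_add3, tri_smul3, tri_smul3, h0, h1, mul_zero, mul_zero, add_zero]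

omit [IsAlgClosed k] in
private theorem chain_ne {o : Fin 6 → Om k} (ho : ¬ Cst o) : o ≠ 0 := by
  rintro rfl
  exact ho ⟨1, 0, one_ne_zero, fun i => by simp⟩

private theorem chain_fin (hF : Smooth F) {o : Fin 6 → Om k} (ho : o ≠ 0) {l : Ln F k}
    {e : Fin 6 → Fin 6 → k} (he : Frm F e) (hl : l.W = Submodule.span k {e 0, e 1})
    {η : Fin 4 → Om k} {a b c : Om k} (hP : Pln F o e η a b c)
    (hg : tri F o o (em (Om k) (e 0)) ≠ 0 ∨ tri F o o (em (Om k) (e 1)) ≠ 0)
    {v : Place k (Om k)} {κ : Om k} {η' : Fin 4 → k} (hη' : η' ≠ 0)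
    (hκ : ∀ j, v.At (κ * η j) (η' j)) {m' : Om k} {l' : Fin 3 → k} (hl' : l' ≠ 0)
    (h0 : v.At (m' * a) (l' 0)) (h1 : v.At (m' * b) (l' 1)) (h2 : v.At (m' * (κ * c)) (l' 2))
    (hcase : (l' 0 = 0 ∧ l' 1 = 0) ∨ ∃ (z' : Fin 6 → k) (κ' : k), Gam o z' ∧
      ∀ s t r : k, tri F z' z' (cmb e s t r η') = κ' * (l' 0 * s + l' 1 * t + l' 2 * r)) :
    Chn F o l := by
  obtain ⟨z, m, g, κ', hz, hg0, hm, hg₀, hg₁, hg₂, hzg⟩ := exists_at_place hF ho hg v hκ
  obtain ⟨δ, hδ⟩ := pln_lim hP hκ hg0 hl' hg₀ hg₁ hg₂ h0 h1 h2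
  exact conclude hF he hl hη' hg0 hl' hδ hz hzg (Or.inr hcase)

omit [IsAlgClosed k] [CharZero k] in
private theorem chain_cmb_at {v : Place k (Om k)} (e : Fin 6 → Fin 6 → k) {η : Fin 4 → Om k}
    {κ : Om k} {η' : Fin 4 → k} (hκ : ∀ j, v.At (κ * η j) (η' j)) (s t r : k) (i : Fin 6) :
    v.At (cmb e (algebraMap k (Om k) s) (algebraMap k (Om k) t) (algebraMap k (Om k) r * κ) η i)
      (cmb e s t r η' i) := by
  simp only [cmb, Pi.add_apply, Pi.smul_apply, smul_eq_mul, Finset.sum_apply]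
  refine (((Place.at_const s).mul (Place.at_const _)).add
    ((Place.at_const t).mul (Place.at_const _))).add ?_
  rw [mul_assoc]
  refine (Place.at_const r).mul ?_
  rw [Finset.mul_sum]
  refine Place.At.sum fun j _ => ?_
  rw [← mul_assoc]
  exact (hκ j).mul (Place.at_const _)

private theorem chain_zero (hF : Smooth F) {o : Fin 6 → Om k} (ho : o ≠ 0) {l : Ln F k}
    {e : Fin 6 → Fin 6 → k} (he : Frm F e) (hl : l.W = Submodule.span k {e 0, e 1})
    {η : Fin 4 → Om k} (hη : η ≠ 0) (hP : Pln F o e η 0 0 0)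
    (hg : tri F o o (em (Om k) (e 0)) ≠ 0 ∨ tri F o o (em (Om k) (e 1)) ≠ 0)
    (v : Place k (Om k)) : Chn F o l := by
  obtain ⟨κ, η', hκ0, hη', hκ⟩ := exists_scale v η hη
  obtain ⟨z, m, g, κ', hz, hg0, hm, hg₀, hg₁, hg₂, hzg⟩ := exists_at_place hF ho hg v hκ
  have hc : (![1, 0, 0] : Fin 3 → k) ≠ 0 := by
    intro h
    have h1 := congrFun h 0
    simp at h1
  refine conclude hF he hl hη' hg0 hc (δ := 0) ?_ hz hzg (Or.inl rfl)
  intro s t r
  have h1 := tri_at F (chain_cmb_at e hκ s t r) (chain_cmb_at e hκ s t r)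
    (chain_cmb_at e hκ s t r)
  rw [hP] at h1
  have h2 : v.At (0 : Om k) (tri F (cmb e s t r η') (cmb e s t r η') (cmb e s t r η')) := by
    simpa using h1
  rw [Place.At.unique h2 Pool.Agent.VFP.at_zero]
  ring

omit [IsAlgClosed k] [CharZero k] in
private theorem chain_dec (e : Fin 6 → Fin 6 → k) (s t r : k) (η' : Fin 4 → k) (i : Fin 6) :
    cmb e s t r η' i = s * e 0 i + t * e 1 i + r * cmb e 0 0 1 η' i := by
  simp [cmb, em]

omit [IsAlgClosed k] [CharZero k] in
private theorem chain_sum (e : Fin 6 → Fin 6 → k) (s t r : k) (η' : Fin 4 → k)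
    (h' : Fin 6 → k) : ∑ i, h' i * cmb e s t r η' i = (∑ i, h' i * e 0 i) * s +
      (∑ i, h' i * e 1 i) * t + (∑ i, h' i * cmb e 0 0 1 η' i) * r := by
  simp only [Finset.sum_mul, ← Finset.sum_add_distrib]
  refine Finset.sum_congr rfl fun i _ => ?_
  rw [chain_dec e s t r η' i]
  ring

private theorem chain_end (hF : Smooth F) {o : Fin 6 → Om k} (ho : o ≠ 0) {l : Ln F k}
    {e : Fin 6 → Fin 6 → k} (he : Frm F e) (hl : l.W = Submodule.span k {e 0, e 1})
    {η : Fin 4 → Om k} {a b c : Om k} (hP : Pln F o e η a b c)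
    (hg : tri F o o (em (Om k) (e 0)) ≠ 0 ∨ tri F o o (em (Om k) (e 1)) ≠ 0)
    (hab : a ≠ 0 ∨ b ≠ 0) {v : Place k (Om k)} {κ m : Om k} {η' : Fin 4 → k} {h' : Fin 6 → k}
    (hη' : η' ≠ 0) (hκ : ∀ j, v.At (κ * η j) (η' j))
    (h0 : v.At (m * a) (∑ i, h' i * e 0 i)) (h1 : v.At (m * b) (∑ i, h' i * e 1 i))
    (h2 : v.At (m * (κ * c)) (∑ i, h' i * cmb e 0 0 1 η' i)) {Z : Fin 6 → k} (hZ : Gam o Z)
    {κ₂ : k} (hZh : ∀ w : Fin 6 → k, tri F Z Z w = κ₂ * ∑ i, h' i * w i) : Chn F o l := by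
  by_cases hl' : (![∑ i, h' i * e 0 i, ∑ i, h' i * e 1 i,
      ∑ i, h' i * cmb e 0 0 1 η' i] : Fin 3 → k) = 0
  · have hx : (![a, b, κ * c] : Fin 3 → Om k) ≠ 0 := by
      intro hx
      have hx0 : a = 0 := congrFun hx 0
      have hx1 : b = 0 := congrFun hx 1
      rcases hab with h | h
      · exact h hx0
      · exact h hx1
    obtain ⟨m', l', _, hl0, hl1⟩ := exists_scale v _ hx
    have e0 : ∑ i, h' i * e 0 i = 0 := congrFun hl' 0
    have e1 : ∑ i, h' i * e 1 i = 0 := congrFun hl' 1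
    have e2 : ∑ i, h' i * cmb e 0 0 1 η' i = 0 := congrFun hl' 2
    refine chain_fin hF ho he hl hP hg hη' hκ hl0 (hl1 0) (hl1 1) (hl1 2)
      (Or.inr ⟨Z, 0, hZ, fun s t r => ?_⟩)
    rw [hZh, chain_sum, e0, e1, e2]
    ring
  · refine chain_fin hF ho he hl hP hg hη' hκ hl' h0 h1 h2 (Or.inr ⟨Z, κ₂, hZ, fun s t r => ?_⟩)
    rw [hZh, chain_sum]
    rfl

omit [IsAlgClosed k] [CharZero k] in
private theorem chain_map_ncst {o : Fin 6 → Om k} (ho : ¬ Cst o) (S : Om k ≃ₐ[k] Om k) :
    ¬ Cst fun i => S (o i) := by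
  rintro ⟨c, a, hc, h⟩
  refine ho ⟨S.symm c, a, ?_, fun i => ?_⟩
  · intro h0
    exact hc ((map_eq_zero S.symm).1 h0)
  · apply S.injective
    rw [map_mul, S.apply_symm_apply, S.commutes]
    exact h i

/-- The case where `(a : b)` is not constant. -/
private theorem chain_C2 (hF : Smooth F) {o : Fin 6 → Om k} (ho : ¬ Cst o) {l : Ln F k}
    {e : Fin 6 → Fin 6 → k} (he : Frm F e) (hl : l.W = Submodule.span k {e 0, e 1})
    {η : Fin 4 → Om k} {a b c : Om k} (hη : η ≠ 0) (hP : Pln F o e η a b c)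
    (hg : ∀ x y : k, (x ≠ 0 ∨ y ≠ 0) → algebraMap k (Om k) y * tri F o o (em (Om k) (e 0)) ≠
      algebraMap k (Om k) x * tri F o o (em (Om k) (e 1)))
    (hab : ∀ x y : k, (x ≠ 0 ∨ y ≠ 0) → algebraMap k (Om k) y * a ≠
      algebraMap k (Om k) x * b) : Chn F o l := by
  have hg0 : tri F o o (em (Om k) (e 0)) ≠ 0 := by
    intro h
    exact hg 0 1 (Or.inr one_ne_zero) (by rw [h]; simp)
  have hg1 : tri F o o (em (Om k) (e 1)) ≠ 0 := by
    intro h
    exact hg 1 0 (Or.inl one_ne_zero) (by rw [h]; simp)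
  have ha : a ≠ 0 := by
    intro h
    exact hab 0 1 (Or.inr one_ne_zero) (by rw [h]; simp)
  have hb : b ≠ 0 := by
    intro h
    exact hab 1 0 (Or.inl one_ne_zero) (by rw [h]; simp)
  have q1 : ∀ c : k, tri F o o (em (Om k) (e 0)) / tri F o o (em (Om k) (e 1)) ≠
      algebraMap k (Om k) c := by
    intro c h
    rw [div_eq_iff hg1] at h
    exact hg c 1 (Or.inr one_ne_zero) (by rw [map_one, one_mul, h])
  have q2 : ∀ c : k, a / b ≠ algebraMap k (Om k) c := by
    intro c h
    rw [div_eq_iff hb] at h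
    exact hab c 1 (Or.inr one_ne_zero) (by rw [map_one, one_mul, h])
  obtain ⟨S, hS⟩ := exists_aut q1 q2
  have ho' := chain_map_ncst ho S
  have hT : ∀ w : Fin 6 → k, ∑ i, tg F (fun i => S (o i)) i * em (Om k) w i =
      S (tri F o o (em (Om k) w)) := by
    intro w
    have h1 := tri_map F (S : Om k →ₐ[k] Om k) o o (em (Om k) w)
    have h2 : (fun i => (S : Om k →ₐ[k] Om k) (em (Om k) w i)) = em (Om k) w := by
      funext i
      exact S.commutes _
    rw [h2] at h1
    exact (tri_sum F (fun i => S (o i)) (fun i => S (o i)) (em (Om k) w)).symm.trans h1.symm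
  have hp : a * ∑ i, tg F (fun i => S (o i)) i * em (Om k) (e 1) i =
      b * ∑ i, tg F (fun i => S (o i)) i * em (Om k) (e 0) i := by
    rw [hT, hT]
    rw [map_div₀, div_eq_div_iff ((map_ne_zero S).2 hg1) hb] at hS
    rw [← hS]
    ring
  obtain ⟨v, κ, ω, m, η', h', hη', hh', hκ, hω, hm, h0, h1, h2⟩ := good_place hη (Or.inl ha) hp
    (Or.inl (by rw [hT]; exact (map_ne_zero S).2 hg0)) (c := c)
    (fun h => tg_ncst hF ho' h.1)
  obtain ⟨Z, c', hZ, hc', hZv⟩ := exists_gam _ (chain_ne ho') v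
  obtain ⟨κ₂, _, hκ₂⟩ := tg_lim hF hZ hh' hZv hω
  exact chain_end hF (chain_ne ho) he hl hP (Or.inl hg0) (Or.inl ha) hη' hκ h0 h1 h2
    (gam_conj S ⟨hZ, v, c', hZv⟩) hκ₂

/-- The case where `(a : b)` is constant. -/
private theorem chain_C1 (hF : Smooth F) {o : Fin 6 → Om k} (ho : ¬ Cst o) {l : Ln F k}
    {e : Fin 6 → Fin 6 → k} (he : Frm F e) (hl : l.W = Submodule.span k {e 0, e 1})
    {η : Fin 4 → Om k} {a b c : Om k} (hη : η ≠ 0) (hP : Pln F o e η a b c)
    (hg : ∀ x y : k, (x ≠ 0 ∨ y ≠ 0) → algebraMap k (Om k) y * tri F o o (em (Om k) (e 0)) ≠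
      algebraMap k (Om k) x * tri F o o (em (Om k) (e 1)))
    (hab0 : a ≠ 0 ∨ b ≠ 0) {x y : k} (hxy : x ≠ 0 ∨ y ≠ 0)
    (hab : algebraMap k (Om k) y * a = algebraMap k (Om k) x * b) : Chn F o l := by
  have hg0 : tri F o o (em (Om k) (e 0)) ≠ 0 := by
    intro h
    exact hg 0 1 (Or.inr one_ne_zero) (by rw [h]; simp)
  obtain ⟨z, hz, hzw⟩ := gam_quad ho (y • e 0 - x • e 1)
  have hzw' : y * tri F z z (e 0) = x * tri F z z (e 1) := by
    rw [sub_eq_add_neg, ← neg_smul, tri_add3, tri_smul3, tri_smul3] at hzw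
    linear_combination hzw
  by_cases hT : tri F z z (e 0) = 0 ∧ tri F z z (e 1) = 0
  · exact Or.inl ⟨z, hz, chain_tan hl hT.1 hT.2⟩
  have hT' : tri F z z (e 0) ≠ 0 ∨ tri F z z (e 1) ≠ 0 := by
    by_contra h
    push Not at h
    exact hT h
  have hsum : ∀ w : Fin 6 → k, ∑ i, em (Om k) (tg F z) i * em (Om k) w i =
      algebraMap k (Om k) (tri F z z w) := by
    intro w
    rw [tri_sum, map_sum]
    refine Finset.sum_congr rfl fun i _ => ?_
    rw [map_mul]
    rfl
  have hp' : a * algebraMap k (Om k) (tri F z z (e 1)) =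
      b * algebraMap k (Om k) (tri F z z (e 0)) := by
    have h1 : algebraMap k (Om k) y * algebraMap k (Om k) (tri F z z (e 0)) =
        algebraMap k (Om k) x * algebraMap k (Om k) (tri F z z (e 1)) := by
      rw [← map_mul, ← map_mul, hzw']
    rcases hxy with h | h
    · have h2 : algebraMap k (Om k) x ≠ 0 := (map_ne_zero _).2 h
      apply mul_left_cancel₀ h2
      linear_combination -a * h1 + algebraMap k (Om k) (tri F z z (e 0)) * hab
    · have h2 : algebraMap k (Om k) y ≠ 0 := (map_ne_zero _).2 h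
      apply mul_left_cancel₀ h2
      linear_combination -b * h1 + algebraMap k (Om k) (tri F z z (e 1)) * hab
  by_cases hc : Cst η
  · obtain ⟨κ, η', hκ0, hκ⟩ := hc
    have hη' : η' ≠ 0 := by
      rintro rfl
      apply hη
      funext j
      have h1 := hκ j
      rw [Pi.zero_apply, map_zero] at h1
      exact (mul_eq_zero.1 h1).resolve_left hκ0
    obtain ⟨μ, hμ0, hμa, hμb⟩ : ∃ μ : Om k, μ ≠ 0 ∧
        μ * a = algebraMap k (Om k) (tri F z z (e 0)) ∧
        μ * b = algebraMap k (Om k) (tri F z z (e 1)) := by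
      rcases hab0 with h | h
      · have h1 : algebraMap k (Om k) (tri F z z (e 0)) ≠ 0 := by
          intro h1
          rw [h1, mul_zero] at hp'
          rcases mul_eq_zero.1 hp' with h3 | h3
          · exact h h3
          · exact hT ⟨(map_eq_zero _).1 h1, (map_eq_zero _).1 h3⟩
        refine ⟨algebraMap k (Om k) (tri F z z (e 0)) / a, div_ne_zero h1 h, ?_, ?_⟩
        · rw [div_mul_cancel₀ _ h]
        · rw [div_mul_eq_mul_div, div_eq_iff h]
          linear_combination -hp'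
      · have h1 : algebraMap k (Om k) (tri F z z (e 1)) ≠ 0 := by
          intro h1
          rw [h1, mul_zero] at hp'
          rcases mul_eq_zero.1 hp'.symm with h3 | h3
          · exact h h3
          · exact hT ⟨(map_eq_zero _).1 h3, (map_eq_zero _).1 h1⟩
        refine ⟨algebraMap k (Om k) (tri F z z (e 1)) / b, div_ne_zero h1 h, ?_, ?_⟩
        · rw [div_mul_eq_mul_div, div_eq_iff h]
          linear_combination hp'
        · rw [div_mul_cancel₀ _ h]
    by_cases hC : ∃ c' : k, μ * (κ * c) = algebraMap k (Om k) c'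
    · obtain ⟨c', hc'⟩ := hC
      obtain ⟨x', y', hxy', h⟩ := pln_cst he hη hP (Or.inl hg0) hκ0 hμ0 hκ hμa hμb hc'
        (hab0.imp id Or.inl)
      exact absurd h (hg x' y' hxy')
    · push Not at hC
      obtain ⟨v, hv⟩ := exists_place_at hC (∑ i, tg F z i * cmb e 0 0 1 η' i)
      have hs : ∀ w : Fin 6 → k, ∑ i, tg F z i * w i = tri F z z w := fun w =>
        (tri_sum F z z w).symm
      refine chain_end hF (chain_ne ho) he hl hP (Or.inl hg0) hab0 (v := v) (κ := κ) (m := μ)
        (η' := η') (h' := tg F z) hη' (fun j => ?_) ?_ ?_ hv hz (κ₂ := 1) (fun w => ?_)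
      · rw [hκ j]
        exact Place.at_const _
      · rw [hμa, hs]
        exact Place.at_const _
      · rw [hμb, hs]
        exact Place.at_const _
      · rw [one_mul, hs]
  · have hp : a * ∑ i, em (Om k) (tg F z) i * em (Om k) (e 1) i =
        b * ∑ i, em (Om k) (tg F z) i * em (Om k) (e 0) i := by
      rw [hsum, hsum, hp']
    obtain ⟨v, κ, ω, m, η', h', hη', hh', hκ, hω, hm, h0, h1, h2⟩ := good_place hη hab0 hp
      (by
        rw [hsum, hsum]
        exact hT'.imp (map_ne_zero _).2 (map_ne_zero _).2) (c := c)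
      (fun h => hc h.2)
    have htg : tg F z ≠ 0 := by
      intro h
      have h3 : ∀ w : Fin 6 → k, tri F z z w = 0 := by
        intro w
        rw [tri_sum]
        refine Finset.sum_eq_zero fun i _ => ?_
        have h4 : tri F z z (Pi.single i 1) = 0 := congrFun h i
        rw [h4, zero_mul]
      exact hT ⟨h3 _, h3 _⟩
    obtain ⟨c', hc', hh⟩ := scale_unique (l := (1 : Om k)) (x := em (Om k) (tg F z)) htg hh'
      (fun i => by rw [one_mul]; exact Place.at_const _) hω
    refine chain_end hF (chain_ne ho) he hl hP (Or.inl hg0) hab0 hη' hκ h0 h1 h2 hz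
      (κ₂ := c'⁻¹) (fun w => ?_)
    rw [hh, tri_sum, Finset.mul_sum]
    refine Finset.sum_congr rfl fun i _ => ?_
    rw [Pi.smul_apply, smul_eq_mul, mul_assoc, inv_mul_cancel_left₀ hc']
    rfl

/-- The trichotomy holds for every line `l`.

Proof. Choose `e` with `l = ⟨e₀, e₁⟩` (`exists_basis`, extend to a basis). If the ratio of
`g₀ = tri F o o e₀` and `g₁ = tri F o o e₁` is constant (or both are zero) then (1) by `gam_line`.
Otherwise take `exists_pln`. At a place `v` choose `κ`, `η'` by `exists_scale` and use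
`exists_at_place`, `pln_lim` and `conclude`. It remains to choose the place.
(A) If `a = b = c = 0` take any place (`δ = 0`, `c = ![1, 0, 0]` in `conclude`: the left-hand side of
`Pln` is zero, also in the limit).
(B) If `a = b = 0`, `c ≠ 0` take any place.
(C) Otherwise use `good_place` with the following `h`.
(C1) `(a, b) = f (a', b')` with constants `a'`, `b'`: `gam_quad` for the vector `b' e₀ - a' e₁` gives a
value `z'` of `o` with `tri F z' z' (b' e₀ - a' e₁) = 0`. If `tri F z' z' e₀ = tri F z' z' e₁ = 0` then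
(1). Otherwise let `h` be the constant vector `tg F z'`. If `η` is not constant then `good_place`
applies. If `κ η = η'` is constant: let `(h(e₀), h(e₁), C)` be proportional to `(a, b, κ c)`. If `C` is
constant then `pln_cst` is a contradiction to the assumption on `g₀`, `g₁`. If `C` is not constant then
take a place where `C` has the value `h(p')` (`exists_place_at`).
(C2) `(a : b)` is not constant: `g₀ / g₁` and `a / b` are not constant; by `exists_aut` there is an
automorphism `S` with `S (g₀ / g₁) = a / b`; let `h = tg F (S o)`; `(h(e₀) : h(e₁)) = (a : b)` because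
`e₀`, `e₁` are constant (`tri_map`); `S o` is not constant, so `h` is not constant by `tg_ncst`.
In all cases the hyperplane `h'` is up to a factor the tangent hyperplane at a value `z''` of `o`
(`gam_conj`, `tg_lim`); if its restriction to the plane is zero then we still have
`tri F z'' z'' (cmb ..) = 0 * (..)`, and `c` in `conclude` is any scaled limit of `(a, b, κ c)`. -/
theorem chain (hF : Smooth F) {o : Fin 6 → Om k} (hB : Bp F o) (l : Ln F k) : Chn F o l := by
  obtain ⟨e, he, hl⟩ := chain_frm hF l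
  have ho := hB.ncst
  by_cases hg : ∃ x y : k, (x ≠ 0 ∨ y ≠ 0) ∧ algebraMap k (Om k) y * tri F o o (em (Om k) (e 0)) =
      algebraMap k (Om k) x * tri F o o (em (Om k) (e 1))
  · obtain ⟨x, y, hxy, h⟩ := hg
    obtain ⟨z, hz, h0, h1⟩ := gam_line hF ho hxy h
    exact Or.inl ⟨z, hz, chain_tan hl h0 h1⟩
  push Not at hg
  have hg0 : tri F o o (em (Om k) (e 0)) ≠ 0 := by
    intro h
    exact hg 0 1 (Or.inr one_ne_zero) (by rw [h]; simp)
  obtain ⟨η, a, b, c, hη, hP⟩ := exists_pln hF he (Or.inl hg0)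
  by_cases hab0 : a ≠ 0 ∨ b ≠ 0
  · by_cases hab : ∃ x y : k, (x ≠ 0 ∨ y ≠ 0) ∧ algebraMap k (Om k) y * a =
        algebraMap k (Om k) x * b
    · obtain ⟨x, y, hxy, h⟩ := hab
      exact chain_C1 hF ho he hl hη hP hg hab0 hxy h
    · push Not at hab
      exact chain_C2 hF ho he hl hη hP hg hab
  · push Not at hab0
    obtain ⟨rfl, rfl⟩ := hab0
    obtain ⟨v, -⟩ := exists_pole (x := tt k) (Pool.Agent.VFP.tt_ne)
    by_cases hc : c = 0
    · subst hc
      exact chain_zero hF (chain_ne ho) he hl hη hP (Or.inl hg0) v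
    · obtain ⟨κ, η', hκ0, hη', hκ⟩ := exists_scale v η hη
      have hl' : (![0, 0, 1] : Fin 3 → k) ≠ 0 := by
        intro h
        have h1 := congrFun h 2
        simp at h1
      refine chain_fin hF (chain_ne ho) he hl hP (Or.inl hg0) hη' hκ (m' := (κ * c)⁻¹) hl' ?_ ?_ ?_
        (Or.inl ⟨rfl, rfl⟩)
      · rw [mul_zero]
        exact Pool.Agent.VFP.at_zero
      · rw [mul_zero]
        exact Pool.Agent.VFP.at_zero
      · rw [inv_mul_cancel₀ (mul_ne_zero hκ0 hc)]
        exact Pool.Agent.VFP.at_one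

end Pool.Agent.CUB
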