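import Mathlib

/-!
# Homogeneous equations on a cone

The projective dimension theorem, in terms of the generic point of a cone.
-/

set_option autoImplicit false

noncomputable section

namespace Pool.Agent.CUB

open scoped Classical

variable {K : Type} [Field K] [IsAlgClosed K]

/-- A homogeneous Nullstellensatz: if homogeneous polynomials over the algebraically closed field
`K` have a common zero with coordinates in an extension `M`, not all coordinates zero, then they
have such a zero over `K`. Proof: otherwise `X_i ^ e` is in the ideal `J` spanned by them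
(`MvPolynomial.vanishingIdeal_zeroLocus_eq_radical`: `X_i` vanishes on the zero locus in `K ^ ι`,
which is empty or `{0}`; if it is empty then `J = ⊤`), so it vanishes at the zero over `M`. -/
theorem descend_zero {M : Type} [Field M] [Algebra K M] {ι : Type} [Fintype ι]
    (S : Set (MvPolynomial ι K)) (a : ι → M) (ha : a ≠ 0)
    (hS : ∀ g ∈ S, MvPolynomial.aeval a g = 0) :
    ∃ x : ι → K, x ≠ 0 ∧ ∀ g ∈ S, MvPolynomial.eval x g = 0 := by
  by_contra hcon
  push Not at hcon
  set J : Ideal (MvPolynomial ι K) := Ideal.span S with hJ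
  have hloc : ∀ x ∈ MvPolynomial.zeroLocus K J, x = 0 := by
    intro x hx
    by_contra hx0
    obtain ⟨g, hg, hgx⟩ := hcon x hx0
    apply hgx
    have h := hx g (Ideal.subset_span hg)
    rwa [MvPolynomial.aeval_eq_eval] at h
  have hvan : ∀ g ∈ J, MvPolynomial.aeval a g = 0 := by
    have h : J ≤ RingHom.ker (MvPolynomial.aeval a : MvPolynomial ι K →ₐ[K] M) :=
      Ideal.span_le.2 fun g hg => hS g hg
    exact fun g hg => h hg
  apply ha
  funext i
  have h1 : (MvPolynomial.X i : MvPolynomial ι K) ∈ J.radical := by
    rw [← MvPolynomial.vanishingIdeal_zeroLocus_eq_radical (K := K)]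
    intro x hx
    rw [hloc x hx]
    simp
  obtain ⟨e, he⟩ := h1
  have h2 := hvan _ he
  rw [map_pow, MvPolynomial.aeval_X] at h2
  exact IsReduced.eq_zero _ ⟨e, h2⟩

omit [IsAlgClosed K] in
private theorem aeval_mul_hom {L : Type} [Field L] [Algebra K L] {ι : Type}
    {g : MvPolynomial ι K} {d : ℕ} (hg : g.IsHomogeneous d) (c : L) (a : ι → L) :
    MvPolynomial.aeval (fun i => c * a i) g = c ^ d * MvPolynomial.aeval a g := by
  rw [MvPolynomial.aeval_def, MvPolynomial.aeval_def, MvPolynomial.eval₂_eq,
    MvPolynomial.eval₂_eq, Finset.mul_sum]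
  refine Finset.sum_congr rfl fun m hm => ?_
  have h1 := hg (MvPolynomial.mem_support_iff.1 hm)
  have h2 : ∑ i ∈ m.support, m i = d := by
    rw [← h1, Finsupp.weight_apply]
    simp [Finsupp.sum]
  simp only [mul_pow, Finset.prod_mul_distrib, Finset.prod_pow_eq_pow_sum, h2]
  ring

omit [IsAlgClosed K] in
/-- Some coordinate is not integral over the ring generated by the values. -/
private theorem exists_not_integral {M : Type} [Field M] [Algebra K M] {κ σ : Type} [Fintype κ]
    [Fintype σ] (b : σ → M) (hs : AlgebraicIndependent K b) (F : κ → M)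
    (hcard : Fintype.card κ < Fintype.card σ) :
    ∃ i, ¬ IsIntegral (Algebra.adjoin K (Set.range F)) (b i) := by
  by_contra hcon
  push Not at hcon
  have hsub : Set.range b ⊆ (AlgebraicIndependent.matroid K M).closure (Set.range F) := by
    rintro _ ⟨i, rfl⟩
    rw [AlgebraicIndependent.matroid_closure_eq, SetLike.mem_coe,
      Subalgebra.mem_algebraicClosure]
    exact (hcon i).isAlgebraic
  have hind : (AlgebraicIndependent.matroid K M).Indep (Set.range b) :=
    AlgebraicIndependent.matroid_indep_iff.2 hs.to_subtype_range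
  have h2 := hind.encard_le_eRk_of_subset hsub
  rw [Matroid.eRk_closure_eq] at h2
  have h3 := h2.trans (Matroid.eRk_le_encard _ _)
  have h4 : (Set.range b).encard = Fintype.card σ := by
    rw [← Set.image_univ, hs.injective.injOn.encard_image, Set.encard_univ,
      ENat.card_eq_coe_fintype_card]
  have h5 : (Set.range F).encard ≤ Fintype.card κ := by
    rw [← Set.image_univ]
    refine (Set.encard_image_le _ _).trans ?_
    rw [Set.encard_univ, ENat.card_eq_coe_fintype_card]
  rw [h4] at h3
  have h6 := h3.trans h5
  rw [Nat.cast_le] at h6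
  omega

omit [IsAlgClosed K] in
/-- A valuation ring which contains a subalgebra but not an element which is not integral. -/
private theorem exists_valuation {M : Type} [Field M] [Algebra K M] (R : Subalgebra K M) (x : M)
    (hx : ¬ IsIntegral R x) : ∃ V : ValuationSubring M, (∀ y ∈ R, y ∈ V) ∧ x ∉ V := by
  have h1 : x ∉ (integralClosure (Subring.closure (R : Set M)) M).toSubring := by
    intro h
    apply hx
    have h2 : IsIntegral (Subring.closure (R : Set M)) x := h
    have hcl : Subring.closure (R : Set M) = R.toSubring := Subring.closure_eq R.toSubring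
    let φ : Subring.closure (R : Set M) →+* R :=
      (Subring.closure (R : Set M)).subtype.codRestrict R
        (fun y => hcl.le y.2)
    exact h2.map_of_comp_eq φ (RingHom.id M) rfl
  rw [← iInf_valuationSubring_superset] at h1
  rw [Subring.mem_iInf] at h1
  push Not at h1
  obtain ⟨⟨V, hV⟩, hxV⟩ := h1
  exact ⟨V, fun y hy => hV hy, hxV⟩

/-- Let `a` be a vector over an extension `M` of `K`, such that the coordinates `a i`, `i ∈ σ`, are
algebraically independent, and let `f j`, `j ∈ κ`, be homogeneous polynomials of positive degrees,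
`#κ < #σ`. Then there is a vector `x ≠ 0` over `K`, such that `f j` vanishes at `x` for all `j`, and all
homogeneous polynomials which vanish at `a` vanish at `x`.

Proof. Let `R` be the subring of `M` generated by `K` and the elements `f j (a)`. If all `a i` were
integral over `R` then they would be algebraic over the field `K(f j (a) : j)` of transcendence degree
at most `#κ`, contradiction. So there are an `i` and a valuation ring `V` of `M` with `R ≤ V` and
`a i ∉ V` (`iInf_valuationSubring_superset` or
`Subring.exists_le_valuationSubring_of_isIntegrallyClosedIn` for the integral closure of `R`). Let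
`u` be a coordinate of `a` with the largest valuation, so `u⁻¹` is in the maximal ideal of `V`. The
vector `a / u` has coordinates in `V`; let `b` be the vector of the residue classes, in the residue
field of `V`, which is an extension of `K`. One coordinate of `b` is `1`. A homogeneous polynomial `g`
of degree `d` with `g(a) = 0` has `g(a / u) = 0`, so `g(b) = 0`; and
`f j (a / u) = f j (a) / u ^ d`, `d > 0`, is in the maximal ideal, so `f j (b) = 0`. Now use
`descend_zero`. -/
theorem cone_zero {M : Type} [Field M] [Algebra K M] {ι κ σ : Type} [Fintype ι] [Fintype κ]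
    [Fintype σ] (a : ι → M) (s : σ → ι) (hs : AlgebraicIndependent K fun i => a (s i))
    (f : κ → MvPolynomial ι K) (hf : ∀ j, ∃ d, 0 < d ∧ (f j).IsHomogeneous d)
    (hcard : Fintype.card κ < Fintype.card σ) :
    ∃ x : ι → K, x ≠ 0 ∧ (∀ j, MvPolynomial.eval x (f j) = 0) ∧
      ∀ (g : MvPolynomial ι K) (d : ℕ), g.IsHomogeneous d → MvPolynomial.aeval a g = 0 →
        MvPolynomial.eval x g = 0 := by
  set F : κ → M := fun j => MvPolynomial.aeval a (f j) with hF
  obtain ⟨i₀, hi₀⟩ := exists_not_integral (fun i => a (s i)) hs F hcard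
  obtain ⟨V, hV, hiV⟩ := exists_valuation _ _ hi₀
  set v := V.valuation with hv
  have : Nonempty ι := ⟨s i₀⟩
  obtain ⟨i₁, hi₁⟩ := Finite.exists_max fun i => v (a i)
  have hbig : 1 < v (a i₁) := by
    refine lt_of_lt_of_le ?_ (hi₁ (s i₀))
    rw [← not_le, V.valuation_le_one_iff]
    exact hiV
  have hu : a i₁ ≠ 0 := by
    intro h
    rw [h, map_zero] at hbig
    exact absurd hbig (not_lt.2 zero_le_one)
  have hu' : v (a i₁) ≠ 0 := (Valuation.ne_zero_iff _).2 hu
  set c := (a i₁)⁻¹ with hc
  have hvc : v c < 1 := by
    rw [hc, map_inv₀]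
    exact inv_lt_one_of_one_lt₀ hbig
  have hB : ∀ i, c * a i ∈ V := by
    intro i
    rw [← V.valuation_le_one_iff, map_mul, hc, map_inv₀]
    calc (v (a i₁))⁻¹ * v (a i) ≤ (v (a i₁))⁻¹ * v (a i₁) := by gcongr; exact hi₁ i
      _ = 1 := inv_mul_cancel₀ hu'
  have hK : ∀ x : K, algebraMap K M x ∈ V := fun x => hV _ (Subalgebra.algebraMap_mem _ x)
  let φ : K →+* V := (algebraMap K M).codRestrict V hK
  let B : ι → V := fun i => ⟨c * a i, hB i⟩
  let _ : Algebra K (IsLocalRing.ResidueField V) := ((IsLocalRing.residue V).comp φ).toAlgebra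
  let b : ι → IsLocalRing.ResidueField V := fun i => IsLocalRing.residue V (B i)
  have hval : ∀ g : MvPolynomial ι K, MvPolynomial.aeval b g =
      IsLocalRing.residue V (MvPolynomial.eval₂ φ B g) := by
    intro g
    rw [MvPolynomial.eval₂_comp_left]
    rfl
  have hcoe : ∀ g : MvPolynomial ι K, ((MvPolynomial.eval₂ φ B g : V) : M) =
      MvPolynomial.aeval (fun i => c * a i) g := by
    intro g
    have h := MvPolynomial.eval₂_comp_left V.subtype φ B g
    exact h
  have hb : b ≠ 0 := by
    intro h
    have h1 : b i₁ = 0 := congrFun h i₁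
    have h2 : B i₁ = 1 := Subtype.ext (inv_mul_cancel₀ hu)
    have h3 : b i₁ = 1 := by
      change IsLocalRing.residue V (B i₁) = 1
      rw [h2, map_one]
    rw [h1] at h3
    exact zero_ne_one h3
  obtain ⟨x, hx, hxg⟩ := descend_zero {g : MvPolynomial ι K | MvPolynomial.aeval b g = 0} b hb
    fun g hg => hg
  refine ⟨x, hx, fun j => hxg _ ?_, fun g d hg hga => hxg _ ?_⟩
  · obtain ⟨d, hd, hfd⟩ := hf j
    change MvPolynomial.aeval b (f j) = 0
    rw [hval, IsLocalRing.residue_eq_zero_iff, V.valuation_lt_one_iff]
    rw [hcoe, aeval_mul_hom hfd, map_mul, map_pow]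
    have h1 : v (F j) ≤ 1 := by
      rw [V.valuation_le_one_iff]
      exact hV _ (Algebra.subset_adjoin ⟨j, rfl⟩)
    have h2 : v c ^ d < 1 := pow_lt_one₀ zero_le hvc hd.ne'
    calc v c ^ d * v (F j) ≤ v c ^ d * 1 := by gcongr
      _ = v c ^ d := mul_one _
      _ < 1 := h2
  · change MvPolynomial.aeval b g = 0
    have h1 : MvPolynomial.eval₂ φ B g = 0 := by
      apply Subtype.ext
      rw [hcoe, aeval_mul_hom hg, hga, mul_zero]
      rfl
    rw [hval, h1, map_zero]

end Pool.Agent.CUB
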