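import Pool.Agent.Dess.Defs

/-!
# Lines on a cubic fourfold

`F` is a cubic form in six variables with coefficients in the algebraically closed field `k`, the
equation of a cubic fourfold `X` in the projective space. `Ln F K` is the set of the lines on `X`
with coordinates in the field `K`. A curve is given by its function field `K`, a family of lines
over this curve is given by a line with coordinates in `K`.
-/

set_option autoImplicit false

noncomputable section

namespace Pool.Agent.CUB

open Pool.Agent.ZCyc Pool.Agent.Dess
open scoped Classical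

variable {k : Type} [Field k]

/-- `F = 0` is a smooth cubic fourfold: `F` is a cubic form, and its partial derivatives have no
common zero except the vector zero. -/
structure Smooth (F : MvPolynomial (Fin 6) k) : Prop where
  hom : F.IsHomogeneous 3
  ns : ∀ x : Fin 6 → k, (∀ i, MvPolynomial.eval x (MvPolynomial.pderiv i F) = 0) → x = 0

/-- The lines with coordinates in `K` on the cubic fourfold `F = 0`: the subspaces `W` of dimension
two of `K ^ 6` such that `F` is zero on `W`. -/
@[ext] structure Ln (F : MvPolynomial (Fin 6) k) (K : Type) [Field K] [Algebra k K] where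
  /-- the subspace -/
  W : Submodule K (Fin 6 → K)
  two : Module.finrank K W = 2
  on : ∀ x ∈ W, MvPolynomial.aeval x F = 0

variable {F : MvPolynomial (Fin 6) k}

/-- The line `y` is the value (the limit) of the line `x` at the place `v`: for every vector in `x`
whose coordinates are regular at `v`, the vector of the values at `v` is in `y`. -/
def IsVal {K : Type} [Field K] [Algebra k K] (v : Place k K) (x : Ln F K) (y : Ln F k) : Prop :=
  ∀ a ∈ x.W, ∀ b : Fin 6 → k, (∀ i, v.At (a i) (b i)) → b ∈ y.W

/-- The relations given by the rational functions on curves in the space of families of `N` lines: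
`K` is the function field of a curve, `x` a family of `N` lines over this curve, `y v` its value at
the point `v` of the curve, `D` the divisor of the function `f`; the relation is the sum of `y v` with
the multiplicities given by `D`. -/
def Rat (F : MvPolynomial (Fin 6) k) (N : ℕ) : Submodule ℚ ((Fin N → Ln F k) →₀ ℚ) :=
  Submodule.span ℚ {z | ∃ (K : Type) (_ : Field K) (_ : Algebra k K) (_ : IsCurve k K)
    (x : Fin N → Ln F K) (y : Place k K → Fin N → Ln F k) (f : K) (D : Place k K →₀ ℤ), f ≠ 0 ∧
    (∀ v, HasOrd v f (D v)) ∧ (∀ v j, IsVal v (x j) (y v j)) ∧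
    z = D.sum fun v a => Finsupp.single (y v) (a : ℚ)}

/-- The sum of the three lines `a 0`, `a 1`, `a 2` is the intersection of the cubic fourfold with a
plane `P`: on `P` the form `F` is the product of three linear forms with the kernels `a i`. -/
def Tri (a : Fin 3 → Ln F k) : Prop :=
  ∃ (P : Submodule k (Fin 6 → k)) (l : Fin 3 → (Fin 6 → k) →ₗ[k] k), Module.finrank k P = 3 ∧
    (∀ i x, x ∈ (a i).W ↔ x ∈ P ∧ l i x = 0) ∧ ∀ x ∈ P, MvPolynomial.aeval x F = ∏ i, l i x

/-- The relations between plane sections: in the factor `j` the sum of the three lines of a plane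
section is replaced by another such sum, the lines `c i` in the other factors are fixed. -/
def TriRel (F : MvPolynomial (Fin 6) k) (N : ℕ) : Submodule ℚ ((Fin N → Ln F k) →₀ ℚ) :=
  Submodule.span ℚ {z | ∃ (j : Fin N) (c : Fin N → Ln F k) (a b : Fin 3 → Ln F k), Tri a ∧ Tri b ∧
    z = ∑ i, (Finsupp.single (Function.update c j (a i)) 1 -
      Finsupp.single (Function.update c j (b i)) 1)}

/-- all relations -/
def Rel (F : MvPolynomial (Fin 6) k) (N : ℕ) : Submodule ℚ ((Fin N → Ln F k) →₀ ℚ) :=
  Rat F N ⊔ TriRel F N

/-- the exterior product of cycles -/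
def ext {T : Type} {n : ℕ} (z : Fin n → (T →₀ ℚ)) : (Fin n → T) →₀ ℚ :=
  ∑ x ∈ Fintype.piFinset fun j => (z j).support, Finsupp.single x (∏ j, z j (x j))

/-- the alternating sum of the exterior products -/
def alt {T : Type} {n : ℕ} (z : Fin n → (T →₀ ℚ)) : (Fin n → T) →₀ ℚ :=
  ∑ τ : Equiv.Perm (Fin n), (Equiv.Perm.sign τ : ℤ) • ext fun j => z (τ j)

end Pool.Agent.CUB
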