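import Pool.Agent.CUB.StarA

/-!
# Singular plane cubics
-/

set_option autoImplicit false

noncomputable section

namespace Pool.Agent.CUB

open Pool.Agent.ZCyc Pool.Agent.Dess Pool.Agent.GT
open Pool.Agent.VFP (Om tt)
open scoped Classical

variable {k : Type} [Field k] [IsAlgClosed k] [CharZero k] {F : MvPolynomial (Fin 6) k}

/-- `V` is a subspace of dimension four which contains `z`, and `F` restricted to `V` is a cone with
vertex `z` (over a plane cubic). -/
structure Cne {K : Type} [Field K] [Algebra k K] (F : MvPolynomial (Fin 6) k) (z : Fin 6 → K)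
    (V : Submodule K (Fin 6 → K)) : Prop where
  four : Module.finrank K V = 4
  mem : z ∈ V
  zero : ∀ x ∈ V, ∀ y ∈ V, tri F z x y = 0


/-! Linear algebra -/

private theorem li_of_minor {K : Type} [Field K] {ι : Type} {a b : ι → K} {i j : ι}
    (h : a i * b j ≠ a j * b i) : LinearIndependent K ![a, b] := by
  rw [LinearIndependent.pair_iff]
  intro x y hxy
  have hi : x * a i + y * b i = 0 := by simpa using congrFun hxy i
  have hj : x * a j + y * b j = 0 := by simpa using congrFun hxy j
  have hd : a i * b j - a j * b i ≠ 0 := sub_ne_zero.2 h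
  constructor
  · have : x * (a i * b j - a j * b i) = 0 := by linear_combination b j * hi - b i * hj
    exact (mul_eq_zero.1 this).resolve_right hd
  · have : y * (a i * b j - a j * b i) = 0 := by linear_combination a i * hj - a j * hi
    exact (mul_eq_zero.1 this).resolve_right hd

private theorem minor_of_li {K : Type} [Field K] {ι : Type} {a b : ι → K}
    (h : LinearIndependent K ![a, b]) : ∃ i j, a i * b j ≠ a j * b i := by
  by_contra hcon
  push Not at hcon
  have ha : a ≠ 0 := by
    have := h.ne_zero 0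
    simpa using this
  obtain ⟨i, hi⟩ := Function.ne_iff.1 ha
  have hi' : a i ≠ 0 := by simpa using hi
  rw [LinearIndependent.pair_iff] at h
  have h1 := h (b i) (-a i) (by
    funext j
    have := hcon i j
    simp only [Pi.add_apply, Pi.smul_apply, smul_eq_mul, Pi.zero_apply]
    linear_combination -this)
  exact hi' (neg_eq_zero.1 h1.2)

omit [IsAlgClosed k] [CharZero k] in
private theorem cub3 {K : Type} [Field K] [Algebra k K] (F : MvPolynomial (Fin 6) k) (a b c : K)
    (x y z : Fin 6 → K) :
    tri F (a • x + b • y + c • z) (a • x + b • y + c • z) (a • x + b • y + c • z) =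
      a ^ 3 * tri F x x x + b ^ 3 * tri F y y y + c ^ 3 * tri F z z z +
      3 * a ^ 2 * b * tri F x x y + 3 * a * b ^ 2 * tri F x y y + 3 * a ^ 2 * c * tri F x x z +
      3 * a * c ^ 2 * tri F x z z + 3 * b ^ 2 * c * tri F y y z + 3 * b * c ^ 2 * tri F y z z +
      6 * a * b * c * tri F x y z := by
  have h1 : ∀ u v : Fin 6 → K, tri F u v u = tri F u u v := fun u v => tri_swap23 F u v u
  have h2 : ∀ u v : Fin 6 → K, tri F v u u = tri F u u v := fun u v => by
    rw [tri_swap12, tri_swap23]
  simp only [tri_add1, tri_add2, tri_add3, tri_smul1, tri_smul2, tri_smul3]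
  rw [h1 x y, h1 x z, h1 y x, h1 y z, h1 z x, h1 z y, h2 y x, h2 z x, h2 z y, tri_swap12 F y x z,
    tri_swap23 F x z y, tri_swap23 F y z x, tri_swap12 F y x z, tri_swap12 F z x y,
    tri_swap23 F x z y, tri_swap23 F z y x, tri_swap12 F z x y, tri_swap23 F x z y, ← h2 x y,
    ← h2 x z, ← h2 y z]
  ring


open Polynomial in
/-- a family of lines through `z` in the space spanned by `z, s, w, y`; the coordinates are
polynomials of the parameter -/
private theorem fam (hF : Smooth F) {z : Fin 6 → k} {V : Submodule k (Fin 6 → k)}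
    (hV : Cne F z V) {s w y : Fin 6 → k} (hs : s ∈ V) (hw : w ∈ V) (hy : y ∈ V)
    (hss : ∀ y ∈ V, tri F s s y = 0) (hww : tri F w w w = 0) (hyy : tri F s y y = 0)
    (α β γ : k[X])
    (h0 : 3 * α * β ^ 2 * C (tri F s w w) + 6 * α * β * γ * C (tri F s w y) +
      3 * β ^ 2 * γ * C (tri F w w y) + 3 * β * γ ^ 2 * C (tri F w y y) +
      γ ^ 3 * C (tri F y y y) = 0)
    {m₀ m₁ : Ln F k} {y₀ y₁ : Fin 6 → k}
    (e₀ : y₀ = α.eval 0 • s + β.eval 0 • w + γ.eval 0 • y)
    (e₁ : y₁ = α.eval 1 • s + β.eval 1 • w + γ.eval 1 • y)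
    (h₀ : m₀.W = Submodule.span k {z, y₀}) (l₀ : LinearIndependent k ![z, y₀])
    (h₁ : m₁.W = Submodule.span k {z, y₁}) (l₁ : LinearIndependent k ![z, y₁]) :
    Finsupp.single m₀ (1 : ℚ) - Finsupp.single m₁ 1 ∈ R1 F := by
  set a : Om k := aeval (tt k) α with ha
  set b : Om k := aeval (tt k) β with hb
  set c : Om k := aeval (tt k) γ with hc
  set Y : Fin 6 → Om k := a • em (Om k) s + b • em (Om k) w + c • em (Om k) y with hYdef
  have hYi : ∀ i, Y i = a * algebraMap k (Om k) (s i) + b * algebraMap k (Om k) (w i) +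
      c * algebraMap k (Om k) (y i) := fun i => rfl
  have hval : ∀ (v : Place k (Om k)) (t : k), v.At (tt k) t → ∀ i,
      v.At (Y i) ((α.eval t • s + β.eval t • w + γ.eval t • y) i) := by
    intro v t hv i
    rw [hYi]
    have h1 := Pool.Agent.VFP.at_evalc hv α
    have h2 := Pool.Agent.VFP.at_evalc hv β
    have h3 := Pool.Agent.VFP.at_evalc hv γ
    simp only [Polynomial.coe_aeval_eq_eval] at h1 h2 h3
    exact ((h1.mul (Place.at_const _)).add (h2.mul (Place.at_const _))).add
      (h3.mul (Place.at_const _))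
  have hzv : ∀ (v : Place k (Om k)) (i : Fin 6), v.At (em (Om k) z i) (z i) :=
    fun v i => Place.at_const _
  -- linear independence
  have hli : LinearIndependent (Om k) ![em (Om k) z, Y] := by
    obtain ⟨i, j, hij⟩ := minor_of_li l₀
    apply li_of_minor (i := i) (j := j)
    intro hcon
    set p : k[X] := C (z i) * (α * C (s j) + β * C (w j) + γ * C (y j)) -
      C (z j) * (α * C (s i) + β * C (w i) + γ * C (y i)) with hp
    have hp0 : aeval (tt k) p = 0 := by
      rw [hp]
      simp only [map_sub, map_mul, map_add, aeval_C]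
      rw [← ha, ← hb, ← hc, ← hYi, ← hYi]
      exact sub_eq_zero.2 hcon
    have hp1 : p = 0 := by
      by_contra hne
      exact (transcendental_iff.1 (Pool.Agent.VFP.tt_transc (k := k))) p hp0 |> hne
    apply hij
    have h2 : p.eval 0 = 0 := by rw [hp1, eval_zero]
    rw [hp] at h2
    simp only [eval_sub, eval_mul, eval_add, eval_C] at h2
    rw [e₀]
    simp only [Pi.add_apply, Pi.smul_apply, smul_eq_mul]
    exact sub_eq_zero.1 h2
  -- the equations
  have hz2 : ∀ x ∈ V, ∀ x' ∈ V, tri F (em (Om k) z) (em (Om k) x) (em (Om k) x') = 0 := by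
    intro x hx x' hx'
    rw [tri_em, hV.zero x hx x' hx', map_zero]
  have hzY : tri F (em (Om k) z) Y Y = 0 := by
    rw [hYdef]
    simp only [tri_add2, tri_add3, tri_smul2, tri_smul3]
    simp only [hz2 s hs s hs, hz2 s hs w hw, hz2 s hs y hy, hz2 w hw s hs, hz2 w hw w hw,
      hz2 w hw y hy, hz2 y hy s hs, hz2 y hy w hw, hz2 y hy y hy]
    ring
  have hzzY : tri F (em (Om k) z) (em (Om k) z) Y = 0 := by
    rw [hYdef]
    simp only [tri_add3, tri_smul3]
    simp only [hz2 z hV.mem s hs, hz2 z hV.mem w hw, hz2 z hV.mem y hy]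
    ring
  have hYYY : tri F Y Y Y = 0 := by
    rw [hYdef, cub3]
    simp only [tri_em]
    rw [hss s hs, hww, hss w hw, hss y hy, hyy, ha, hb, hc]
    have h2 := congrArg (aeval (tt k)) h0
    simp only [map_add, map_mul, map_pow, aeval_C, map_zero, map_ofNat] at h2
    simp only [map_zero]
    linear_combination h2
  obtain ⟨n, hn⟩ := exists_ln hF hli (hz2 z hV.mem z hV.mem) hzzY hzY hYYY
  refine bridge_ln hF (n := n) (c₀ := 0) (c₁ := 1) (fun v hv => ?_) (fun v hv => ?_)
  · refine val_span hn h₀ (hzv v) (fun i => ?_) l₀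
    rw [e₀]
    exact hval v 0 hv i
  · refine val_span hn h₁ (hzv v) (fun i => ?_) l₁
    rw [e₁]
    exact hval v 1 hv i


omit [CharZero k] in
private theorem li4 {z s w y : Fin 6 → k} (hz : z ≠ 0) (hs : s ∉ Submodule.span k {z})
    (hw : w ∉ Submodule.span k {z, s}) (hy : y ∉ Submodule.span k {z, s, w}) {a b c d : k}
    (h : a • z + b • s + c • w + d • y = 0) : a = 0 ∧ b = 0 ∧ c = 0 ∧ d = 0 := by
  have hd : d = 0 := by
    by_contra hd
    apply hy
    have h1 : y = d⁻¹ • -(a • z + b • s + c • w) := by
      rw [← eq_neg_of_add_eq_zero_right h, smul_smul, inv_mul_cancel₀ hd, one_smul]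
    rw [h1]
    refine Submodule.smul_mem _ _ (Submodule.neg_mem _
      (Submodule.add_mem _ (Submodule.add_mem _ ?_ ?_) ?_)) <;>
      refine Submodule.smul_mem _ _ (Submodule.subset_span ?_) <;> simp
  subst hd
  have hc : c = 0 := by
    by_contra hc
    apply hw
    have h' : a • z + b • s + c • w = 0 := by simpa using h
    have h1 : w = c⁻¹ • -(a • z + b • s) := by
      rw [← eq_neg_of_add_eq_zero_right h', smul_smul, inv_mul_cancel₀ hc, one_smul]
    rw [h1]
    refine Submodule.smul_mem _ _ (Submodule.neg_mem _ (Submodule.add_mem _ ?_ ?_)) <;>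
      refine Submodule.smul_mem _ _ (Submodule.subset_span ?_) <;> simp
  subst hc
  have hb : b = 0 := by
    by_contra hb
    apply hs
    have h' : a • z + b • s = 0 := by simpa using h
    have h1 : s = b⁻¹ • -(a • z) := by
      rw [← eq_neg_of_add_eq_zero_right h', smul_smul, inv_mul_cancel₀ hb, one_smul]
    rw [h1]
    exact Submodule.smul_mem _ _ (Submodule.neg_mem _ (Submodule.smul_mem _ _
      (Submodule.subset_span rfl)))
  subst hb
  have ha : a = 0 := by
    have h' : a • z = 0 := by simpa using h
    exact (smul_eq_zero.1 h').resolve_right hz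
  exact ⟨ha, rfl, rfl, rfl⟩

omit [IsAlgClosed k] [CharZero k] in
private theorem finrank_span_le {l : List (Fin 6 → k)} :
    Module.finrank k (Submodule.span k {x | x ∈ l}) ≤ l.length := by
  have h := finrank_span_finset_le_card (R := k) l.toFinset
  have h1 : ((l.toFinset : Finset (Fin 6 → k)) : Set (Fin 6 → k)) = {x | x ∈ l} := by
    ext x
    simp
  rw [h1] at h
  exact h.trans (List.toFinset_card_le l)

open Polynomial in
/-- every line is equivalent to the line through the singular point -/
private theorem to_sing (hF : Smooth F) {z : Fin 6 → k} (hz : z ≠ 0)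
    {V : Submodule k (Fin 6 → k)} (hV : Cne F z V) {s : Fin 6 → k} (hs : s ∈ V)
    (hs' : s ∉ Submodule.span k {z}) (hsing : ∀ y ∈ V, tri F s s y = 0) {m ms : Ln F k}
    (hms : ms.W = Submodule.span k {z, s}) (hm : z ∈ m.W) (hmV : m.W ≤ V) :
    Finsupp.single m (1 : ℚ) - Finsupp.single ms 1 ∈ R1 F := by
  -- a second vector of `m`
  obtain ⟨w, hwm, hwz⟩ : ∃ w ∈ m.W, w ∉ Submodule.span k {z} := by
    by_contra hcon
    push Not at hcon
    have h1 : Module.finrank k m.W ≤ Module.finrank k (Submodule.span k {z}) :=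
      Submodule.finrank_mono fun x hx => hcon x hx
    rw [m.two, finrank_span_singleton hz] at h1
    omega
  have hmW : m.W = Submodule.span k {z, w} := by
    have hle : Submodule.span k {z, w} ≤ m.W := by
      rw [Submodule.span_le]
      rintro x (rfl | rfl)
      · exact hm
      · exact hwm
    refine (Submodule.eq_of_le_of_finrank_le hle ?_).symm
    rw [m.two]
    have hlt : Submodule.span k {z} < Submodule.span k {z, w} := by
      refine lt_of_le_of_ne (Submodule.span_mono (by simp)) ?_
      intro heq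
      apply hwz
      rw [heq]
      exact Submodule.subset_span (by simp)
    have := Submodule.finrank_lt_finrank_of_lt hlt
    rw [finrank_span_singleton hz] at this
    omega
  by_cases hws : w ∈ Submodule.span k {z, s}
  · have : m = ms := by
      apply Ln.eq_of_le
      rw [hmW, hms, Submodule.span_le]
      rintro x (rfl | rfl)
      · exact Submodule.subset_span (by simp)
      · exact hws
    rw [this, sub_self]
    exact zero_mem _
  have hwV : w ∈ V := hmV hwm
  have hww : tri F w w w = 0 := m.tri_zero hF hwm hwm hwm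
  have hzz : tri F z z z = 0 := hV.zero z hV.mem z hV.mem
  -- planes
  have hplane : ∀ (y : Fin 6 → k), y ∈ V → y ∉ Submodule.span k {z, s} → tri F s y y = 0 →
      tri F y y y = 0 → ∀ n : Ln F k, n.W ≤ Submodule.span k {z, s, y} →
      Finsupp.single n (1 : ℚ) - Finsupp.single ms 1 ∈ R1 F := by
    intro y hyV hy hsyy hyyy n hn
    refine plane_eqv hF (P := Submodule.span k {z, s, y}) ?_ ?_ hn ?_
    · have h1 : Module.finrank k (Submodule.span k {z, s, y}) ≤ 3 := by
        have := finrank_span_le (l := [z, s, y])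
        have h2 : ({x | x ∈ [z, s, y]} : Set (Fin 6 → k)) = {z, s, y} := by
          ext x; simp
        rw [h2] at this
        simpa using this
      have h3 : Submodule.span k {z, s} < Submodule.span k {z, s, y} := by
        refine lt_of_le_of_ne (Submodule.span_mono ?_) ?_
        · intro x hx
          rcases hx with rfl | rfl <;> simp
        · intro heq
          apply hy
          rw [heq]
          exact Submodule.subset_span (by simp)
      have h4 := Submodule.finrank_lt_finrank_of_lt h3
      rw [← hms, ms.two] at h4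
      omega
    · intro x hx
      obtain ⟨a, x', hx', rfl⟩ := Submodule.mem_span_insert.1 hx
      obtain ⟨b, x'', hx'', rfl⟩ := Submodule.mem_span_insert.1 hx'
      obtain ⟨c, rfl⟩ := Submodule.mem_span_singleton.1 hx''
      rw [← tri_self hF.hom, ← add_assoc, cub3, hzz, hsing s hs, hyyy, hsing y hyV, hsyy,
        hV.zero y hyV y hyV, hV.zero s hs y hyV, hV.zero s hs s hs, hV.zero z hV.mem s hs,
        hV.zero z hV.mem y hyV]
      ring
    · rw [hms, Submodule.span_le]
      rintro x (rfl | rfl) <;> exact Submodule.subset_span (by simp)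
  by_cases hq : tri F s w w = 0
  · refine hplane w hwV hws hq hww m ?_
    rw [hmW, Submodule.span_le]
    rintro x (rfl | rfl) <;> exact Submodule.subset_span (by simp)
  -- the vector `y'`
  obtain ⟨w', hw'V, hw'⟩ : ∃ w' ∈ V, w' ∉ Submodule.span k {z, s, w} := by
    by_contra hcon
    push Not at hcon
    have h1 : Module.finrank k V ≤ Module.finrank k (Submodule.span k {z, s, w}) :=
      Submodule.finrank_mono fun x hx => hcon x hx
    have h2 : Module.finrank k (Submodule.span k {z, s, w}) ≤ 3 := by
      have := finrank_span_le (l := [z, s, w])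
      have h2 : ({x | x ∈ [z, s, w]} : Set (Fin 6 → k)) = {z, s, w} := by
        ext x; simp
      rw [h2] at this
      simpa using this
    rw [hV.four] at h1
    omega
  obtain ⟨x, hx⟩ : ∃ x : k, tri F s w w * x ^ 2 + 2 * tri F s w w' * x + tri F s w' w' = 0 := by
    set p : k[X] := C (tri F s w w) * X ^ 2 + C (2 * tri F s w w') * X + C (tri F s w' w') with hp
    have hdeg : p.degree ≠ 0 := by
      rw [hp, Polynomial.degree_quadratic hq]
      decide
    obtain ⟨x, hx⟩ := IsAlgClosed.exists_root p hdeg
    refine ⟨x, ?_⟩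
    rw [hp] at hx
    simpa [IsRoot] using hx
  set y : Fin 6 → k := x • w + w' with hydef
  have hyV : y ∈ V := V.add_mem (V.smul_mem _ hwV) hw'V
  have hyn : y ∉ Submodule.span k {z, s, w} := by
    intro hcon
    apply hw'
    have : w' = y - x • w := by rw [hydef]; simp
    rw [this]
    exact Submodule.sub_mem _ hcon (Submodule.smul_mem _ _ (Submodule.subset_span (by simp)))
  have hyn' : y ∉ Submodule.span k {z, s} := by
    intro hcon
    apply hyn
    refine Submodule.span_mono ?_ hcon
    intro x hx
    rcases hx with rfl | rfl <;> simp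
  have hsyy : tri F s y y = 0 := by
    rw [hydef]
    simp only [tri_add2, tri_add3, tri_smul2, tri_smul3]
    rw [tri_swap23 F s w' w]
    linear_combination hx
  have hli : ∀ a b c : k, (a ≠ 0 ∨ b ≠ 0 ∨ c ≠ 0) →
      LinearIndependent k ![z, a • s + b • w + c • y] := by
    intro a b c habc
    rw [LinearIndependent.pair_iff]
    intro p q hpq
    have h1 : p • z + (q * a) • s + (q * b) • w + (q * c) • y = 0 := by
      rw [← hpq]
      simp only [smul_add, smul_smul]
      abel
    obtain ⟨h2, h3, h4, h5⟩ := li4 hz hs' hws hyn h1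
    refine ⟨h2, ?_⟩
    rcases habc with h | h | h
    · exact (mul_eq_zero.1 h3).resolve_right h
    · exact (mul_eq_zero.1 h4).resolve_right h
    · exact (mul_eq_zero.1 h5).resolve_right h
  have hsp : ∀ (c : k) (u : Fin 6 → k), c ≠ 0 →
      Submodule.span k {z, u} = Submodule.span k {z, c • u} := by
    intro c u hc
    rw [Submodule.span_insert, Submodule.span_insert,
      Submodule.span_singleton_smul_eq (IsUnit.mk0 c hc)]
  by_cases hC : tri F y y y = 0
  swap
  · -- the cubic is not zero at `y`
    refine fam hF hV hs hwV hyV hsing hww hsyy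
      (-(3 * (1 - X) ^ 2 * X * C (tri F w w y) + 3 * (1 - X) * X ^ 2 * C (tri F w y y) +
        X ^ 3 * C (tri F y y y)))
      (3 * ((1 - X) * ((1 - X) * C (tri F s w w) + 2 * X * C (tri F s w y))) * (1 - X))
      (3 * ((1 - X) * ((1 - X) * C (tri F s w w) + 2 * X * C (tri F s w y))) * X)
      (by ring) rfl rfl ?_ ?_ ?_ ?_
    · rw [hmW, hsp (3 * tri F s w w) w (mul_ne_zero (by norm_num) hq)]
      simp
    · apply hli
      right; left
      simpa using hq
    · rw [hms, hsp (-tri F y y y) s (neg_ne_zero.2 hC)]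
      simp
    · apply hli
      left
      simpa using hC
  -- a line in the plane
  have hline : ∀ a c : k, (a ≠ 0 ∨ c ≠ 0) → ∃ m₁ : Ln F k,
      m₁.W = Submodule.span k {z, a • s + (0 : k) • w + c • y} ∧
      Finsupp.single m₁ (1 : ℚ) - Finsupp.single ms 1 ∈ R1 F := by
    intro a c hac
    set y₁ : Fin 6 → k := a • s + (0 : k) • w + c • y with hy₁
    have hy₁V : y₁ ∈ V := V.add_mem (V.add_mem (V.smul_mem _ hs) (V.smul_mem _ hwV))
      (V.smul_mem _ hyV)
    have hy₁0 : tri F y₁ y₁ y₁ = 0 := by
      rw [hy₁, cub3, hsing s hs, hC, hsing y hyV, hsyy]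
      ring
    obtain ⟨m₁, hm₁⟩ := exists_ln hF (hli a 0 c (by tauto)) hzz (hV.zero z hV.mem y₁ hy₁V)
      (hV.zero y₁ hy₁V y₁ hy₁V) hy₁0
    refine ⟨m₁, hm₁, hplane y hyV hyn' hsyy hC m₁ ?_⟩
    rw [hm₁, Submodule.span_le]
    rintro x (rfl | rfl)
    · exact Submodule.subset_span (by simp)
    · refine Submodule.add_mem _ (Submodule.add_mem _ ?_ ?_) ?_
      · exact Submodule.smul_mem _ _ (Submodule.subset_span (by simp))
      · rw [zero_smul]
        exact zero_mem _
      · exact Submodule.smul_mem _ _ (Submodule.subset_span (by simp))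
  by_cases hBb : tri F w y y ≠ 0 ∨ tri F s w y ≠ 0
  · obtain ⟨m₁, hm₁, hm₁s⟩ := hline (-tri F w y y) (2 * tri F s w y) (by
      rcases hBb with h | h
      · exact Or.inl (neg_ne_zero.2 h)
      · exact Or.inr (mul_ne_zero two_ne_zero h))
    have h1 : Finsupp.single m (1 : ℚ) - Finsupp.single m₁ 1 ∈ R1 F := by
      refine fam hF hV hs hwV hyV hsing hww hsyy
        (-(X * ((1 - X) * C (tri F w w y) + X * C (tri F w y y))))
        (((1 - X) * C (tri F s w w) + 2 * X * C (tri F s w y)) * (1 - X))
        (((1 - X) * C (tri F s w w) + 2 * X * C (tri F s w y)) * X)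
        (by rw [hC, C_0]; ring) rfl rfl ?_ ?_ ?_ ?_
      · rw [hmW, hsp (tri F s w w) w hq]
        simp
      · apply hli
        right; left
        simpa using hq
      · rw [hm₁]
        simp
      · apply hli
        rcases hBb with h | h
        · left
          simpa using h
        · right; right
          simpa using h
    have h2 := Submodule.add_mem _ h1 hm₁s
    simpa using h2
  · push Not at hBb
    obtain ⟨hB, hb⟩ := hBb
    obtain ⟨m₁, hm₁, hm₁s⟩ := hline (-tri F w w y) (tri F s w w) (Or.inr hq)
    have h1 : Finsupp.single m (1 : ℚ) - Finsupp.single m₁ 1 ∈ R1 F := by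
      refine fam hF hV hs hwV hyV hsing hww hsyy
        (-(X * C (tri F w w y))) (C (tri F s w w) * (1 - X)) (C (tri F s w w) * X)
        (by rw [hC, hB, hb, C_0]; ring) rfl rfl ?_ ?_ ?_ ?_
      · rw [hmW, hsp (tri F s w w) w hq]
        simp
      · apply hli
        right; left
        simpa using hq
      · rw [hm₁]
        simp
      · apply hli
        right; right
        simpa using hq
    have h2 := Submodule.add_mem _ h1 hm₁s
    simpa using h2

/-- A SINGULAR PLANE CUBIC. If the plane cubic has a singular point `s` then all lines `m` through `z`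
in `V` are equivalent. Proof. Let `m_s = ⟨z, s⟩`. (a) If `F` is zero on the plane `⟨z, s, y⟩` then all
lines in this plane are equivalent to `m_s` (`plane_eqv`). (b) Let `m = ⟨z, α s + β y⟩`, `β ≠ 0`. We have
`F(α s + β y) = β ^ 2 (3 α q(y) + β c(y))`, `q(y) = tri F s y y`, `c(y) = F(y)`, so
`3 α q(y) + β c(y) = 0`; if `q(y) = 0` then `c(y) = 0` and (a) applies; so `q(y) ≠ 0`, and
`m = ⟨z, -c(y) s + 3 q(y) y⟩`. Choose a vector `y'` in `V`, such that `y'` is not in `⟨z, s⟩`, with
`q(y') = 0` (on a complement of `⟨z, s⟩` in `V`, which has dimension two, `q` has a nonzero zero; note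
that `q(y + a z + b s) = q(y)`). Let `y(t) = (1 - t) y + t y'`, and let `n` be the line
`⟨z, -c(y(t)) s + 3 q(y(t)) y(t)⟩` over `Om k` (`q(y(t)) ≠ 0`, because it is not zero for `t = 0`, so this is a
line, and it is contained in the cubic fourfold). At `t = 0` its value is `m`. At `t = 1` every value
`m₁` is a line in `⟨z, s, y'⟩`; it is the same for all places with `t = 1`, because it is the
value of a line with coordinates in `k(t)` (or: prove it only for the line; if `c(y') ≠ 0` it is `m_s`;
if `c(y') = 0` divide the coordinates `-c(y(t))`, `3 q(y(t))` by a power of `t - 1` such that they are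
not both zero at `t = 1`). In the case `c(y') ≠ 0` we are done, in the case `c(y') = 0` use (a) for
`⟨z, s, y'⟩`. -/
theorem sing_eqv (hF : Smooth F) {z : Fin 6 → k} (hz : z ≠ 0) {V : Submodule k (Fin 6 → k)}
    (hV : Cne F z V) {s : Fin 6 → k} (hs : s ∈ V) (hs' : s ∉ Submodule.span k {z})
    (hsing : ∀ y ∈ V, tri F s s y = 0) {m m' : Ln F k} (hm : z ∈ m.W) (hmV : m.W ≤ V)
    (hm' : z ∈ m'.W) (hmV' : m'.W ≤ V) :
    Finsupp.single m (1 : ℚ) - Finsupp.single m' 1 ∈ R1 F := by
  have hzz : tri F z z z = 0 := hV.zero z hV.mem z hV.mem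
  have hli : LinearIndependent k ![z, s] := by
    rw [LinearIndependent.pair_iff]
    intro p q hpq
    have hq : q = 0 := by
      by_contra hq
      apply hs'
      have h1 : s = q⁻¹ • -(p • z) := by
        rw [← eq_neg_of_add_eq_zero_right hpq, smul_smul, inv_mul_cancel₀ hq, one_smul]
      rw [h1]
      exact Submodule.smul_mem _ _ (Submodule.neg_mem _ (Submodule.smul_mem _ _
        (Submodule.subset_span rfl)))
    subst hq
    rw [zero_smul, add_zero] at hpq
    exact ⟨(smul_eq_zero.1 hpq).resolve_right hz, rfl⟩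
  obtain ⟨ms, hms⟩ := exists_ln hF hli hzz (hV.zero z hV.mem s hs) (hV.zero s hs s hs)
    (hsing s hs)
  have h1 := to_sing hF hz hV hs hs' hsing hms hm hmV
  have h2 := to_sing hF hz hV hs hs' hsing hms hm' hmV'
  have h3 := Submodule.sub_mem _ h1 h2
  simpa using h3

end Pool.Agent.CUB
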