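import Pool.Agent.CUB.Base
import Pool.Agent.CUB.Star

/-!
# The two cones over plane cubics at the base point
-/

set_option autoImplicit false

noncomputable section

namespace Pool.Agent.CUB

open Pool.Agent.ZCyc Pool.Agent.Dess Pool.Agent.GT
open Pool.Agent.VFP (Om tt)
open scoped Classical

variable {k : Type} [Field k] [IsAlgClosed k] [CharZero k] {F : MvPolynomial (Fin 6) k}

omit [IsAlgClosed k] [CharZero k] in
/-- scalar and sum rules for the third argument pair of the polarisation -/
private theorem fa_exp {K : Type} [Field K] [Algebra k K] (o d y w : Fin 6 → K) (a b : K)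
    (hdd : tri F o d d = 0)
    (hdy : tri F o d y = 0) (hdw : tri F o d w = 0) (hyw : tri F o y w = 0) :
    tri F o (d + (a • y + b • w)) (d + (a • y + b • w)) =
      a * a * tri F o y y + b * b * tri F o w w := by
  have hyd : tri F o y d = 0 := by rw [tri_swap23]; exact hdy
  have hwd : tri F o w d = 0 := by rw [tri_swap23]; exact hdw
  have hwy : tri F o w y = 0 := by rw [tri_swap23]; exact hyw
  simp only [tri_add2, tri_add3, tri_smul2, tri_smul3, hdd, hdy, hdw, hyw, hyd, hwd, hwy,
    mul_zero, add_zero, zero_add]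
  ring

/-- The quadratic form `tri F o y y` on the tangent hyperplane at `o` is zero, or its zeros are the
union of two subspaces `V₁`, `V₂` of dimension four (maybe equal). Proof: `D = ⟨o, r, s⟩` has
dimension three (`o` is not in the kernel of the Hessian matrix, `tri_ns_om`), it is contained in the
tangent hyperplane `T` and in the kernel of the form on `T`, and `T / D` has dimension two. -/
theorem exists_fac (hF : Smooth F) {o : Fin 6 → Om k} (hB : Bp F o) :
    (∀ y, tri F o o y = 0 → tri F o y y = 0) ∨
    ∃ V₁ V₂ : Submodule (Om k) (Fin 6 → Om k), Cne F o V₁ ∧ Cne F o V₂ ∧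
      ∀ y, tri F o o y = 0 → tri F o y y = 0 → y ∈ V₁ ∨ y ∈ V₂ := by
  by_cases hall : ∀ y, tri F o o y = 0 → tri F o y y = 0
  · exact Or.inl hall
  right
  push Not at hall
  obtain ⟨y0, hy0, hq0⟩ := hall
  obtain ⟨r, s, hrs, hr, hs⟩ := hB.ker
  have hnz : ¬ ∀ z, tri F o o z = 0 := by
    intro h
    have h0 : o = 0 := tri_ns_om hF h
    apply hq0
    rw [h0, tri_zero1]
  -- the span of `o`, `r`, `s` is in the kernel
  set D : Submodule (Om k) (Fin 6 → Om k) := Submodule.span (Om k) (Set.range ![o, r, s]) with hD
  have hor : ∀ z, tri F o r z = 0 := hr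
  have hos : ∀ z, tri F o s z = 0 := hs
  have hDm : ∀ d ∈ D, ∃ a b c : Om k, d = a • o + (b • r + c • s) := by
    intro d hd
    obtain ⟨c, hc⟩ := (Submodule.mem_span_range_iff_exists_fun _).1 hd
    refine ⟨c 0, c 1, c 2, ?_⟩
    rw [← hc, Fin.sum_univ_three]
    simp [add_assoc]
  have hDk : ∀ d ∈ D, ∀ t, tri F o o t = 0 → tri F o d t = 0 := by
    intro d hd t ht
    obtain ⟨a, b, c, rfl⟩ := hDm d hd
    simp only [tri_add2, tri_smul2, ht, hor, hos, mul_zero, add_zero]
  have hDT : ∀ d ∈ D, tri F o o d = 0 := by
    intro d hd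
    obtain ⟨a, b, c, rfl⟩ := hDm d hd
    have e1 : tri F o o r = 0 := by rw [tri_swap23]; exact hor o
    have e2 : tri F o o s = 0 := by rw [tri_swap23]; exact hos o
    simp only [tri_add3, tri_smul3, hB.on, e1, e2, mul_zero, add_zero]
  have hrs' : ∀ b c : Om k, b • r + c • s = 0 → b = 0 ∧ c = 0 := by
    intro b c h
    exact LinearIndependent.pair_iff.1 hrs b c h
  have hors : ∀ a b c : Om k, a • o + (b • r + c • s) = 0 → a = 0 ∧ b = 0 ∧ c = 0 := by
    intro a b c h
    have ha : a = 0 := by
      by_contra ha
      apply hnz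
      intro z
      have e : tri F o (a • o + (b • r + c • s)) z = 0 := by rw [h, tri_zero2]
      simp only [tri_add2, tri_smul2, hor, hos, mul_zero, add_zero] at e
      exact (mul_eq_zero.1 e).resolve_left ha
    rw [ha, zero_smul, zero_add] at h
    exact ⟨ha, hrs' b c h⟩
  have hD3 : Module.finrank (Om k) D = 3 := by
    have hli : LinearIndependent (Om k) ![o, r, s] := by
      rw [Fintype.linearIndependent_iff]
      intro g hg
      rw [Fin.sum_univ_three] at hg
      have := hors (g 0) (g 1) (g 2) (by simpa [add_assoc] using hg)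
      intro i
      fin_cases i
      · exact this.1
      · exact this.2.1
      · exact this.2.2
    have := finrank_span_eq_card hli
    simpa using this
  -- the vectors of the tangent hyperplane orthogonal to `y0`
  obtain ⟨w, hwT, hwy, hwD⟩ : ∃ w, tri F o o w = 0 ∧ tri F o y0 w = 0 ∧ w ∉ D := by
    set φ : (Fin 6 → Om k) →ₗ[Om k] (Om k × Om k) := (trl F o o).prod (trl F o y0) with hφ
    have h1 := LinearMap.finrank_range_add_finrank_ker φ
    have h2 : Module.finrank (Om k) (LinearMap.range φ) ≤ 2 := by
      have := Submodule.finrank_le (LinearMap.range φ)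
      simpa using this
    have h3 : Module.finrank (Om k) (Fin 6 → Om k) = 6 := by simp
    have h4 : 4 ≤ Module.finrank (Om k) (LinearMap.ker φ) := by omega
    have h5 : ¬ LinearMap.ker φ ≤ D := by
      intro h
      have := Submodule.finrank_mono h
      omega
    obtain ⟨w, hw, hwD⟩ := SetLike.not_le_iff_exists.1 h5
    rw [LinearMap.mem_ker] at hw
    have e1 : trl F o o w = 0 := congrArg Prod.fst hw
    have e2 : trl F o y0 w = 0 := congrArg Prod.snd hw
    exact ⟨w, e1, e2, hwD⟩
  have hDd : ∀ a b c : Om k, a • o + (b • r + c • s) ∈ D := by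
    intro a b c
    have ho : o ∈ D := Submodule.subset_span ⟨0, rfl⟩
    have hr' : r ∈ D := Submodule.subset_span ⟨1, rfl⟩
    have hs' : s ∈ D := Submodule.subset_span ⟨2, rfl⟩
    exact D.add_mem (D.smul_mem _ ho) (D.add_mem (D.smul_mem _ hr') (D.smul_mem _ hs'))
  have hoD : o ∈ D := Submodule.subset_span ⟨0, rfl⟩
  -- independence of a vector of `D`, `y0` and `w`
  have hind : ∀ d ∈ D, ∀ a b : Om k, d + (a • y0 + b • w) = 0 → a = 0 ∧ b = 0 := by
    intro d hd a b h
    have ha : a = 0 := by
      have e : tri F o (d + (a • y0 + b • w)) y0 = 0 := by rw [h, tri_zero2]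
      have e1 : tri F o w y0 = 0 := by rw [tri_swap23]; exact hwy
      simp only [tri_add2, tri_smul2, hDk d hd y0 hy0, e1, mul_zero, add_zero, zero_add] at e
      exact (mul_eq_zero.1 e).resolve_right hq0
    refine ⟨ha, ?_⟩
    by_contra hb
    apply hwD
    rw [ha, zero_smul, zero_add] at h
    have e : w = -(b⁻¹ • d) := by
      have e1 : b • w = -d := by
        rw [eq_neg_iff_add_eq_zero, add_comm]
        exact h
      rw [← smul_neg, ← e1, smul_smul, inv_mul_cancel₀ hb, one_smul]
    rw [e]
    exact D.neg_mem (D.smul_mem _ hd)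
  -- every vector of the tangent hyperplane
  have hT : ∀ y, tri F o o y = 0 → ∃ d ∈ D, ∃ a b : Om k, y = d + (a • y0 + b • w) := by
    set T : Submodule (Om k) (Fin 6 → Om k) := LinearMap.ker (trl F o o) with hTd
    set S : Submodule (Om k) (Fin 6 → Om k) := Submodule.span (Om k) (Set.range ![o, r, s, y0, w])
      with hS
    have hST : S ≤ T := by
      rw [hS, Submodule.span_le]
      rintro x ⟨i, rfl⟩
      show trl F o o _ = 0
      rw [trl_apply]
      fin_cases i
      · exact hB.on
      · exact hDT r (Submodule.subset_span ⟨1, rfl⟩)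
      · exact hDT s (Submodule.subset_span ⟨2, rfl⟩)
      · exact hy0
      · exact hwT
    have hS5 : Module.finrank (Om k) S = 5 := by
      have hli : LinearIndependent (Om k) ![o, r, s, y0, w] := by
        rw [Fintype.linearIndependent_iff]
        intro g hg
        rw [Fin.sum_univ_five] at hg
        have hg' : (g 0 • o + (g 1 • r + g 2 • s)) + (g 3 • y0 + g 4 • w) = 0 := by
          rw [← hg]
          simp [add_assoc]
        have h1 := hind _ (hDd (g 0) (g 1) (g 2)) _ _ hg'
        rw [h1.1, h1.2, zero_smul, zero_smul, add_zero, add_zero] at hg'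
        have h2 := hors _ _ _ hg'
        intro i
        fin_cases i
        · exact h2.1
        · exact h2.2.1
        · exact h2.2.2
        · exact h1.1
        · exact h1.2
      have := finrank_span_eq_card hli
      simpa using this
    have hT5 : Module.finrank (Om k) T ≤ 5 := by
      have hne : T ≠ ⊤ := by
        intro h
        apply hnz
        intro z
        have hz : z ∈ T := by rw [h]; exact Submodule.mem_top
        exact hz
      have h1 := Submodule.finrank_lt hne
      have h3 : Module.finrank (Om k) (Fin 6 → Om k) = 6 := by simp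
      omega
    have heq : S = T := Submodule.eq_of_le_of_finrank_le hST (by omega)
    intro y hy
    have hyS : y ∈ S := by
      rw [heq]
      exact hy
    obtain ⟨c, hc⟩ := (Submodule.mem_span_range_iff_exists_fun _).1 hyS
    refine ⟨c 0 • o + (c 1 • r + c 2 • s), hDd _ _ _, c 3, c 4, ?_⟩
    rw [← hc, Fin.sum_univ_five]
    simp [add_assoc]
  obtain ⟨c, hc⟩ := IsAlgClosed.exists_eq_mul_self (-(tri F o w w / tri F o y0 y0))
  have hc' : c * c * tri F o y0 y0 + tri F o w w = 0 := by
    rw [← hc]
    field_simp
    ring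
  -- the cones
  have key : ∀ e : Om k, e * e = c * c →
      Cne F o (D ⊔ Submodule.span (Om k) {e • y0 + w}) := by
    intro e he
    have hpT : tri F o o (e • y0 + w) = 0 := by
      simp only [tri_add3, tri_smul3, hy0, hwT, mul_zero, add_zero]
    have hpp : tri F o (e • y0 + w) (e • y0 + w) = 0 := by
      have e1 : tri F o w y0 = 0 := by rw [tri_swap23]; exact hwy
      simp only [tri_add2, tri_add3, tri_smul2, tri_smul3, hwy, e1, mul_zero, add_zero,
        zero_add]
      rw [← hc', ← he]
      ring
    have hpD : e • y0 + w ∉ D := by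
      intro h
      have := hind _ (D.neg_mem h) e 1 (by rw [one_smul]; simp)
      exact one_ne_zero this.2
    refine ⟨?_, Submodule.mem_sup_left hoD, ?_⟩
    · have h1 := Submodule.finrank_sup_add_finrank_inf_eq D
        (Submodule.span (Om k) {e • y0 + w})
      have hp0 : e • y0 + w ≠ 0 := fun h => hpD (by rw [h]; exact D.zero_mem)
      have h2 : Module.finrank (Om k) (Submodule.span (Om k) {e • y0 + w}) = 1 :=
        finrank_span_singleton hp0
      have h3 : D ⊓ Submodule.span (Om k) {e • y0 + w} = ⊥ := by
        rw [eq_bot_iff]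
        rintro x ⟨hx1, hx2⟩
        obtain ⟨a, rfl⟩ := Submodule.mem_span_singleton.1 hx2
        by_cases ha : a = 0
        · rw [ha, zero_smul]; exact Submodule.zero_mem _
        · exfalso
          apply hpD
          have := D.smul_mem a⁻¹ hx1
          rwa [smul_smul, inv_mul_cancel₀ ha, one_smul] at this
      rw [h3, finrank_bot, hD3, h2] at h1
      omega
    · intro x hx y hy
      obtain ⟨d, hd, x', hx', rfl⟩ := Submodule.mem_sup.1 hx
      obtain ⟨d', hd', y', hy', rfl⟩ := Submodule.mem_sup.1 hy
      obtain ⟨a, rfl⟩ := Submodule.mem_span_singleton.1 hx'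
      obtain ⟨b, rfl⟩ := Submodule.mem_span_singleton.1 hy'
      have e1 : tri F o d d' = 0 := hDk d hd d' (hDT d' hd')
      have e2 : tri F o d (e • y0 + w) = 0 := hDk d hd _ hpT
      have e3 : tri F o (e • y0 + w) d' = 0 := by rw [tri_swap23]; exact hDk d' hd' _ hpT
      rw [tri_add2, tri_add3, tri_add3, tri_smul3, tri_smul2, tri_smul2, tri_smul3, e1, e2, e3,
        hpp]
      ring
  refine ⟨_, _, key c rfl, key (-c) (by ring), ?_⟩
  intro y hy hQ
  obtain ⟨d, hd, a, b, rfl⟩ := hT y hy
  have e0 : tri F o d d = 0 := hDk d hd d (hDT d hd)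
  have e1 := fa_exp (F := F) o d y0 w a b e0 (hDk d hd y0 hy0) (hDk d hd w hwT) hwy
  rw [e1] at hQ
  have h2 : (a - c * b) * (a + c * b) = 0 := by
    have h3 : tri F o w w = -(c * c * tri F o y0 y0) := by
      rw [eq_neg_iff_add_eq_zero, add_comm]; exact hc'
    rw [h3] at hQ
    have h4 : tri F o y0 y0 * ((a - c * b) * (a + c * b)) = 0 := by
      rw [← hQ]
      ring
    exact (mul_eq_zero.1 h4).resolve_left hq0
  rcases mul_eq_zero.1 h2 with h | h
  · left
    rw [Submodule.mem_sup]
    refine ⟨d, hd, b • (c • y0 + w), Submodule.smul_mem _ _ (Submodule.mem_span_singleton_self _),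
      ?_⟩
    rw [sub_eq_zero.1 h, smul_add, smul_smul, mul_comm b c]
  · right
    rw [Submodule.mem_sup]
    refine ⟨d, hd, b • (-c • y0 + w), Submodule.smul_mem _ _
      (Submodule.mem_span_singleton_self _), ?_⟩
    rw [eq_neg_of_add_eq_zero_left h, smul_add, smul_smul]
    congr 3
    ring

end Pool.Agent.CUB
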