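import Pool.Agent.CUB.Base
import Pool.Agent.CUB.Star

/-!
# The limits of the two cones
-/

set_option autoImplicit false

noncomputable section

namespace Pool.Agent.CUB

open Pool.Agent.ZCyc Pool.Agent.Dess Pool.Agent.GT
open Pool.Agent.VFP (Om tt)
open scoped Classical

variable {k : Type} [Field k] [IsAlgClosed k] [CharZero k] {F : MvPolynomial (Fin 6) k}

omit [IsAlgClosed k] [CharZero k] in
/-- a polynomial whose constant term vanishes at `v` and whose leading coefficient does not vanish
has a root which vanishes at `v` -/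
private theorem exists_root_van (v : Place k (Om k)) (p : Polynomial (Om k))
    (hl : ¬ v.Vanishes p.leadingCoeff) (h0 : v.Vanishes (p.coeff 0)) :
    ∃ τ, p.eval τ = 0 ∧ v.Vanishes τ := by
  have hp : p ≠ 0 := by
    rintro rfl
    rw [Polynomial.leadingCoeff_zero] at hl
    exact hl v.vanishes_zero
  by_contra hcon
  push Not at hcon
  have h1 : ∀ a ∈ p.roots.map v.ring.valuation, 1 ≤ a := by
    intro a ha
    obtain ⟨b, hb, rfl⟩ := Multiset.mem_map.1 ha
    have h2 := hcon b ((Polynomial.mem_roots hp).1 hb)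
    rw [Place.vanishes_iff] at h2
    exact not_lt.1 h2
  have h2 : 1 ≤ v.ring.valuation p.roots.prod := by
    rw [map_multiset_prod]
    exact Multiset.one_le_prod_of_one_le h1
  rw [Place.vanishes_iff] at hl h0
  rw [(IsAlgClosed.splits p).coeff_zero_eq_leadingCoeff_mul_prod_roots, map_mul, map_mul, map_pow,
    Valuation.map_neg, map_one, one_pow, one_mul] at h0
  exact absurd h0 (not_lt.2 (one_le_mul (not_lt.1 hl) h2))

omit [IsAlgClosed k] [CharZero k] in
private theorem at_zero' {v : Place k (Om k)} {c : k} (h : v.At (0 : Om k) c) : c = 0 := by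
  have h1 := Place.at_const (v := v) (0 : k)
  rw [map_zero] at h1
  exact h.unique h1

/-- the limit of a cone (`finrank_limW`, `tri_at`) -/
theorem cne_lim {o : Fin 6 → Om k} {V : Submodule (Om k) (Fin 6 → Om k)} (hV : Cne F o V)
    {v : Place k (Om k)} {c : Om k} {z : Fin 6 → k} (hz : z ≠ 0)
    (h : ∀ i, v.At (c * o i) (z i)) : Cne F z (limW v V) := by
  have _ := hz
  refine ⟨by rw [finrank_limW, hV.four], ⟨c • o, V.smul_mem _ hV.mem, h⟩, ?_⟩
  rintro x ⟨a, ha, hx⟩ y ⟨b, hb, hy⟩
  have h1 := tri_at F (x := c • o) h hx hy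
  rw [tri_smul1, hV.zero a ha b hb, mul_zero] at h1
  exact at_zero' h1

/-- lift of a vector to the tangent hyperplane -/
private theorem exists_lift (hF : Smooth F) {o : Fin 6 → Om k} {v : Place k (Om k)} {c : Om k}
    {z : Fin 6 → k} (hz : z ≠ 0) (hv : ∀ i, v.At (c * o i) (z i)) {y : Fin 6 → k}
    (hy : tri F z z y = 0) :
    ∃ Y : Fin 6 → Om k, tri F o o Y = 0 ∧ ∀ i, v.At (Y i) (y i) := by
  have hc : c ≠ 0 := by
    rintro rfl
    refine hz (funext fun i => ?_)
    have h1 := hv i
    rw [zero_mul] at h1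
    exact at_zero' h1
  obtain ⟨i, hi⟩ : ∃ i, tri F z z (Pi.single i 1) ≠ 0 := by
    by_contra hcon
    push Not at hcon
    refine hz (tri_ns hF fun w => ?_)
    rw [tri_sum]
    exact Finset.sum_eq_zero fun i _ => by rw [hcon i, zero_mul]
  set e : Fin 6 → Om k := Pi.single i 1 with he_def
  have he : ∀ j, v.At (e j) ((Pi.single i 1 : Fin 6 → k) j) := by
    intro j
    rw [he_def]
    by_cases hj : j = i
    · subst hj
      rw [Pi.single_eq_same, Pi.single_eq_same]
      exact Pool.Agent.VFP.at_one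
    · rw [Pi.single_eq_of_ne hj, Pi.single_eq_of_ne hj]
      exact Pool.Agent.VFP.at_zero
  have hy' : ∀ j, v.At (em (Om k) y j) (y j) := fun j => Place.at_const _
  have hv' : ∀ j, v.At ((c • o) j) (z j) := hv
  have h1 := tri_at F hv' hv' he
  have h2 := tri_at F hv' hv' hy'
  rw [hy] at h2
  have h3 : tri F (c • o) (c • o) e ≠ 0 := by
    intro h
    rw [h] at h1
    exact hi (at_zero' h1)
  have h4 := h2.div h1 hi
  rw [zero_div] at h4
  refine ⟨em (Om k) y - (tri F (c • o) (c • o) (em (Om k) y) / tri F (c • o) (c • o) e) • e,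
    ?_, fun j => ?_⟩
  · have h5 : tri F (c • o) (c • o) (em (Om k) y -
        (tri F (c • o) (c • o) (em (Om k) y) / tri F (c • o) (c • o) e) • e) = 0 := by
      rw [sub_eq_add_neg, ← neg_smul, tri_add3, tri_smul3]
      field_simp
      ring
    rw [tri_smul1, tri_smul2] at h5
    exact (mul_eq_zero.1 ((mul_eq_zero.1 h5).resolve_left hc)).resolve_left hc
  · have h6 := (hy' j).sub (h4.mul (he j))
    rw [zero_mul, sub_zero] at h6
    exact h6

/-- if the form is zero for `o` then also for the values -/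
theorem quad_lim (hF : Smooth F) {o : Fin 6 → Om k} (hq : ∀ y, tri F o o y = 0 → tri F o y y = 0)
    {z : Fin 6 → k} (hz : Gam o z) : ∀ y, tri F z z y = 0 → tri F z y y = 0 := by
  obtain ⟨hz0, v, c, hv⟩ := hz
  intro y hy
  obtain ⟨Y, hY, hYy⟩ := exists_lift hF hz0 hv hy
  have h1 := tri_at F (x := c • o) hv hYy hYy
  rw [tri_smul1, hq Y hY, mul_zero] at h1
  exact at_zero' h1

/-- If `tri F z y y` is not zero on the tangent hyperplane at `z` then the lines through `z` are in the
limit of `V₁` or in the limit of `V₂`. Proof. Let `m = ⟨z, y₀⟩` and let `w₀` be in the tangent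
hyperplane at `z` with `tri F z w₀ w₀ ≠ 0`. Lift `y₀`, `w₀` to vectors `y`, `w` in the tangent hyperplane
at `o` (solve for the coordinate `i`, where `tri F z z e_i ≠ 0`). The quadratic equation
`tri F o (y + τ w) (y + τ w) = 0` (with `c o` instead of `o`) has a leading coefficient with a nonzero
value, and its constant term vanishes at `v`, so it has a root `τ` which vanishes at `v`. So
`y + τ w` is in `V₁` or `V₂`, and its value is `y₀`. -/
theorem lim_fac (hF : Smooth F) {o : Fin 6 → Om k} {V₁ V₂ : Submodule (Om k) (Fin 6 → Om k)}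
    (h₁ : Cne F o V₁) (h₂ : Cne F o V₂)
    (h : ∀ y, tri F o o y = 0 → tri F o y y = 0 → y ∈ V₁ ∨ y ∈ V₂) {v : Place k (Om k)} {c : Om k}
    {z : Fin 6 → k} (hz : z ≠ 0) (hv : ∀ i, v.At (c * o i) (z i))
    (hq : ∃ y, tri F z z y = 0 ∧ tri F z y y ≠ 0) {m : Ln F k} (hm : z ∈ m.W) :
    m.W ≤ limW v V₁ ∨ m.W ≤ limW v V₂ := by
  have hc : c ≠ 0 := by
    rintro rfl
    refine hz (funext fun i => ?_)
    have h1 := hv i
    rw [zero_mul] at h1
    exact at_zero' h1
  obtain ⟨w₀, hw₀, hw₀'⟩ := hq
  obtain ⟨w, hw, hww⟩ := exists_lift hF hz hv hw₀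
  -- a second vector of the line
  obtain ⟨y₀, hy₀, hy₀'⟩ : ∃ y₀ ∈ m.W, y₀ ∉ Submodule.span k {z} := by
    by_contra hcon
    push Not at hcon
    have h1 : m.W ≤ Submodule.span k {z} := hcon
    have h2 := Submodule.finrank_mono h1
    rw [m.two, finrank_span_singleton hz] at h2
    omega
  obtain ⟨y, hy, hyy⟩ := exists_lift hF hz hv (m.tri_zero hF hm hm hy₀)
  -- it is enough to show that `y₀` is in the limit
  have key : ∀ V : Submodule (Om k) (Fin 6 → Om k), o ∈ V → y₀ ∈ limW v V → m.W ≤ limW v V := by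
    intro V ho hyV
    have hzV : z ∈ limW v V := ⟨c • o, V.smul_mem _ ho, hv⟩
    have h3 : Submodule.span k {z, y₀} = m.W := by
      refine Submodule.eq_of_le_of_finrank_le ?_ ?_
      · rw [Submodule.span_le]
        rintro x (rfl | rfl)
        · exact hm
        · exact hy₀
      · rw [m.two]
        have h5 : Submodule.span k {z} < Submodule.span k {z, y₀} := by
          refine lt_of_le_of_ne (Submodule.span_mono (by simp)) fun h6 => ?_
          rw [h6] at hy₀'
          exact hy₀' (Submodule.subset_span (by simp))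
        have h6 := Submodule.finrank_lt_finrank_of_lt h5
        rw [finrank_span_singleton hz] at h6
        omega
    rw [← h3, Submodule.span_le]
    rintro x (rfl | rfl)
    · exact hzV
    · exact hyV
  -- the quadratic equation
  set p : Polynomial (Om k) := Polynomial.C (tri F (c • o) w w) * Polynomial.X ^ 2 +
    Polynomial.C (2 * tri F (c • o) y w) * Polynomial.X + Polynomial.C (tri F (c • o) y y) with hp
  have hA := tri_at F (x := c • o) hv hww hww
  have hC := tri_at F (x := c • o) hv hyy hyy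
  rw [m.tri_zero hF hm hy₀ hy₀] at hC
  have hA0 : tri F (c • o) w w ≠ 0 := by
    intro h
    rw [h] at hA
    exact hw₀' (at_zero' hA)
  have hlead : p.leadingCoeff = tri F (c • o) w w := by
    rw [hp]
    exact Polynomial.leadingCoeff_quadratic hA0
  have hcz : p.coeff 0 = tri F (c • o) y y := by
    rw [hp]
    simp
  obtain ⟨τ, hτ, hτv⟩ := exists_root_van v p (by
    rw [hlead]
    intro h
    exact hw₀' (hA.unique (Place.at_zero_iff.2 h))) (by
    rw [hcz]
    exact Place.at_zero_iff.1 hC)
  have hτ' : tri F (c • o) (y + τ • w) (y + τ • w) = 0 := by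
    rw [hp] at hτ
    simp only [Polynomial.eval_add, Polynomial.eval_mul, Polynomial.eval_C, Polynomial.eval_pow,
      Polynomial.eval_X] at hτ
    simp only [tri_add2, tri_add3, tri_smul2, tri_smul3]
    rw [tri_swap23 F (c • o) w y]
    linear_combination hτ
  rw [tri_smul1] at hτ'
  have hval : ∀ i, v.At ((y + τ • w) i) (y₀ i) := by
    intro i
    have h7 := (hyy i).add ((Place.at_zero_iff.2 hτv).mul (hww i))
    rw [zero_mul, add_zero] at h7
    exact h7
  rcases h (y + τ • w) (by rw [tri_add3, tri_smul3, hy, hw, mul_zero, add_zero])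
    ((mul_eq_zero.1 hτ').resolve_left hc) with h8 | h8
  · exact Or.inl (key V₁ h₁.mem ⟨_, h8, hval⟩)
  · exact Or.inr (key V₂ h₂.mem ⟨_, h8, hval⟩)

end Pool.Agent.CUB
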