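import Pool.Agent.CUB.LnA
import Pool.Agent.ZIso.Krull

/-!
# Plane sections through a point
-/

set_option autoImplicit false

noncomputable section

namespace Pool.Agent.CUB

open Pool.Agent.ZCyc Pool.Agent.Dess Pool.Agent.GT
open Pool.Agent.VFP (Om tt)
open scoped Classical

variable {k : Type} [Field k] [IsAlgClosed k] [CharZero k] {F : MvPolynomial (Fin 6) k}

omit [IsAlgClosed k] [CharZero k] in
private lemma starC_sum1 {ι : Type} (s : Finset ι) (u : ι → k) (b : ι → Fin 6 → k)
    (y z : Fin 6 → k) : tri F (∑ j ∈ s, u j • b j) y z = ∑ j ∈ s, u j * tri F (b j) y z := by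
  have h : ∀ x : Fin 6 → k, tri F x y z = trl F y z x := by
    intro x
    rw [trl_apply, tri_swap12, tri_swap23]
  rw [h, map_sum]
  refine Finset.sum_congr rfl fun j _ => ?_
  rw [map_smul, smul_eq_mul, h]

omit [IsAlgClosed k] [CharZero k] in
private lemma starC_sum2 {ι : Type} (s : Finset ι) (u : ι → k) (b : ι → Fin 6 → k)
    (x z : Fin 6 → k) : tri F x (∑ j ∈ s, u j • b j) z = ∑ j ∈ s, u j * tri F x (b j) z := by
  rw [tri_swap12, starC_sum1]
  exact Finset.sum_congr rfl fun j _ => by rw [tri_swap12]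

omit [IsAlgClosed k] in
/-- polarisation on a subspace -/
private lemma starC_pol (hF : Smooth F) {V : Submodule k (Fin 6 → k)}
    (h : ∀ x ∈ V, MvPolynomial.aeval x F = 0) {x y z : Fin 6 → k} (hx : x ∈ V) (hy : y ∈ V)
    (hz : z ∈ V) : tri F x y z = 0 := by
  have h0 : ∀ x ∈ V, tri F x x x = 0 := fun x hx => by rw [tri_self hF.hom]; exact h x hx
  have h1 : ∀ x ∈ V, ∀ y ∈ V, tri F x x y = 0 := by
    intro x hx y hy
    have e1 := h0 (x + y) (V.add_mem hx hy)
    have e2 := h0 (x + (-1 : k) • y) (V.add_mem hx (V.smul_mem _ hy))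
    simp only [tri_add1, tri_add2, tri_add3, tri_smul1, tri_smul2, tri_smul3] at e1 e2
    rw [h0 x hx, h0 y hy, tri_swap12 F y x x, tri_swap23 F x y x, tri_swap12 F y x y,
      tri_swap23 F y y x, tri_swap12 F y x y] at e1 e2
    linear_combination (1 / 6 : k) * e1 - (1 / 6 : k) * e2
  have e3 := h1 (x + y) (V.add_mem hx hy) z hz
  simp only [tri_add1, tri_add2] at e3
  rw [h1 x hx z hz, h1 y hy z hz, tri_swap12 F y x z] at e3
  linear_combination (1 / 2 : k) * e3

/-- A smooth cubic fourfold does not contain a subspace of (projective) dimension three: otherwise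
`tri F x x` is for `x` in `V` a linear form on `k ^ 6 / V`, i.e. a pair of quadratic forms on `V`,
they have a common nonzero zero (`ZIso.exists_ne_zero`). -/
theorem no_three (hF : Smooth F) {V : Submodule k (Fin 6 → k)} (hV : Module.finrank k V = 4) :
    ∃ x ∈ V, MvPolynomial.aeval x F ≠ 0 := by
  by_contra hcon
  push Not at hcon
  -- the quotient
  have hq : Module.finrank k ((Fin 6 → k) ⧸ V) = 2 := by
    have h1 := Submodule.finrank_quotient_add_finrank V
    rw [hV, Module.finrank_fin_fun] at h1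
    omega
  let c := Module.finBasisOfFinrankEq k ((Fin 6 → k) ⧸ V) hq
  let b := Module.finBasisOfFinrankEq k V hV
  have hsur : ∀ i : Fin 2, ∃ e : Fin 6 → k, V.mkQ e = c i := fun i =>
    Submodule.mkQ_surjective V (c i)
  choose e he using hsur
  let f : Fin 2 → MvPolynomial (Fin 4) k := fun i =>
    ∑ j, ∑ l, MvPolynomial.C (tri F (b j : Fin 6 → k) (b l : Fin 6 → k) (e i)) *
      (MvPolynomial.X j * MvPolynomial.X l)
  have hf : ∀ i (u : Fin 4 → k), MvPolynomial.eval u (f i) =
      tri F (∑ j, u j • (b j : Fin 6 → k)) (∑ l, u l • (b l : Fin 6 → k)) (e i) := by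
    intro i u
    rw [starC_sum1]
    simp only [starC_sum2, f, map_sum, map_mul, MvPolynomial.eval_C, MvPolynomial.eval_X,
      Finset.mul_sum]
    refine Finset.sum_congr rfl fun j _ => Finset.sum_congr rfl fun l _ => ?_
    ring
  obtain ⟨u, hu, hu'⟩ := Pool.Agent.ZIso.exists_ne_zero (by simp) f fun i => by
    rw [hf]
    simp only [Pi.zero_apply, zero_smul, Finset.sum_const_zero]
    exact tri_zero1 F _ _
  set x : Fin 6 → k := ∑ j, u j • (b j : Fin 6 → k) with hx
  have hxV : x ∈ V := V.sum_mem fun j _ => V.smul_mem _ (b j).2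
  have hx0 : x = 0 := by
    apply tri_ns hF
    intro z
    have h1 : V.mkQ z = ∑ i, c.repr (V.mkQ z) i • c i := (c.sum_repr _).symm
    have h2 : z - ∑ i, c.repr (V.mkQ z) i • e i ∈ V := by
      refine (Submodule.Quotient.mk_eq_zero V).1 ?_
      change V.mkQ (z - ∑ i, c.repr (V.mkQ z) i • e i) = 0
      rw [map_sub, map_sum]
      simp only [map_smul, he]
      rw [← h1, sub_self]
    have h3 := starC_pol hF hcon hxV hxV h2
    have h4 : tri F x x z = tri F x x (z - ∑ i, c.repr (V.mkQ z) i • e i) +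
        tri F x x (∑ i, c.repr (V.mkQ z) i • e i) := by
      rw [← tri_add3, sub_add_cancel]
    rw [h4, h3, zero_add, ← trl_apply, map_sum]
    refine Finset.sum_eq_zero fun i _ => ?_
    rw [map_smul, trl_apply, ← hf, hu' i, smul_zero]
  apply hu
  have h5 : ∑ j, u j • b j = 0 := by
    apply Subtype.ext
    rw [Submodule.coe_sum]
    simp only [Submodule.coe_smul]
    exact hx0
  funext j
  have h6 := congrArg (fun v => b.repr v j) h5
  simp only [map_sum, map_smul, Module.Basis.repr_self, Finsupp.smul_single, smul_eq_mul,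
    mul_one, map_zero, Finsupp.coe_zero, Pi.zero_apply, Finsupp.finsetSum_apply,
    Finsupp.single_apply, Finset.sum_ite_eq', Finset.mem_univ, if_true] at h6
  exact h6

omit [CharZero k] in
private lemma starC_quad (A B C : k) : ∃ p q p' q' : k, ∀ s t : k,
    A * s ^ 2 + B * s * t + C * t ^ 2 = (p * s + q * t) * (p' * s + q' * t) := by
  by_cases hA : A = 0
  · refine ⟨0, 1, B, C, fun s t => ?_⟩
    rw [hA]
    ring
  · obtain ⟨r, hr⟩ := IsAlgClosed.exists_root
      (Polynomial.C A * Polynomial.X ^ 2 + Polynomial.C B * Polynomial.X + Polynomial.C C)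
      (by rw [Polynomial.degree_quadratic hA]; decide)
    simp only [Polynomial.IsRoot.def, Polynomial.eval_add, Polynomial.eval_mul,
      Polynomial.eval_C, Polynomial.eval_pow, Polynomial.eval_X] at hr
    refine ⟨1, -r, A, B + A * r, fun s t => ?_⟩
    linear_combination t ^ 2 * hr

omit [CharZero k] in
private lemma starC_cubic (A B C D : k) : ∃ p q : Fin 3 → k, ∀ s t : k,
    A * s ^ 3 + B * s ^ 2 * t + C * s * t ^ 2 + D * t ^ 3 = ∏ i, (p i * s + q i * t) := by
  by_cases hA : A = 0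
  · obtain ⟨p, q, p', q', h⟩ := starC_quad B C D
    refine ⟨![0, p, p'], ![1, q, q'], fun s t => ?_⟩
    rw [Fin.prod_univ_three]
    simp only [Matrix.cons_val_zero, Matrix.cons_val_one, Matrix.cons_val]
    rw [hA]
    linear_combination t * h s t
  · obtain ⟨r, hr⟩ := IsAlgClosed.exists_root
      (Polynomial.C A * Polynomial.X ^ 3 + Polynomial.C B * Polynomial.X ^ 2 +
        Polynomial.C C * Polynomial.X + Polynomial.C D)
      (by rw [Polynomial.degree_cubic hA]; decide)
    simp only [Polynomial.IsRoot.def, Polynomial.eval_add, Polynomial.eval_mul,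
      Polynomial.eval_C, Polynomial.eval_pow, Polynomial.eval_X] at hr
    obtain ⟨p, q, p', q', h⟩ := starC_quad A (B + A * r) (C + B * r + A * r ^ 2)
    refine ⟨![1, p, p'], ![-r, q, q'], fun s t => ?_⟩
    rw [Fin.prod_univ_three]
    simp only [Matrix.cons_val_zero, Matrix.cons_val_one, Matrix.cons_val]
    linear_combination (s - r * t) * h s t + t ^ 3 * hr

omit [IsAlgClosed k] [CharZero k] in
private lemma starC_two {P : Submodule k (Fin 6 → k)} (hP : Module.finrank k P = 3)
    (l : (Fin 6 → k) →ₗ[k] k) (hl : ∃ x ∈ P, l x ≠ 0) :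
    Module.finrank k (P ⊓ LinearMap.ker l : Submodule k (Fin 6 → k)) = 2 := by
  have h1 : (P ⊓ LinearMap.ker l : Submodule k (Fin 6 → k)) =
      (LinearMap.ker (l ∘ₗ P.subtype)).map P.subtype := by
    ext x
    simp only [Submodule.mem_inf, LinearMap.mem_ker, Submodule.mem_map, LinearMap.comp_apply,
      Submodule.subtype_apply]
    constructor
    · rintro ⟨hx, hx'⟩
      exact ⟨⟨x, hx⟩, hx', rfl⟩
    · rintro ⟨y, hy, rfl⟩
      exact ⟨y.2, hy⟩
  rw [h1, LinearEquiv.finrank_eq (Submodule.equivMapOfInjective P.subtype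
    P.injective_subtype _).symm]
  have h2 := LinearMap.finrank_range_add_finrank_ker (l ∘ₗ P.subtype)
  have h3 : LinearMap.range (l ∘ₗ P.subtype) = ⊤ := by
    rw [LinearMap.range_eq_top]
    obtain ⟨x, hx, hx'⟩ := hl
    intro c
    refine ⟨(c / l x) • ⟨x, hx⟩, ?_⟩
    rw [map_smul, LinearMap.comp_apply, Submodule.subtype_apply, smul_eq_mul,
      div_mul_cancel₀ _ hx']
  rw [h3, finrank_top, Module.finrank_self, hP] at h2
  omega

/-- If the restriction of `F` to the plane `P`, `z ∈ P`, depends only on the class modulo `z`, and is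
not zero, then `P` intersects the cubic fourfold in three lines through `z`: a binary cubic form
is a product of three linear forms. -/
theorem exists_tri (hF : Smooth F) {z : Fin 6 → k} (hz : z ≠ 0) {P : Submodule k (Fin 6 → k)}
    (hP : Module.finrank k P = 3) (hzP : z ∈ P) (h : ∀ x ∈ P, ∀ y ∈ P, tri F z x y = 0)
    (hne : ∃ x ∈ P, MvPolynomial.aeval x F ≠ 0) :
    ∃ t : Fin 3 → Ln F k, Tri t ∧ ∀ i, z ∈ (t i).W ∧ (t i).W ≤ P := by
  let z' : P := ⟨z, hzP⟩
  have hz' : z' ≠ 0 := fun h => hz (congrArg Subtype.val h)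
  let S : Submodule k P := Submodule.span k {z'}
  have hq : Module.finrank k (P ⧸ S) = 2 := by
    have h1 := Submodule.finrank_quotient_add_finrank S
    rw [hP, finrank_span_singleton hz'] at h1
    omega
  let c := Module.finBasisOfFinrankEq k (P ⧸ S) hq
  have hsur : ∀ i : Fin 2, ∃ e : P, S.mkQ e = c i := fun i => Submodule.mkQ_surjective S (c i)
  choose e he using hsur
  -- the coordinates
  have hco : ∀ i : Fin 2, ∃ g : (Fin 6 → k) →ₗ[k] k, g ∘ₗ P.subtype = c.coord i ∘ₗ S.mkQ :=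
    fun i => LinearMap.exists_extend _
  choose g hg using hco
  have hg' : ∀ i (x : P), g i x = c.repr (S.mkQ x) i := fun i x => by
    have := LinearMap.congr_fun (hg i) x
    exact this
  have hval : ∀ x ∈ P, MvPolynomial.aeval x F =
      tri F (e 0 : Fin 6 → k) (e 0 : Fin 6 → k) (e 0 : Fin 6 → k) * g 0 x ^ 3 +
      3 * tri F (e 0 : Fin 6 → k) (e 0 : Fin 6 → k) (e 1 : Fin 6 → k) * g 0 x ^ 2 * g 1 x +
      3 * tri F (e 0 : Fin 6 → k) (e 1 : Fin 6 → k) (e 1 : Fin 6 → k) * g 0 x * g 1 x ^ 2 +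
      tri F (e 1 : Fin 6 → k) (e 1 : Fin 6 → k) (e 1 : Fin 6 → k) * g 1 x ^ 3 := by
    intro x hx
    have h1 : S.mkQ ⟨x, hx⟩ = ∑ i, c.repr (S.mkQ ⟨x, hx⟩) i • c i := (c.sum_repr _).symm
    have h2 : (⟨x, hx⟩ : P) - (g 0 x • e 0 + g 1 x • e 1) ∈ S := by
      refine (Submodule.Quotient.mk_eq_zero S).1 ?_
      change S.mkQ ((⟨x, hx⟩ : P) - (g 0 x • e 0 + g 1 x • e 1)) = 0
      rw [map_sub, map_add, map_smul, map_smul, he, he, hg' 0 ⟨x, hx⟩, hg' 1 ⟨x, hx⟩]
      rw [Fin.sum_univ_two] at h1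
      rw [← h1, sub_self]
    obtain ⟨a, ha⟩ := Submodule.mem_span_singleton.1 h2
    have h3 : x = a • z + (g 0 x • (e 0 : Fin 6 → k) + g 1 x • (e 1 : Fin 6 → k)) := by
      have h4 := congrArg (fun v : P => (v : Fin 6 → k)) ha
      simp only [Submodule.coe_smul, Submodule.coe_sub, Submodule.coe_add] at h4
      change a • z = x - _ at h4
      rw [h4]
      abel
    set y : Fin 6 → k := g 0 x • (e 0 : Fin 6 → k) + g 1 x • (e 1 : Fin 6 → k) with hy
    have hyP : y ∈ P := P.add_mem (P.smul_mem _ (e 0).2) (P.smul_mem _ (e 1).2)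
    have k1 : ∀ u ∈ P, ∀ w ∈ P, tri F x u w = tri F y u w := by
      intro u hu w hw
      conv_lhs => rw [h3]
      rw [tri_add1, tri_smul1, h u hu w hw, mul_zero, zero_add]
    have k2 : tri F x x x = tri F y y y := by
      rw [k1 x hx x hx, tri_swap12, k1 y hyP x hx, tri_swap23, tri_swap12, k1 y hyP y hyP]
    rw [← tri_self hF.hom, k2, hy]
    simp only [tri_add1, tri_add2, tri_add3, tri_smul1, tri_smul2, tri_smul3]
    rw [tri_swap12 F (e 1 : Fin 6 → k) (e 0 : Fin 6 → k) (e 0 : Fin 6 → k),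
      tri_swap23 F (e 0 : Fin 6 → k) (e 1 : Fin 6 → k) (e 0 : Fin 6 → k),
      tri_swap23 F (e 1 : Fin 6 → k) (e 1 : Fin 6 → k) (e 0 : Fin 6 → k),
      tri_swap12 F (e 1 : Fin 6 → k) (e 0 : Fin 6 → k) (e 1 : Fin 6 → k)]
    ring
  obtain ⟨p, q, hpq⟩ := starC_cubic
    (tri F (e 0 : Fin 6 → k) (e 0 : Fin 6 → k) (e 0 : Fin 6 → k))
    (3 * tri F (e 0 : Fin 6 → k) (e 0 : Fin 6 → k) (e 1 : Fin 6 → k))
    (3 * tri F (e 0 : Fin 6 → k) (e 1 : Fin 6 → k) (e 1 : Fin 6 → k))
    (tri F (e 1 : Fin 6 → k) (e 1 : Fin 6 → k) (e 1 : Fin 6 → k))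
  let l : Fin 3 → (Fin 6 → k) →ₗ[k] k := fun i => p i • g 0 + q i • g 1
  have hl : ∀ x ∈ P, MvPolynomial.aeval x F = ∏ i, l i x := by
    intro x hx
    rw [hval x hx, hpq]
    rfl
  have hl' : ∀ i, ∃ x ∈ P, l i x ≠ 0 := by
    intro i
    obtain ⟨x, hx, hx'⟩ := hne
    refine ⟨x, hx, fun h0 => hx' ?_⟩
    rw [hl x hx]
    exact Finset.prod_eq_zero (Finset.mem_univ i) h0
  let t : Fin 3 → Ln F k := fun i =>
    { W := P ⊓ LinearMap.ker (l i)
      two := starC_two hP (l i) (hl' i)
      on := fun x hx => by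
        rw [hl x hx.1]
        exact Finset.prod_eq_zero (Finset.mem_univ i) hx.2 }
  refine ⟨t, ⟨P, l, hP, fun i x => Iff.rfl, hl⟩, fun i => ⟨⟨hzP, ?_⟩, inf_le_left⟩⟩
  have h5 : S.mkQ z' = 0 :=
    (Submodule.Quotient.mk_eq_zero S).2 (Submodule.mem_span_singleton_self z')
  have h6 : ∀ j, g j z = 0 := by
    intro j
    have := hg' j z'
    rw [h5, map_zero] at this
    exact this
  change l i z = 0
  simp only [l, LinearMap.add_apply, LinearMap.smul_apply, h6, smul_zero, add_zero]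

end Pool.Agent.CUB
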