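import Pool.Agent.CUB.Base
import Pool.Agent.CUB.Star
import Pool.Agent.CUB.StarC

/-!
# Lifting of lines
-/

set_option autoImplicit false

noncomputable section

namespace Pool.Agent.CUB

open Pool.Agent.ZCyc Pool.Agent.Dess Pool.Agent.GT
open Pool.Agent.VFP (Om tt)
open scoped Classical

variable {k : Type} [Field k] [IsAlgClosed k] [CharZero k] {F : MvPolynomial (Fin 6) k}

/-- The differences of the values at a place of two lines through `o` in `V`, different from the
given line `n₀`. -/
def TL (F : MvPolynomial (Fin 6) k) (o : Fin 6 → Om k) (V : Submodule (Om k) (Fin 6 → Om k))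
    (n₀ : Ln F (Om k)) : Submodule ℚ (Ln F k →₀ ℚ) :=
  Submodule.span ℚ {z | ∃ (v : Place k (Om k)) (n n' : Ln F (Om k)) (m m' : Ln F k),
    o ∈ n.W ∧ n.W ≤ V ∧ n ≠ n₀ ∧ o ∈ n'.W ∧ n'.W ≤ V ∧ n' ≠ n₀ ∧ IsVal v n m ∧ IsVal v n' m' ∧
    z = Finsupp.single m 1 - Finsupp.single m' 1}

omit [IsAlgClosed k] [CharZero k] in
/-- a polynomial whose constant term vanishes at `v` and whose leading coefficient does not vanish
has a root which vanishes at `v` -/
private theorem exists_root_van (v : Place k (Om k)) (p : Polynomial (Om k))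
    (hl : ¬ v.Vanishes p.leadingCoeff) (h0 : v.Vanishes (p.coeff 0)) :
    ∃ τ, p.eval τ = 0 ∧ v.Vanishes τ := by
  have hp : p ≠ 0 := by
    rintro rfl
    rw [Polynomial.leadingCoeff_zero] at hl
    exact hl v.vanishes_zero
  by_contra hcon
  push Not at hcon
  have h1 : ∀ a ∈ p.roots.map v.ring.valuation, 1 ≤ a := by
    intro a ha
    obtain ⟨b, hb, rfl⟩ := Multiset.mem_map.1 ha
    have h2 := hcon b ((Polynomial.mem_roots hp).1 hb)
    rw [Place.vanishes_iff] at h2
    exact not_lt.1 h2
  have h2 : 1 ≤ v.ring.valuation p.roots.prod := by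
    rw [map_multiset_prod]
    exact Multiset.one_le_prod_of_one_le h1
  rw [Place.vanishes_iff] at hl h0
  rw [(IsAlgClosed.splits p).coeff_zero_eq_leadingCoeff_mul_prod_roots, map_mul, map_mul, map_pow,
    Valuation.map_neg, map_one, one_pow, one_mul] at h0
  exact absurd h0 (not_lt.2 (one_le_mul (not_lt.1 hl) h2))

omit [IsAlgClosed k] [CharZero k] in
private theorem at_zero' {v : Place k (Om k)} {c : k} (h : v.At (0 : Om k) c) : c = 0 := by
  have h1 := Place.at_const (v := v) (0 : k)
  rw [map_zero] at h1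
  exact h.unique h1

/-- the cubic equation: a vector `y` whose value is a zero of `F` is moved to a zero of `F` with the
same value -/
private theorem move (hF : Smooth F) {v : Place k (Om k)} {y w : Fin 6 → Om k} {y₀ w₀ : Fin 6 → k}
    (hy : ∀ i, v.At (y i) (y₀ i)) (hw : ∀ i, v.At (w i) (w₀ i)) (hy₀ : tri F y₀ y₀ y₀ = 0)
    (hw₀ : tri F w₀ w₀ w₀ ≠ 0) :
    ∃ τ : Om k, tri F (y + τ • w) (y + τ • w) (y + τ • w) = 0 ∧ v.At τ 0 := by
  have _ := hF
  set p : Polynomial (Om k) := Polynomial.C (tri F w w w) * Polynomial.X ^ 3 +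
    Polynomial.C (3 * tri F y w w) * Polynomial.X ^ 2 +
    Polynomial.C (3 * tri F y y w) * Polynomial.X + Polynomial.C (tri F y y y) with hp
  have hA := tri_at F hw hw hw
  have hC := tri_at F hy hy hy
  rw [hy₀] at hC
  have hA0 : tri F w w w ≠ 0 := by
    intro h
    rw [h] at hA
    exact hw₀ (at_zero' hA)
  have hlead : p.leadingCoeff = tri F w w w := by
    rw [hp]
    exact Polynomial.leadingCoeff_cubic hA0
  have hcz : p.coeff 0 = tri F y y y := by
    rw [hp]
    simp
  obtain ⟨τ, hτ, hτv⟩ := exists_root_van v p (by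
    rw [hlead]
    intro h
    exact hw₀ (hA.unique (Place.at_zero_iff.2 h))) (by
    rw [hcz]
    exact Place.at_zero_iff.1 hC)
  refine ⟨τ, ?_, Place.at_zero_iff.2 hτv⟩
  rw [hp] at hτ
  simp only [Polynomial.eval_add, Polynomial.eval_mul, Polynomial.eval_C, Polynomial.eval_pow,
    Polynomial.eval_X] at hτ
  simp only [tri_add1, tri_add2, tri_add3, tri_smul1, tri_smul2, tri_smul3]
  have h1 : tri F y w y = tri F y y w := tri_swap23 F y w y
  have h2 : tri F w y y = tri F y y w := (tri_swap12 F w y y).trans h1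
  have h3 : tri F w y w = tri F y w w := tri_swap12 F w y w
  have h4 : tri F w w y = tri F y w w := (tri_swap23 F w w y).trans h3
  rw [h1, h2, h3, h4]
  linear_combination hτ

/-- the line through `o` and `b` -/
private theorem exists_line (hF : Smooth F) {o : Fin 6 → Om k}
    {V : Submodule (Om k) (Fin 6 → Om k)} (hV : Cne F o V) {v : Place k (Om k)} {c : Om k}
    {z y₀ : Fin 6 → k} (hv : ∀ i, v.At (c * o i) (z i)) (hli : LinearIndependent k ![z, y₀])
    {b : Fin 6 → Om k} (hb : b ∈ V) (hbb : tri F b b b = 0) (hbv : ∀ i, v.At (b i) (y₀ i))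
    {m : Ln F k} (hm : m.W = Submodule.span k {z, y₀}) :
    ∃ n : Ln F (Om k), n.W = Submodule.span (Om k) {c • o, b} ∧ o ∈ n.W ∧ n.W ≤ V ∧
      IsVal v n m := by
  have hc : c ≠ 0 := by
    rintro rfl
    have hz : z = 0 := by
      funext i
      have h1 := hv i
      rw [zero_mul] at h1
      exact at_zero' h1
    have h2 := hli.ne_zero 0
    exact h2 hz
  have hv' : ∀ i, v.At ((c • o) i) (z i) := hv
  have hli' : LinearIndependent (Om k) ![c • o, b] := by
    rw [LinearIndependent.pair_iff]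
    intro s t hst
    by_contra hne
    have hx : (![s, t] : Fin 2 → Om k) ≠ 0 := by
      intro h
      exact hne ⟨congrFun h 0, congrFun h 1⟩
    obtain ⟨l, y, hl, hy, hly⟩ := exists_scale v ![s, t] hx
    have h0 : v.At (l * s) (y 0) := hly 0
    have h1 : v.At (l * t) (y 1) := hly 1
    rw [LinearIndependent.pair_iff] at hli
    have h2 := hli (y 0) (y 1) (by
      funext i
      have h3 := (h0.mul (hv' i)).add (h1.mul (hbv i))
      have h4 : l * s * (c • o) i + l * t * b i = 0 := by
        have h5 := congrFun hst i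
        simp only [Pi.add_apply, Pi.smul_apply, smul_eq_mul, Pi.zero_apply] at h5
        simp only [Pi.smul_apply, smul_eq_mul]
        linear_combination l * h5
      rw [h4] at h3
      have h6 := at_zero' h3
      simpa using h6)
    apply hy
    funext i
    fin_cases i
    · exact h2.1
    · exact h2.2
  have hcoV : c • o ∈ V := V.smul_mem _ hV.mem
  obtain ⟨n, hn⟩ := exists_ln hF hli'
    (by rw [tri_smul1, hV.zero _ hcoV _ hcoV, mul_zero])
    (by rw [tri_smul1, hV.zero _ hcoV _ hb, mul_zero])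
    (by rw [tri_smul1, hV.zero _ hb _ hb, mul_zero]) hbb
  refine ⟨n, hn, ?_, ?_, val_span hn hm hv' hbv hli⟩
  · rw [hn]
    have h1 : c⁻¹ • (c • o) ∈ Submodule.span (Om k) {c • o, b} :=
      Submodule.smul_mem _ _ (Submodule.subset_span (by simp))
    rwa [smul_smul, inv_mul_cancel₀ hc, one_smul] at h1
  · rw [hn, Submodule.span_le]
    rintro x (rfl | rfl)
    · exact hcoV
    · exact hb

/-- LIFTING. Every line `m` through `z` in the limit of the cone `V` is the value of a line `n` through
`o` in `V`, `n ≠ n₀`. Proof. Let `m = ⟨z, y₀⟩`, and let `w₀` be in the limit of `V` with `F(w₀) ≠ 0`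
(`no_three`); lift `y₀`, `w₀` to `y`, `w` in `V`, take `y'` in `V`, not in `⟨o, y, w⟩` (dimension), with
a value, and a function `ε ≠ 0` which vanishes at `v`. The cubic equations `F(y + τ w) = 0` and
`F(y + ε y' + τ' w) = 0` have roots `τ`, `τ'` which vanish at `v` (leading coefficient `F(w)`, constant
term vanishing at `v`). The lines `⟨o, y + τ w⟩` and `⟨o, y + ε y' + τ' w⟩` both have the value `m`
(`val_span`), and they are different. -/
theorem lift (hF : Smooth F) {o : Fin 6 → Om k} {V : Submodule (Om k) (Fin 6 → Om k)}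
    (hV : Cne F o V) (n₀ : Ln F (Om k)) {v : Place k (Om k)} {c : Om k}
    {z : Fin 6 → k} (hz : z ≠ 0) (hv : ∀ i, v.At (c * o i) (z i)) {m : Ln F k} (hm : z ∈ m.W)
    (hmV : m.W ≤ limW v V) :
    ∃ n : Ln F (Om k), o ∈ n.W ∧ n.W ≤ V ∧ n ≠ n₀ ∧ IsVal v n m := by
  -- a second vector of the line
  obtain ⟨y₀, hy₀, hy₀'⟩ : ∃ y₀ ∈ m.W, y₀ ∉ Submodule.span k {z} := by
    by_contra hcon
    push Not at hcon
    have h1 : m.W ≤ Submodule.span k {z} := hcon
    have h2 := Submodule.finrank_mono h1
    rw [m.two, finrank_span_singleton hz] at h2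
    omega
  have hli : LinearIndependent k ![z, y₀] := by
    rw [LinearIndependent.pair_iff]
    intro s t hst
    have ht : t = 0 := by
      by_contra ht
      apply hy₀'
      rw [Submodule.mem_span_singleton]
      refine ⟨-(t⁻¹ * s), ?_⟩
      have h1 : y₀ = t⁻¹ • (t • y₀) := by rw [smul_smul, inv_mul_cancel₀ ht, one_smul]
      rw [h1, eq_neg_of_add_eq_zero_right hst, smul_neg, smul_smul, neg_smul]
    refine ⟨?_, ht⟩
    rw [ht, zero_smul, add_zero] at hst
    exact (smul_eq_zero.1 hst).resolve_right hz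
  have hmW : m.W = Submodule.span k {z, y₀} := by
    refine (Submodule.eq_of_le_of_finrank_le ?_ ?_).symm
    · rw [Submodule.span_le]
      rintro x (rfl | rfl)
      · exact hm
      · exact hy₀
    · rw [m.two]
      have h5 : Submodule.span k {z} < Submodule.span k {z, y₀} := by
        refine lt_of_le_of_ne (Submodule.span_mono (by simp)) fun h6 => ?_
        rw [h6] at hy₀'
        exact hy₀' (Submodule.subset_span (by simp))
      have h6 := Submodule.finrank_lt_finrank_of_lt h5
      rw [finrank_span_singleton hz] at h6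
      omega
  obtain ⟨y, hyV, hyy⟩ := hmV hy₀
  obtain ⟨w₀, hw₀, hw₀'⟩ := no_three hF (V := limW v V) (by rw [finrank_limW, hV.four])
  rw [← tri_self hF.hom] at hw₀'
  obtain ⟨w, hwV, hww⟩ := hw₀
  have hyF : tri F y₀ y₀ y₀ = 0 := m.tri_zero hF hy₀ hy₀ hy₀
  -- a vector which is not in the span of `o`, `y`, `w`
  obtain ⟨y', hy'V, hy'⟩ : ∃ y' ∈ V, y' ∉ Submodule.span (Om k) {o, y, w} := by
    by_contra hcon
    push Not at hcon
    have h1 : V ≤ Submodule.span (Om k) {o, y, w} := hcon
    have h2 := Submodule.finrank_mono h1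
    rw [hV.four] at h2
    have h3 := finrank_span_le_card (R := Om k) ({o, y, w} : Set (Fin 6 → Om k))
    have h4 : ({o, y, w} : Set (Fin 6 → Om k)).toFinset.card ≤ 3 := by
      have h5 : ({o, y, w} : Set (Fin 6 → Om k)).toFinset = {o, y, w} := by
        ext x
        simp
      rw [h5]
      exact Finset.card_le_three
    omega
  have hy'0 : y' ≠ 0 := by
    rintro rfl
    exact hy' (Submodule.zero_mem _)
  obtain ⟨l, u, hl, -, hlu⟩ := exists_scale v y' hy'0
  -- a function which vanishes
  obtain ⟨f, hf⟩ : ∃ f : Om k, f ∉ v.ring := by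
    by_contra hcon
    push Not at hcon
    apply v.ne_top
    ext x
    exact ⟨fun _ => ValuationSubring.mem_top x, fun _ => hcon x⟩
  have hε := Pool.Agent.VFP.inv_at_of_not_mem hf
  have hε0 : f⁻¹ ≠ 0 := inv_ne_zero (Pool.Agent.VFP.ne_zero_of_not_mem hf)
  have hy2 : ∀ i, v.At ((y + (f⁻¹ * l) • y') i) (y₀ i) := by
    intro i
    have h1 := (hyy i).add (hε.mul (hlu i))
    rw [zero_mul, add_zero] at h1
    simp only [Pi.add_apply, Pi.smul_apply, smul_eq_mul]
    rwa [mul_assoc]
  obtain ⟨τ, hτ, hτv⟩ := move hF hyy hww hyF hw₀'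
  obtain ⟨τ', hτ', hτv'⟩ := move hF hy2 hww hyF hw₀'
  have hval : ∀ i, v.At ((y + τ • w) i) (y₀ i) := by
    intro i
    have h7 := (hyy i).add (hτv.mul (hww i))
    rw [zero_mul, add_zero] at h7
    exact h7
  have hval' : ∀ i, v.At ((y + (f⁻¹ * l) • y' + τ' • w) i) (y₀ i) := by
    intro i
    have h7 := (hy2 i).add (hτv'.mul (hww i))
    rw [zero_mul, add_zero] at h7
    exact h7
  obtain ⟨n, hn, hon, hnV, hnm⟩ := exists_line hF hV hv hli
    (V.add_mem hyV (V.smul_mem _ hwV)) hτ hval hmW
  obtain ⟨n', hn', hon', hnV', hnm'⟩ := exists_line hF hV hv hli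
    (V.add_mem (V.add_mem hyV (V.smul_mem _ hy'V)) (V.smul_mem _ hwV)) hτ' hval' hmW
  by_cases hnn : n = n₀
  · refine ⟨n', hon', hnV', ?_, hnm'⟩
    intro h
    have h1 : n'.W = n.W := by rw [h, hnn]
    have h2 : y + (f⁻¹ * l) • y' + τ' • w ∈ n.W := by
      rw [← h1, hn']
      exact Submodule.subset_span (by simp)
    have ho : o ∈ Submodule.span (Om k) {o, y, w} := Submodule.subset_span (by simp)
    have hyS : y ∈ Submodule.span (Om k) {o, y, w} := Submodule.subset_span (by simp)
    have hwS : w ∈ Submodule.span (Om k) {o, y, w} := Submodule.subset_span (by simp)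
    have h3 : n.W ≤ Submodule.span (Om k) {o, y, w} := by
      rw [hn, Submodule.span_le]
      rintro x (rfl | rfl)
      · exact Submodule.smul_mem _ _ ho
      · exact Submodule.add_mem _ hyS (Submodule.smul_mem _ _ hwS)
    have h4 := h3 h2
    have h5 : (f⁻¹ * l) • y' ∈ Submodule.span (Om k) {o, y, w} := by
      have h6 := Submodule.sub_mem _ (Submodule.sub_mem _ h4 (Submodule.smul_mem _ τ' hwS)) hyS
      have h7 : y + (f⁻¹ * l) • y' + τ' • w - τ' • w - y = (f⁻¹ * l) • y' := by abel
      rwa [h7] at h6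
    have h8 : f⁻¹ * l ≠ 0 := mul_ne_zero hε0 hl
    exact hy' ((Submodule.smul_mem_iff _ h8).1 h5)
  · exact ⟨n, hon, hnV, hnn, hnm⟩

end Pool.Agent.CUB
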