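import Pool.Agent.CUB.FamA
import Pool.Agent.CUB.FacC
import Pool.Agent.TInc.Riem

/-!
# Families of plane cubics with nonconstant j-invariant
-/

set_option autoImplicit false

noncomputable section

namespace Pool.Agent.CUB

open Pool.Agent.ZCyc Pool.Agent.Dess Pool.Agent.GT
open Pool.Agent.VFP (Om tt)
open scoped Classical

variable {k : Type} [Field k] [IsAlgClosed k] [CharZero k] {F : MvPolynomial (Fin 6) k}

/-! ### Linear algebra -/

omit [IsAlgClosed k] [CharZero k] in
/-- linearly independent vectors stay linearly independent in an extension of the field -/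
private theorem li_map {K K' : Type} [Field K] [Algebra k K] [Field K'] [Algebra k K']
    (φ : K →ₐ[k] K') {ι : Type} [Fintype ι] {v : ι → Fin 6 → K} (h : LinearIndependent K v) :
    LinearIndependent K' fun j i => φ (v j i) := by
  obtain ⟨g, hg⟩ := LinearMap.exists_leftInverse_of_injective (Fintype.linearCombination K v)
    (LinearMap.ker_eq_bot.2 ((linearIndependent_iff_injective_fintypeLinearCombination).1 h))
  have hgv : ∀ j j', g (v j) j' = (Pi.single j 1 : ι → K) j' := by
    intro j j'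
    have h1 := LinearMap.congr_fun hg (Pi.single j 1)
    rw [LinearMap.comp_apply, Fintype.linearCombination_apply_single, one_smul] at h1
    rw [h1]
    rfl
  have hsum : ∀ (x : Fin 6 → K) (j' : ι), g x j' = ∑ i, g (Pi.single i 1) j' * x i := by
    intro x j'
    conv_lhs => rw [← Finset.univ_sum_single x]
    rw [map_sum, Finset.sum_apply]
    refine Finset.sum_congr rfl fun i _ => ?_
    have h1 : (Pi.single i (x i) : Fin 6 → K) = x i • Pi.single i 1 := by
      rw [← Pi.single_smul, smul_eq_mul, mul_one]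
    rw [h1, map_smul, Pi.smul_apply, smul_eq_mul, mul_comm]
  rw [Fintype.linearIndependent_iff]
  intro c hc j'
  have h1 : ∀ i, ∑ j, c j * φ (v j i) = 0 := by
    intro i
    have := congrFun hc i
    rw [Finset.sum_apply] at this
    simpa using this
  have h2 : ∑ j, c j * φ (g (v j) j') = 0 := by
    have h3 : ∀ j, c j * φ (g (v j) j') = ∑ i, φ (g (Pi.single i 1) j') * (c j * φ (v j i)) := by
      intro j
      rw [hsum, map_sum, Finset.mul_sum]
      refine Finset.sum_congr rfl fun i _ => ?_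
      rw [map_mul]
      ring
    simp only [h3]
    rw [Finset.sum_comm]
    refine Finset.sum_eq_zero fun i _ => ?_
    rw [← Finset.mul_sum, h1, mul_zero]
  simp only [hgv] at h2
  rw [Finset.sum_eq_single j'] at h2
  · simpa using h2
  · intro b _ hb
    rw [Pi.single_eq_of_ne hb.symm, map_zero, mul_zero]
  · intro h
    exact absurd (Finset.mem_univ _) h

omit [IsAlgClosed k] [CharZero k] in
private theorem li_of_map {K K' : Type} [Field K] [Algebra k K] [Field K'] [Algebra k K']
    (φ : K →ₐ[k] K') {ι : Type} [Fintype ι] {v : ι → Fin 6 → K}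
    (h : LinearIndependent K' fun j i => φ (v j i)) : LinearIndependent K v := by
  rw [Fintype.linearIndependent_iff] at h ⊢
  intro c hc j
  have h1 := h (fun j => φ (c j)) ?_ j
  · exact (map_eq_zero φ).1 h1
  · funext i
    have h2 := congrFun hc i
    rw [Finset.sum_apply] at h2 ⊢
    have h3 := congrArg φ h2
    rw [map_sum] at h3
    simpa using h3

/-! ### The coefficients of the Weierstrass form -/

/-- the polar form of the Weierstrass form at basis vectors -/
private def wcf {K : Type} [Field K] (α B : K) (i j l : Fin 3) : K :=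
  let u : Fin 3 → K := Pi.single i 1
  let v : Fin 3 → K := Pi.single j 1
  let w : Fin 3 → K := Pi.single l 1
  (u 1 * v 1 * w 2 + u 1 * v 2 * w 1 + u 2 * v 1 * w 1) / 3 - u 0 * v 0 * w 0 +
    α * (u 0 * v 2 * w 2 + u 2 * v 0 * w 2 + u 2 * v 2 * w 0) - B * (u 2 * v 2 * w 2)

/-- the values of the trilinear form -/
private structure Wc {K : Type} [Field K] [Algebra k K] (F : MvPolynomial (Fin 6) k)
    (o : Fin 6 → K) (b : Fin 3 → Fin 6 → K) (α B : K) : Prop where
  li : LinearIndependent K ![o, b 0, b 1, b 2]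
  ooo : tri F o o o = 0
  oob : ∀ i, tri F o o (b i) = 0
  obb : ∀ i j, tri F o (b i) (b j) = 0
  bbb : ∀ i j l, tri F (b i) (b j) (b l) = wcf α B i j l

omit [IsAlgClosed k] [CharZero k] in
private theorem polar {K : Type} [Field K] [Algebra k K] (u v w : Fin 6 → K) :
    6 * tri F u v w = tri F (u + v + w) (u + v + w) (u + v + w) - tri F (u + v) (u + v) (u + v) -
      tri F (u + w) (u + w) (u + w) - tri F (v + w) (v + w) (v + w) + tri F u u u + tri F v v v +
      tri F w w w := by
  simp only [tri_add1, tri_add2, tri_add3]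
  have e1 : tri F v u w = tri F u v w := tri_swap12 F _ _ _
  have e2 : tri F u w v = tri F u v w := tri_swap23 F _ _ _
  have e3 : tri F w u v = tri F u v w := by rw [tri_swap12, tri_swap23]
  have e4 : tri F v w u = tri F u v w := by rw [tri_swap23, tri_swap12]
  have e5 : tri F w v u = tri F u v w := by rw [tri_swap12, tri_swap23, tri_swap12]
  rw [e1, e2, e3, e4, e5]
  ring

omit [IsAlgClosed k] in
private theorem wc_of_wei {K : Type} [Field K] [Algebra k K] {o : Fin 6 → K}
    {V : Submodule K (Fin 6 → K)} {b : Fin 3 → Fin 6 → K} {α B : K} (h : Wei F o V b α B) :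
    Wc F o b α B := by
  have : CharZero K := charZero_of_injective_algebraMap (algebraMap k K).injective
  refine ⟨h.li, h.cne.zero _ h.cne.mem _ h.cne.mem, fun i => h.cne.zero _ h.cne.mem _ (h.mem i),
    fun i j => h.cne.zero _ (h.mem i) _ (h.mem j), fun i j l => ?_⟩
  have hb : ∀ i, b i = pnt b ((Pi.single i 1 : Fin 3 → K) 0) ((Pi.single i 1 : Fin 3 → K) 1)
      ((Pi.single i 1 : Fin 3 → K) 2) := by
    intro i
    unfold pnt
    fin_cases i <;> simp
  have hadd : ∀ x y z x' y' z' : K, pnt b x y z + pnt b x' y' z' =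
      pnt b (x + x') (y + y') (z + z') := by
    intro x y z x' y' z'
    unfold pnt
    module
  have key := polar (k := k) (F := F) (b i) (b j) (b l)
  rw [hb i, hb j, hb l] at key
  simp only [hadd, h.eq] at key
  rw [← hb i, ← hb j, ← hb l] at key
  unfold wcf
  simp only
  linear_combination (1 / 6 : K) * key

omit [IsAlgClosed k] [CharZero k] in
private theorem wcf_map {K K' : Type} [Field K] [Algebra k K] [Field K'] [Algebra k K']
    (φ : K →ₐ[k] K') (α B : K) (i j l : Fin 3) : φ (wcf α B i j l) = wcf (φ α) (φ B) i j l := by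
  have h : ∀ (i j : Fin 3), φ ((Pi.single i 1 : Fin 3 → K) j) = (Pi.single i 1 : Fin 3 → K') j := by
    intro i j
    by_cases hij : i = j
    · subst hij
      rw [Pi.single_eq_same, Pi.single_eq_same, map_one]
    · rw [Pi.single_eq_of_ne (Ne.symm hij), Pi.single_eq_of_ne (Ne.symm hij), map_zero]
  unfold wcf
  simp only [map_add, map_sub, map_mul, map_div₀, h, map_ofNat]

omit [IsAlgClosed k] [CharZero k] in
private theorem wc_map {K K' : Type} [Field K] [Algebra k K] [Field K'] [Algebra k K']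
    (φ : K →ₐ[k] K') {o : Fin 6 → K} {b : Fin 3 → Fin 6 → K} {α B : K} :
    Wc F (fun i => φ (o i)) (fun j i => φ (b j i)) (φ α) (φ B) ↔ Wc F o b α B := by
  have hv : (fun (j : Fin 4) i => φ ((![o, b 0, b 1, b 2] : Fin 4 → Fin 6 → K) j i)) =
      ![fun i => φ (o i), fun i => φ (b 0 i), fun i => φ (b 1 i), fun i => φ (b 2 i)] := by
    funext j
    fin_cases j <;> rfl
  constructor
  · intro h
    refine ⟨li_of_map φ (by rw [hv]; exact h.li), ?_, fun i => ?_, fun i j => ?_,
      fun i j l => ?_⟩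
    · refine (map_eq_zero φ).1 ?_
      rw [tri_map]
      exact h.ooo
    · refine (map_eq_zero φ).1 ?_
      rw [tri_map]
      exact h.oob i
    · refine (map_eq_zero φ).1 ?_
      rw [tri_map]
      exact h.obb i j
    · refine (φ : K →+* K').injective ?_
      change φ (tri F (b i) (b j) (b l)) = φ (wcf α B i j l)
      rw [tri_map, wcf_map]
      exact h.bbb i j l
  · intro h
    refine ⟨?_, ?_, fun i => ?_, fun i j => ?_, fun i j l => ?_⟩
    · rw [← hv]
      exact li_map φ h.li
    · rw [← tri_map, h.ooo, map_zero]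
    · rw [← tri_map, h.oob, map_zero]
    · rw [← tri_map, h.obb, map_zero]
    · rw [← tri_map, h.bbb, wcf_map]

omit [IsAlgClosed k] in
/-- the lines of the family -/
private theorem wc_line (hF : Smooth F) {K : Type} [Field K] [Algebra k K] {o : Fin 6 → K}
    {b : Fin 3 → Fin 6 → K} {α B : K} (h : Wc F o b α B) {x y : K}
    (hxy : y ^ 2 = x ^ 3 - 3 * α * x + B) :
    LinearIndependent K ![o, pnt b x y 1] ∧
      ∃ n : Ln F K, n.W = Submodule.span K {o, pnt b x y 1} := by
  have : CharZero K := charZero_of_injective_algebraMap (algebraMap k K).injective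
  have hli : LinearIndependent K ![o, pnt b x y 1] := by
    have h1 := h.li
    rw [LinearIndependent.pair_iff]
    rw [Fintype.linearIndependent_iff] at h1
    intro s t hst
    have h2 := h1 ![s, t * x, t * y, t] (by
      rw [Fin.sum_univ_four]
      simp only [Matrix.cons_val]
      rw [← hst]
      unfold pnt
      module)
    exact ⟨h2 0, h2 3⟩
  refine ⟨hli, exists_ln hF hli h.ooo ?_ ?_ ?_⟩
  · unfold pnt
    simp only [tri_add3, tri_smul3, h.oob, mul_zero, add_zero]
  · unfold pnt
    simp only [tri_add2, tri_add3, tri_smul2, tri_smul3, h.obb, mul_zero, add_zero]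
  · unfold pnt
    simp only [tri_add1, tri_add2, tri_add3, tri_smul1, tri_smul2, tri_smul3, h.bbb]
    unfold wcf
    simp
    linear_combination hxy

/-! ### The data -/

/-- the data for the main theorem -/
private def gdat {L : Type} [Field L] (o : Fin 6 → L) (b : Fin 3 → Fin 6 → L) (α B : L) :
    GD L 35 where
  α := α
  B := B
  h := Polynomial.X
  G n := Polynomial.C (Polynomial.C (pl o (b 2) n)) +
    Polynomial.C (Polynomial.C (pl o (b 0) n)) * Polynomial.X
  H n := Polynomial.C (Polynomial.C (pl o (b 1) n))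

omit [IsAlgClosed k] [CharZero k] in
private theorem gdat_co {L K : Type} [Field L] [Algebra k L] [Field K] [Algebra k K]
    (o : Fin 6 → L) (b : Fin 3 → Fin 6 → L) (α B : L) (S : L →ₐ[k] K) (θ x y : K) :
    ((gdat o b α B).mp (S : L →+* K) θ).co x y =
      pl (fun i => S (o i)) (pnt (fun j i => S (b j i)) x y 1) := by
  funext n
  unfold GT.Mp.co GT.GD.mp gdat
  simp only [Polynomial.map_add, Polynomial.map_mul, Polynomial.map_C, Polynomial.map_X,
    Polynomial.coe_eval₂RingHom, Polynomial.eval₂_C, Polynomial.eval_add, Polynomial.eval_mul,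
    Polynomial.eval_C, Polynomial.eval_X]
  unfold pl pnt
  simp only [RingHom.coe_coe, map_sub, map_mul, Pi.add_apply, Pi.smul_apply, smul_eq_mul, one_mul]
  ring

omit [IsAlgClosed k] in
private theorem gdat_ok (hF : Smooth F) {L : Type} [Field L] [Algebra k L] {o : Fin 6 → L}
    {b : Fin 3 → Fin 6 → L} {α B : L} (h : Wc F o b α B) (hd : B ^ 2 ≠ 4 * α ^ 3) :
    (gdat o b α B).Ok (PX F) where
  monic := Polynomial.monic_X
  sep := ⟨0, 1, by
    change (0 : Polynomial L) * Polynomial.X + 1 * Polynomial.derivative Polynomial.X = 1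
    rw [Polynomial.derivative_X, zero_mul, zero_add, one_mul]⟩
  disc := by
    rw [isUnit_iff_ne_zero]
    exact sub_ne_zero.2 hd
  ne := by
    have hli : LinearIndependent L ![o, b 2] := by
      have h1 := h.li
      rw [LinearIndependent.pair_iff]
      rw [Fintype.linearIndependent_iff] at h1
      intro s t hst
      have h2 := h1 ![s, 0, 0, t] (by
        rw [Fin.sum_univ_four]
        simp only [Matrix.cons_val]
        rw [← hst]
        module)
      exact ⟨h2 0, h2 3⟩
    obtain ⟨n, hn⟩ := Function.ne_iff.1 (pl_ne hli)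
    rw [Ideal.eq_top_iff_one]
    have h3 : Polynomial.C (pl o (b 2) n) ∈ Ideal.span ({(gdat o b α B).h} ∪
        {c | ∃ i j, c = ((gdat o b α B).G i).coeff j ∨ c = ((gdat o b α B).H i).coeff j}) := by
      refine Ideal.subset_span (Or.inr ⟨n, 0, Or.inl ?_⟩)
      unfold gdat
      simp
    have h4 := Ideal.mul_mem_left _ (Polynomial.C (pl o (b 2) n)⁻¹) h3
    rw [← Polynomial.C_mul, inv_mul_cancel₀ hn, Polynomial.C_1] at h4
    exact h4
  onX := by
    intro K _ _ S θ _ x y hxy f hf
    rw [gdat_co]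
    obtain ⟨-, n, hn⟩ := wc_line hF ((wc_map S).2 h) hxy
    exact pl_mem hF hn f hf

/-! ### Fields of definition -/

omit [IsAlgClosed k] [CharZero k] in
private theorem fam_le (L : IntermediateField k (Om k)) (hL : IsCurve k L) :
    ∃ Γ : Finset (Om k), ∀ K : IntermediateField k (Om k), (↑Γ : Set (Om k)) ⊆ K → L ≤ K := by
  obtain ⟨t, -, hfd⟩ := hL
  obtain ⟨s, hs⟩ := Module.finite_def.1 hfd
  refine ⟨insert (t : Om k) (s.image Subtype.val), fun K hK z hz => ?_⟩
  have ht : (t : Om k) ∈ K := hK (by simp)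
  have hc : ∀ c ∈ IntermediateField.adjoin k {t}, (c : Om k) ∈ K := by
    intro c hc
    have h1 : L.val c ∈ (IntermediateField.adjoin k {t}).map L.val := ⟨c, hc, rfl⟩
    rw [IntermediateField.adjoin_map, Set.image_singleton] at h1
    refine (IntermediateField.adjoin_le_iff.2 ?_) h1
    rw [Set.singleton_subset_iff]
    exact ht
  have key : ∀ w ∈ Submodule.span (IntermediateField.adjoin k {t}) (s : Set L),
      (w : Om k) ∈ K := by
    intro w hw
    induction hw using Submodule.span_induction with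
    | mem x hx => exact hK (by simp only [Finset.coe_insert, Finset.coe_image]
                               exact Or.inr ⟨x, hx, rfl⟩)
    | zero => exact zero_mem K
    | add x y _ _ hx hy => exact add_mem hx hy
    | smul c x _ hx => exact mul_mem (hc c.1 c.2) hx
  exact key ⟨z, hz⟩ (by rw [hs]; exact Submodule.mem_top)

/-- the values of the lines of the family -/
private theorem fam_val (hF : Smooth F) {L K : IntermediateField k (Om k)} (hK : IsCurve k K)
    (hLK : L ≤ K) {o : Fin 6 → L} {b : Fin 3 → Fin 6 → L} {α B : L} (h : Wc F o b α B)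
    {v : Place k (Om k)} {v' : Place k K}
    (hv : v.ring.comap (K.val : K →+* Om k) = v'.ring) {x y : K}
    (hxy : y ^ 2 = x ^ 3 - 3 * IntermediateField.inclusion hLK α * x +
      IntermediateField.inclusion hLK B)
    {n : Ln F (Om k)} (hn : n.W = Submodule.span (Om k) {fun i => (o i : Om k),
      pnt (fun j i => (b j i : Om k)) (x : Om k) (y : Om k) 1}) {m : Ln F k} (hm : IsVal v n m)
    (θ : K) : ∃ l : K, ∀ i, v'.At (l * ((gdat o b α B).mp
      (IntermediateField.inclusion hLK : L →+* K) θ).co x y i) (((pe hF k).symm m).1.rep i) := by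
  have hres : HasRes k K := hasRes_of_isCurve hK
  obtain ⟨hli, nK, hnK⟩ := wc_line hF ((wc_map (IntermediateField.inclusion hLK)).2 h) hxy
  have hat : ∀ (f : K) (c : k), v'.At f c → v.At (f : Om k) c := by
    intro f c hf
    have hmem : ∀ f : K, (f : Om k) ∈ v.ring ↔ f ∈ v'.ring := by
      intro f
      rw [← hv, ValuationSubring.mem_comap]
      rfl
    unfold Place.At at *
    rw [Place.vanishes_iff_or] at *
    have e : (f : Om k) - algebraMap k (Om k) c = ((f - algebraMap k K c : K) : Om k) := rfl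
    rw [e]
    refine hf.imp (fun h1 => ?_) fun h1 h2 => h1 ?_
    · rw [h1]
      rfl
    · exact (hmem _).1 h2
  have hval : IsVal v' nK m := by
    intro a ha c hc
    refine hm (fun i => (a i : Om k)) ?_ c fun i => hat _ _ (hc i)
    rw [hnK, Submodule.mem_span_pair] at ha
    obtain ⟨s, t, rfl⟩ := ha
    rw [hn, Submodule.mem_span_pair]
    refine ⟨s, t, ?_⟩
    funext i
    rfl
  have h1 : GT.IsVal v' ((pe hF K).symm nK) ((pe hF k).symm m) := by
    rw [pe_val hF, Equiv.apply_symm_apply, Equiv.apply_symm_apply]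
    exact hval
  obtain ⟨l, hl⟩ := h1
  have h2 := (pe_spec hF hli (x := (pe hF K).symm nK)).2 (by
    rw [Equiv.apply_symm_apply]
    exact hnK)
  obtain ⟨c, hc⟩ := Projectivization.exists_smul_eq_mk_rep K _ (pl_ne hli)
  rw [← h2] at hc
  refine ⟨l * c, fun i => ?_⟩
  have h3 := hl i
  rw [← hc] at h3
  have h4 := gdat_co o b α B (IntermediateField.inclusion hLK) θ x y
  rw [h4]
  have h5 : l * (c : K) * pl (fun i => (IntermediateField.inclusion hLK) (o i))
      (pnt (fun j i => (IntermediateField.inclusion hLK) (b j i)) x y 1) i =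
      l * (c • pl (fun i => (IntermediateField.inclusion hLK) (o i))
      (pnt (fun j i => (IntermediateField.inclusion hLK) (b j i)) x y 1)) i := by
    rw [mul_assoc]
    rfl
  rw [h5]
  exact h3

private theorem fam_gen (hF : Smooth F) {L : IntermediateField k (Om k)} (hL : IsCurve k L)
    {o : Fin 6 → L} {b : Fin 3 → Fin 6 → L} {α B : L} {V : Submodule (Om k) (Fin 6 → Om k)}
    (h : Wei F (fun i => (o i : Om k)) V (fun j i => (b j i : Om k)) α B) {n₀ : Ln F (Om k)}
    (hn₀ : n₀.W = Submodule.span (Om k) {fun i => (o i : Om k), fun i => (b 1 i : Om k)})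
    {z : Ln F k →₀ ℚ} (hz : z ∈ TL F (fun i => (o i : Om k)) V n₀) :
    Finsupp.mapDomain (pe hF k).symm z ∈ Submodule.span ℚ (DiffGen (gdat o b α B) (PX F)) := by
  have hle : TL F (fun i => (o i : Om k)) V n₀ ≤
      (Submodule.span ℚ (DiffGen (gdat o b α B) (PX F))).comap
        (Finsupp.lmapDomain ℚ ℚ (pe hF k).symm) := by
    refine Submodule.span_le.2 fun z hz => ?_
    obtain ⟨v, n, n', m, m', hon, hnV, hn, hon', hnV', hn', hm, hm', rfl⟩ := hz
    have hline : ∀ n : Ln F (Om k), (fun i => (o i : Om k)) ∈ n.W → n.W ≤ V → n ≠ n₀ →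
        ∃ x y : Om k, y ^ 2 = x ^ 3 - 3 * (α : Om k) * x + B ∧
          n.W = Submodule.span (Om k) {fun i => (o i : Om k),
            pnt (fun j i => (b j i : Om k)) x y 1} := by
      intro n h1 h2 h3
      rcases wei_line hF h h1 h2 with h4 | h4
      · exact absurd (Ln.ext (h4.trans hn₀.symm)) h3
      · exact h4
    obtain ⟨x, y, hxy, hW⟩ := hline n hon hnV hn
    obtain ⟨x', y', hxy', hW'⟩ := hline n' hon' hnV' hn'
    obtain ⟨Γ, hΓ⟩ := fam_le L hL
    obtain ⟨K, -, hK, hΓK, -, -⟩ := exists_field (hom_PX hF) (Γ ∪ {x, y, x', y'})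
      (J := Fin 0) (fun j => j.elim0)
    rw [Finset.coe_union, Set.union_subset_iff] at hΓK
    have hLK : L ≤ K := hΓ K hΓK.1
    have hx : x ∈ K := hΓK.2 (by simp)
    have hy : y ∈ K := hΓK.2 (by simp)
    have hx' : x' ∈ K := hΓK.2 (by simp)
    have hy' : y' ∈ K := hΓK.2 (by simp)
    obtain ⟨v', hv'⟩ := TInc.exists_below hK v K.val
    have hwc : Wc F o b α B := (wc_map L.val).1 (wc_of_wei h)
    have e1 : (⟨y, hy⟩ : K) ^ 2 = (⟨x, hx⟩ : K) ^ 3 -
        3 * IntermediateField.inclusion hLK α * ⟨x, hx⟩ + IntermediateField.inclusion hLK B :=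
      Subtype.ext hxy
    have e2 : (⟨y', hy'⟩ : K) ^ 2 = (⟨x', hx'⟩ : K) ^ 3 -
        3 * IntermediateField.inclusion hLK α * ⟨x', hx'⟩ + IntermediateField.inclusion hLK B :=
      Subtype.ext hxy'
    rw [SetLike.mem_coe, Submodule.mem_comap, Finsupp.lmapDomain_apply]
    refine Submodule.subset_span ⟨K, inferInstance, inferInstance, hK,
      IntermediateField.inclusion hLK, v', 1, fun _ => 0, ⟨x, hx⟩, ⟨y, hy⟩, ⟨x', hx'⟩, ⟨y', hy'⟩,
      fun _ => (pe hF k).symm m, fun _ => (pe hF k).symm m', ?_, e1, e2, fun _ => ?_, fun _ => ?_,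
      ?_⟩
    · unfold gdat
      simp
    · exact fam_val hF hK hLK hwc hv' e1 hW hm 0
    · exact fam_val hF hK hLK hwc hv' e2 hW' hm' 0
    · rw [Fin.sum_univ_one, Finsupp.mapDomain_sub, Finsupp.mapDomain_single,
        Finsupp.mapDomain_single]
  exact hle hz

omit [IsAlgClosed k] [CharZero k] in
private theorem mapDomain_pe {T T' : Type} {N : ℕ} (e : T ≃ T') (z : Fin N → (T' →₀ ℚ)) :
    Finsupp.mapDomain (fun (x : Fin N → T) j => e (x j)) (∑ π : Equiv.Perm (Fin N),
      ((Equiv.Perm.sign π : ℤˣ) : ℤ) • GT.ext (fun j => Finsupp.mapDomain e.symm (z (π j)))) =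
      alt z := by
  rw [Finsupp.mapDomain_finsetSum]
  unfold alt
  refine Finset.sum_congr rfl fun π _ => ?_
  have h1 : Finsupp.mapDomain (fun (x : Fin N → T) j => e (x j))
      (GT.ext fun j => Finsupp.mapDomain e.symm (z (π j))) = ext fun j => z (π j) := by
    rw [← GT.ext_mapDomain]
    have h2 : (fun j => Finsupp.mapDomain e (Finsupp.mapDomain e.symm (z (π j)))) =
        fun j => z (π j) := by
      funext j
      rw [← Finsupp.mapDomain_comp]
      have h3 : (e : T → T') ∘ e.symm = id := by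
        funext x
        simp
      rw [h3, Finsupp.mapDomain_id]
    rw [h2]
    rfl
  have h4 := map_zsmul (Finsupp.mapDomain.addMonoidHom
    (M := ℚ) (fun (x : Fin N → T) j => e (x j))) ((Equiv.Perm.sign π : ℤˣ) : ℤ)
    (GT.ext fun j => Finsupp.mapDomain e.symm (z (π j)))
  refine h4.trans ?_
  congr 1

omit [CharZero k] in
private theorem exists_div {L : Type} [Field L] [Algebra k L] [CharZero k] (hL : IsCurve k L)
    (α B : L) (δ : Place k L) : ∃ (D : Place k L →₀ ℤ) (n₀ : ℕ), TInc.deg D = n₀ ∧ 0 < n₀ ∧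
      (∀ v, 0 ≤ TInc.ord v α + 4 * D v) ∧ ∀ v, 0 ≤ TInc.ord v B + 6 * D v := by
  set D : Place k L →₀ ℤ := (TInc.dv hL α).mapRange (fun n => |n|) abs_zero +
    (TInc.dv hL B).mapRange (fun n => |n|) abs_zero + Finsupp.single δ 1 with hD
  have hDv : ∀ v, D v = |TInc.ord v α| + |TInc.ord v B| + Finsupp.single δ 1 v := by
    intro v
    rw [hD, Finsupp.add_apply, Finsupp.add_apply, Finsupp.mapRange_apply,
      Finsupp.mapRange_apply, TInc.dv_apply, TInc.dv_apply]
  have h1 : ∀ v, 0 ≤ (Finsupp.single δ 1 : Place k L →₀ ℤ) v := by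
    intro v
    rw [Finsupp.single_apply]
    split_ifs <;> simp
  have hpos : ∀ v, 0 ≤ D v := by
    intro v
    rw [hDv]
    have := h1 v
    positivity
  have hδ : 1 ≤ D δ := by
    rw [hDv, Finsupp.single_eq_same]
    have := abs_nonneg (TInc.ord δ α)
    have := abs_nonneg (TInc.ord δ B)
    omega
  have hdeg : 1 ≤ TInc.deg D := by
    unfold TInc.deg Finsupp.sum
    refine hδ.trans (Finset.single_le_sum (f := fun v => D v) (fun v _ => hpos v) ?_)
    rw [Finsupp.mem_support_iff]
    omega
  refine ⟨D, (TInc.deg D).toNat, by omega, by omega, fun v => ?_, fun v => ?_⟩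
  · have h2 := hDv v
    have h3 := h1 v
    have h4 := neg_abs_le (TInc.ord v α)
    have h5 := abs_nonneg (TInc.ord v B)
    have h6 := abs_nonneg (TInc.ord v α)
    omega
  · have h2 := hDv v
    have h3 := h1 v
    have h4 := neg_abs_le (TInc.ord v B)
    have h5 := abs_nonneg (TInc.ord v B)
    have h6 := abs_nonneg (TInc.ord v α)
    omega

/-- THE MAIN CASE. Proof: let `L` be a subfield of `Om k`, the function field of a curve, which
contains the coordinates of `o`, `b i`, and `α`, `B` (`exists_field` in `GT/Fld.lean`, or the same for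
elements of `Om k`). The data `d : GD L 35`: the curve `α`, `B`, the polynomial `h = X` (one root), and
the map `(x, y) ↦ pl o (x b₀ + y b₁ + b₂)`, i.e. `G_n = C (C (pl o b₂ n)) + C (C (pl o b₀ n)) X`,
`H_n = C (C (pl o b₁ n))`. `d.Ok (PX F)`: `pl_mem`, `pl_ne`. The differences in `TL` correspond to elements
of `DiffGen`: `wei_line`, the values (`pe_val`); `K = Om k` is not the function field of a curve,
take a subfield `K` which contains `L` and the coordinates `x`, `y`, `x'`, `y'` (`exists_field` again)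
and the place below `v`. `GT.mainD` with `exists_genus`, `exists_bad`, any `D` with
`ord α + 4 D ≥ 0`, `ord B + 6 D ≥ 0`, `deg D > 0`, and then `rat_fin`, `alt_span`. -/
theorem fam (hF : Smooth F) {o : Fin 6 → Om k} {V : Submodule (Om k) (Fin 6 → Om k)}
    {b : Fin 3 → Fin 6 → Om k} {α B : Om k} (h : Wei F o V b α B) {n₀ : Ln F (Om k)}
    (hn₀ : n₀.W = Submodule.span (Om k) {o, b 1})
    (hj : ¬ ∃ a a' : k, (a ≠ 0 ∨ a' ≠ 0) ∧
      algebraMap k (Om k) a * α ^ 3 = algebraMap k (Om k) a' * B ^ 2) :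
    Fd F (TL F o V n₀) := by
  obtain ⟨L, -, hL, hΓ, -, -⟩ := exists_field (hom_PX hF)
    ((Finset.univ.image o ∪ Finset.univ.image fun p : Fin 3 × Fin 6 => b p.1 p.2) ∪ {α, B})
    (J := Fin 0) (fun j => j.elim0)
  have ho : ∀ i, o i ∈ L := fun i => hΓ (by simp)
  have hb : ∀ j i, b j i ∈ L := fun j i => hΓ (by
    rw [Finset.mem_coe, Finset.mem_union, Finset.mem_union, Finset.mem_image, Finset.mem_image]
    exact Or.inl (Or.inr ⟨(j, i), Finset.mem_univ _, rfl⟩))
  have hα : α ∈ L := hΓ (by simp)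
  have hB : B ∈ L := hΓ (by simp)
  obtain ⟨o, rfl⟩ : ∃ o' : Fin 6 → L, o = fun i => (o' i : Om k) := ⟨fun i => ⟨o i, ho i⟩, rfl⟩
  obtain ⟨b, rfl⟩ : ∃ b' : Fin 3 → Fin 6 → L, b = fun j i => (b' j i : Om k) :=
    ⟨fun j i => ⟨b j i, hb j i⟩, rfl⟩
  obtain ⟨α, rfl⟩ : ∃ α' : L, α = (α' : Om k) := ⟨⟨α, hα⟩, rfl⟩
  obtain ⟨B, rfl⟩ : ∃ B' : L, B = (B' : Om k) := ⟨⟨B, hB⟩, rfl⟩
  have hd : B ^ 2 ≠ 4 * α ^ 3 := fun h1 => h.disc (congrArg Subtype.val h1)
  have hj' : ¬ ∃ a a' : k, (a ≠ 0 ∨ a' ≠ 0) ∧
      algebraMap k L a * α ^ 3 = algebraMap k L a' * B ^ 2 := by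
    rintro ⟨a, a', h1, h2⟩
    exact hj ⟨a, a', h1, congrArg Subtype.val h2⟩
  obtain ⟨δ, hδ⟩ := exists_bad hL hd hj'
  obtain ⟨D, r, hD, hr, hDα, hDB⟩ := exists_div hL α B δ
  obtain ⟨g, hg⟩ := TInc.exists_genus hL
  have hwc : Wc F o b α B := (wc_map L.val).1 (wc_of_wei h)
  refine ⟨r + g, fun z hz => ?_⟩
  have h1 := mainD (hom_PX hF) hL (gdat_ok hF hwc hd) hD hr (fun _ => hDα) (fun _ => hDB) hg
    le_rfl hδ (fun j => Finsupp.mapDomain (pe hF k).symm (z j))
    fun j => fam_gen hF hL h hn₀ (hz j)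
  have h2 := rat_fin hF h1
  rw [mapDomain_pe] at h2
  exact h2

end Pool.Agent.CUB
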