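import Pool.Agent.CUB.RelA
import Pool.Agent.CUB.Alt

/-!
# Relations for several lines
-/

set_option autoImplicit false

noncomputable section

namespace Pool.Agent.CUB

open Pool.Agent.ZCyc Pool.Agent.Dess Pool.Agent.GT
open Pool.Agent.VFP (Om tt)
open scoped Classical

variable {k : Type} [Field k] [IsAlgClosed k] [CharZero k] {F : MvPolynomial (Fin 6) k}

private theorem relb_span {α β : Type} (f : α → β) {G : Set (α →₀ ℚ)}
    {R : Submodule ℚ (β →₀ ℚ)} (h : ∀ z ∈ G, Finsupp.mapDomain f z ∈ R) {z : α →₀ ℚ}
    (hz : z ∈ Submodule.span ℚ G) : Finsupp.mapDomain f z ∈ R := by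
  have h1 : Submodule.span ℚ G ≤ R.comap (Finsupp.lmapDomain ℚ ℚ f) := by
    rw [Submodule.span_le]
    intro w hw
    exact h w hw
  exact h1 hz

private theorem relb_sum {α β γ : Type} (f : α → β) (y : γ → α) (D : γ →₀ ℤ) :
    Finsupp.mapDomain f (D.sum fun v a => Finsupp.single (y v) (a : ℚ)) =
      D.sum fun v a => Finsupp.single (f (y v)) (a : ℚ) := by
  rw [Finsupp.sum, Finsupp.sum, Finsupp.mapDomain_finsetSum]
  exact Finset.sum_congr rfl fun v _ => Finsupp.mapDomain_single

private theorem relb_tri {α β : Type} (f : α → β) (a b : Fin 3 → α) :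
    Finsupp.mapDomain f (∑ i, (Finsupp.single (a i) (1 : ℚ) - Finsupp.single (b i) 1)) =
      ∑ i, (Finsupp.single (f (a i)) (1 : ℚ) - Finsupp.single (f (b i)) 1) := by
  rw [Finsupp.mapDomain_finsetSum]
  refine Finset.sum_congr rfl fun i _ => ?_
  have h1 : Finsupp.mapDomain f (Finsupp.single (a i) (1 : ℚ) - Finsupp.single (b i) 1) =
      Finsupp.mapDomain f (Finsupp.single (a i) (1 : ℚ)) -
        Finsupp.mapDomain f (Finsupp.single (b i) 1) :=
    map_sub (Finsupp.lmapDomain ℚ ℚ f) _ _
  rw [h1, Finsupp.mapDomain_single, Finsupp.mapDomain_single]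

/-- a relation for one line gives a relation for one of several lines (constant lines: `exists_base`) -/
theorem rel_update (hF : Smooth F) {w : Ln F k →₀ ℚ} (hw : w ∈ R1 F) {N : ℕ} (j : Fin N)
    (c : Fin N → Ln F k) : Finsupp.mapDomain (fun x => Function.update c j x) w ∈ Rel F N := by
  refine relb_span _ ?_ hw
  rintro z (⟨K, iK, aK, hK, x, y, f, D, hf, hD, hv, rfl⟩ | ⟨a, b, ha, hb, rfl⟩)
  · have hb : ∀ i : Fin N, ∃ x' : Ln F K, ∀ v : Place k K, IsVal v x' (c i) := fun i =>
      (exists_base hF K (c i)).imp fun _ h => h.2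
    choose xb hxb using hb
    rw [relb_sum]
    refine Submodule.mem_sup_left (Submodule.subset_span
      ⟨K, iK, aK, hK, Function.update xb j x, fun v => Function.update c j (y v), f, D, hf, hD,
        ?_, rfl⟩)
    intro v i
    show IsVal v (Function.update xb j x i) (Function.update c j (y v) i)
    by_cases hi : i = j
    · subst hi
      rw [Function.update_self, Function.update_self]
      exact hv v
    · rw [Function.update_of_ne hi, Function.update_of_ne hi]
      exact hxb i v
  · rw [relb_tri]
    exact Submodule.mem_sup_right (Submodule.subset_span ⟨j, c, a, b, ha, hb, rfl⟩)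

theorem rel_perm {N : ℕ} {z : (Fin N → Ln F k) →₀ ℚ} (hz : z ∈ Rel F N)
    (σ : Equiv.Perm (Fin N)) : Finsupp.mapDomain (fun x j => x (σ j)) z ∈ Rel F N := by
  obtain ⟨z₁, h₁, z₂, h₂, rfl⟩ := Submodule.mem_sup.1 hz
  rw [Finsupp.mapDomain_add]
  refine Submodule.add_mem _ (relb_span _ ?_ h₁) (relb_span _ ?_ h₂)
  · rintro z ⟨K, iK, aK, hK, x, y, f, D, hf, hD, hv, rfl⟩
    rw [relb_sum]
    exact Submodule.mem_sup_left (Submodule.subset_span
      ⟨K, iK, aK, hK, fun j => x (σ j), fun v j => y v (σ j), f, D, hf, hD,
        fun v j => hv v (σ j), rfl⟩)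
  · rintro z ⟨j, c, a, b, ha, hb, rfl⟩
    rw [relb_tri]
    refine Submodule.mem_sup_right (Submodule.subset_span
      ⟨σ.symm j, fun m => c (σ m), a, b, ha, hb, ?_⟩)
    have h3 : ∀ x : Ln F k, (fun m => Function.update c j x (σ m)) =
        Function.update (fun m => c (σ m)) (σ.symm j) x := fun x =>
      Function.update_comp_equiv c σ j x
    exact Finset.sum_congr rfl fun i _ => by rw [h3, h3]

theorem rel_append (hF : Smooth F) {N : ℕ} {z : (Fin N → Ln F k) →₀ ℚ} (hz : z ∈ Rel F N) (M : ℕ)
    (c : Fin M → Ln F k) : Finsupp.mapDomain (fun x => Fin.append x c) z ∈ Rel F (N + M) := by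
  obtain ⟨z₁, h₁, z₂, h₂, rfl⟩ := Submodule.mem_sup.1 hz
  rw [Finsupp.mapDomain_add]
  refine Submodule.add_mem _ (relb_span _ ?_ h₁) (relb_span _ ?_ h₂)
  · rintro z ⟨K, iK, aK, hK, x, y, f, D, hf, hD, hv, rfl⟩
    have hb : ∀ i : Fin M, ∃ x' : Ln F K, ∀ v : Place k K, IsVal v x' (c i) := fun i =>
      (exists_base hF K (c i)).imp fun _ h => h.2
    choose xb hxb using hb
    rw [relb_sum]
    refine Submodule.mem_sup_left (Submodule.subset_span
      ⟨K, iK, aK, hK, Fin.append x xb, fun v => Fin.append (y v) c, f, D, hf, hD, ?_, rfl⟩)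
    intro v i
    show IsVal v (Fin.append x xb i) (Fin.append (y v) c i)
    induction i using Fin.addCases with
    | left i =>
      rw [Fin.append_left, Fin.append_left]
      exact hv v i
    | right i =>
      rw [Fin.append_right, Fin.append_right]
      exact hxb i v
  · rintro z ⟨j, d, a, b, ha, hb, rfl⟩
    rw [relb_tri]
    refine Submodule.mem_sup_right (Submodule.subset_span
      ⟨Fin.castAdd M j, Fin.append d c, a, b, ha, hb, ?_⟩)
    have h3 : ∀ x : Ln F k, Fin.append (Function.update d j x) c =
        Function.update (Fin.append d c) (Fin.castAdd M j) x := by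
      intro x
      funext i
      induction i using Fin.addCases with
      | left i =>
        rw [Fin.append_left]
        by_cases hi : i = j
        · subst hi
          rw [Function.update_self, Function.update_self]
        · rw [Function.update_of_ne hi, Function.update_of_ne, Fin.append_left]
          intro h
          exact hi (Fin.castAdd_injective _ _ h)
      | right i =>
        rw [Fin.append_right, Function.update_of_ne, Fin.append_right]
        intro h
        have h4 := congrArg Fin.val h
        simp only [Fin.val_natAdd, Fin.val_castAdd] at h4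
        have := j.2
        omega
    exact Finset.sum_congr rfl fun i _ => by rw [h3, h3]

/-- the relations for lines -/
theorem rsys (hF : Smooth F) : RSys (Rel F) (R1 F) where
  update := fun {_} hw {_} j c => rel_update hF hw j c
  perm := fun {_} {_} hz σ => rel_perm hz σ
  append := fun {_} {_} hz M c => rel_append hF hz M c

end Pool.Agent.CUB
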