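import Pool.Agent.CUB.WeiB
import Pool.Agent.CUB.RelB
import Pool.Agent.GT.FinI
import Pool.Agent.ZCyc.Places

/-!
# The line at infinity, places of bad reduction
-/

set_option autoImplicit false

noncomputable section

namespace Pool.Agent.CUB

open Pool.Agent.ZCyc Pool.Agent.Dess Pool.Agent.GT
open Pool.Agent.VFP (Om tt)
open scoped Classical

variable {k : Type} [Field k] [IsAlgClosed k] [CharZero k] {F : MvPolynomial (Fin 6) k}

/-- The alternating sums of `m` elements of `A` are relations, for some `m`. -/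
def Fd (F : MvPolynomial (Fin 6) k) (A : Submodule ℚ (Ln F k →₀ ℚ)) : Prop :=
  ∃ m : ℕ, ∀ z : Fin m → (Ln F k →₀ ℚ), (∀ j, z j ∈ A) → alt z ∈ Rel F m

/-- the line at infinity `⟨o, b 1⟩` of the Weierstrass form -/
theorem exists_inf (hF : Smooth F) {o : Fin 6 → Om k} {V : Submodule (Om k) (Fin 6 → Om k)}
    {b : Fin 3 → Fin 6 → Om k} {α B : Om k} (h : Wei F o V b α B) :
    ∃ n₀ : Ln F (Om k), n₀.W = Submodule.span (Om k) {o, b 1} ∧ n₀.W ≤ V := by
  obtain ⟨n, hn, hn'⟩ := wei_exists hF h (x := 0) (y := 1) (z := 0) (Or.inr (Or.inl one_ne_zero))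
    (by ring)
  refine ⟨n, ?_, hn'⟩
  rw [hn]
  congr 2
  simp [pnt]

private theorem FamA_trans {L : Type} [Field L] [Algebra k L] {x : L}
    (h : ∀ c : k, x ≠ algebraMap k L c) : Transcendental k x := by
  intro hx
  have h1 := IsAlgClosed.degree_eq_one_of_irreducible k (minpoly.irreducible hx.isIntegral)
  obtain ⟨c, hc⟩ := minpoly.mem_range_of_degree_eq_one k x h1
  exact h c hc.symm

/-- If the `j`-invariant is not constant then `j` has a pole at some place of every field of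
definition `L`, where the curve has bad reduction. -/
theorem exists_bad {L : Type} [Field L] [Algebra k L] (hL : IsCurve k L) {α B : L}
    (hd : B ^ 2 ≠ 4 * α ^ 3) (hj : ¬ ∃ a a' : k, (a ≠ 0 ∨ a' ≠ 0) ∧
      algebraMap k L a * α ^ 3 = algebraMap k L a' * B ^ 2) :
    ∃ δ : Place k L, BadAt δ α B := by
  have hD : B ^ 2 - 4 * α ^ 3 ≠ 0 := sub_ne_zero.2 hd
  have hα : α ≠ 0 := by
    rintro rfl
    exact hj ⟨1, 0, Or.inl one_ne_zero, by simp⟩
  have hx : ∀ c : k, (α ^ 3 / (B ^ 2 - 4 * α ^ 3))⁻¹ ≠ algebraMap k L c := by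
    intro c hc
    rw [inv_div, div_eq_iff (pow_ne_zero 3 hα)] at hc
    refine hj ⟨c + 4, 1, Or.inr one_ne_zero, ?_⟩
    rw [map_add, map_one, map_ofNat]
    linear_combination -hc
  obtain ⟨δ, hδ⟩ := ZCyc.exists_place (FamA_trans hx) 0
  rw [Place.at_zero_iff, Place.vanishes_iff_or, inv_inv] at hδ
  refine ⟨δ, fun u hu h => ?_⟩
  obtain ⟨h1, -, h3⟩ := h
  rcases hδ with h4 | h4
  · exact inv_ne_zero (div_ne_zero (pow_ne_zero 3 hα) hD) h4
  · apply h4
    have h5 := mul_mem (pow_mem h1 3) h3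
    convert h5 using 1
    field_simp

end Pool.Agent.CUB
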