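import Pool.Agent.CUB.IsoB

/-!
# One good place is enough
-/

set_option autoImplicit false

noncomputable section

namespace Pool.Agent.CUB

open Pool.Agent.ZCyc Pool.Agent.Dess Pool.Agent.GT
open Pool.Agent.VFP (Om tt)
open scoped Classical

variable {k : Type} [Field k] [IsAlgClosed k] [CharZero k] {F : MvPolynomial (Fin 6) k}

/-- the values of the vectors of a line in `V` are in the limit of `V` -/
private theorem ib2_le {v : Place k (Om k)} {V : Submodule (Om k) (Fin 6 → Om k)}
    {n : Ln F (Om k)} (hn : n.W ≤ V) {p : Ln F k} (hp : IsVal v n p) : p.W ≤ limW v V := by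
  obtain ⟨a, b, a', b', -, hW, ha, hb, hi⟩ := exists_adapted v n
  have haW : a ∈ n.W := by
    rw [hW]
    exact Submodule.subset_span (Set.mem_insert _ _)
  have hbW : b ∈ n.W := by
    rw [hW]
    exact Submodule.subset_span (Set.mem_insert_of_mem _ rfl)
  have ha' : a' ∈ p.W := hp a haW a' ha
  have hb' : b' ∈ p.W := hp b hbW b' hb
  have hspan : Submodule.span k ({a', b'} : Set (Fin 6 → k)) = p.W := by
    refine Submodule.eq_of_le_of_finrank_eq ?_ ?_
    · rw [Submodule.span_le]
      rintro c (rfl | rfl)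
      · exact ha'
      · exact hb'
    · have h1 := finrank_span_eq_card hi
      rw [Matrix.range_cons, Matrix.range_cons, Matrix.range_empty, Set.union_empty,
        Set.singleton_union] at h1
      rw [h1, p.two]
      rfl
  rw [← hspan, Submodule.span_le]
  rintro c (rfl | rfl)
  · exact ⟨a, hn haW, ha⟩
  · exact ⟨b, hn hbW, hb⟩

omit [IsAlgClosed k] [CharZero k] in
private theorem ib2_third {G : Submodule ℚ (Ln F k →₀ ℚ)} {t : Fin 3 → Ln F k} {p p' : Ln F k}
    (h : gd t p ∈ G) (h' : gd t p' ∈ G) :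
    Finsupp.single p (1 : ℚ) - Finsupp.single p' 1 ∈ G := by
  have h1 := G.smul_mem (1 / 3 : ℚ) (G.sub_mem h h')
  have h2 : (1 / 3 : ℚ) • (gd t p - gd t p') =
      Finsupp.single p (1 : ℚ) - Finsupp.single p' 1 := by
    unfold gd
    rw [sub_sub_sub_cancel_right, smul_sub, Finsupp.smul_single, Finsupp.smul_single]
    norm_num
  rwa [h2] at h1

omit [IsAlgClosed k] [CharZero k] in
private theorem ib2_gd {G : Submodule ℚ (Ln F k →₀ ℚ)} {t : Fin 3 → Ln F k} {p p' : Ln F k}
    (h : gd t p ∈ G) (h' : Finsupp.single p' (1 : ℚ) - Finsupp.single p 1 ∈ G) :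
    gd t p' ∈ G := by
  have h1 := G.add_mem (G.smul_mem (3 : ℚ) h') h
  have h2 : (3 : ℚ) • (Finsupp.single p' (1 : ℚ) - Finsupp.single p 1) + gd t p = gd t p' := by
    unfold gd
    rw [smul_sub, Finsupp.smul_single, Finsupp.smul_single, smul_eq_mul, mul_one]
    abel
  rwa [h2] at h1

/-- ONE GOOD PLACE IS ENOUGH. Let all lines through `z₀` in the limit at the place `v₀` be good. At a
place `v` with a singular limit all lines are good by `sing_eqv`, `gd_star`. At a place `v` with a
smooth limit: for two constant affine points the difference of the values at `v` is modulo `TC` the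
difference of the values at `v₀`, `3` times this is in `G`; so all `[lim_v n_e]` are the same modulo
`G`; with three points on a line they are good (`tri_mem`), and with `-e`, `e`, infinity on a line also
the line at infinity is good (or `gd_inf`). -/
theorem good_one (hF : Smooth F) {t : Fin 3 → Ln F k} (ht : Tri t) {o : Fin 6 → Om k}
    {V : Submodule (Om k) (Fin 6 → Om k)} {b : Fin 3 → Fin 6 → Om k} {α B : k}
    (h : Wei F o V b (algebraMap k (Om k) α) (algebraMap k (Om k) B))
    {G : Submodule ℚ (Ln F k →₀ ℚ)} (hG : R1 F ≤ G) (hG' : TC F o b α B ≤ G)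
    {v₀ : Place k (Om k)} {c₀ : Om k} {z₀ : Fin 6 → k} (h₀ : Lm o v₀ c₀ z₀)
    (hgood : ∀ m : Ln F k, z₀ ∈ m.W → m.W ≤ limW v₀ V → gd t m ∈ G)
    {v : Place k (Om k)} {c : Om k} {z : Fin 6 → k} (hv : Lm o v c z) {m : Ln F k}
    (hm : z ∈ m.W) (hmV : m.W ≤ limW v V) : gd t m ∈ G := by
  have hcne : Cne F z (limW v V) := cne_lim h.cne hv.ne hv.at'
  by_cases hs : SmC F z (limW v V)
  swap
  · -- a singular limit
    unfold SmC at hs
    push Not at hs
    obtain ⟨s, hsV, hsing, hsz⟩ := hs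
    exact gd_star hF ht hG hv.ne hcne (fun m₁ m₂ h1 h2 h3 h4 =>
      hG (sing_eqv hF hv.ne hcne hsV hsz hsing h1 h2 h3 h4)) hm hmV
  obtain ⟨n₀, hn₀, hn₀V⟩ := exists_inf hF h
  obtain ⟨σ, b', hσ, hW⟩ := lattice hF h hv.ne hv.at' hs
  -- the value at `v₀` of the line of a constant point is good
  have hcl : ∀ (x y : k) (n : Ln F (Om k)), CLn o b α B x y n →
      ∃ p : Ln F k, IsVal v₀ n p ∧ gd t p ∈ G := by
    intro x y n hn
    obtain ⟨p, hp⟩ := exists_val hF v₀ n
    have hoW : o ∈ n.W := by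
      rw [hn.2]
      exact Submodule.subset_span (Set.mem_insert _ _)
    have hnV : n.W ≤ V := by
      rw [hn.2, Submodule.span_le]
      rintro d (rfl | rfl)
      · exact h.cne.mem
      · exact V.add_mem (V.add_mem (V.smul_mem _ (h.mem 0)) (V.smul_mem _ (h.mem 1)))
          (V.smul_mem _ (h.mem 2))
    refine ⟨p, hp, hgood p ?_ (ib2_le hnV hp)⟩
    exact hp (c₀ • o) (n.W.smul_mem _ hoW) z₀ h₀.at'
  -- all values at `v` of lines of constant points are equivalent
  have hev : ∀ m₁ m₂ : Ln F k, (∃ (x y : k) (n : Ln F (Om k)), CLn o b α B x y n ∧ IsVal v n m₁) →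
      (∃ (x y : k) (n : Ln F (Om k)), CLn o b α B x y n ∧ IsVal v n m₂) →
      Finsupp.single m₁ (1 : ℚ) - Finsupp.single m₂ 1 ∈ G := by
    rintro m₁ m₂ ⟨x, y, n, hn, hnm⟩ ⟨x', y', n', hn', hnm'⟩
    obtain ⟨p, hp, hpg⟩ := hcl x y n hn
    obtain ⟨p', hp', hpg'⟩ := hcl x' y' n' hn'
    have h1 : (Finsupp.single m₁ (1 : ℚ) - Finsupp.single m₂ 1) -
        (Finsupp.single p 1 - Finsupp.single p' 1) ∈ G :=
      hG' (Submodule.subset_span ⟨x, y, x', y', v, v₀, n, n', m₁, m₂, p, p', hn, hn', hnm, hnm',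
        hp, hp', rfl⟩)
    have h2 := G.add_mem h1 (ib2_third hpg hpg')
    rwa [sub_add_cancel] at h2
  -- three points on a line
  have hli : LinearIndependent k ![z, b' 0, b' 1, b' 2] := hW.li
  have hli3 : LinearIndependent k ![z, b' 0, b' 2] := by
    have h1 := hli.comp ![(0 : Fin 4), 1, 3] (by decide)
    have h2 : (![z, b' 0, b' 1, b' 2] : Fin 4 → Fin 6 → k) ∘ ![(0 : Fin 4), 1, 3] =
        ![z, b' 0, b' 2] := by
      funext i
      fin_cases i <;> rfl
    rwa [h2] at h1
  set P : Submodule k (Fin 6 → k) := Submodule.span k (Set.range ![z, b' 0, b' 2]) with hPdef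
  have hP : Module.finrank k P = 3 := by
    rw [hPdef, finrank_span_eq_card hli3]
    rfl
  have hzP : z ∈ P := Submodule.subset_span ⟨0, rfl⟩
  have hb0P : b' 0 ∈ P := Submodule.subset_span ⟨1, rfl⟩
  have hPV : P ≤ limW v V := by
    rw [hPdef, Submodule.span_le]
    rintro _ ⟨i, rfl⟩
    fin_cases i
    · exact hcne.mem
    · exact hW.mem 0
    · exact hW.mem 2
  have hb1P : b' 1 ∉ P := by
    have h1 := hli.notMem_span_image (s := {0, 1, 3}) (x := 2) (by decide)
    intro h2
    apply h1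
    have h3 : (![z, b' 0, b' 1, b' 2] : Fin 4 → Fin 6 → k) '' {0, 1, 3} =
        Set.range ![z, b' 0, b' 2] := by
      ext x
      simp only [Set.mem_image, Set.mem_insert_iff, Set.mem_singleton_iff, Set.mem_range]
      constructor
      · rintro ⟨i, (rfl | rfl | rfl), rfl⟩
        · exact ⟨0, rfl⟩
        · exact ⟨1, rfl⟩
        · exact ⟨2, rfl⟩
      · rintro ⟨i, rfl⟩
        fin_cases i
        · exact ⟨0, Or.inl rfl, rfl⟩
        · exact ⟨1, Or.inr (Or.inl rfl), rfl⟩
        · exact ⟨3, Or.inr (Or.inr rfl), rfl⟩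
    rw [h3]
    exact h2
  obtain ⟨t', ht', htP⟩ := exists_tri hF hv.ne hP hzP
    (fun x hx y hy => hcne.zero x (hPV hx) y (hPV hy)) ⟨b' 0, hb0P, by
      have h1 := hW.eq 1 0 0
      have h2 : pnt b' (1 : k) 0 0 = b' 0 := by
        simp [pnt]
      rw [h2, tri_self hF.hom] at h1
      rw [h1]
      simp⟩
  have haff : ∀ i, ∃ (x y : k) (n : Ln F (Om k)), CLn o b α B x y n ∧ IsVal v n (t' i) := by
    intro i
    refine (cst_lines hF h hn₀ hv hs (htP i).1 ((htP i).2.trans hPV)).resolve_left fun h1 => ?_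
    apply hb1P
    apply (htP i).2
    refine h1 (b 1 + σ 1 • o) ?_ (b' 1) fun j => hσ 1 j
    rw [hn₀]
    exact Submodule.add_mem _ (Submodule.subset_span (Set.mem_insert_of_mem _ rfl))
      (Submodule.smul_mem _ _ (Submodule.subset_span (Set.mem_insert _ _)))
  have hg0 : gd t (t' 0) ∈ G := by
    have h1 := hG (tri_mem ht' ht)
    have h2 := hev (t' 0) (t' 1) (haff 0) (haff 1)
    have h3 := hev (t' 0) (t' 2) (haff 0) (haff 2)
    have h4 := G.add_mem h1 (G.add_mem h2 h3)
    have h5 : ∑ i, (Finsupp.single (t' i) (1 : ℚ) - Finsupp.single (t i) 1) +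
        ((Finsupp.single (t' 0) (1 : ℚ) - Finsupp.single (t' 1) 1) +
          (Finsupp.single (t' 0) (1 : ℚ) - Finsupp.single (t' 2) 1)) = gd t (t' 0) := by
      unfold gd
      have h6 : Finsupp.single (t' 0) (3 : ℚ) = Finsupp.single (t' 0) 1 +
          Finsupp.single (t' 0) 1 + Finsupp.single (t' 0) 1 := by
        rw [← Finsupp.single_add, ← Finsupp.single_add]
        norm_num
      rw [h6, Fin.sum_univ_three, Fin.sum_univ_three]
      abel
    rwa [h5] at h4
  rcases cst_lines hF h hn₀ hv hs hm hmV with h1 | h1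
  · exact hG (gd_inf hF ht h hn₀ hv hs h1)
  · exact ib2_gd hg0 (hev m (t' 0) h1 (haff 0))

end Pool.Agent.CUB
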