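import Pool.Agent.CUB.IsoC
import Pool.Agent.CUB.IsoB2
import Pool.Agent.CUB.Fam

/-!
# One cone
-/

set_option autoImplicit false

noncomputable section

namespace Pool.Agent.CUB

open Pool.Agent.ZCyc Pool.Agent.Dess Pool.Agent.GT
open Pool.Agent.VFP (Om tt)
open scoped Classical

variable {k : Type} [Field k] [IsAlgClosed k] [CharZero k] {F : MvPolynomial (Fin 6) k}

/-- all lines in the limits of `V` are good -/
def GoodV (t : Fin 3 → Ln F k) (G : Submodule ℚ (Ln F k →₀ ℚ)) (o : Fin 6 → Om k)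
    (V : Submodule (Om k) (Fin 6 → Om k)) : Prop :=
  ∀ v c z, Lm o v c z → ∀ m : Ln F k, z ∈ m.W → m.W ≤ limW v V → gd t m ∈ G

/-- at a singular limit all lines are good -/
private theorem good_sing (hF : Smooth F) {t : Fin 3 → Ln F k} (ht : Tri t) {o : Fin 6 → Om k}
    {V : Submodule (Om k) (Fin 6 → Om k)} (hV : Cne F o V) {v : Place k (Om k)} {c : Om k}
    {z : Fin 6 → k} (hv : Lm o v c z) (hs : ¬ SmC F z (limW v V)) {m : Ln F k} (hm : z ∈ m.W)
    (hmV : m.W ≤ limW v V) : gd t m ∈ R1 F := by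
  have hC := cne_lim hV hv.ne hv.at'
  unfold SmC at hs
  push Not at hs
  obtain ⟨s, hsV, hsing, hs'⟩ := hs
  exact gd_star hF ht le_rfl hv.ne hC
    (fun m m' hm hmV hm' hmV' => sing_eqv hF hv.ne hC hsV hs' hsing hm hmV hm' hmV') hm hmV

private theorem fd_bot (hF : Smooth F) : Fd F (⊥ : Submodule ℚ (Ln F k →₀ ℚ)) := by
  refine ⟨1, fun z hz => alt_one (rsys hF) z 0 ?_⟩
  have h := hz 0
  rw [Submodule.mem_bot] at h
  rw [h]
  exact Submodule.zero_mem _

/-- ONE CONE. Either (1) there is a finite-dimensional `A` such that all lines in the limits of `V` are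
good modulo `R1 ⊔ A`, or (2) `V` has constant `j` and all limits are smooth. Proof: if the plane cubic
`V` is singular then all limits are singular (`sing_lim`) and `A = ⊥` (`sing_eqv`, `gd_star`). If it is
smooth with nonconstant `j` (`exists_wei`) then `A = TL` (`fam`, `lift`, `gd_star`). If it is smooth with
constant `j` (`wei_cst`), and some limit is singular, then `A = TC` (`fam_cst`, `good_one`; at the
singular limit all lines are good by `sing_eqv`, `gd_star`). -/
theorem one_cone (hF : Smooth F) {t : Fin 3 → Ln F k} (ht : Tri t) {o : Fin 6 → Om k}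
    (hB : Bp F o) {V : Submodule (Om k) (Fin 6 → Om k)} (hV : Cne F o V) :
    (∃ A : Submodule ℚ (Ln F k →₀ ℚ), Fd F A ∧ GoodV t (R1 F ⊔ A) o V) ∨
    (∃ (b : Fin 3 → Fin 6 → Om k) (α B : k),
      Wei F o V b (algebraMap k (Om k) α) (algebraMap k (Om k) B) ∧
      ∀ v c z, Lm o v c z → SmC F z (limW v V)) := by
  have ho : o ≠ 0 := by
    rintro rfl
    exact hB.ncst ⟨1, 0, one_ne_zero, fun i => by simp⟩
  by_cases hs : SmC F o V
  · obtain ⟨b, α, B, hW⟩ := exists_wei hF ho hV hs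
    by_cases hj : ∃ a a' : k, (a ≠ 0 ∨ a' ≠ 0) ∧
        algebraMap k (Om k) a * α ^ 3 = algebraMap k (Om k) a' * B ^ 2
    · obtain ⟨a, a', haa, hj⟩ := hj
      obtain ⟨b', α', B', hW'⟩ := wei_cst hW haa hj
      by_cases hall : ∀ v c z, Lm o v c z → SmC F z (limW v V)
      · exact Or.inr ⟨b', α', B', hW', hall⟩
      · push Not at hall
        obtain ⟨v₀, c₀, z₀, h₀, hns⟩ := hall
        refine Or.inl ⟨TC F o b' α' B', fam_cst hF hW', ?_⟩
        intro v c z hv m hm hmV
        exact good_one hF ht hW' le_sup_left le_sup_right h₀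
          (fun m hm hmV => (le_sup_left : R1 F ≤ _) (good_sing hF ht hV h₀ hns hm hmV)) hv hm hmV
    · obtain ⟨n₀, hn₀, _⟩ := exists_inf hF hW
      refine Or.inl ⟨TL F o V n₀, fam hF hW hn₀ hj, ?_⟩
      intro v c z hv m hm hmV
      refine gd_star hF ht le_sup_left hv.ne (cne_lim hV hv.ne hv.at') ?_ hm hmV
      intro m m' hm hmV hm' hmV'
      obtain ⟨n, h1, h2, h3, h4⟩ := lift hF hV n₀ hv.ne hv.at' hm hmV
      obtain ⟨n', h1', h2', h3', h4'⟩ := lift hF hV n₀ hv.ne hv.at' hm' hmV'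
      exact (le_sup_right : TL F o V n₀ ≤ _) (Submodule.subset_span
        ⟨v, n, n', m, m', h1, h2, h3, h1', h2', h3', h4, h4', rfl⟩)
  · refine Or.inl ⟨⊥, fd_bot hF, ?_⟩
    intro v c z hv m hm hmV
    exact (le_sup_left : R1 F ≤ _)
      (good_sing hF ht hV hv (sing_lim hV hs hv.ne hv.at') hm hmV)

end Pool.Agent.CUB
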