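import Pool.Agent.CUB.Pole
import Pool.Agent.TInc.EmbA

/-!
# Values of a nonconstant point of an elliptic curve
-/

set_option autoImplicit false

noncomputable section

namespace Pool.Agent.CUB

open Pool.Agent.ZCyc Pool.Agent.Dess Pool.Agent.GT
open Pool.Agent.VFP (Om tt)
open scoped Classical

variable {k : Type} [Field k] [IsAlgClosed k] [CharZero k] {F : MvPolynomial (Fin 6) k}

omit [CharZero k] in
private theorem isoP_transc {x : Om k} (hx : ∀ a : k, x ≠ algebraMap k (Om k) a) :
    Transcendental k x := by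
  intro h
  have h1 : IsIntegral k x := h.isIntegral
  obtain ⟨a, ha⟩ := minpoly.mem_range_of_degree_eq_one k x
    (IsAlgClosed.degree_eq_one_of_irreducible k (minpoly.irreducible h1))
  exact hx a ha.symm

omit [IsAlgClosed k] in
private theorem isoP_notMem {α B : k} {x y : Om k} (hx : Transcendental k x)
    (h : y ^ 2 = x ^ 3 - 3 * algebraMap k (Om k) α * x + algebraMap k (Om k) B) :
    y ∉ (IntermediateField.adjoin k {x} : IntermediateField k (Om k)) := by
  intro hy
  obtain ⟨r, s, hrs⟩ := IntermediateField.mem_adjoin_simple_iff k y |>.1 hy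
  let c : Polynomial k := Polynomial.X ^ 3 - Polynomial.C (3 * α) * Polynomial.X + Polynomial.C B
  have hc : Polynomial.aeval x c = y ^ 2 := by
    rw [h]
    simp [c, map_ofNat]
  have hcdeg : c.natDegree = 3 := by
    simp only [c]
    compute_degree!
  have hc0 : c ≠ 0 := by
    intro h0
    rw [h0, Polynomial.natDegree_zero] at hcdeg
    omega
  have hinj := transcendental_iff_injective.1 hx
  by_cases hs : Polynomial.aeval x s = 0
  · rw [hs, div_zero] at hrs
    rw [hrs, zero_pow two_ne_zero] at hc
    exact hc0 (hinj (by rw [hc, map_zero]))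
  · have hs0 : s ≠ 0 := by
      rintro rfl
      exact hs (map_zero _)
    have h1 : r ^ 2 = c * s ^ 2 := by
      apply hinj
      rw [map_pow, map_mul, map_pow, hc, hrs, div_pow, div_mul_cancel₀]
      exact pow_ne_zero 2 hs
    have h2 := congrArg Polynomial.natDegree h1
    rw [Polynomial.natDegree_pow, Polynomial.natDegree_mul hc0 (pow_ne_zero 2 hs0),
      Polynomial.natDegree_pow, hcdeg] at h2
    omega

/-- an automorphism over `k(x)` which maps `y` to `-y` -/
private theorem isoP_aut {α B : k} {x y : Om k} (hx : Transcendental k x)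
    (h : y ^ 2 = x ^ 3 - 3 * algebraMap k (Om k) α * x + algebraMap k (Om k) B) :
    ∃ σ : Om k ≃ₐ[k] Om k, σ x = x ∧ σ y = -y := by
  let K : IntermediateField k (Om k) := IntermediateField.adjoin k {x}
  have hxK : x ∈ K := IntermediateField.mem_adjoin_simple_self k x
  have halg : Algebra.IsAlgebraic K (Om k) := TInc.alg_adjoin hx
  have : IsAlgClosure K (Om k) := ⟨inferInstance, inferInstance⟩
  have : Normal K (Om k) := IsAlgClosure.normal _ _
  have hnot := isoP_notMem hx h
  have hyK : y ^ 2 ∈ K := by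
    rw [h]
    exact add_mem (sub_mem (pow_mem hxK 3) (mul_mem (mul_mem (ofNat_mem K 3)
      (K.algebraMap_mem α)) hxK)) (K.algebraMap_mem B)
  let c : K := ⟨y ^ 2, hyK⟩
  have hirr : Irreducible (Polynomial.X ^ 2 - Polynomial.C c) := by
    refine X_pow_sub_C_irreducible_of_prime Nat.prime_two fun b hb => hnot ?_
    have h1 : ((b : K) : Om k) ^ 2 = y ^ 2 := by
      have := congrArg (fun z : K => (z : Om k)) hb
      simpa using this
    rcases sq_eq_sq_iff_eq_or_eq_neg.1 h1 with h2 | h2
    · rw [← h2]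
      exact b.2
    · have h3 : y = -(b : Om k) := by rw [h2, neg_neg]
      rw [h3]
      exact neg_mem b.2
  have hmin : Polynomial.X ^ 2 - Polynomial.C c = minpoly K y := by
    refine minpoly.eq_of_irreducible_of_monic hirr ?_ (Polynomial.monic_X_pow_sub_C c two_ne_zero)
    rw [map_sub, map_pow, Polynomial.aeval_X, Polynomial.aeval_C]
    exact sub_self (y ^ 2)
  have hconj : IsConjRoot K y (-y) := by
    rw [isConjRoot_iff_aeval_eq_zero (halg.isAlgebraic y).isIntegral, ← hmin, map_sub, map_pow,
      Polynomial.aeval_X, Polynomial.aeval_C, neg_sq]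
    exact sub_self (y ^ 2)
  obtain ⟨σ, hσ⟩ := isConjRoot_iff_exists_algEquiv.1 hconj
  have hσ' : σ y = -y := by
    have h1 := congrArg Neg.neg hσ
    rw [← map_neg, neg_neg] at h1
    exact h1
  refine ⟨σ.restrictScalars k, ?_, hσ'⟩
  exact σ.commutes (⟨x, hxK⟩ : K)

/-- Values of a nonconstant point: for every point `(x₀, y₀)` over `k` of the plane cubic there is a
place where `(x, y)` has the value `(x₀, y₀)`. (`exists_place_at` for `x`; then `y` has the value `y₀` or
`-y₀`; in the second case, if `y` is not in `k(x)`, compose with an automorphism of `Om k` over `k(x)`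
which maps `y` to `-y`; `y` is in `k(x)` only if it has no square root problem: `y ²` is a cubic
polynomial in `x` with simple zeros, so `y` is not in `k(x)`.) -/
theorem exists_place_pt {α B : k} (hd : B ^ 2 ≠ 4 * α ^ 3) {x y : Om k}
    (hx : ∀ a : k, x ≠ algebraMap k (Om k) a)
    (h : y ^ 2 = x ^ 3 - 3 * algebraMap k (Om k) α * x + algebraMap k (Om k) B) {x₀ y₀ : k}
    (h₀ : y₀ ^ 2 = x₀ ^ 3 - 3 * α * x₀ + B) :
    ∃ v : Place k (Om k), v.At x x₀ ∧ v.At y y₀ := by
  obtain ⟨v, hv⟩ := exists_place_at hx x₀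
  have h1 : v.At (y ^ 2) (y₀ ^ 2) := by
    rw [h, h₀]
    exact ((hv.pow 3).sub (((VFP.at_num 3).mul (Place.at_const α)).mul hv)).add (Place.at_const B)
  have hζ : IsPrimitiveRoot (-1 : k) 2 := IsPrimitiveRoot.neg_one 0 (by norm_num)
  obtain ⟨j, hj, hj'⟩ := Place.exists_root_at hζ two_pos h1
  have hj2 : j = 0 ∨ j = 1 := by omega
  rcases hj2 with rfl | rfl
  · refine ⟨v, hv, ?_⟩
    rwa [pow_zero, one_mul] at hj'
  · rw [pow_one, neg_one_mul] at hj'
    obtain ⟨σ, hσx, hσy⟩ := isoP_aut (isoP_transc hx) h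
    refine ⟨v.map σ, ?_, ?_⟩
    · rw [Place.at_map]
      have : σ.symm x = x := by rw [AlgEquiv.symm_apply_eq, hσx]
      rwa [this]
    · rw [Place.at_map]
      have : σ.symm y = -y := by rw [AlgEquiv.symm_apply_eq, map_neg, hσy, neg_neg]
      rw [this]
      have := hj'.neg
      rwa [neg_neg] at this

end Pool.Agent.CUB
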