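import Pool.Agent.CUB.IsoB
import Pool.Agent.CUB.IsoP

/-!
# A nonconstant good point is enough
-/

set_option autoImplicit false

noncomputable section

namespace Pool.Agent.CUB

open Pool.Agent.ZCyc Pool.Agent.Dess Pool.Agent.GT
open Pool.Agent.VFP (Om tt)
open scoped Classical

variable {k : Type} [Field k] [IsAlgClosed k] [CharZero k] {F : MvPolynomial (Fin 6) k}

private theorem span_shift {K : Type} [Field K] {ι : Type} {o p : ι → K} {c τ : K} (hc : c ≠ 0) :
    Submodule.span K {o, p} = Submodule.span K {c • o, p + τ • o} := by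
  ext x
  rw [Submodule.mem_span_pair, Submodule.mem_span_pair]
  constructor
  · rintro ⟨s, t, rfl⟩
    refine ⟨(s - t * τ) / c, t, ?_⟩
    rw [smul_smul, div_mul_cancel₀ _ hc, smul_add, smul_smul, sub_smul]
    abel
  · rintro ⟨s, t, rfl⟩
    refine ⟨s * c + t * τ, t, ?_⟩
    rw [smul_smul, smul_add, smul_smul, add_smul]
    abel

private theorem li_pair {z : Fin 6 → k} {b' : Fin 3 → Fin 6 → k} {x₀ y₀ : k}
    (h : LinearIndependent k ![z, b' 0, b' 1, b' 2]) :
    LinearIndependent k ![z, pnt b' x₀ y₀ 1] := by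
  rw [LinearIndependent.pair_iff]
  intro s t hst
  have h1 := Fintype.linearIndependent_iff.1 h ![s, t * x₀, t * y₀, t] (by
    rw [← hst]
    simp only [Fin.sum_univ_four, Matrix.cons_val, pnt]
    rw [smul_add, smul_add, smul_smul, smul_smul, smul_smul, mul_one]
    abel)
  exact ⟨h1 0, h1 3⟩

/-- the value of the line of a point -/
private theorem val_pt {o : Fin 6 → Om k} {b : Fin 3 → Fin 6 → Om k} {v : Place k (Om k)}
    {c : Om k} {z : Fin 6 → k} (hc : c ≠ 0) (hv : ∀ i, v.At (c * o i) (z i))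
    {σ : Fin 3 → Om k} {b' : Fin 3 → Fin 6 → k}
    (hσ : ∀ i j, v.At (b i j + σ i * o j) (b' i j))
    (h : LinearIndependent k ![z, b' 0, b' 1, b' 2]) {x y : Om k} {x₀ y₀ : k}
    (hx : v.At x x₀) (hy : v.At y y₀) {n : Ln F (Om k)}
    (hn : n.W = Submodule.span (Om k) {o, pnt b x y 1}) {m : Ln F k}
    (hm : m.W = Submodule.span k {z, pnt b' x₀ y₀ 1}) : IsVal v n m := by
  refine val_span (a := c • o) (b := pnt b x y 1 + (x * σ 0 + y * σ 1 + σ 2) • o)
    (hn.trans (span_shift hc)) hm hv (fun j => ?_) (li_pair h)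
  have h1 : (pnt b x y 1 + (x * σ 0 + y * σ 1 + σ 2) • o) j =
      x * (b 0 j + σ 0 * o j) + y * (b 1 j + σ 1 * o j) + (b 2 j + σ 2 * o j) := by
    simp only [pnt, Pi.add_apply, Pi.smul_apply, smul_eq_mul]
    ring
  have h2 : pnt b' x₀ y₀ 1 j = x₀ * b' 0 j + y₀ * b' 1 j + b' 2 j := by
    simp only [pnt, Pi.add_apply, Pi.smul_apply, smul_eq_mul]
    ring
  rw [h1, h2]
  exact ((hx.mul (hσ 0 j)).add (hy.mul (hσ 1 j))).add (hσ 2 j)

/-- A NONCONSTANT GOOD POINT IS ENOUGH. All limits are smooth, and all values of the line of a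
nonconstant point `(x, y)` of the plane cubic are good. For every constant point `e` there is a place `v`
where `(x, y)` has the value `e`, there the values of `n_(x,y)` and of `n_e` are the same, so
`[lim_v n_e]` is good; by `tc_inf` and `gd_inf` it is good at all places. -/
theorem good_pt (hF : Smooth F) {t : Fin 3 → Ln F k} (ht : Tri t) {o : Fin 6 → Om k}
    {V : Submodule (Om k) (Fin 6 → Om k)} {b : Fin 3 → Fin 6 → Om k} {α B : k}
    (h : Wei F o V b (algebraMap k (Om k) α) (algebraMap k (Om k) B))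
    {G : Submodule ℚ (Ln F k →₀ ℚ)} (hG : R1 F ≤ G) (hG' : TC F o b α B ≤ G)
    (hs : ∀ v c z, Lm o v c z → SmC F z (limW v V)) {x y : Om k}
    (hx : ∀ a : k, x ≠ algebraMap k (Om k) a)
    (hxy : y ^ 2 = x ^ 3 - 3 * algebraMap k (Om k) α * x + algebraMap k (Om k) B)
    {n : Ln F (Om k)} (hn : n.W = Submodule.span (Om k) {o, pnt b x y 1})
    (hgood : ∀ (v : Place k (Om k)) (m : Ln F k), IsVal v n m → gd t m ∈ G)
    {v : Place k (Om k)} {c : Om k} {z : Fin 6 → k} (hv : Lm o v c z) {m : Ln F k}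
    (hm : z ∈ m.W) (hmV : m.W ≤ limW v V) : gd t m ∈ G := by
  obtain ⟨n₀, hn₀, -⟩ := exists_inf hF h
  have hd : B ^ 2 ≠ 4 * α ^ 3 := by
    intro h1
    apply h.disc
    rw [← map_pow, h1, map_mul, map_pow, map_ofNat]
  rcases cst_lines hF h hn₀ hv (hs v c z hv) hm hmV with h1 | ⟨x₀, y₀, n₁, hn₁, hm₁⟩
  · exact hG (gd_inf hF ht h hn₀ hv (hs v c z hv) h1)
  · -- a place where `(x, y)` has the value `(x₀, y₀)`
    obtain ⟨w, hwx, hwy⟩ := exists_place_pt hd hx hxy hn₁.1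
    have ho : o ≠ 0 := h.li.ne_zero 0
    obtain ⟨c₁, z₁, hc₁, hz₁, hcz⟩ := exists_scale w o ho
    have hw : Lm o w c₁ z₁ := ⟨hz₁, hcz⟩
    obtain ⟨σ, b', hσ, hW⟩ := lattice hF h hz₁ hcz (hs w c₁ z₁ hw)
    obtain ⟨p, hp, -⟩ := wei_exists hF hW (x := x₀) (y := y₀) (z := 1)
      (Or.inr (Or.inr one_ne_zero)) (by rw [hn₁.1]; ring)
    have hnp : IsVal w n p := val_pt hc₁ hcz hσ hW.li hwx hwy hn hp
    have hn₁p : IsVal w n₁ p :=
      val_pt hc₁ hcz hσ hW.li (Place.at_const x₀) (Place.at_const y₀) hn₁.2 hp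
    obtain ⟨m₀, hm₀⟩ := exists_val hF v n₀
    obtain ⟨p₀, hp₀⟩ := exists_val hF w n₀
    have h1 := (sup_le hG hG') (tc_inf hF h hn₀ hv hw (hs v c z hv) (hs w c₁ z₁ hw) hn₁ hm₁ hm₀
      hn₁p hp₀)
    have h2 := hG (gd_inf hF ht h hn₀ hv (hs v c z hv) hm₀)
    have h3 := hG (gd_inf hF ht h hn₀ hw (hs w c₁ z₁ hw) hp₀)
    have h4 := hgood w p hnp
    have h5 : ∀ q : Ln F k, gd t q =
        (3 : ℚ) • Finsupp.single q (1 : ℚ) - ∑ i, Finsupp.single (t i) 1 := by
      intro q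
      rw [gd, Finsupp.smul_single, smul_eq_mul, mul_one]
    have h6 : gd t m = (3 : ℚ) • ((Finsupp.single m (1 : ℚ) - Finsupp.single m₀ 1) -
        (Finsupp.single p 1 - Finsupp.single p₀ 1)) + gd t m₀ + gd t p - gd t p₀ := by
      rw [h5 m, h5 m₀, h5 p, h5 p₀, smul_sub, smul_sub, smul_sub]
      abel
    rw [h6]
    exact G.sub_mem (G.add_mem (G.add_mem (G.smul_mem _ h1) h2) h4) h3

end Pool.Agent.CUB
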