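import Pool.Agent.CUB.NotB

/-!
# Places where the cones coincide
-/

set_option autoImplicit false

noncomputable section

namespace Pool.Agent.CUB

open Pool.Agent.ZCyc Pool.Agent.Dess Pool.Agent.GT
open Pool.Agent.VFP (Om tt)
open scoped Classical

/-! ### Linear algebra -/

section LinAlg

variable {k : Type} [Field k] {F : MvPolynomial (Fin 6) k} {K : Type} [Field K] [Algebra k K]
  {o w : Fin 6 → K} {V : Submodule K (Fin 6 → K)} {b : Fin 3 → Fin 6 → K} {α B : K}

private theorem kl_li (h : Wei F o V b α B) : LinearIndependent K ![b 0, b 1, b 2, o] := by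
  have h1 := h.li.comp ![1, 2, 3, 0] (by decide)
  convert h1 using 1
  funext i
  fin_cases i <;> rfl

private theorem kl_span (h : Wei F o V b α B) {y : Fin 6 → K} (hy : y ∈ V) :
    ∃ x : Fin 4 → K, y = x 0 • b 0 + x 1 • b 1 + x 2 • b 2 + x 3 • o := by
  have hli := kl_li h
  have hle : Submodule.span K (Set.range ![b 0, b 1, b 2, o]) ≤ V := by
    rw [Submodule.span_le]
    rintro _ ⟨i, rfl⟩
    fin_cases i
    · exact h.mem 0
    · exact h.mem 1
    · exact h.mem 2
    · exact h.cne.mem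
  have heq : Submodule.span K (Set.range ![b 0, b 1, b 2, o]) = V := by
    refine Submodule.eq_of_le_of_finrank_eq hle ?_
    rw [finrank_span_eq_card hli, h.cne.four, Fintype.card_fin]
  rw [← heq, Submodule.mem_span_range_iff_exists_fun] at hy
  obtain ⟨x, hx⟩ := hy
  refine ⟨x, ?_⟩
  rw [← hx, Fin.sum_univ_four]
  rfl

private theorem kl_span_eq (h : Wei F o V b α B) :
    Submodule.span K (Set.range ![b 0, b 1, b 2, o]) = V := by
  have hli := kl_li h
  have hle : Submodule.span K (Set.range ![b 0, b 1, b 2, o]) ≤ V := by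
    rw [Submodule.span_le]
    rintro _ ⟨i, rfl⟩
    fin_cases i
    · exact h.mem 0
    · exact h.mem 1
    · exact h.mem 2
    · exact h.cne.mem
  refine Submodule.eq_of_le_of_finrank_eq hle ?_
  rw [finrank_span_eq_card hli, h.cne.four, Fintype.card_fin]

/-- the tangent hyperplane -/
private def TT (F : MvPolynomial (Fin 6) k) (o : Fin 6 → K) : Submodule K (Fin 6 → K) :=
  LinearMap.ker (trl F o o)

private theorem kl_mem_TT {y : Fin 6 → K} : y ∈ TT F o ↔ tri F o o y = 0 := Iff.rfl

private theorem kl_TT_finrank (hne : ∃ y, tri F o o y ≠ 0) :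
    Module.finrank K (TT F o) = 5 := by
  have h1 := LinearMap.finrank_range_add_finrank_ker (trl F o o)
  have h2 : LinearMap.range (trl F o o) = ⊤ := by
    rw [LinearMap.range_eq_top]
    refine LinearMap.surjective ?_
    intro h
    obtain ⟨y, hy⟩ := hne
    apply hy
    rw [← trl_apply, h]
    rfl
  rw [h2, finrank_top, Module.finrank_self, Module.finrank_fin_fun] at h1
  unfold TT
  omega

private theorem kl_V_le (hV : Cne F o V) : V ≤ TT F o := fun y hy => hV.zero o hV.mem y hy

private theorem kl_split (hV : Cne F o V) (hne : ∃ y, tri F o o y ≠ 0) (hw : tri F o o w = 0)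
    (hwV : w ∉ V) {y : Fin 6 → K} (hy : tri F o o y = 0) :
    ∃ a : K, ∃ v' ∈ V, y = a • w + v' := by
  have hle : V ⊔ Submodule.span K {w} ≤ TT F o :=
    sup_le (kl_V_le hV) ((Submodule.span_singleton_le_iff_mem _ _).2 hw)
  have hlt : V < V ⊔ Submodule.span K {w} := by
    refine lt_of_le_of_ne le_sup_left ?_
    intro h
    apply hwV
    rw [h]
    exact Submodule.mem_sup_right (Submodule.mem_span_singleton_self w)
  have h1 := Submodule.finrank_lt_finrank_of_lt hlt
  rw [hV.four] at h1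
  have heq : V ⊔ Submodule.span K {w} = TT F o := by
    refine Submodule.eq_of_le_of_finrank_le hle ?_
    rw [kl_TT_finrank hne]
    omega
  have h2 : y ∈ V ⊔ Submodule.span K {w} := by
    rw [heq]
    exact hy
  obtain ⟨v', hv', u, hu, rfl⟩ := Submodule.mem_sup.1 h2
  obtain ⟨a, rfl⟩ := Submodule.mem_span_singleton.1 hu
  exact ⟨a, v', hv', add_comm _ _⟩

private theorem kl_exists_w (hV : Cne F o V) (hne : ∃ y, tri F o o y ≠ 0) :
    ∃ w, tri F o o w = 0 ∧ w ∉ V := by
  by_contra hcon
  push Not at hcon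
  have h1 : TT F o ≤ V := fun y hy => hcon y hy
  have h2 := Submodule.finrank_mono h1
  rw [kl_TT_finrank hne, hV.four] at h2
  omega

/-- the matrix with the rows `y`, `w`, `b`, `o` -/
private def M6 (y w : Fin 6 → K) (b : Fin 3 → Fin 6 → K) (o : Fin 6 → K) :
    Matrix (Fin 6) (Fin 6) K :=
  Matrix.of ![y, w, b 0, b 1, b 2, o]

private theorem kl_det_lin (a : K) (y y' w : Fin 6 → K) (b : Fin 3 → Fin 6 → K)
    (o : Fin 6 → K) :
    (M6 (a • y + y') w b o).det = a * (M6 y w b o).det + (M6 y' w b o).det := by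
  rw [Matrix.det_succ_row_zero, Matrix.det_succ_row_zero (M6 y w b o),
    Matrix.det_succ_row_zero (M6 y' w b o), Finset.mul_sum, ← Finset.sum_add_distrib]
  refine Finset.sum_congr rfl fun j _ => ?_
  have h1 : ∀ y : Fin 6 → K, (M6 y w b o).submatrix Fin.succ (Fin.succAbove j) =
      (M6 0 w b o).submatrix Fin.succ (Fin.succAbove j) := by
    intro y
    ext i l
    rfl
  rw [h1 (a • y + y'), h1 y, h1 y']
  have e1 : M6 (a • y + y') w b o 0 j = a * y j + y' j := rfl
  have e2 : M6 y w b o 0 j = y j := rfl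
  have e3 : M6 y' w b o 0 j = y' j := rfl
  rw [e1, e2, e3]
  ring

private theorem kl_det_ne (h : Wei F o V b α B) (hw : tri F o o w = 0) (hwV : w ∉ V)
    {y : Fin 6 → K} (hy : tri F o o y ≠ 0) : (M6 y w b o).det ≠ 0 := by
  have h1 : LinearIndependent K ![y, w, b 0, b 1, b 2, o] := by
    have h2 : LinearIndependent K (Fin.cons w ![b 0, b 1, b 2, o] : Fin 5 → Fin 6 → K) := by
      rw [linearIndependent_finCons]
      refine ⟨kl_li h, ?_⟩
      rw [kl_span_eq h]
      exact hwV
    have h3 : LinearIndependent K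
        (Fin.cons y (Fin.cons w ![b 0, b 1, b 2, o] : Fin 5 → Fin 6 → K) :
          Fin 6 → Fin 6 → K) := by
      rw [linearIndependent_finCons]
      refine ⟨h2, ?_⟩
      intro h4
      apply hy
      have h5 : Submodule.span K (Set.range (Fin.cons w ![b 0, b 1, b 2, o] :
          Fin 5 → Fin 6 → K)) ≤ TT F o := by
        rw [Submodule.span_le]
        rintro _ ⟨i, rfl⟩
        refine Fin.cases ?_ (fun i => ?_) i
        · exact hw
        · rw [Fin.cons_succ]
          have h6 : ![b 0, b 1, b 2, o] i ∈ V := by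
            rw [← kl_span_eq h]
            exact Submodule.subset_span ⟨i, rfl⟩
          exact kl_V_le h.cne h6
      exact h5 h4
    exact h3
  have h2 : IsUnit (M6 y w b o) := Matrix.linearIndependent_rows_iff_isUnit.1 h1
  rw [Matrix.isUnit_iff_isUnit_det] at h2
  exact h2.ne_zero

private theorem kl_det_zero (h : Wei F o V b α B) (hne : ∃ y, tri F o o y ≠ 0)
    (hw : tri F o o w = 0) (hwV : w ∉ V)
    {y : Fin 6 → K} (hy : tri F o o y = 0) : (M6 y w b o).det = 0 := by
  by_contra hcon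
  have h2 : IsUnit (M6 y w b o) := by
    rw [Matrix.isUnit_iff_isUnit_det]
    exact isUnit_iff_ne_zero.2 hcon
  have h1 : LinearIndependent K ![y, w, b 0, b 1, b 2, o] :=
    Matrix.linearIndependent_rows_iff_isUnit.2 h2
  have h3 : LinearIndependent K
      (Fin.cons y ![w, b 0, b 1, b 2, o] : Fin 6 → Fin 6 → K) := h1
  rw [linearIndependent_finCons] at h3
  apply h3.2
  obtain ⟨a, v', hv', rfl⟩ := kl_split h.cne hne hw hwV hy
  refine Submodule.add_mem _ (Submodule.smul_mem _ _ (Submodule.subset_span ⟨0, rfl⟩)) ?_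
  have h4 : Submodule.span K (Set.range ![b 0, b 1, b 2, o]) ≤
      Submodule.span K (Set.range ![w, b 0, b 1, b 2, o]) := by
    refine Submodule.span_mono ?_
    rintro _ ⟨i, rfl⟩
    exact ⟨i.succ, rfl⟩
  apply h4
  rw [kl_span_eq h]
  exact hv'

/-- the determinant is a multiple of the equation of the tangent hyperplane -/
private theorem kl_rho (h : Wei F o V b α B) (hne : ∃ y, tri F o o y ≠ 0)
    (hw : tri F o o w = 0) (hwV : w ∉ V) :
    ∃ ρ : K, ρ ≠ 0 ∧ ∀ y, (M6 y w b o).det = ρ * tri F o o y := by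
  obtain ⟨y₀, hy₀⟩ := hne
  refine ⟨(M6 y₀ w b o).det / tri F o o y₀, div_ne_zero (kl_det_ne h hw hwV hy₀) hy₀, ?_⟩
  intro y
  have h1 : y = (tri F o o y / tri F o o y₀) • y₀ +
      (y - (tri F o o y / tri F o o y₀) • y₀) := by abel
  have h2 : tri F o o (y - (tri F o o y / tri F o o y₀) • y₀) = 0 := by
    have h3 := (trl F o o).map_sub y ((tri F o o y / tri F o o y₀) • y₀)
    rw [map_smul, trl_apply, trl_apply, trl_apply, smul_eq_mul] at h3
    rw [h3]
    field_simp
    ring
  rw [h1, kl_det_lin, kl_det_zero h ⟨y₀, hy₀⟩ hw hwV h2, tri_add3, tri_smul3, h2]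
  field_simp
  ring

/-- row operations -/
private theorem kl_det_row (y w : Fin 6 → K) (b : Fin 3 → Fin 6 → K) (o : Fin 6 → K)
    (θ c : K) (x : Fin 4 → K) (σ : Fin 3 → K) :
    (M6 y (θ • w + (x 0 • b 0 + x 1 • b 1 + x 2 • b 2 + x 3 • o)) (fun i => b i + σ i • o)
      (c • o)).det = θ * c * (M6 y w b o).det := by
  set P : Matrix (Fin 6) (Fin 6) K := Matrix.of ![![1, 0, 0, 0, 0, 0], ![0, θ, x 0, x 1, x 2, x 3],
    ![0, 0, 1, 0, 0, σ 0], ![0, 0, 0, 1, 0, σ 1], ![0, 0, 0, 0, 1, σ 2], ![0, 0, 0, 0, 0, c]]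
    with hP
  have h1 : M6 y (θ • w + (x 0 • b 0 + x 1 • b 1 + x 2 • b 2 + x 3 • o)) (fun i => b i + σ i • o)
      (c • o) = P * M6 y w b o := by
    ext i j
    fin_cases i <;> simp [hP, M6, Matrix.mul_apply, Fin.sum_univ_succ] <;> ring
  have h2 : P.det = θ * c := by
    have h3 : P.BlockTriangular id := by
      intro i j hij
      fin_cases i <;> fin_cases j <;> first | rfl | (exfalso; revert hij; decide)
    rw [Matrix.det_of_upperTriangular h3, Fin.prod_univ_six]
    simp [hP]
  rw [h1, Matrix.det_mul, h2]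

end LinAlg

variable {k : Type} [Field k] [IsAlgClosed k] [CharZero k] {F : MvPolynomial (Fin 6) k}

omit [IsAlgClosed k] [CharZero k] in
private theorem kl_at_det {K : Type} [Field K] [Algebra k K] {v : Place k K} {n : ℕ}
    {A : Matrix (Fin n) (Fin n) K} {A' : Matrix (Fin n) (Fin n) k}
    (h : ∀ i j, v.At (A i j) (A' i j)) : v.At A.det A'.det := by
  rw [Matrix.det_apply', Matrix.det_apply']
  refine Place.At.sum fun τ _ => ?_
  refine Place.At.mul ?_ (Place.At.prod fun i _ => h _ _)
  have h1 := Place.at_const (v := v) (((Equiv.Perm.sign τ : ℤ) : k))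
  rw [map_intCast] at h1
  exact h1

private theorem kl_ne {o : Fin 6 → Om k} (hF : Smooth F) (hB : Bp F o) :
    ∃ y, tri F o o y ≠ 0 := by
  by_contra hcon
  push Not at hcon
  apply hB.ncst
  have h0 : o = 0 := tri_ns_om hF hcon
  exact ⟨1, 0, one_ne_zero, fun i => by rw [h0]; simp⟩

omit [IsAlgClosed k] in
private theorem kl_ne' (hF : Smooth F) {z : Fin 6 → k} (hz : z ≠ 0) :
    ∃ y, tri F z z y ≠ 0 := by
  by_contra hcon
  push Not at hcon
  exact hz (tri_ns hF hcon)

/-- **The situation at a place.** -/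
private theorem kl_local (hF : Smooth F) {o : Fin 6 → Om k} (hB : Bp F o)
    {V : Submodule (Om k) (Fin 6 → Om k)} {b : Fin 3 → Fin 6 → Om k} {α B : k}
    (h : Wei F o V b (algebraMap k (Om k) α) (algebraMap k (Om k) B))
    {w : Fin 6 → Om k} (hw : tri F o o w = 0) {ρ : Om k}
    (hwV : w ∉ V) (hρ : ∀ y, (M6 y w b o).det = ρ * tri F o o y)
    {v : Place k (Om k)} {c : Om k} {z : Fin 6 → k} (hz : Lm o v c z)
    (hs : SmC F z (limW v V)) :
    ∃ (θ : Om k) (w' : Fin 6 → k) (b' : Fin 3 → Fin 6 → k) (κ : k),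
      Wei F z (limW v V) b' α B ∧ tri F z z w' = 0 ∧ w' ∉ limW v V ∧
      (∀ i, v.At (c * θ * tri F o w (b i)) (tri F z w' (b' i))) ∧ v.At (θ * ρ / c) κ ∧
      ((∀ i, tri F o w (b i) = 0) → v.At (c * θ ^ 2 * tri F o w w) (tri F z w' w')) := by
  obtain ⟨σ, b', hb', hW⟩ := lattice hF h hz.ne hz.at' hs
  have hne := kl_ne hF hB
  have hc : c ≠ 0 := by
    rintro rfl
    apply hz.ne
    funext i
    have h1 := hz.at' i
    rw [zero_mul] at h1
    exact h1.unique VFP.at_zero
  -- a vector in the tangent hyperplane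
  obtain ⟨w', hw'T, hw'V⟩ : ∃ w' ∈ limW v (TT F o), w' ∉ limW v V := by
    by_contra hcon
    push Not at hcon
    have h2 := Submodule.finrank_mono (show limW v (TT F o) ≤ limW v V from hcon)
    rw [finrank_limW, finrank_limW, kl_TT_finrank hne, h.cne.four] at h2
    omega
  obtain ⟨w₁, hw₁, hw₁v⟩ := hw'T
  obtain ⟨θ, v', hv', hw₁e⟩ := kl_split h.cne hne hw hwV (kl_mem_TT.1 hw₁)
  obtain ⟨x, hx⟩ := kl_span h hv'
  have hzo : ∀ i, v.At ((c • o) i) (z i) := hz.at'
  have hcz : ∀ y ∈ V, ∀ y' ∈ V, tri F o y y' = 0 := h.cne.zero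
  have hmo : o ∈ V := h.cne.mem
  have hwo : tri F o w o = 0 := by rw [tri_swap23]; exact hw
  -- `w'` is in the tangent hyperplane
  have hw'0 : tri F z z w' = 0 := by
    have h1 := tri_at F hzo hzo hw₁v
    rw [tri_smul1, tri_smul2, kl_mem_TT.1 hw₁, mul_zero, mul_zero] at h1
    exact h1.unique VFP.at_zero
  -- the linear form
  have hμ : ∀ i, v.At (c * θ * tri F o w (b i)) (tri F z w' (b' i)) := by
    intro i
    have h1 := tri_at F hzo hw₁v (z := b i + σ i • o) (fun j => hb' i j)
    have h2 : tri F (c • o) w₁ (b i + σ i • o) = c * θ * tri F o w (b i) := by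
      rw [tri_smul1, hw₁e, tri_add2, tri_smul2, tri_add3, tri_add3, tri_smul3, tri_smul3, hwo,
        hcz v' hv' _ (h.mem i), hcz v' hv' o hmo]
      ring
    rwa [h2] at h1
  -- the determinant
  obtain ⟨y', hy'⟩ := kl_ne' hF hz.ne
  have hyv : ∀ i, v.At (em (Om k) y' i) (y' i) := fun i => Place.at_const (y' i)
  have hdet : v.At (M6 (em (Om k) y') w₁ (fun i => b i + σ i • o) (c • o)).det
      (M6 y' w' b' z).det := by
    refine kl_at_det fun i j => ?_
    fin_cases i
    · exact hyv j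
    · exact hw₁v j
    · exact hb' 0 j
    · exact hb' 1 j
    · exact hb' 2 j
    · exact hzo j
  rw [hw₁e, hx, kl_det_row, hρ] at hdet
  have htan := tri_at F hzo hzo hyv
  rw [tri_smul1, tri_smul2] at htan
  have hto : tri F o o (em (Om k) y') ≠ 0 := by
    intro h0
    rw [h0, mul_zero, mul_zero] at htan
    exact hy' (htan.unique VFP.at_zero)
  have hκ := hdet.div htan hy'
  have e1 : θ * c * (ρ * tri F o o (em (Om k) y')) / (c * (c * tri F o o (em (Om k) y'))) =
      θ * ρ / c := by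
    field_simp
  rw [e1] at hκ
  refine ⟨θ, w', b', _, hW, hw'0, hw'V, hμ, hκ, ?_⟩
  intro hμ0
  have h1 := tri_at F hzo hw₁v hw₁v
  have h3 : tri F o w v' = 0 := by
    rw [hx, tri_add3, tri_add3, tri_add3, tri_smul3, tri_smul3, tri_smul3, tri_smul3, hμ0, hμ0,
      hμ0, hwo]
    ring
  have h4 : tri F o v' w = 0 := by rw [tri_swap23]; exact h3
  have h2 : tri F (c • o) w₁ w₁ = c * θ ^ 2 * tri F o w w := by
    rw [tri_smul1, hw₁e, tri_add2, tri_smul2, tri_add3, tri_add3, tri_smul3, tri_smul3, h3, h4,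
      hcz v' hv' v' hv']
    ring
  rwa [h2] at h1

private theorem kl_pole {o : Fin 6 → Om k} (hB : Bp F o) {s : Om k} (hs : s ≠ 0) :
    ∃ (v : Place k (Om k)) (l : Om k) (z : Fin 6 → k), l ≠ 0 ∧ v.At l 0 ∧ Lm o v (l * s) z := by
  obtain ⟨v, l, z, hl, hl0, hz, hlz⟩ := pole (x := fun i => s * o i) (by
    rintro ⟨a, ha⟩
    exact hB.ncst ⟨s, a, hs, ha⟩)
  refine ⟨v, l, z, hl, hl0, hz, fun i => ?_⟩
  have h1 := hlz i
  rwa [← mul_assoc] at h1

/-- `μ = 0`: the quadratic form is zero at some place -/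
private theorem kl_zero (hF : Smooth F) {o : Fin 6 → Om k} (hB : Bp F o)
    {V : Submodule (Om k) (Fin 6 → Om k)} {b : Fin 3 → Fin 6 → Om k} {α B : k}
    (h : Wei F o V b (algebraMap k (Om k) α) (algebraMap k (Om k) B))
    {w : Fin 6 → Om k} (hw : tri F o o w = 0) (hwV : w ∉ V)
    (hμ : ∀ i, tri F o w (b i) = 0) (hq : tri F o w w ≠ 0)
    (hs : ∀ v c z, Lm o v c z → SmC F z (limW v V)) :
    ∃ v c z, Lm o v c z ∧ ∀ y, tri F z z y = 0 → tri F z y y = 0 := by
  obtain ⟨ρ, hρ0, hρ⟩ := kl_rho h (kl_ne hF hB) hw hwV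
  obtain ⟨s, hs3⟩ := IsAlgClosed.exists_pow_nat_eq (ρ ^ 2 / tri F o w w) (n := 3) (by norm_num)
  have hs0 : s ≠ 0 := by
    rintro rfl
    have h1 : ρ ^ 2 / tri F o w w ≠ 0 := div_ne_zero (pow_ne_zero 2 hρ0) hq
    apply h1
    rw [← hs3]
    norm_num
  obtain ⟨v, l, z, hl, hl0, hL⟩ := kl_pole hB hs0
  obtain ⟨θ, w', b', κ, hW, hw', hw'V, hμ', hκ, hq'⟩ :=
    kl_local hF hB h hw hwV hρ hL (hs _ _ _ hL)
  have hz := hL.ne
  have e1 : tri F z w' w' = 0 := by
    have h1 := hq' hμ
    have h2 : l * s * θ ^ 2 * tri F o w w = (θ * ρ / (l * s)) ^ 2 * l ^ 3 := by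
      have h3 : tri F o w w = ρ ^ 2 / s ^ 3 := by
        rw [hs3]
        field_simp
      rw [h3]
      field_simp
    rw [h2] at h1
    have h3 := (hκ.pow 2).mul (hl0.pow 3)
    have h4 := h1.unique h3
    rw [h4]
    norm_num
  have e2 : ∀ i, tri F z w' (b' i) = 0 := by
    intro i
    have h1 := hμ' i
    rw [hμ, mul_zero] at h1
    exact h1.unique VFP.at_zero
  refine ⟨v, l * s, z, hL, fun y hy => ?_⟩
  obtain ⟨a, v', hv', rfl⟩ := kl_split hW.cne (kl_ne' hF hz) hw' hw'V hy
  obtain ⟨x, hx⟩ := kl_span hW hv'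
  have h3 : tri F z w' v' = 0 := by
    have h5 : tri F z w' z = 0 := by rw [tri_swap23]; exact hw'
    rw [hx, tri_add3, tri_add3, tri_add3, tri_smul3, tri_smul3, tri_smul3, tri_smul3, e2, e2,
      e2, h5]
    ring
  have h4 : tri F z v' w' = 0 := by rw [tri_swap23]; exact h3
  rw [tri_add2, tri_smul2, tri_add3, tri_add3, tri_smul3, tri_smul3, h3, h4, e1,
    hW.cne.zero v' hv' v' hv']
  ring

omit [CharZero k] in
/-- square roots of constants are constant -/
private theorem kl_sqrt {A : Om k} {a : k} (h : A ^ 2 = algebraMap k (Om k) a) :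
    ∃ a' : k, A = algebraMap k (Om k) a' := by
  obtain ⟨a', ha'⟩ := IsAlgClosed.exists_pow_nat_eq a (n := 2) (by norm_num)
  rw [← ha', map_pow] at h
  rcases sq_eq_sq_iff_eq_or_eq_neg.1 h with h1 | h1
  · exact ⟨a', h1⟩
  · exact ⟨-a', by rw [h1, map_neg]⟩

/-- A line which is not constant meets a constant plane cubic in a point which is not constant. -/
private theorem kl_line (α B : k) (m : Fin 3 → Om k) (hm : ¬ ∃ (f : Om k) (n : Fin 3 → k),
      ∀ i, m i = f * algebraMap k (Om k) (n i)) :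
    ∃ x y : Om k, (∀ a : k, x ≠ algebraMap k (Om k) a) ∧
      y ^ 2 = x ^ 3 - 3 * algebraMap k (Om k) α * x + algebraMap k (Om k) B ∧
      m 0 * x + m 1 * y + m 2 = 0 := by
  by_cases h1 : m 1 = 0
  · have h0 : m 0 ≠ 0 := by
      intro h0
      apply hm
      refine ⟨m 2, ![0, 0, 1], fun i => ?_⟩
      fin_cases i
      · simpa using h0
      · simpa using h1
      · simp
    obtain ⟨y, hy⟩ := IsAlgClosed.exists_pow_nat_eq ((-(m 2) / m 0) ^ 3 -
      3 * algebraMap k (Om k) α * (-(m 2) / m 0) + algebraMap k (Om k) B) (n := 2) (by norm_num)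
    refine ⟨-(m 2) / m 0, y, ?_, hy, ?_⟩
    · intro a ha
      apply hm
      refine ⟨m 0, ![1, 0, -a], fun i => ?_⟩
      fin_cases i
      · simp
      · simpa using h1
      · have h2 : m 2 = m 0 * algebraMap k (Om k) (-a) := by
          rw [map_neg, ← ha]
          field_simp
        simpa using h2
    · rw [h1]
      field_simp
      ring
  · set A : Om k := -(m 0) / m 1 with hA
    set C : Om k := -(m 2) / m 1 with hC
    have key : ∀ x : Om k, x ^ 3 - A ^ 2 * x ^ 2 - (3 * algebraMap k (Om k) α + 2 * A * C) * x +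
        (algebraMap k (Om k) B - C ^ 2) = 0 →
        (A * x + C) ^ 2 = x ^ 3 - 3 * algebraMap k (Om k) α * x + algebraMap k (Om k) B := by
      intro x hx
      linear_combination -hx
    have hlin : ∀ x : Om k, m 0 * x + m 1 * (A * x + C) + m 2 = 0 := by
      intro x
      rw [hA, hC]
      field_simp
      ring
    -- the three roots
    obtain ⟨x₁, hx₁⟩ := IsAlgClosed.exists_root
      (Polynomial.X ^ 3 - Polynomial.C (A ^ 2) * Polynomial.X ^ 2 -
        Polynomial.C (3 * algebraMap k (Om k) α + 2 * A * C) * Polynomial.X +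
        Polynomial.C (algebraMap k (Om k) B - C ^ 2)) (by
          have : (Polynomial.X ^ 3 - Polynomial.C (A ^ 2) * Polynomial.X ^ 2 -
            Polynomial.C (3 * algebraMap k (Om k) α + 2 * A * C) * Polynomial.X +
            Polynomial.C (algebraMap k (Om k) B - C ^ 2) : Polynomial (Om k)).degree = 3 := by
            compute_degree!
          rw [this]
          norm_num)
    have r₁ : x₁ ^ 3 - A ^ 2 * x₁ ^ 2 - (3 * algebraMap k (Om k) α + 2 * A * C) * x₁ +
        (algebraMap k (Om k) B - C ^ 2) = 0 := by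
      simpa [Polynomial.IsRoot] using hx₁
    set p : Om k := x₁ - A ^ 2 with hp
    set q : Om k := x₁ * p - (3 * algebraMap k (Om k) α + 2 * A * C) with hq
    obtain ⟨x₂, hx₂⟩ := IsAlgClosed.exists_root
      (Polynomial.X ^ 2 + Polynomial.C p * Polynomial.X + Polynomial.C q) (by
          have : (Polynomial.X ^ 2 + Polynomial.C p * Polynomial.X + Polynomial.C q :
            Polynomial (Om k)).degree = 2 := by
            compute_degree!
          rw [this]
          norm_num)
    have r₂ : x₂ ^ 2 + p * x₂ + q = 0 := by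
      simpa [Polynomial.IsRoot] using hx₂
    set x₃ : Om k := -p - x₂ with hx₃
    have s₂ : x₂ ^ 3 - A ^ 2 * x₂ ^ 2 - (3 * algebraMap k (Om k) α + 2 * A * C) * x₂ +
        (algebraMap k (Om k) B - C ^ 2) = 0 := by
      rw [hq] at r₂
      rw [hp] at r₂
      linear_combination (x₂ - x₁) * r₂ + r₁
    have r₃ : x₃ ^ 2 + p * x₃ + q = 0 := by
      rw [hx₃]
      linear_combination r₂
    have s₃ : x₃ ^ 3 - A ^ 2 * x₃ ^ 2 - (3 * algebraMap k (Om k) α + 2 * A * C) * x₃ +
        (algebraMap k (Om k) B - C ^ 2) = 0 := by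
      rw [hq, hp] at r₃
      linear_combination (x₃ - x₁) * r₃ + r₁
    by_contra hcon
    push Not at hcon
    have hcst : ∀ x : Om k, x ^ 3 - A ^ 2 * x ^ 2 -
        (3 * algebraMap k (Om k) α + 2 * A * C) * x +
        (algebraMap k (Om k) B - C ^ 2) = 0 → ∃ a : k, x = algebraMap k (Om k) a := by
      intro x hx
      by_contra hx'
      push Not at hx'
      exact hcon x (A * x + C) hx' (key x hx) (hlin x)
    obtain ⟨a₁, ha₁⟩ := hcst x₁ r₁
    obtain ⟨a₂, ha₂⟩ := hcst x₂ s₂
    obtain ⟨a₃, ha₃⟩ := hcst x₃ s₃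
    have hA2 : A ^ 2 = algebraMap k (Om k) (a₁ + a₂ + a₃) := by
      rw [map_add, map_add, ← ha₁, ← ha₂, ← ha₃, hx₃, hp]
      ring
    have hC2 : C ^ 2 = algebraMap k (Om k) (B + a₁ * a₂ * a₃) := by
      rw [map_add, map_mul, map_mul, ← ha₁, ← ha₂, ← ha₃, hx₃]
      rw [hq] at r₂
      rw [hp] at r₂ ⊢
      linear_combination x₁ * r₂ - r₁
    obtain ⟨a, ha⟩ := kl_sqrt hA2
    obtain ⟨c, hc⟩ := kl_sqrt hC2
    apply hm
    refine ⟨m 1, ![-a, 1, -c], fun i => ?_⟩
    fin_cases i
    · have h2 : m 0 = m 1 * algebraMap k (Om k) (-a) := by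
        rw [map_neg, ← ha, hA]
        field_simp
      simpa using h2
    · simp
    · have h2 : m 2 = m 1 * algebraMap k (Om k) (-c) := by
        rw [map_neg, ← hc, hC]
        field_simp
      simpa using h2

/-- A POINT WHERE THE OTHER CONE COINCIDES, OR NONCONSTANT INTERSECTION POINTS. The plane cubic `V` has
constant `j` and all its limits are smooth. Let `w` be in the tangent hyperplane `T` at `o`, not in
`V`, `μ_i = tri F o w (b i)`; `det (o, b, w, y) = ρ tri F o o y` for all `y`, `ρ ≠ 0`. At every place: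
`c o → z`, `b i + σ_i o → b'_i` (`lattice`), there is `θ` such that `θ w` plus a vector of `V` has a value
`w'` in `T_z`, not in the limit of `V`; `c θ μ_i → tri F z w' b'_i`; and
`c θ det (o, b, w, y) → det (z, b', w', y)`, which is not zero for `y` not in `T_z`, so
`θ ρ / c → κ ≠ 0`.
(1) `μ = f m` with `m` constant, `f ≠ 0`: let `s ² = ρ / f`; `pole` for `s o`: `l s o → z`, `l → 0`,
so `c = l s`, `c θ f = (θ ρ / c) c² f / ρ = (θ ρ / c) l² → 0`: first alternative.
(2) `μ = 0`: then `tri F o w w ≠ 0` (else the form is zero), scale `w` such that it is `1`; let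
`s ³ = ρ²`; `pole` for `s o`: `c = l s`; `c θ² → tri F z w' w'`, and
`c θ² = (θ ρ / c)² c³ / ρ² = (θ ρ / c)² l³ → 0`; so `tri F z w' w' = 0`, and `tri F z w' b'_i = 0`: the
first alternative again (even the quadratic form is zero at `z`).
(3) `μ` is not proportional to a constant vector: the plane cubic (constant coefficients!) and the line
`μ_0 x + μ_1 y + μ_2 z = 0` have a common point which is not constant: if all common points were
constant then the line would be constant if there are two of them; if there is only one it is a flex and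
the line is its tangent, also constant. It is not the point at infinity `(0,1,0)`, so it is `(x, y, 1)`.
The vector `x b₀ + y b₁ + b₂` is a zero of `tri F o w _`. -/
theorem kill_or (hF : Smooth F) {o : Fin 6 → Om k} (hB : Bp F o)
    (hq : ¬ ∀ y, tri F o o y = 0 → tri F o y y = 0)
    {V : Submodule (Om k) (Fin 6 → Om k)} {b : Fin 3 → Fin 6 → Om k} {α B : k}
    (h : Wei F o V b (algebraMap k (Om k) α) (algebraMap k (Om k) B))
    (hs : ∀ v c z, Lm o v c z → SmC F z (limW v V)) :
    (∃ v c z, Lm o v c z ∧ ∀ y, tri F z z y = 0 → ∀ x ∈ limW v V, tri F z y x = 0) ∨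
    (∃ x y : Om k, (∀ a : k, x ≠ algebraMap k (Om k) a) ∧
      y ^ 2 = x ^ 3 - 3 * algebraMap k (Om k) α * x + algebraMap k (Om k) B ∧
      ∀ w, tri F o o w = 0 → tri F o w (pnt b x y 1) = 0) := by
  have hne := kl_ne hF hB
  obtain ⟨w, hw, hwV⟩ := kl_exists_w h.cne hne
  have hwo : tri F o w o = 0 := by rw [tri_swap23]; exact hw
  by_cases hcase : ∃ (f : Om k) (n : Fin 3 → k), ∀ i,
      tri F o w (b i) = f * algebraMap k (Om k) (n i)
  · left
    by_cases hμ0 : ∀ i, tri F o w (b i) = 0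
    · -- case (2)
      have hq0 : tri F o w w ≠ 0 := by
        intro h0
        apply hq
        intro y hy
        obtain ⟨a, v', hv', rfl⟩ := kl_split h.cne hne hw hwV hy
        obtain ⟨x, hx⟩ := kl_span h hv'
        have h3 : tri F o w v' = 0 := by
          rw [hx, tri_add3, tri_add3, tri_add3, tri_smul3, tri_smul3, tri_smul3, tri_smul3, hμ0,
            hμ0, hμ0, hwo]
          ring
        have h4 : tri F o v' w = 0 := by rw [tri_swap23]; exact h3
        rw [tri_add2, tri_smul2, tri_add3, tri_add3, tri_smul3, tri_smul3, h3, h4, h0,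
          h.cne.zero v' hv' v' hv']
        ring
      obtain ⟨v, c, z, hL, hz⟩ := kl_zero hF hB h hw hwV hμ0 hq0 hs
      refine ⟨v, c, z, hL, fun y hy x hx => ?_⟩
      have hx0 : tri F z z x = 0 := by
        obtain ⟨x₁, hx₁, hx₁v⟩ := hx
        have h1 := tri_at F hL.at' hL.at' hx₁v
        have h2 : tri F (fun i => c * o i) (fun i => c * o i) x₁ = 0 := by
          change tri F (c • o) (c • o) x₁ = 0
          rw [tri_smul1, tri_smul2, h.cne.zero o h.cne.mem x₁ hx₁, mul_zero, mul_zero]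
        rw [h2] at h1
        exact h1.unique VFP.at_zero
      have h1 := hz (y + x) (by rw [tri_add3, hy, hx0, add_zero])
      rw [tri_add2, tri_add3, tri_add3, hz y hy, hz x hx0, tri_swap23 F z x y] at h1
      have h2 : 2 * tri F z y x = 0 := by linear_combination h1
      exact (mul_eq_zero.1 h2).resolve_left two_ne_zero
    · -- case (1)
      obtain ⟨f, n, hf⟩ := hcase
      have hf0 : f ≠ 0 := by
        rintro rfl
        exact hμ0 fun i => by rw [hf, zero_mul]
      obtain ⟨ρ, hρ0, hρ⟩ := kl_rho h hne hw hwV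
      obtain ⟨s, hs2⟩ := IsAlgClosed.exists_pow_nat_eq (ρ / f) (n := 2) (by norm_num)
      have hs0 : s ≠ 0 := by
        rintro rfl
        have h1 : ρ / f ≠ 0 := div_ne_zero hρ0 hf0
        apply h1
        rw [← hs2]
        norm_num
      obtain ⟨v, l, z, hl, hl0, hL⟩ := kl_pole hB hs0
      obtain ⟨θ, w', b', κ, hW, hw', hw'V, hμ', hκ, -⟩ :=
        kl_local hF hB h hw hwV hρ hL (hs _ _ _ hL)
      have e2 : ∀ i, tri F z w' (b' i) = 0 := by
        intro i
        have h1 := hμ' i
        have h2 : l * s * θ * tri F o w (b i) =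
            (θ * ρ / (l * s)) * l ^ 2 * algebraMap k (Om k) (n i) := by
          have h3 : f = ρ / s ^ 2 := by
            rw [hs2]
            field_simp
          rw [hf, h3]
          field_simp
        rw [h2] at h1
        have h3 := (hκ.mul (hl0.pow 2)).mul (Place.at_const (v := v) (n i))
        have h4 := h1.unique h3
        rw [h4]
        norm_num
      refine ⟨v, l * s, z, hL, fun y hy x hx => ?_⟩
      obtain ⟨a, v', hv', rfl⟩ := kl_split hW.cne (kl_ne' hF hL.ne) hw' hw'V hy
      obtain ⟨x', hx'⟩ := kl_span hW hx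
      have h5 : tri F z w' z = 0 := by rw [tri_swap23]; exact hw'
      have h3 : tri F z w' x = 0 := by
        rw [hx', tri_add3, tri_add3, tri_add3, tri_smul3, tri_smul3, tri_smul3, tri_smul3, e2, e2,
          e2, h5]
        ring
      rw [tri_add2, tri_smul2, h3, hW.cne.zero v' hv' x hx]
      ring
  · right
    obtain ⟨x, y, hx, hxy, hl⟩ := kl_line α B (fun i => tri F o w (b i)) hcase
    refine ⟨x, y, hx, hxy, fun w₁ hw₁ => ?_⟩
    obtain ⟨a, v', hv', rfl⟩ := kl_split h.cne hne hw hwV hw₁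
    have hp : pnt b x y 1 ∈ V := by
      unfold pnt
      exact V.add_mem (V.add_mem (V.smul_mem _ (h.mem 0)) (V.smul_mem _ (h.mem 1)))
        (V.smul_mem _ (h.mem 2))
    rw [tri_add2, tri_smul2, h.cne.zero v' hv' _ hp, add_zero]
    have h1 : tri F o w (pnt b x y 1) = 0 := by
      unfold pnt
      rw [tri_add3, tri_add3, tri_smul3, tri_smul3, tri_smul3]
      linear_combination hl
    rw [h1, mul_zero]

/-- If `V₁ = V₂`, i.e. the quadratic form is a square, and it has constant `j` and smooth limits, then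
the quadratic form is zero at some place (case (2) of `kill_or`). -/
theorem kill_sq (hF : Smooth F) {o : Fin 6 → Om k} (hB : Bp F o)
    {V : Submodule (Om k) (Fin 6 → Om k)} {b : Fin 3 → Fin 6 → Om k} {α B : k}
    (h : Wei F o V b (algebraMap k (Om k) α) (algebraMap k (Om k) B))
    (hV : ∀ y, tri F o o y = 0 → tri F o y y = 0 → y ∈ V)
    (hs : ∀ v c z, Lm o v c z → SmC F z (limW v V)) :
    ∃ v c z, Lm o v c z ∧ ∀ y, tri F z z y = 0 → tri F z y y = 0 := by
  have hne := kl_ne hF hB
  obtain ⟨w, hw, hwV⟩ := kl_exists_w h.cne hne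
  have hq : tri F o w w ≠ 0 := fun h0 => hwV (hV w hw h0)
  refine kl_zero hF hB h hw hwV ?_ hq hs
  intro i
  by_contra hi
  set a : Om k := -(2 * tri F o w (b i)) / tri F o w w with ha
  have ha0 : a ≠ 0 := by
    rw [ha]
    exact div_ne_zero (neg_ne_zero.2 (mul_ne_zero two_ne_zero hi)) hq
  have h1 : tri F o o (a • w + b i) = 0 := by
    rw [tri_add3, tri_smul3, hw, h.cne.zero o h.cne.mem _ (h.mem i)]
    ring
  have h2 : tri F o (a • w + b i) (a • w + b i) = 0 := by
    rw [tri_add2, tri_smul2, tri_add3, tri_add3, tri_smul3, tri_smul3,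
      h.cne.zero _ (h.mem i) _ (h.mem i), tri_swap23 F o (b i) w, ha]
    field_simp
    ring
  have h3 := hV _ h1 h2
  apply hwV
  have h4 : a • w ∈ V := by
    have := V.sub_mem h3 (h.mem i)
    rwa [add_sub_cancel_right] at this
  have h5 := V.smul_mem a⁻¹ h4
  rwa [smul_smul, inv_mul_cancel₀ ha0, one_smul] at h5

end Pool.Agent.CUB
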