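import Pool.Agent.CUB.Gen
import Pool.Agent.CUB.IsoB3
import Pool.Agent.CUB.Kill

/-!
# Two cones
-/

set_option autoImplicit false

noncomputable section

namespace Pool.Agent.CUB

open Pool.Agent.ZCyc Pool.Agent.Dess Pool.Agent.GT
open Pool.Agent.VFP (Om tt)
open scoped Classical

variable {k : Type} [Field k] [IsAlgClosed k] [CharZero k] {F : MvPolynomial (Fin 6) k}

omit [IsAlgClosed k] [CharZero k] in
private theorem limW_mono {v : Place k (Om k)} {V V' : Submodule (Om k) (Fin 6 → Om k)}
    (h : V ≤ V') : limW v V ≤ limW v V' := fun _ ⟨a, ha, hb⟩ => ⟨a, h ha, hb⟩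

omit [CharZero k] in
private theorem val_limW {v : Place k (Om k)} {n : Ln F (Om k)} {m : Ln F k} (h : IsVal v n m) :
    m.W = limW v n.W := by
  symm
  refine Submodule.eq_of_le_of_finrank_eq ?_ (by rw [finrank_limW, n.two, m.two])
  rintro b ⟨a, ha, hb⟩
  exact h a ha b hb

/-- the quadratic form on the tangent hyperplane is zero, if it is zero on `V` and at one more
vector, and `V` is in its radical -/
private theorem quad_zero (hF : Smooth F) {z : Fin 6 → k} (hz : z ≠ 0)
    {V : Submodule k (Fin 6 → k)} (hV : Cne F z V)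
    (hk : ∀ y, tri F z z y = 0 → ∀ x ∈ V, tri F z y x = 0) {y : Fin 6 → k}
    (h₁ : tri F z z y = 0) (h₂ : tri F z y y = 0) (hy : y ∉ V) :
    ∀ w, tri F z z w = 0 → tri F z w w = 0 := by
  have hle : V ⊔ Submodule.span k {y} ≤ LinearMap.ker (trl F z z) := by
    refine sup_le (fun x hx => ?_) ?_
    · rw [LinearMap.mem_ker, trl_apply]
      exact hV.zero z hV.mem x hx
    · rw [Submodule.span_singleton_le_iff_mem, LinearMap.mem_ker, trl_apply]
      exact h₁
  have hne : trl F z z ≠ 0 := fun h => hz (tri_ns hF fun w => by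
    rw [← trl_apply, h, LinearMap.zero_apply])
  have hker : Module.finrank k (LinearMap.ker (trl F z z)) = 5 := by
    have h := LinearMap.finrank_range_add_finrank_ker (trl F z z)
    have h' : Module.finrank k (LinearMap.range (trl F z z)) = 1 := by
      rw [LinearMap.range_eq_top.2 (LinearMap.surjective hne)]
      simp
    have h'' : Module.finrank k (Fin 6 → k) = 6 := by simp
    omega
  have hsup : Module.finrank k (V ⊔ Submodule.span k {y} : Submodule k (Fin 6 → k)) = 5 := by
    have hinf : V ⊓ Submodule.span k {y} = ⊥ := by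
      rw [eq_bot_iff]
      rintro x ⟨hx, hx'⟩
      obtain ⟨c, rfl⟩ := Submodule.mem_span_singleton.1 hx'
      by_cases hc : c = 0
      · simp [hc]
      · exact absurd ((V.smul_mem_iff hc).1 hx) hy
    have hy0 : y ≠ 0 := by
      rintro rfl
      exact hy V.zero_mem
    have := Submodule.finrank_sup_add_finrank_inf_eq V (Submodule.span k {y})
    rw [hinf, finrank_bot, finrank_span_singleton hy0, hV.four] at this
    omega
  have he := Submodule.eq_of_le_of_finrank_eq hle (by rw [hsup, hker])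
  intro w hw
  have hw' : w ∈ V ⊔ Submodule.span k {y} := by
    rw [he, LinearMap.mem_ker, trl_apply]
    exact hw
  obtain ⟨x, hx, u, hu, rfl⟩ := Submodule.mem_sup.1 hw'
  obtain ⟨c, rfl⟩ := Submodule.mem_span_singleton.1 hu
  have e₁ := hV.zero x hx x hx
  have e₂ := hk y h₁ x hx
  rw [tri_add2, tri_add3, tri_add3, tri_smul2, tri_smul2, tri_smul3, tri_smul3, e₁, h₂, e₂,
    tri_swap23 F z x y, e₂]
  ring

/-- TWO CONES. `V₁` has constant `j` and smooth limits, and the lines in the limits of `V₂` are good for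
`G`. Then the lines in the limits of `V₁` are good for `G ⊔ TC`. Proof: `kill_or`. First alternative:
a place with `tri F z y x = 0` for `y` in the tangent hyperplane at `z` and `x` in the limit of `V₁`. If
the quadratic form at `z` is zero then all lines through `z` are good (`gd_cone`). Otherwise its
zeros in the tangent hyperplane (dimension `5`) are the limit of `V₁` (dimension `4`), which
contains the limit of `V₂`; so they are equal, and all lines in the limit of `V₁` are good. Now
`good_one`. Second alternative: the vector `pnt b x y 1` is in `V₁` and in `V₂`: it is in the radical of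
the form on the tangent hyperplane, and for `y ∈ V₂`, not in `V₁`, the sum is a zero of the form and
not in `V₁`. So all values of the line `⟨o, pnt b x y 1⟩` are in the limits of `V₂`: good. Now
`good_pt`. -/
theorem two_cones (hF : Smooth F) {t : Fin 3 → Ln F k} (ht : Tri t) {o : Fin 6 → Om k}
    (hB : Bp F o) (hq : ¬ ∀ y, tri F o o y = 0 → tri F o y y = 0)
    {V₁ V₂ : Submodule (Om k) (Fin 6 → Om k)} (h₁ : Cne F o V₁) (h₂ : Cne F o V₂)
    (hne : V₁ ≠ V₂) (h : ∀ y, tri F o o y = 0 → tri F o y y = 0 → y ∈ V₁ ∨ y ∈ V₂)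
    {b : Fin 3 → Fin 6 → Om k} {α B : k}
    (hW : Wei F o V₁ b (algebraMap k (Om k) α) (algebraMap k (Om k) B))
    (hs : ∀ v c z, Lm o v c z → SmC F z (limW v V₁))
    {G : Submodule ℚ (Ln F k →₀ ℚ)} (hG : R1 F ≤ G) (hgood : GoodV t G o V₂) :
    GoodV t (G ⊔ TC F o b α B) o V₁ := by
  have ho : o ≠ 0 := fun h0 => hB.ncst ⟨1, 0, one_ne_zero, fun i => by simp [h0]⟩
  rcases kill_or hF hB hq hW hs with ⟨v₀, c₀, z₀, hL₀, hk⟩ | ⟨x, y, hx, hxy, hp⟩
  · have hg : ∀ m : Ln F k, z₀ ∈ m.W → m.W ≤ limW v₀ V₁ → gd t m ∈ G ⊔ TC F o b α B := by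
      intro m hm hmV
      by_cases hq₀ : ∀ y, tri F z₀ z₀ y = 0 → tri F z₀ y y = 0
      · exact (hG.trans le_sup_left : R1 F ≤ G ⊔ TC F o b α B) (gd_cone hF ht hL₀.ne hq₀ hm)
      · have hC₁ := cne_lim h₁ hL₀.ne hL₀.at'
        have hC₂ := cne_lim h₂ hL₀.ne hL₀.at'
        have hle : limW v₀ V₂ ≤ limW v₀ V₁ := by
          intro y hy
          by_contra hy₁
          exact hq₀ (quad_zero hF hL₀.ne hC₁ hk
            (hC₂.zero z₀ hC₂.mem y hy) (hC₂.zero y hy y hy) hy₁)
        have he : limW v₀ V₂ = limW v₀ V₁ :=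
          Submodule.eq_of_le_of_finrank_eq hle (by rw [hC₁.four, hC₂.four])
        exact (le_sup_left : G ≤ G ⊔ TC F o b α B)
          (hgood v₀ c₀ z₀ hL₀ m hm (by rw [he]; exact hmV))
    exact fun v c z hL m hm hmV =>
      good_one hF ht hW (hG.trans le_sup_left) le_sup_right hL₀ hg hL hm hmV
  · obtain ⟨n, hn, hnV⟩ := wei_exists hF hW (x := x) (y := y) (z := 1) (Or.inr (Or.inr one_ne_zero))
      (by rw [mul_one, hxy]; ring)
    have hpV₁ : pnt b x y 1 ∈ V₁ := hnV (by
      rw [hn]
      exact Submodule.subset_span (Set.mem_insert_of_mem _ rfl))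
    obtain ⟨w, hw₂, hw₁⟩ : ∃ w ∈ V₂, w ∉ V₁ := by
      by_contra hcon
      push Not at hcon
      exact hne (Submodule.eq_of_le_of_finrank_eq hcon (by rw [h₁.four, h₂.four])).symm
    have hpV₂ : pnt b x y 1 ∈ V₂ := by
      have e₁ : tri F o o w = 0 := h₂.zero o h₂.mem w hw₂
      have e₂ : tri F o w w = 0 := h₂.zero w hw₂ w hw₂
      have e₃ : tri F o o (pnt b x y 1) = 0 := h₁.zero o h₁.mem _ hpV₁
      have e₄ : tri F o (pnt b x y 1) (pnt b x y 1) = 0 := h₁.zero _ hpV₁ _ hpV₁
      have e₅ := hp w e₁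
      rcases h (w + pnt b x y 1) (by rw [tri_add3, e₁, e₃, add_zero]) (by
        rw [tri_add2, tri_add3, tri_add3, e₂, e₄, tri_swap23 F o (pnt b x y 1) w, e₅]
        ring) with h | h
      · exact absurd (by simpa using V₁.sub_mem h hpV₁) hw₁
      · simpa using V₂.sub_mem h hw₂
    have hnV₂ : n.W ≤ V₂ := by
      rw [hn, Submodule.span_le]
      rintro u (rfl | hu)
      · exact h₂.mem
      · rw [Set.mem_singleton_iff.1 hu]
        exact hpV₂
    have hg : ∀ (v : Place k (Om k)) (m : Ln F k), IsVal v n m → gd t m ∈ G ⊔ TC F o b α B := by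
      intro v m hv
      obtain ⟨c, z, hc, hz, hcz⟩ := exists_scale v o ho
      have hm : z ∈ m.W := hv (c • o) (n.W.smul_mem _ (by
        rw [hn]
        exact Submodule.subset_span (Set.mem_insert _ _))) z hcz
      refine (le_sup_left : G ≤ G ⊔ TC F o b α B) (hgood v c z ⟨hz, hcz⟩ m hm ?_)
      rw [val_limW hv]
      exact limW_mono hnV₂
    exact fun v c z hL m hm hmV =>
      good_pt hF ht hW (hG.trans le_sup_left) le_sup_right hs hx hxy hn hg hL hm hmV

end Pool.Agent.CUB
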