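import Pool.Agent.CUB.Gen2
import Pool.Agent.CUB.FacA

/-!
# The lines through the points of the curve are good
-/

set_option autoImplicit false

noncomputable section

namespace Pool.Agent.CUB

open Pool.Agent.ZCyc Pool.Agent.Dess Pool.Agent.GT
open Pool.Agent.VFP (Om tt)
open scoped Classical

variable {k : Type} [Field k] [IsAlgClosed k] [CharZero k] {F : MvPolynomial (Fin 6) k}

private theorem fd_bot (hF : Smooth F) : Fd F (⊥ : Submodule ℚ (Ln F k →₀ ℚ)) :=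
  ⟨1, fun z hz => alt_one (rsys hF) z 0 (by
    rw [(Submodule.mem_bot ℚ).1 (hz 0)]
    exact Submodule.zero_mem _)⟩

omit [IsAlgClosed k] [CharZero k] in
theorem GoodV.mono {t : Fin 3 → Ln F k} {G G' : Submodule ℚ (Ln F k →₀ ℚ)} {o : Fin 6 → Om k}
    {V : Submodule (Om k) (Fin 6 → Om k)} (h : GoodV t G o V) (hG : G ≤ G') : GoodV t G' o V :=
  fun v c z hL m hm hmV => hG (h v c z hL m hm hmV)

private theorem gen_fin (hF : Smooth F) {t : Fin 3 → Ln F k} (ht : Tri t) {o : Fin 6 → Om k}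
    {V₁ V₂ : Submodule (Om k) (Fin 6 → Om k)} (h₁ : Cne F o V₁) (h₂ : Cne F o V₂)
    (h : ∀ y, tri F o o y = 0 → tri F o y y = 0 → y ∈ V₁ ∨ y ∈ V₂)
    {G : Submodule ℚ (Ln F k →₀ ℚ)} (hG : R1 F ≤ G) (hg₁ : GoodV t G o V₁)
    (hg₂ : GoodV t G o V₂) {z : Fin 6 → k} (hz : Gam o z) {m : Ln F k} (hm : z ∈ m.W) :
    gd t m ∈ G := by
  by_cases hq : ∀ y, tri F z z y = 0 → tri F z y y = 0
  · exact hG (gd_cone hF ht hz.1 hq hm)
  · push Not at hq
    obtain ⟨hz0, v, c, hv⟩ := hz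
    rcases lim_fac hF h₁ h₂ h hz0 hv hq hm with h | h
    · exact hg₁ v c z ⟨hz0, hv⟩ m hm h
    · exact hg₂ v c z ⟨hz0, hv⟩ m hm h

/-- All lines through the values of `o` are good modulo two finite-dimensional subspaces. Proof:
`exists_fac`. If the form is zero: `quad_lim`, `gd_cone`, `A₁ = A₂ = ⊥`. Otherwise, if both cones are in
case (1) of `one_cone`: `A₁`, `A₂`. If `V₁` is in case (2) and `V₁ ≠ V₂`, then `V₂` is not in case (2)
(`not_both`), so it is in case (1), and `two_cones` with `G = R1 ⊔ A₂`; the same with `V₁`, `V₂`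
exchanged. If `V₁ = V₂` is in case (2): `kill_sq`, `gd_cone`, `good_one` with `G = R1 ⊔ TC`. Finally use
`lim_fac` for the values `z` where the form is not zero, and `gd_cone` for the other ones. -/
theorem gen (hF : Smooth F) {t : Fin 3 → Ln F k} (ht : Tri t) {o : Fin 6 → Om k}
    (hB : Bp F o) : ∃ A₁ A₂ : Submodule ℚ (Ln F k →₀ ℚ), Fd F A₁ ∧ Fd F A₂ ∧
      ∀ z, Gam o z → ∀ m : Ln F k, z ∈ m.W → gd t m ∈ R1 F ⊔ A₁ ⊔ A₂ := by
  by_cases hq : ∀ y, tri F o o y = 0 → tri F o y y = 0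
  · exact ⟨⊥, ⊥, fd_bot hF, fd_bot hF, fun z hz m hm =>
      (le_sup_left.trans le_sup_left : R1 F ≤ R1 F ⊔ ⊥ ⊔ ⊥)
        (gd_cone hF ht hz.1 (quad_lim hF hq hz) hm)⟩
  obtain ⟨V₁, V₂, h₁, h₂, h⟩ := (exists_fac hF hB).resolve_left hq
  have h' : ∀ y, tri F o o y = 0 → tri F o y y = 0 → y ∈ V₂ ∨ y ∈ V₁ := fun y hy hy' =>
    (h y hy hy').symm
  rcases one_cone hF ht hB h₁ with ⟨A₁, hA₁, hg₁⟩ | ⟨b₁, α₁, B₁, hW₁, hs₁⟩
  · rcases one_cone hF ht hB h₂ with ⟨A₂, hA₂, hg₂⟩ | ⟨b₂, α₂, B₂, hW₂, hs₂⟩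
    · exact ⟨A₁, A₂, hA₁, hA₂, fun z hz m hm => gen_fin hF ht h₁ h₂ h
        (le_sup_left.trans le_sup_left)
        (hg₁.mono le_sup_left) (hg₂.mono (sup_le (le_sup_left.trans le_sup_left) le_sup_right))
        hz hm⟩
    · by_cases hne : V₂ = V₁
      · subst hne
        exact ⟨A₁, ⊥, hA₁, fd_bot hF, fun z hz m hm => gen_fin hF ht h₁ h₂ h
          (le_sup_left.trans le_sup_left) (hg₁.mono le_sup_left) (hg₁.mono le_sup_left) hz hm⟩
      · have hg₂ := two_cones hF ht hB hq h₂ h₁ hne h' hW₂ hs₂ le_sup_left hg₁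
        exact ⟨A₁, TC F o b₂ α₂ B₂, hA₁, fam_cst hF hW₂, fun z hz m hm => gen_fin hF ht h₁ h₂ h
          (le_sup_left.trans le_sup_left) (hg₁.mono le_sup_left) hg₂ hz hm⟩
  · rcases one_cone hF ht hB h₂ with ⟨A₂, hA₂, hg₂⟩ | ⟨b₂, α₂, B₂, hW₂, hs₂⟩
    · by_cases hne : V₁ = V₂
      · subst hne
        exact ⟨A₂, ⊥, hA₂, fd_bot hF, fun z hz m hm => gen_fin hF ht h₁ h₂ h
          (le_sup_left.trans le_sup_left) (hg₂.mono le_sup_left) (hg₂.mono le_sup_left) hz hm⟩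
      · have hg₁ := two_cones hF ht hB hq h₁ h₂ hne h hW₁ hs₁ le_sup_left hg₂
        exact ⟨A₂, TC F o b₁ α₁ B₁, hA₂, fam_cst hF hW₁, fun z hz m hm => gen_fin hF ht h₁ h₂ h
          (le_sup_left.trans le_sup_left) hg₁ (hg₂.mono le_sup_left) hz hm⟩
    · by_cases hne : V₁ = V₂
      · subst hne
        obtain ⟨v₀, c₀, z₀, hL₀, hz₀⟩ := kill_sq hF hB hW₁
          (fun y hy hy' => (h y hy hy').elim id id) hs₁
        have hg : GoodV t (R1 F ⊔ TC F o b₁ α₁ B₁) o V₁ := fun v c z hL m hm hmV =>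
          good_one hF ht hW₁ le_sup_left le_sup_right hL₀
            (fun m' hm' _ => (le_sup_left : R1 F ≤ R1 F ⊔ TC F o b₁ α₁ B₁)
              (gd_cone hF ht hL₀.ne hz₀ hm')) hL hm hmV
        exact ⟨TC F o b₁ α₁ B₁, ⊥, fam_cst hF hW₁, fd_bot hF, fun z hz m hm =>
          gen_fin hF ht h₁ h₂ h (le_sup_left.trans le_sup_left) (hg.mono le_sup_left)
            (hg.mono le_sup_left) hz hm⟩
      · obtain ⟨v, c, z, hL, hs⟩ := not_both hF hB hW₁ hW₂ hne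
        rcases hs with hs | hs
        · exact absurd (hs₁ v c z hL) hs
        · exact absurd (hs₂ v c z hL) hs

end Pool.Agent.CUB
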