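import Pool.Agent.CUB.Base

/-!
# Tangent hyperplanes
-/

set_option autoImplicit false

noncomputable section

namespace Pool.Agent.CUB

open Pool.Agent.ZCyc Pool.Agent.Dess Pool.Agent.GT
open Pool.Agent.VFP (Om tt)
open scoped Classical

variable {k : Type} [Field k] [IsAlgClosed k] [CharZero k] {F : MvPolynomial (Fin 6) k}

/-- the coefficients of the equation of the tangent hyperplane -/
def tg {K : Type} [Field K] [Algebra k K] (F : MvPolynomial (Fin 6) k) (x : Fin 6 → K) :
    Fin 6 → K := fun i => tri F x x (Pi.single i 1)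

omit [IsAlgClosed k] [CharZero k] in
private theorem geoa_lin (x z : Fin 6 → Om k) : tri F x x z = ∑ i, tg F x i * z i :=
  tri_sum F x x z

/-- The tangent hyperplane is not constant. Proof: otherwise scale `x` such that `tg F x` is
constant (square root); `x` is not constant, so it has a pole (`pole`): `l x → y ≠ 0`, `l → 0`, and
`tri F y y z` is the value of `l ^ 2 * tri F x x z`, so it is zero for all constant `z`, contradiction to
`tri_ns`. -/
theorem tg_ncst (hF : Smooth F) {x : Fin 6 → Om k} (hx : ¬ Cst x) : ¬ Cst (tg F x) := by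
  rintro ⟨c, a, hc, ha⟩
  obtain ⟨s, hs⟩ := IsAlgClosed.exists_pow_nat_eq c (n := 2) two_pos
  have hs0 : s ≠ 0 := by
    rintro rfl
    apply hc
    rw [← hs]
    ring
  obtain ⟨v, l, y, -, hl0, hy, hly⟩ := pole (x := s • x) (by
    rintro ⟨b, hb⟩
    exact hx ⟨s, b, hs0, hb⟩)
  apply hy
  refine tri_ns hF fun z => ?_
  have h1 := tri_at F (v := v) (x := l • s • x) (y := l • s • x) (z := em (Om k) z) (x' := y)
    (y' := y) (z' := z) hly hly (fun i => Place.at_const (z i))
  have h2 : tri F (l • s • x) (l • s • x) (em (Om k) z) =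
      l * (l * algebraMap k (Om k) (∑ i, a i * z i)) := by
    rw [tri_smul1, tri_smul2, tri_smul1, tri_smul2, geoa_lin, map_sum]
    have h3 : ∑ i, algebraMap k (Om k) (a i * z i) = c * ∑ i, tg F x i * em (Om k) z i := by
      rw [Finset.mul_sum]
      refine Finset.sum_congr rfl fun i _ => ?_
      rw [map_mul, ← ha, em]
      ring
    rw [h3, ← hs]
    ring
  rw [h2] at h1
  have h4 := hl0.mul (hl0.mul (Place.at_const (v := v) (∑ i, a i * z i)))
  rw [zero_mul] at h4
  exact h1.unique h4

/-- Comparison of the limits of a point and of its tangent hyperplane, with any scalings. -/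
theorem tg_lim (hF : Smooth F) {x : Fin 6 → Om k} {v : Place k (Om k)} {c l : Om k}
    {z g : Fin 6 → k} (hz : z ≠ 0) (hg : g ≠ 0) (h : ∀ i, v.At (c * x i) (z i))
    (h' : ∀ i, v.At (l * tg F x i) (g i)) :
    ∃ κ : k, κ ≠ 0 ∧ ∀ w : Fin 6 → k, tri F z z w = κ * ∑ i, g i * w i := by
  have hA : ∀ w : Fin 6 → k, v.At (c * c * ∑ i, tg F x i * em (Om k) w i) (tri F z z w) := by
    intro w
    have h1 := tri_at F (v := v) (x := c • x) (y := c • x) (z := em (Om k) w) (x' := z) (y' := z)
      (z' := w) h h (fun i => Place.at_const (w i))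
    rw [tri_smul1, tri_smul2, geoa_lin] at h1
    rw [mul_assoc]
    exact h1
  have hB : ∀ w : Fin 6 → k, v.At (l * ∑ i, tg F x i * em (Om k) w i) (∑ i, g i * w i) := by
    intro w
    rw [Finset.mul_sum]
    refine Place.At.sum fun i _ => ?_
    rw [← mul_assoc]
    exact (h' i).mul (Place.at_const (w i))
  obtain ⟨j, hj⟩ : ∃ j, g j ≠ 0 := by
    by_contra hcon
    push Not at hcon
    exact hg (funext hcon)
  have hw0 : ∑ i, g i * (Pi.single j 1 : Fin 6 → k) i = g j := by
    rw [Finset.sum_eq_single j]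
    · rw [Pi.single_eq_same, mul_one]
    · intro i _ hij
      rw [Pi.single_eq_of_ne hij, mul_zero]
    · intro hh
      exact absurd (Finset.mem_univ j) hh
  obtain ⟨e, he⟩ : ∃ e : Fin 6 → k, ∑ i, g i * e i = g j := ⟨Pi.single j 1, hw0⟩
  have h1 := hB e
  rw [he] at h1
  have h2 := hA e
  have h3 := h2.div h1 hj
  have hne : l * ∑ i, tg F x i * em (Om k) e i ≠ 0 := by
    intro h0
    rw [h0] at h1
    exact hj (h1.unique VFP.at_zero)
  have hl : l ≠ 0 := left_ne_zero_of_mul hne
  have hs : (∑ i, tg F x i * em (Om k) e i) ≠ 0 := right_ne_zero_of_mul hne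
  have h4 : c * c * (∑ i, tg F x i * em (Om k) e i) /
      (l * ∑ i, tg F x i * em (Om k) e i) = c * c / l := by
    field_simp
  rw [h4] at h3
  have h5 : ∀ w : Fin 6 → k,
      tri F z z w = tri F z z e / g j * ∑ i, g i * w i := by
    intro w
    have h6 := h3.mul (hB w)
    have h7 : c * c / l * (l * ∑ i, tg F x i * em (Om k) w i) =
        c * c * ∑ i, tg F x i * em (Om k) w i := by
      field_simp
    rw [h7] at h6
    exact (hA w).unique h6
  refine ⟨tri F z z e / g j, ?_, h5⟩
  intro h0
  apply hz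
  refine tri_ns hF fun w => ?_
  rw [h5, h0, zero_mul]

end Pool.Agent.CUB
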