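import Pool.Agent.CUB.GeoA

/-!
# Values of the base point with given properties
-/

set_option autoImplicit false

noncomputable section

namespace Pool.Agent.CUB

open Pool.Agent.ZCyc Pool.Agent.Dess Pool.Agent.GT
open Pool.Agent.VFP (Om tt)
open scoped Classical

variable {k : Type} [Field k] [IsAlgClosed k] [CharZero k] {F : MvPolynomial (Fin 6) k}

theorem exists_gam (o : Fin 6 → Om k) (ho : o ≠ 0) (v : Place k (Om k)) :
    ∃ (z : Fin 6 → k) (c : Om k), z ≠ 0 ∧ c ≠ 0 ∧ ∀ i, v.At (c * o i) (z i) :=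
  let ⟨l, y, h₁, h₂, h₃⟩ := exists_scale v o ho
  ⟨y, l, h₂, h₁, h₃⟩

/-- values of a conjugate of `o` are values of `o` (`Place.map`) -/
theorem gam_conj {o : Fin 6 → Om k} (S : Om k ≃ₐ[k] Om k) {z : Fin 6 → k}
    (h : Gam (fun i => S (o i)) z) : Gam o z := by
  obtain ⟨hz, v, c, hc⟩ := h
  refine ⟨hz, v.map S.symm, S.symm c, fun i => ?_⟩
  rw [Place.at_map, AlgEquiv.symm_symm, map_mul, AlgEquiv.apply_symm_apply]
  exact hc i

private theorem ga2_pole {o : Fin 6 → Om k} (ho : ¬ Cst o) {s : Om k} (hs : s ≠ 0) :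
    ∃ (v : Place k (Om k)) (l : Om k) (y : Fin 6 → k), l ≠ 0 ∧ v.At l 0 ∧ y ≠ 0 ∧
      ∀ i, v.At (l * (s * o i)) (y i) := by
  have h1 : ¬ ∃ a : Fin 6 → k, ∀ i, (fun i => s * o i) i = algebraMap k (Om k) (a i) := by
    rintro ⟨a, ha⟩
    exact ho ⟨s, a, hs, ha⟩
  exact pole h1

/-- the value of `tri F o o w` at a place -/
private theorem ga2_val {o : Fin 6 → Om k} {v : Place k (Om k)} {c : Om k} {z : Fin 6 → k}
    (h : ∀ i, v.At (c * o i) (z i)) (w : Fin 6 → k) :
    v.At (c * (c * tri F o o (em (Om k) w))) (tri F z z w) := by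
  have h1 := tri_at F (x := c • o) (y := c • o) (z := em (Om k) w) (fun i => h i) (fun i => h i)
    (fun i => Place.at_const (v := v) (w i))
  rwa [tri_smul1, tri_smul2] at h1

private theorem ga2_zero {v : Place k (Om k)} {x : k} (h : v.At (0 : Om k) x) : x = 0 := by
  have h2 := Place.at_const (v := v) (0 : k)
  rw [map_zero] at h2
  exact Place.At.unique h h2

/-- For every constant vector `w` there is a value `z` of `o` with `tri F z z w = 0`. Proof: if
`tri F o o w = 0` every place does. Otherwise scale `o` such that `tri F o o w = 1` (square root) and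
use `pole`. -/
theorem gam_quad {o : Fin 6 → Om k} (ho : ¬ Cst o) (w : Fin 6 → k) :
    ∃ z, Gam o z ∧ tri F z z w = 0 := by
  by_cases hT : tri F o o (em (Om k) w) = 0
  · obtain ⟨v, l, y, _, _, hy, h⟩ := ga2_pole ho (one_ne_zero (α := Om k))
    have h1 : ∀ i, v.At (l * o i) (y i) := fun i => by
      have := h i
      rwa [one_mul] at this
    have h2 := ga2_val (F := F) h1 w
    rw [hT, mul_zero, mul_zero] at h2
    exact ⟨y, ⟨hy, v, l, h1⟩, ga2_zero h2⟩
  · obtain ⟨s, hs⟩ := IsAlgClosed.exists_pow_nat_eq (tri F o o (em (Om k) w))⁻¹ (n := 2)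
      (by norm_num)
    have hs0 : s ≠ 0 := by
      rintro rfl
      rw [zero_pow (by norm_num)] at hs
      exact inv_ne_zero hT hs.symm
    obtain ⟨v, l, y, _, hl, hy, h⟩ := ga2_pole ho hs0
    have h1 : ∀ i, v.At (l * s * o i) (y i) := fun i => by
      rw [mul_assoc]
      exact h i
    have h2 := ga2_val (F := F) h1 w
    have h3 : l * s * (l * s * tri F o o (em (Om k) w)) = l * l := by
      calc l * s * (l * s * tri F o o (em (Om k) w))
          = l * l * (s ^ 2 * tri F o o (em (Om k) w)) := by ring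
        _ = l * l := by rw [hs, inv_mul_cancel₀ hT, mul_one]
    rw [h3] at h2
    have h4 := hl.mul hl
    rw [mul_zero] at h4
    exact ⟨y, ⟨hy, v, l * s, h1⟩, Place.At.unique h2 h4⟩

/-- A line `⟨e₁, e₂⟩` over `k` whose intersection with the tangent hyperplane of `o` is constant is in
the tangent hyperplane of some value of `o`. Proof: let `(tri F o o e₁, tri F o o e₂) = f (a, b)`. If
`f = 0` every place does. Otherwise `tg F o / f` is not constant (`tg_ncst`), but its products with
`e₁`, `e₂` are the constants `a`, `b`; use `pole` and `tg_lim`. -/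
theorem gam_line (hF : Smooth F) {o : Fin 6 → Om k} (ho : ¬ Cst o) {e₁ e₂ : Fin 6 → k}
    {a b : k} (hab : a ≠ 0 ∨ b ≠ 0)
    (h : algebraMap k (Om k) b * tri F o o (em (Om k) e₁) =
      algebraMap k (Om k) a * tri F o o (em (Om k) e₂)) :
    ∃ z, Gam o z ∧ tri F z z e₁ = 0 ∧ tri F z z e₂ = 0 := by
  obtain ⟨f, h1, h2⟩ : ∃ f : Om k, tri F o o (em (Om k) e₁) = f * algebraMap k (Om k) a ∧
      tri F o o (em (Om k) e₂) = f * algebraMap k (Om k) b := by
    by_cases ha : a = 0
    · have hb : b ≠ 0 := hab.resolve_left fun h => h ha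
      have hb' : algebraMap k (Om k) b ≠ 0 := (map_ne_zero _).2 hb
      refine ⟨tri F o o (em (Om k) e₂) / algebraMap k (Om k) b, ?_, ?_⟩
      · rw [ha, map_zero, mul_zero]
        rw [ha, map_zero, zero_mul] at h
        exact (mul_eq_zero.1 h).resolve_left hb'
      · rw [div_mul_cancel₀ _ hb']
    · have ha' : algebraMap k (Om k) a ≠ 0 := (map_ne_zero _).2 ha
      refine ⟨tri F o o (em (Om k) e₁) / algebraMap k (Om k) a, ?_, ?_⟩
      · rw [div_mul_cancel₀ _ ha']
      · rw [div_mul_eq_mul_div, mul_comm (tri F o o (em (Om k) e₁)), h,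
          mul_div_assoc, mul_comm, div_mul_cancel₀ _ ha']
  by_cases hf : f = 0
  · obtain ⟨v, l, y, _, _, hy, h⟩ := ga2_pole ho (one_ne_zero (α := Om k))
    have h3 : ∀ i, v.At (l * o i) (y i) := fun i => by
      have := h i
      rwa [one_mul] at this
    rw [hf, zero_mul] at h1 h2
    have h4 := ga2_val (F := F) h3 e₁
    have h5 := ga2_val (F := F) h3 e₂
    rw [h1, mul_zero, mul_zero] at h4
    rw [h2, mul_zero, mul_zero] at h5
    exact ⟨y, ⟨hy, v, l, h3⟩, ga2_zero h4, ga2_zero h5⟩
  · obtain ⟨v, l, g, _, hl, hg, h3⟩ := ga2_pole (tg_ncst hF ho) (inv_ne_zero hf)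
    have ho0 : o ≠ 0 := by
      rintro rfl
      exact ho ⟨1, 0, one_ne_zero, fun i => by simp⟩
    obtain ⟨z, c, hz, _, h4⟩ := exists_gam o ho0 v
    have h5 : ∀ i, v.At (l * f⁻¹ * tg F o i) (g i) := fun i => by
      rw [mul_assoc]
      exact h3 i
    obtain ⟨κ, _, hκ⟩ := tg_lim hF hz hg h4 h5
    have key : ∀ (e : Fin 6 → k) (d : k), tri F o o (em (Om k) e) = f * algebraMap k (Om k) d →
        tri F z z e = 0 := by
      intro e d he
      have h6 : v.At (∑ i, l * f⁻¹ * tg F o i * em (Om k) e i) (∑ i, g i * e i) :=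
        Place.At.sum fun i _ => (h5 i).mul (Place.at_const (e i))
      have h7 : ∑ i, l * f⁻¹ * tg F o i * em (Om k) e i = l * algebraMap k (Om k) d := by
        calc ∑ i, l * f⁻¹ * tg F o i * em (Om k) e i
            = l * f⁻¹ * ∑ i, tg F o i * em (Om k) e i := by
              rw [Finset.mul_sum]
              exact Finset.sum_congr rfl fun i _ => mul_assoc _ _ _
          _ = l * f⁻¹ * (f * algebraMap k (Om k) d) := by
              rw [← he, tri_sum F o o (em (Om k) e)]
              rfl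
          _ = l * algebraMap k (Om k) d := by
              rw [mul_assoc, inv_mul_cancel_left₀ hf]
      rw [h7] at h6
      have h8 := hl.mul (Place.at_const (v := v) d)
      rw [zero_mul] at h8
      rw [hκ e, Place.At.unique h6 h8, mul_zero]
    exact ⟨z, ⟨hz, v, c, h4⟩, key e₁ a h1, key e₂ b h2⟩

end Pool.Agent.CUB
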