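import Pool.Agent.CUB.GeoA2
import Pool.Agent.ZIso.Krull

/-!
# The plane through a constant line and a line in the tangent hyperplane of `o`
-/

set_option autoImplicit false

noncomputable section

namespace Pool.Agent.CUB

open Pool.Agent.ZCyc Pool.Agent.Dess Pool.Agent.GT
open Pool.Agent.VFP (Om tt)
open scoped Classical

variable {k : Type} [Field k] {K : Type} [Field K] [Algebra k K]

/-- The vector `s e₀ + t e₁ + r p`, where `p = ∑ η_j e_(j+2)`. -/
def cmb (e : Fin 6 → Fin 6 → k) (s t r : K) (η : Fin 4 → K) : Fin 6 → K :=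
  s • em K (e 0) + t • em K (e 1) + r • ∑ j : Fin 4, η j • em K (e (Fin.natAdd 2 j))

/-- `e` is a basis of `k ^ 6`, the first two vectors span a line of the cubic fourfold -/
structure Frm (F : MvPolynomial (Fin 6) k) (e : Fin 6 → Fin 6 → k) : Prop where
  li : LinearIndependent k e
  h000 : tri F (e 0) (e 0) (e 0) = 0
  h001 : tri F (e 0) (e 0) (e 1) = 0
  h011 : tri F (e 0) (e 1) (e 1) = 0
  h111 : tri F (e 1) (e 1) (e 1) = 0

/-- The plane spanned by the constant line `⟨e₀, e₁⟩` and by `p = ∑ η_j e_(j+2)`, with the coordinates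
`s`, `t`, `r`: it intersects the cubic fourfold in the line `r = 0`, the line in the tangent hyperplane
of `o`, and the line `a s + b t + c r = 0`. -/
def Pln (F : MvPolynomial (Fin 6) k) (o : Fin 6 → K) (e : Fin 6 → Fin 6 → k) (η : Fin 4 → K)
    (a b c : K) : Prop :=
  ∀ s t r : K, tri F (cmb e s t r η) (cmb e s t r η) (cmb e s t r η) =
    r * tri F o o (cmb e s t r η) * (a * s + b * t + c * r)

private theorem geoB_scal {L : Type} [Field L] (g0 g1 A B C D E α β : L) (hg : g0 ≠ 0 ∨ g1 ≠ 0)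
    (h1 : g1 ^ 2 * A - 2 * g0 * g1 * B + g0 ^ 2 * C = 0) (h2 : g1 * D - g0 * E = 0) :
    ∃ a b c : L, ∀ s t r : L,
      3 * (A * (s - r * α) ^ 2 + 2 * B * (s - r * α) * (t - r * β) + C * (t - r * β) ^ 2) +
        3 * r * (D * (s - r * α) + E * (t - r * β)) =
      (g0 * (s - r * α) + g1 * (t - r * β)) * (a * s + b * t + c * r) := by
  rcases hg with hg | hg
  · have hC : C = (2 * g0 * g1 * B - g1 ^ 2 * A) / g0 ^ 2 := by
      field_simp
      linear_combination h1
    have hE : E = g1 * D / g0 := by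
      field_simp
      linear_combination -h2
    refine ⟨3 * A / g0, (6 * B - 3 * g1 * A / g0) / g0,
      3 * D / g0 - 3 * A / g0 * α - (6 * B - 3 * g1 * A / g0) / g0 * β, fun s t r => ?_⟩
    rw [hC, hE]
    field_simp
    ring
  · have hA : A = (2 * g0 * g1 * B - g0 ^ 2 * C) / g1 ^ 2 := by
      field_simp
      linear_combination h1
    have hD : D = g0 * E / g1 := by
      field_simp
      linear_combination h2
    refine ⟨(6 * B - 3 * g0 * C / g1) / g1, 3 * C / g1,
      3 * E / g1 - 3 * C / g1 * β - (6 * B - 3 * g0 * C / g1) / g1 * α, fun s t r => ?_⟩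
    rw [hA, hD]
    field_simp
    ring

private theorem geoB_sq (F : MvPolynomial (Fin 6) k) (p q z : Fin 6 → K) :
    tri F (p + q) (p + q) z = tri F p p z + 2 * tri F p q z + tri F q q z := by
  rw [tri_add1, tri_add2, tri_add2, tri_swap12 F q p]
  ring

private theorem geoB_cube (F : MvPolynomial (Fin 6) k) (p q : Fin 6 → K) :
    tri F (p + q) (p + q) (p + q) =
      tri F p p p + 3 * tri F p p q + 3 * tri F p q q + tri F q q q := by
  rw [geoB_sq, tri_add3, tri_add3, tri_add3, tri_swap23 F p q p, tri_swap12 F q q p,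
    tri_swap23 F q q p, tri_swap12 F q p q]
  ring

private theorem geoB_sum3 (F : MvPolynomial (Fin 6) k) (x y : Fin 6 → K) {ι : Type} [Fintype ι]
    (ξ : ι → K) (v : ι → Fin 6 → K) :
    tri F x y (∑ i, ξ i • v i) = ∑ i, ξ i * tri F x y (v i) := by
  rw [← trl_apply, map_sum]
  refine Finset.sum_congr rfl fun i _ => ?_
  rw [map_smul, smul_eq_mul, trl_apply]

private theorem geoB_sum2 (F : MvPolynomial (Fin 6) k) (x z : Fin 6 → K) {ι : Type} [Fintype ι]
    (ξ : ι → K) (v : ι → Fin 6 → K) :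
    tri F x (∑ i, ξ i • v i) z = ∑ i, ξ i * tri F x (v i) z := by
  rw [tri_swap23, geoB_sum3]
  refine Finset.sum_congr rfl fun i _ => ?_
  rw [tri_swap23]

private theorem geoB_sum1 (F : MvPolynomial (Fin 6) k) (y z : Fin 6 → K) {ι : Type} [Fintype ι]
    (ξ : ι → K) (v : ι → Fin 6 → K) :
    tri F (∑ i, ξ i • v i) y z = ∑ i, ξ i * tri F (v i) y z := by
  rw [tri_swap12, geoB_sum2]
  refine Finset.sum_congr rfl fun i _ => ?_
  rw [tri_swap12]

open MvPolynomial in
private theorem geoB_ex [IsAlgClosed K] (F : MvPolynomial (Fin 6) k) (o x : Fin 6 → K)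
    (v : Fin 5 → Fin 6 → K) :
    ∃ ξ : Fin 5 → K, ξ ≠ 0 ∧ tri F o o (∑ i, ξ i • v i) = 0 ∧
      tri F x x (∑ i, ξ i • v i) = 0 ∧ tri F x (∑ i, ξ i • v i) (∑ i, ξ i • v i) = 0 ∧
      tri F (∑ i, ξ i • v i) (∑ i, ξ i • v i) (∑ i, ξ i • v i) = 0 := by
  obtain ⟨ξ, hξ, h⟩ := ZIso.exists_ne_zero (K := K) (ι := Fin 5) (κ := Fin 4) (by simp)
    (![∑ i, X i * C (tri F o o (v i)), ∑ i, X i * C (tri F x x (v i)),
      ∑ i, X i * ∑ j, X j * C (tri F x (v i) (v j)),
      ∑ i, X i * ∑ j, X j * ∑ l, X l * C (tri F (v i) (v l) (v j))])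
    (by
      intro i
      fin_cases i <;> simp)
  refine ⟨ξ, hξ, ?_, ?_, ?_, ?_⟩
  · have h0 := h 0
    rw [geoB_sum3]
    simpa using h0
  · have h0 := h 1
    rw [geoB_sum3]
    simpa using h0
  · have h0 := h 2
    rw [geoB_sum2]
    simp only [geoB_sum3]
    simpa using h0
  · have h0 := h 3
    rw [geoB_sum1]
    simp only [geoB_sum2, geoB_sum3]
    simpa using h0

variable [IsAlgClosed k] [CharZero k] {F : MvPolynomial (Fin 6) k}

/-- If the line `⟨e₀, e₁⟩` is not in the tangent hyperplane of `o` then there is such a plane.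

Proof. Let `g₀ = tri F o o e₀`, `g₁ = tri F o o e₁`, `x = g₁ e₀ - g₀ e₁ ≠ 0` (the intersection point of
the line and the tangent hyperplane). There is a vector `y` over `Om k`, not in `⟨x⟩`, with
`tri F o o y = 0`, `tri F x x y = 0`, `tri F x y y = 0`, `tri F y y y = 0`: in a complement of `⟨x⟩`, which
has dimension five, these are four homogeneous equations (`ZIso.exists_ne_zero`). `y` is not in
`⟨e₀, e₁⟩`, because `tri F o o y = 0`. Let `y = α e₀ + β e₁ + p`, `p = ∑ η_j e_(j+2) ≠ 0`. Then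
`s e₀ + t e₁ + r p = s' e₀ + t' e₁ + r y`, `s' = s - r α`, `t' = t - r β`, and `F` of this vector is
`r (Q(s', t') + 3 r L(s', t'))` with `Q = 3 (s'² tri e₀ e₀ y + 2 s' t' tri e₀ e₁ y + t'² tri e₁ e₁ y)`,
`L = s' tri e₀ y y + t' tri e₁ y y`. `Q` and `L` vanish at `(g₁, -g₀)`, so they are divisible by
`g₀ s' + g₁ t' = tri F o o (s' e₀ + t' e₁ + r y)`. -/
theorem exists_pln (hF : Smooth F) {o : Fin 6 → Om k} {e : Fin 6 → Fin 6 → k}
    (he : Frm F e) (hg : tri F o o (em (Om k) (e 0)) ≠ 0 ∨ tri F o o (em (Om k) (e 1)) ≠ 0) :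
    ∃ (η : Fin 4 → Om k) (a b c : Om k), η ≠ 0 ∧ Pln F o e η a b c := by
  set u0 := em (Om k) (e 0) with hu0
  set u1 := em (Om k) (e 1) with hu1
  set g0 := tri F o o u0 with hg0
  set g1 := tri F o o u1 with hg1
  set x : Fin 6 → Om k := g1 • u0 + (-g0) • u1 with hx
  -- the chosen vector of the line
  obtain ⟨κ0, κ1, hκ⟩ : ∃ κ0 κ1 : Om k, tri F o o (κ0 • u0 + κ1 • u1) ≠ 0 := by
    rcases hg with h | h
    · exact ⟨1, 0, by rw [tri_add3, tri_smul3, tri_smul3, one_mul, zero_mul, add_zero]; exact h⟩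
    · exact ⟨0, 1, by rw [tri_add3, tri_smul3, tri_smul3, one_mul, zero_mul, zero_add]; exact h⟩
  obtain ⟨ξ, hξ, h1, h2, h3, h4⟩ := geoB_ex F o x
    (Fin.cons (κ0 • u0 + κ1 • u1) fun j : Fin 4 => em (Om k) (e (Fin.natAdd 2 j)))
  rw [Fin.sum_univ_succ] at h1 h2 h3 h4
  simp only [Fin.cons_zero, Fin.cons_succ] at h1 h2 h3 h4
  set p : Fin 6 → Om k := ∑ j : Fin 4, ξ j.succ • em (Om k) (e (Fin.natAdd 2 j)) with hp
  set y : Fin 6 → Om k := ξ 0 • (κ0 • u0 + κ1 • u1) + p with hy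
  have hη : (fun j : Fin 4 => ξ j.succ) ≠ 0 := by
    intro h0
    have h5 : ∀ j : Fin 4, ξ j.succ = 0 := fun j => congrFun h0 j
    have hp0 : p = 0 := by
      rw [hp]
      refine Finset.sum_eq_zero fun j _ => ?_
      rw [h5 j, zero_smul]
    rw [hy, hp0, add_zero, tri_smul3] at h1
    have h6 : ξ 0 = 0 := (mul_eq_zero.1 h1).resolve_right hκ
    apply hξ
    funext i
    refine Fin.cases h6 (fun j => h5 j) i
  obtain ⟨a, b, c, habc⟩ := geoB_scal g0 g1 (tri F u0 u0 y) (tri F u0 u1 y) (tri F u1 u1 y)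
    (tri F u0 y y) (tri F u1 y y) (ξ 0 * κ0) (ξ 0 * κ1) hg
    (by
      rw [hx, geoB_sq, tri_smul1, tri_smul2, tri_smul1, tri_smul2, tri_smul1, tri_smul2] at h2
      linear_combination h2)
    (by
      rw [hx, tri_add1, tri_smul1, tri_smul1] at h3
      linear_combination h3)
  refine ⟨fun j => ξ j.succ, a, b, c, hη, fun s t r => ?_⟩
  have hcmb : cmb e s t r (fun j => ξ j.succ) =
      ((s - r * (ξ 0 * κ0)) • u0 + (t - r * (ξ 0 * κ1)) • u1) + r • y := by
    rw [cmb, ← hu0, ← hu1, ← hp, hy]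
    funext i
    simp only [Pi.add_apply, Pi.smul_apply, smul_eq_mul]
    ring
  have e000 : tri F u0 u0 u0 = 0 := by rw [hu0, tri_em, he.h000, map_zero]
  have e001 : tri F u0 u0 u1 = 0 := by rw [hu0, hu1, tri_em, he.h001, map_zero]
  have e011 : tri F u0 u1 u1 = 0 := by rw [hu0, hu1, tri_em, he.h011, map_zero]
  have e111 : tri F u1 u1 u1 = 0 := by rw [hu1, tri_em, he.h111, map_zero]
  have hgo : tri F o o (cmb e s t r (fun j => ξ j.succ)) =
      g0 * (s - r * (ξ 0 * κ0)) + g1 * (t - r * (ξ 0 * κ1)) := by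
    rw [hcmb, tri_add3, tri_add3, tri_smul3, tri_smul3, tri_smul3, h1]
    ring
  rw [hgo, hcmb, geoB_cube F _ (r • y), geoB_cube]
  simp only [tri_add1, tri_add2, tri_smul1, tri_smul2, tri_smul3, e000, e001, e011, e111, h4,
    tri_swap12 F u1 u0 y]
  linear_combination r * habc s t r

end Pool.Agent.CUB
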