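import Pool.Agent.CUB.GeoB

/-!
# The limit of the plane at a place
-/

set_option autoImplicit false

noncomputable section

namespace Pool.Agent.CUB

open Pool.Agent.ZCyc Pool.Agent.Dess Pool.Agent.GT
open Pool.Agent.VFP (Om tt)
open scoped Classical

variable {k : Type} [Field k] [IsAlgClosed k] [CharZero k] {F : MvPolynomial (Fin 6) k}

omit [IsAlgClosed k] [CharZero k] in
/-- the linear form as a polynomial -/
private theorem lin_ne {g : Fin 3 → k} (hg : g ≠ 0) :
    (MvPolynomial.C (g 0) * MvPolynomial.X 0 + MvPolynomial.C (g 1) * MvPolynomial.X 1 +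
      MvPolynomial.C (g 2) * MvPolynomial.X 2 : MvPolynomial (Fin 3) k) ≠ 0 := by
  intro h
  apply hg
  have h1 : ∀ x : Fin 3 → k, g 0 * x 0 + g 1 * x 1 + g 2 * x 2 = 0 := by
    intro x
    have := congrArg (MvPolynomial.eval x) h
    simpa using this
  funext i
  fin_cases i
  · simpa using h1 ![1, 0, 0]
  · simpa using h1 ![0, 1, 0]
  · simpa using h1 ![0, 0, 1]

omit [CharZero k] in
/-- a point where the three linear forms are not zero -/
private theorem exists_pt {g l : Fin 3 → k} (hg : g ≠ 0) (hl : l ≠ 0) :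
    ∃ s t r : k, r ≠ 0 ∧ g 0 * s + g 1 * t + g 2 * r ≠ 0 ∧ l 0 * s + l 1 * t + l 2 * r ≠ 0 := by
  have hP := mul_ne_zero (mul_ne_zero (MvPolynomial.X_ne_zero (R := k) (2 : Fin 3)) (lin_ne hg))
    (lin_ne hl)
  have hinf : Infinite k := IsAlgClosed.instInfinite
  obtain ⟨x, hx⟩ : ∃ x : Fin 3 → k, MvPolynomial.eval x (MvPolynomial.X 2 *
      (MvPolynomial.C (g 0) * MvPolynomial.X 0 + MvPolynomial.C (g 1) * MvPolynomial.X 1 +
      MvPolynomial.C (g 2) * MvPolynomial.X 2) *
      (MvPolynomial.C (l 0) * MvPolynomial.X 0 + MvPolynomial.C (l 1) * MvPolynomial.X 1 +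
      MvPolynomial.C (l 2) * MvPolynomial.X 2) : MvPolynomial (Fin 3) k) ≠ 0 := by
    by_contra h
    push Not at h
    exact hP (MvPolynomial.funext fun x => by rw [h x, map_zero])
  simp only [map_mul, map_add, MvPolynomial.eval_X, MvPolynomial.eval_C] at hx
  exact ⟨x 0, x 1, x 2, left_ne_zero_of_mul (left_ne_zero_of_mul hx),
    right_ne_zero_of_mul (left_ne_zero_of_mul hx), right_ne_zero_of_mul hx⟩

omit [IsAlgClosed k] [CharZero k] in
private theorem ne_of_at {K : Type} [Field K] [Algebra k K] {v : Place k K} {x : K} {c : k}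
    (h : v.At x c) (hc : c ≠ 0) : x ≠ 0 := by
  rintro rfl
  have h2 := Place.at_const (v := v) (0 : k)
  rw [map_zero] at h2
  exact hc (Place.At.unique h h2)

/-- The limit of the equation of the plane section at the place `v`. `κ η` has the value `η' ≠ 0`, the
coefficients of `tri F o o` on the basis `e₀`, `e₁`, `κ p` have, after scaling, the value `g ≠ 0`, the
coefficients `a`, `b`, `κ c` have, after scaling, the value `l ≠ 0`. The factor between the two sides is
regular at `v`, because the left-hand side is, and one coefficient of the product of the two scaled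
linear forms is a unit (`(g₀ s + g₁ t + g₂ r) (l₀ s + l₁ t + l₂ r) ≠ 0`). -/
theorem pln_lim {o : Fin 6 → Om k} {e : Fin 6 → Fin 6 → k} {η : Fin 4 → Om k}
    {a b c : Om k} (h : Pln F o e η a b c) {v : Place k (Om k)} {κ : Om k} {η' : Fin 4 → k}
    (hη : ∀ j, v.At (κ * η j) (η' j)) {m m' : Om k} {g l : Fin 3 → k} (hg : g ≠ 0) (hl : l ≠ 0)
    (hg₀ : v.At (m * tri F o o (em (Om k) (e 0))) (g 0))
    (hg₁ : v.At (m * tri F o o (em (Om k) (e 1))) (g 1))
    (hg₂ : v.At (m * tri F o o (cmb e 0 0 κ η)) (g 2))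
    (hl₀ : v.At (m' * a) (l 0)) (hl₁ : v.At (m' * b) (l 1)) (hl₂ : v.At (m' * (κ * c)) (l 2)) :
    ∃ δ : k, ∀ s t r : k, tri F (cmb e s t r η') (cmb e s t r η') (cmb e s t r η') =
      δ * r * (g 0 * s + g 1 * t + g 2 * r) * (l 0 * s + l 1 * t + l 2 * r) := by
  have hm : m ≠ 0 := by
    rintro rfl
    apply hg
    have h0 : v.At (0 : Om k) 0 := by
      have h2 := Place.at_const (v := v) (0 : k)
      rwa [map_zero] at h2
    rw [zero_mul] at hg₀ hg₁ hg₂
    funext i
    fin_cases i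
    · exact Place.At.unique hg₀ h0
    · exact Place.At.unique hg₁ h0
    · exact Place.At.unique hg₂ h0
  have hm' : m' ≠ 0 := by
    rintro rfl
    apply hl
    have h0 : v.At (0 : Om k) 0 := by
      have h2 := Place.at_const (v := v) (0 : k)
      rwa [map_zero] at h2
    rw [zero_mul] at hl₀ hl₁ hl₂
    funext i
    fin_cases i
    · exact Place.At.unique hl₀ h0
    · exact Place.At.unique hl₁ h0
    · exact Place.At.unique hl₂ h0
  -- the constant `x` in the field `Om k`
  set ι : k →+* Om k := algebraMap k (Om k) with hι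
  have hc : ∀ x : k, v.At (ι x) x := fun x => Place.at_const x
  -- the vector
  have hvec : ∀ s t r : k, ∀ i, v.At (cmb e (ι s) (ι t) (κ * ι r) η i) (cmb e s t r η' i) := by
    intro s t r i
    have e1 : cmb e (ι s) (ι t) (κ * ι r) η i =
        ι s * ι (e 0 i) + ι t * ι (e 1 i) +
          ι r * ∑ j : Fin 4, (κ * η j) * ι (e (Fin.natAdd 2 j) i) := by
      simp only [cmb, em, Pi.add_apply, Pi.smul_apply, smul_eq_mul, Finset.sum_apply,
        Finset.mul_sum]
      congr 1
      refine Finset.sum_congr rfl fun j _ => ?_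
      ring
    have e2 : cmb e s t r η' i =
        s * e 0 i + t * e 1 i + r * ∑ j : Fin 4, η' j * e (Fin.natAdd 2 j) i := by
      simp only [cmb, em, Pi.add_apply, Pi.smul_apply, smul_eq_mul, Finset.sum_apply,
        Algebra.algebraMap_self, RingHom.id_apply]
    rw [e1, e2]
    exact (((hc s).mul (hc _)).add ((hc t).mul (hc _))).add ((hc r).mul
      (Place.At.sum fun j _ => (hη j).mul (hc _)))
  -- the linear form
  have hlin : ∀ s t r : k, tri F o o (cmb e (ι s) (ι t) (κ * ι r) η) =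
      ι s * tri F o o (em (Om k) (e 0)) + ι t * tri F o o (em (Om k) (e 1)) +
        ι r * tri F o o (cmb e 0 0 κ η) := by
    intro s t r
    have e1 : cmb e (ι s) (ι t) (κ * ι r) η = ι s • em (Om k) (e 0) + ι t • em (Om k) (e 1) +
        ι r • cmb e 0 0 κ η := by
      simp only [cmb, zero_smul, zero_add, smul_smul]
      rw [mul_comm κ (ι r)]
    rw [e1, tri_add3, tri_add3, tri_smul3, tri_smul3, tri_smul3]
  have key : ∀ s t r : k, tri F (cmb e (ι s) (ι t) (κ * ι r) η) (cmb e (ι s) (ι t) (κ * ι r) η)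
      (cmb e (ι s) (ι t) (κ * ι r) η) = κ / (m * m') * (ι r *
      (ι s * (m * tri F o o (em (Om k) (e 0))) + ι t * (m * tri F o o (em (Om k) (e 1))) +
        ι r * (m * tri F o o (cmb e 0 0 κ η))) *
      (m' * a * ι s + m' * b * ι t + m' * (κ * c) * ι r)) := by
    intro s t r
    rw [h (ι s) (ι t) (κ * ι r), hlin s t r]
    field_simp
  have hL : ∀ s t r : k, v.At (tri F (cmb e (ι s) (ι t) (κ * ι r) η)
      (cmb e (ι s) (ι t) (κ * ι r) η) (cmb e (ι s) (ι t) (κ * ι r) η))
      (tri F (cmb e s t r η') (cmb e s t r η') (cmb e s t r η')) :=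
    fun s t r => tri_at F (hvec s t r) (hvec s t r) (hvec s t r)
  have hR : ∀ s t r : k, v.At (ι r *
      (ι s * (m * tri F o o (em (Om k) (e 0))) + ι t * (m * tri F o o (em (Om k) (e 1))) +
        ι r * (m * tri F o o (cmb e 0 0 κ η))) *
      (m' * a * ι s + m' * b * ι t + m' * (κ * c) * ι r))
      (r * (s * g 0 + t * g 1 + r * g 2) * (l 0 * s + l 1 * t + l 2 * r)) := by
    intro s t r
    exact ((hc r).mul ((((hc s).mul hg₀).add ((hc t).mul hg₁)).add ((hc r).mul hg₂))).mul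
      (((hl₀.mul (hc s)).add (hl₁.mul (hc t))).add (hl₂.mul (hc r)))
  obtain ⟨s₀, t₀, r₀, h1, h2, h3⟩ := exists_pt hg hl
  have h4 : r₀ * (s₀ * g 0 + t₀ * g 1 + r₀ * g 2) * (l 0 * s₀ + l 1 * t₀ + l 2 * r₀) ≠ 0 := by
    refine mul_ne_zero (mul_ne_zero h1 ?_) h3
    rwa [mul_comm s₀, mul_comm t₀, mul_comm r₀]
  have h5 := ne_of_at (hR s₀ t₀ r₀) h4
  have h6 := (hL s₀ t₀ r₀).div (hR s₀ t₀ r₀) h4
  rw [key s₀ t₀ r₀, mul_div_cancel_right₀ _ h5] at h6
  refine ⟨tri F (cmb e s₀ t₀ r₀ η') (cmb e s₀ t₀ r₀ η') (cmb e s₀ t₀ r₀ η') /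
      (r₀ * (s₀ * g 0 + t₀ * g 1 + r₀ * g 2) * (l 0 * s₀ + l 1 * t₀ + l 2 * r₀)),
      fun s t r => ?_⟩
  have h7 := h6.mul (hR s t r)
  rw [← key s t r] at h7
  rw [Place.At.unique (hL s t r) h7]
  ring

end Pool.Agent.CUB
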