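import Pool.Agent.CUB.TriA

/-!
# Lines: bases, values at places
-/

set_option autoImplicit false

noncomputable section

namespace Pool.Agent.CUB

open Pool.Agent.ZCyc Pool.Agent.Dess Pool.Agent.GT
open scoped Classical

variable {k : Type} [Field k] [CharZero k] {K : Type} [Field K] [Algebra k K]
  {F : MvPolynomial (Fin 6) k}

/-- two vectors are independent iff a minor is not zero -/
private theorem li_iff {L : Type} [Field L] {ι : Type} {a b : ι → L} :
    LinearIndependent L ![a, b] ↔ ∃ i j, a i * b j - a j * b i ≠ 0 := by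
  rw [LinearIndependent.pair_iff]
  constructor
  · intro h
    by_contra hcon
    push Not at hcon
    have ha : a ≠ 0 := by
      rintro rfl
      have h1 := h 1 0 (by rw [smul_zero, zero_smul, add_zero])
      exact one_ne_zero h1.1
    obtain ⟨i, hi⟩ : ∃ i, a i ≠ 0 := by
      by_contra h2
      push Not at h2
      exact ha (funext h2)
    have h1 := h (b i) (-(a i)) (by
      funext j
      have h2 := hcon i j
      simp only [Pi.add_apply, Pi.smul_apply, smul_eq_mul, Pi.zero_apply]
      linear_combination -h2)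
    exact hi (neg_eq_zero.1 h1.2)
  · rintro ⟨i, j, hij⟩ s t hst
    have hi := congrFun hst i
    have hj := congrFun hst j
    simp only [Pi.add_apply, Pi.smul_apply, smul_eq_mul, Pi.zero_apply] at hi hj
    have h1 : s * (a i * b j - a j * b i) = 0 := by linear_combination b j * hi - b i * hj
    have h2 : t * (a i * b j - a j * b i) = 0 := by linear_combination a i * hj - a j * hi
    exact ⟨(mul_eq_zero.1 h1).resolve_right hij, (mul_eq_zero.1 h2).resolve_right hij⟩

private theorem finrank_pair {L : Type} [Field L] {ι : Type} {a b : ι → L}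
    (h : LinearIndependent L ![a, b]) :
    Module.finrank L (Submodule.span L ({a, b} : Set (ι → L))) = 2 := by
  have h1 := finrank_span_eq_card h
  rw [Matrix.range_cons, Matrix.range_cons, Matrix.range_empty, Set.union_empty,
    Set.singleton_union] at h1
  rw [h1, Fintype.card_fin]

/-- a line is spanned by two independent vectors in it -/
private theorem eq_span {x : Ln F K} {a b : Fin 6 → K} (h : LinearIndependent K ![a, b])
    (ha : a ∈ x.W) (hb : b ∈ x.W) : x.W = Submodule.span K {a, b} := by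
  refine (Submodule.eq_of_le_of_finrank_eq ?_ ?_).symm
  · rw [Submodule.span_le]
    rintro c (rfl | rfl)
    · exact ha
    · exact hb
  · rw [finrank_pair h, x.two]

/-- lines have bases -/
theorem exists_basis (x : Ln F K) : ∃ a b : Fin 6 → K, LinearIndependent K ![a, b] ∧
    x.W = Submodule.span K {a, b} := by
  let e := Module.finBasisOfFinrankEq K x.W x.two
  have h : LinearIndependent K ![(e 0 : Fin 6 → K), (e 1 : Fin 6 → K)] := by
    have h1 := e.linearIndependent.map' x.W.subtype (Submodule.ker_subtype _)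
    have h2 : ![(e 0 : Fin 6 → K), (e 1 : Fin 6 → K)] = x.W.subtype ∘ e := by
      funext i
      fin_cases i <;> rfl
    rw [h2]
    exact h1
  exact ⟨e 0, e 1, h, eq_span h (e 0).2 (e 1).2⟩

private theorem tri_cube (F : MvPolynomial (Fin 6) k) (s t : K) (a b : Fin 6 → K) :
    tri F (s • a + t • b) (s • a + t • b) (s • a + t • b) = s ^ 3 * tri F a a a +
      3 * s ^ 2 * t * tri F a a b + 3 * s * t ^ 2 * tri F a b b + t ^ 3 * tri F b b b := by
  simp only [tri_add1, tri_add2, tri_add3, tri_smul1, tri_smul2, tri_smul3]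
  have h1 : tri F a b a = tri F a a b := tri_swap23 F a b a
  have h2 : tri F b a a = tri F a a b := (tri_swap12 F b a a).trans h1
  have h3 : tri F b a b = tri F a b b := tri_swap12 F b a b
  have h4 : tri F b b a = tri F a b b := (tri_swap23 F b b a).trans h3
  rw [h1, h2, h3, h4]
  ring

/-- the trilinear form vanishes on a line (polarisation) -/
theorem Ln.tri_zero (hF : Smooth F) (x : Ln F K) {a b c : Fin 6 → K} (ha : a ∈ x.W) (hb : b ∈ x.W)
    (hc : c ∈ x.W) : tri F a b c = 0 := by
  have : CharZero K := charZero_of_injective_algebraMap (algebraMap k K).injective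
  have h0 : ∀ a ∈ x.W, tri F a a a = 0 := fun a ha => by
    rw [tri_self hF.hom]
    exact x.on a ha
  have h1 : ∀ a ∈ x.W, ∀ b ∈ x.W, tri F a a b = 0 := by
    intro a ha b hb
    have e1 := tri_cube F 1 1 a b
    have e2 := tri_cube F 1 (-1) a b
    rw [h0 _ (x.W.add_mem (x.W.smul_mem _ ha) (x.W.smul_mem _ hb)), h0 a ha, h0 b hb] at e1 e2
    have e3 : (6 : K) * tri F a a b = 0 := by linear_combination e2 - e1
    exact (mul_eq_zero.1 e3).resolve_left (by norm_num)
  have h2 := h1 (a + b) (x.W.add_mem ha hb) c hc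
  rw [tri_add1, tri_add2, tri_add2, h1 a ha c hc, h1 b hb c hc, tri_swap12 F b a c] at h2
  have h3 : (2 : K) * tri F a b c = 0 := by linear_combination h2
  exact (mul_eq_zero.1 h3).resolve_left (by norm_num)

/-- construction of lines -/
theorem exists_ln (hF : Smooth F) {a b : Fin 6 → K} (h : LinearIndependent K ![a, b])
    (h₀ : tri F a a a = 0) (h₁ : tri F a a b = 0) (h₂ : tri F a b b = 0) (h₃ : tri F b b b = 0) :
    ∃ x : Ln F K, x.W = Submodule.span K {a, b} := by
  refine ⟨⟨Submodule.span K {a, b}, finrank_pair h, fun x hx => ?_⟩, rfl⟩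
  obtain ⟨s, t, rfl⟩ := Submodule.mem_span_pair.1 hx
  rw [← tri_self hF.hom, tri_cube, h₀, h₁, h₂, h₃]
  ring

theorem Ln.eq_of_le {x y : Ln F K} (h : x.W ≤ y.W) : x = y :=
  Ln.ext (Submodule.eq_of_le_of_finrank_eq h (by rw [x.two, y.two]))

private theorem at_ne {v : Place k K} {f : K} {c : k} (h : v.At f c) (hc : c ≠ 0) : f ≠ 0 := by
  rintro rfl
  have h1 := Place.at_const (v := v) (0 : k)
  rw [map_zero] at h1
  exact hc (h.unique h1)

private theorem at_zero {v : Place k K} {c : k} (h : v.At 0 c) : c = 0 := by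
  have h1 := Place.at_const (v := v) (0 : k)
  rw [map_zero] at h1
  exact h.unique h1

theorem val_span {v : Place k K} {x : Ln F K} {y : Ln F k} {a b : Fin 6 → K} {a' b' : Fin 6 → k}
    (hx : x.W = Submodule.span K {a, b}) (hy : y.W = Submodule.span k {a', b'})
    (ha : ∀ i, v.At (a i) (a' i)) (hb : ∀ i, v.At (b i) (b' i))
    (h : LinearIndependent k ![a', b']) : IsVal v x y := by
  intro c hc c' hc'
  rw [hx] at hc
  obtain ⟨s, t, rfl⟩ := Submodule.mem_span_pair.1 hc
  obtain ⟨i, j, hij⟩ := li_iff.1 h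
  have hδ : v.At (a i * b j - a j * b i) (a' i * b' j - a' j * b' i) :=
    ((ha i).mul (hb j)).sub ((ha j).mul (hb i))
  have hδ0 := at_ne hδ hij
  have hci := hc' i
  have hcj := hc' j
  have hs : v.At s ((c' i * b' j - c' j * b' i) / (a' i * b' j - a' j * b' i)) := by
    have h1 := ((hci.mul (hb j)).sub (hcj.mul (hb i))).div hδ hij
    have h2 : ((s • a + t • b) i * b j - (s • a + t • b) j * b i) /
        (a i * b j - a j * b i) = s := by
      rw [div_eq_iff hδ0]
      simp only [Pi.add_apply, Pi.smul_apply, smul_eq_mul]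
      ring
    rwa [h2] at h1
  have ht : v.At t ((a' i * c' j - a' j * c' i) / (a' i * b' j - a' j * b' i)) := by
    have h1 := (((ha i).mul hcj).sub ((ha j).mul hci)).div hδ hij
    have h2 : (a i * (s • a + t • b) j - a j * (s • a + t • b) i) /
        (a i * b j - a j * b i) = t := by
      rw [div_eq_iff hδ0]
      simp only [Pi.add_apply, Pi.smul_apply, smul_eq_mul]
      ring
    rwa [h2] at h1
  rw [hy, Submodule.mem_span_pair]
  exact ⟨(c' i * b' j - c' j * b' i) / (a' i * b' j - a' j * b' i),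
    (a' i * c' j - a' j * c' i) / (a' i * b' j - a' j * b' i),
    funext fun l => ((hs.mul (ha l)).add (ht.mul (hb l))).unique (hc' l)⟩

/-- A line has a basis with linearly independent values: scale a vector `a` of the line such that
it has a value which is not zero (`GT.exists_scale`), say `a i = 1`, take a second vector `b` with
`b i = 0` and scale it. -/
theorem exists_adapted [HasRes k K] (v : Place k K) (x : Ln F K) :
    ∃ (a b : Fin 6 → K) (a' b' : Fin 6 → k), LinearIndependent K ![a, b] ∧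
      x.W = Submodule.span K {a, b} ∧ (∀ i, v.At (a i) (a' i)) ∧ (∀ i, v.At (b i) (b' i)) ∧
      LinearIndependent k ![a', b'] := by
  obtain ⟨a₀, b₀, h0, hW⟩ := exists_basis x
  have ha₀ : a₀ ∈ x.W := by
    rw [hW]
    exact Submodule.subset_span (by simp)
  have hb₀ : b₀ ∈ x.W := by
    rw [hW]
    exact Submodule.subset_span (by simp)
  rw [LinearIndependent.pair_iff] at h0
  have ha0 : a₀ ≠ 0 := by
    rintro rfl
    have h1 := h0 1 0 (by rw [smul_zero, zero_smul, add_zero])
    exact one_ne_zero h1.1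
  obtain ⟨l, y, hl, hy, hly⟩ := exists_scale v a₀ ha0
  obtain ⟨i, hi⟩ : ∃ i, y i ≠ 0 := by
    by_contra h2
    push Not at h2
    exact hy (funext h2)
  have hli := at_ne (hly i) hi
  set a : Fin 6 → K := fun j => l * a₀ j / (l * a₀ i) with ha_def
  have haW : a ∈ x.W := by
    have h1 : a = (l / (l * a₀ i)) • a₀ := by
      funext j
      simp only [ha_def, Pi.smul_apply, smul_eq_mul]
      ring
    rw [h1]
    exact x.W.smul_mem _ ha₀
  have hai : a i = 1 := div_self hli
  have haat : ∀ j, v.At (a j) (y j / y i) := fun j => (hly j).div (hly i) hi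
  set b₁ : Fin 6 → K := b₀ - b₀ i • a with hb₁_def
  have hb₁W : b₁ ∈ x.W := x.W.sub_mem hb₀ (x.W.smul_mem _ haW)
  have hb₁i : b₁ i = 0 := by
    simp only [hb₁_def, Pi.sub_apply, Pi.smul_apply, smul_eq_mul, hai, mul_one, sub_self]
  have hb₁0 : b₁ ≠ 0 := by
    intro h1
    have h2 := h0 (-(b₀ i * (l / (l * a₀ i)))) 1 (by
      rw [← h1]
      funext j
      simp only [hb₁_def, ha_def, Pi.add_apply, Pi.sub_apply, Pi.smul_apply, smul_eq_mul]
      ring)
    exact one_ne_zero h2.2
  obtain ⟨l₂, y₂, hl₂, hy₂, hly₂⟩ := exists_scale v b₁ hb₁0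
  have hy₂i : y₂ i = 0 := by
    have h1 := hly₂ i
    rw [hb₁i, mul_zero] at h1
    exact at_zero h1
  obtain ⟨j, hj⟩ : ∃ j, y₂ j ≠ 0 := by
    by_contra h2
    push Not at h2
    exact hy₂ (funext h2)
  have hj' := at_ne (hly₂ j) hj
  have hli1 : LinearIndependent K ![a, fun j => l₂ * b₁ j] := by
    refine li_iff.2 ⟨i, j, ?_⟩
    simp only [hai, hb₁i]
    rw [one_mul, mul_zero, mul_zero, sub_zero]
    exact hj'
  have hbW : (fun j => l₂ * b₁ j) ∈ x.W := x.W.smul_mem l₂ hb₁W
  refine ⟨a, fun j => l₂ * b₁ j, fun j => y j / y i, y₂, hli1, eq_span hli1 haW hbW, haat, hly₂,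
    li_iff.2 ⟨i, j, ?_⟩⟩
  rw [hy₂i, div_self hi, one_mul, mul_zero, sub_zero]
  exact hj

theorem exists_val [HasRes k K] (hF : Smooth F) (v : Place k K) (x : Ln F K) :
    ∃ y : Ln F k, IsVal v x y := by
  obtain ⟨a, b, a', b', h, hW, ha, hb, h'⟩ := exists_adapted v x
  have haW : a ∈ x.W := by
    rw [hW]
    exact Submodule.subset_span (by simp)
  have hbW : b ∈ x.W := by
    rw [hW]
    exact Submodule.subset_span (by simp)
  have hz : ∀ {p q r : Fin 6 → K} {p' q' r' : Fin 6 → k}, p ∈ x.W → q ∈ x.W → r ∈ x.W →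
      (∀ i, v.At (p i) (p' i)) → (∀ i, v.At (q i) (q' i)) → (∀ i, v.At (r i) (r' i)) →
      tri F p' q' r' = 0 := by
    intro p q r p' q' r' hp hq hr hp' hq' hr'
    have h1 := tri_at F hp' hq' hr'
    rw [x.tri_zero hF hp hq hr] at h1
    exact at_zero h1
  obtain ⟨y, hy⟩ := exists_ln hF h' (hz haW haW haW ha ha ha) (hz haW haW hbW ha ha hb)
    (hz haW hbW hbW ha hb hb) (hz hbW hbW hbW hb hb hb)
  exact ⟨y, val_span hW hy ha hb h'⟩

theorem val_unique [HasRes k K] {v : Place k K} {x : Ln F K} {y y' : Ln F k} (h : IsVal v x y)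
    (h' : IsVal v x y') : y = y' := by
  obtain ⟨a, b, a', b', hi, hW, ha, hb, hi'⟩ := exists_adapted v x
  have haW : a ∈ x.W := by
    rw [hW]
    exact Submodule.subset_span (by simp)
  have hbW : b ∈ x.W := by
    rw [hW]
    exact Submodule.subset_span (by simp)
  apply Ln.ext
  rw [eq_span hi' (h a haW a' ha) (h b hbW b' hb), eq_span hi' (h' a haW a' ha) (h' b hbW b' hb)]

/-- the line `y` as a line over `K` -/
theorem exists_base (hF : Smooth F) (K : Type) [Field K] [Algebra k K] (y : Ln F k) :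
    ∃ x : Ln F K, (∀ a ∈ y.W, em K a ∈ x.W) ∧ ∀ v : Place k K, IsVal v x y := by
  obtain ⟨a, b, h, hW⟩ := exists_basis y
  have haW : a ∈ y.W := by
    rw [hW]
    exact Submodule.subset_span (by simp)
  have hbW : b ∈ y.W := by
    rw [hW]
    exact Submodule.subset_span (by simp)
  obtain ⟨i, j, hij⟩ := li_iff.1 h
  have hli : LinearIndependent K ![em K a, em K b] := by
    refine li_iff.2 ⟨i, j, ?_⟩
    have h1 : em K a i * em K b j - em K a j * em K b i =
        algebraMap k K (a i * b j - a j * b i) := by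
      simp only [em, map_sub, map_mul]
    rw [h1]
    exact (map_ne_zero_iff _ (algebraMap k K).injective).2 hij
  have hz : ∀ {p q r : Fin 6 → k}, p ∈ y.W → q ∈ y.W → r ∈ y.W →
      tri F (em K p) (em K q) (em K r) = 0 := by
    intro p q r hp hq hr
    rw [tri_em, y.tri_zero hF hp hq hr, map_zero]
  obtain ⟨x, hx⟩ := exists_ln hF hli (hz haW haW haW) (hz haW haW hbW) (hz haW hbW hbW)
    (hz hbW hbW hbW)
  refine ⟨x, fun c hc => ?_, fun v => val_span hx hW (fun i => Place.at_const _)
    (fun i => Place.at_const _) h⟩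
  rw [hW] at hc
  obtain ⟨s, t, rfl⟩ := Submodule.mem_span_pair.1 hc
  rw [hx, Submodule.mem_span_pair]
  refine ⟨algebraMap k K s, algebraMap k K t, ?_⟩
  funext l
  simp only [em, Pi.add_apply, Pi.smul_apply, smul_eq_mul, map_add, map_mul]

/-- conjugate lines: `φ` is a homomorphism of fields -/
theorem exists_map (hF : Smooth F) {K' : Type} [Field K'] [Algebra k K'] (φ : K →ₐ[k] K')
    (x : Ln F K) : ∃ x' : Ln F K', ∀ a : Fin 6 → K, a ∈ x.W → (fun i => φ (a i)) ∈ x'.W := by
  obtain ⟨a, b, h, hW⟩ := exists_basis x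
  have haW : a ∈ x.W := by
    rw [hW]
    exact Submodule.subset_span (by simp)
  have hbW : b ∈ x.W := by
    rw [hW]
    exact Submodule.subset_span (by simp)
  obtain ⟨i, j, hij⟩ := li_iff.1 h
  have hli : LinearIndependent K' ![fun i => φ (a i), fun i => φ (b i)] := by
    refine li_iff.2 ⟨i, j, ?_⟩
    rw [← map_mul, ← map_mul, ← map_sub]
    exact (map_ne_zero_iff _ (φ : K →+* K').injective).2 hij
  have hz : ∀ {p q r : Fin 6 → K}, p ∈ x.W → q ∈ x.W → r ∈ x.W →
      tri F (fun i => φ (p i)) (fun i => φ (q i)) (fun i => φ (r i)) = 0 := by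
    intro p q r hp hq hr
    rw [← tri_map, x.tri_zero hF hp hq hr, map_zero]
  obtain ⟨x', hx'⟩ := exists_ln hF hli (hz haW haW haW) (hz haW haW hbW) (hz haW hbW hbW)
    (hz hbW hbW hbW)
  refine ⟨x', fun c hc => ?_⟩
  rw [hW] at hc
  obtain ⟨s, t, rfl⟩ := Submodule.mem_span_pair.1 hc
  rw [hx', Submodule.mem_span_pair]
  refine ⟨φ s, φ t, ?_⟩
  funext l
  simp only [Pi.add_apply, Pi.smul_apply, smul_eq_mul, map_add, map_mul]

end Pool.Agent.CUB
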