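import Pool.Agent.CUB.GeoB
import Pool.Agent.CUB.LnA

/-!
# The lines of a plane section
-/

set_option autoImplicit false

noncomputable section

namespace Pool.Agent.CUB

open Pool.Agent.ZCyc Pool.Agent.Dess Pool.Agent.GT
open Pool.Agent.VFP (Om tt)
open scoped Classical

variable {k : Type} [Field k] [IsAlgClosed k] [CharZero k] {F : MvPolynomial (Fin 6) k}

omit [IsAlgClosed k] [CharZero k] in
private theorem em_self (x : Fin 6 → k) : em k x = x := rfl

/-- the parametrisation of the plane -/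
private def phi (e : Fin 6 → Fin 6 → k) (η : Fin 4 → k) : (Fin 3 → k) →ₗ[k] (Fin 6 → k) where
  toFun a := cmb e (a 0) (a 1) (a 2) η
  map_add' a b := by
    simp only [cmb, Pi.add_apply, add_smul]
    abel
  map_smul' c a := by
    simp only [cmb, Pi.smul_apply, smul_eq_mul, mul_smul, RingHom.id_apply, smul_add]

omit [IsAlgClosed k] [CharZero k] in
private theorem phi_apply (e : Fin 6 → Fin 6 → k) (η : Fin 4 → k) (a : Fin 3 → k) :
    phi e η a = cmb e (a 0) (a 1) (a 2) η := rfl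

omit [IsAlgClosed k] [CharZero k] in
private theorem cmb_eq (e : Fin 6 → Fin 6 → k) (η : Fin 4 → k) (s t r : k) :
    cmb e s t r η = ∑ i : Fin 6, (![s, t, r * η 0, r * η 1, r * η 2, r * η 3] i) • e i := by
  have h0 : Fin.natAdd 2 (0 : Fin 4) = (2 : Fin 6) := rfl
  have h1 : Fin.natAdd 2 (1 : Fin 4) = (3 : Fin 6) := rfl
  have h2 : Fin.natAdd 2 (2 : Fin 4) = (4 : Fin 6) := rfl
  have h3 : Fin.natAdd 2 (3 : Fin 4) = (5 : Fin 6) := rfl
  rw [cmb, Fin.sum_univ_four, Fin.sum_univ_six, h0, h1, h2, h3]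
  simp only [em_self, smul_add, smul_smul]
  change _ = s • e 0 + t • e 1 + (r * η 0) • e 2 + (r * η 1) • e 3 + (r * η 2) • e 4 +
    (r * η 3) • e 5
  abel

omit [IsAlgClosed k] [CharZero k] in
private theorem phi_inj {e : Fin 6 → Fin 6 → k} (he : LinearIndependent k e) {η : Fin 4 → k}
    (hη : η ≠ 0) : Function.Injective (phi e η) := by
  rw [← LinearMap.ker_eq_bot, LinearMap.ker_eq_bot']
  intro a ha
  rw [phi_apply, cmb_eq] at ha
  have h1 := Fintype.linearIndependent_iff.1 he _ ha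
  obtain ⟨j, hj⟩ : ∃ j, η j ≠ 0 := by
    by_contra h
    push Not at h
    exact hη (funext h)
  have h2 : a 2 * η j = 0 := by
    have h3 := h1 2
    have h4 := h1 3
    have h5 := h1 4
    have h6 := h1 5
    fin_cases j
    · exact h3
    · exact h4
    · exact h5
    · exact h6
  funext i
  fin_cases i
  · exact h1 0
  · exact h1 1
  · exact (mul_eq_zero.1 h2).resolve_right hj

omit [IsAlgClosed k] [CharZero k] in
/-- the linear form on the plane with the given coefficients, a linear form on the whole space -/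
private theorem exists_form {e : Fin 6 → Fin 6 → k} (he : LinearIndependent k e) {η : Fin 4 → k}
    (hη : η ≠ 0) : ∃ Ψ : (Fin 3 → k) → (Fin 6 → k) →ₗ[k] k, ∀ c a : Fin 3 → k,
      Ψ c (phi e η a) = c 0 * a 0 + c 1 * a 1 + c 2 * a 2 := by
  obtain ⟨G, hG⟩ := LinearMap.exists_leftInverse_of_injective (phi e η)
    (LinearMap.ker_eq_bot.2 (phi_inj he hη))
  have hG' : ∀ a, G (phi e η a) = a := fun a => LinearMap.congr_fun hG a
  refine ⟨fun c => (c 0 • LinearMap.proj 0 + c 1 • LinearMap.proj 1 + c 2 • LinearMap.proj 2) ∘ₗ G,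
    fun c a => ?_⟩
  simp only [LinearMap.comp_apply, hG', LinearMap.add_apply, LinearMap.smul_apply,
    LinearMap.proj_apply, smul_eq_mul]

omit [IsAlgClosed k] [CharZero k] in
/-- the line in the plane with the equation with the coefficients `c` -/
private theorem finrank_line {e : Fin 6 → Fin 6 → k} (he : LinearIndependent k e) {η : Fin 4 → k}
    (hη : η ≠ 0) {c : Fin 3 → k} (hc : c ≠ 0) :
    Module.finrank k ((LinearMap.ker (c 0 • LinearMap.proj 0 + c 1 • LinearMap.proj 1 +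
      c 2 • LinearMap.proj 2 : (Fin 3 → k) →ₗ[k] k)).map (phi e η)) = 2 := by
  rw [← (Submodule.equivMapOfInjective _ (phi_inj he hη) _).finrank_eq]
  have h0 : (c 0 • LinearMap.proj 0 + c 1 • LinearMap.proj 1 +
      c 2 • LinearMap.proj 2 : (Fin 3 → k) →ₗ[k] k) ≠ 0 := by
    intro h
    apply hc
    funext i
    have h1 := LinearMap.congr_fun h (Pi.single i 1)
    fin_cases i <;> simpa using h1
  have h1 := Module.Dual.finrank_ker_add_one_of_ne_zero h0
  rw [Module.finrank_fin_fun] at h1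
  omega

omit [IsAlgClosed k] in
private theorem exists_sec (hF : Smooth F) {e : Fin 6 → Fin 6 → k} (he : Frm F e) {η : Fin 4 → k}
    (hη : η ≠ 0) {c : Fin 3 → k} (hc : c ≠ 0)
    (h : ∀ a : Fin 3 → k, c 0 * a 0 + c 1 * a 1 + c 2 * a 2 = 0 →
      tri F (phi e η a) (phi e η a) (phi e η a) = 0) :
    ∃ m : Ln F k, ∀ w, w ∈ m.W ↔ ∃ a : Fin 3 → k, w = phi e η a ∧
      c 0 * a 0 + c 1 * a 1 + c 2 * a 2 = 0 := by
  refine ⟨⟨(LinearMap.ker (c 0 • LinearMap.proj 0 + c 1 • LinearMap.proj 1 +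
      c 2 • LinearMap.proj 2 : (Fin 3 → k) →ₗ[k] k)).map (phi e η),
      finrank_line he.li hη hc, ?_⟩, fun w => ?_⟩
  · rintro _ ⟨a, ha, rfl⟩
    rw [← tri_self hF.hom]
    exact h a (by simpa using ha)
  · constructor
    · rintro ⟨a, ha, rfl⟩
      exact ⟨a, rfl, by simpa using ha⟩
    · rintro ⟨a, rfl, ha⟩
      exact ⟨a, by simpa using ha, rfl⟩

/-- A plane section over `k` with a linear factor `g`, which is contained in the tangent
hyperplane at `z`, and another linear factor `l`. The conclusion is the trichotomy for the constant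
line `⟨e₀, e₁⟩`: the plane is contained in the cubic fourfold, or there is a plane section
consisting of the three lines `r = 0`, `g = 0`, `l = 0`. -/
theorem pln_lines (hF : Smooth F) {e : Fin 6 → Fin 6 → k} (he : Frm F e) {η : Fin 4 → k}
    (hη : η ≠ 0) {g l : Fin 3 → k} (hg : g ≠ 0) (hl : l ≠ 0) {δ : k}
    (h : ∀ s t r : k, tri F (cmb e s t r η) (cmb e s t r η) (cmb e s t r η) =
      δ * r * (g 0 * s + g 1 * t + g 2 * r) * (l 0 * s + l 1 * t + l 2 * r)) :
    ∃ (P : Submodule k (Fin 6 → k)) (m m' m'' : Ln F k), Module.finrank k P = 3 ∧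
      (∀ w, w ∈ P ↔ ∃ s t r : k, w = cmb e s t r η) ∧
      m.W = Submodule.span k {e 0, e 1} ∧
      (∀ w, w ∈ m'.W ↔ ∃ s t r : k, w = cmb e s t r η ∧ g 0 * s + g 1 * t + g 2 * r = 0) ∧
      (∀ w, w ∈ m''.W ↔ ∃ s t r : k, w = cmb e s t r η ∧ l 0 * s + l 1 * t + l 2 * r = 0) ∧
      ((∀ x ∈ P, MvPolynomial.aeval x F = 0) ∨ Tri ![m, m', m'']) := by
  have h' : ∀ a : Fin 3 → k, tri F (phi e η a) (phi e η a) (phi e η a) =
      δ * a 2 * (g 0 * a 0 + g 1 * a 1 + g 2 * a 2) * (l 0 * a 0 + l 1 * a 1 + l 2 * a 2) :=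
    fun a => h _ _ _
  have key : ∀ (c : Fin 3 → k) (w : Fin 6 → k), (∃ a : Fin 3 → k, w = phi e η a ∧
      c 0 * a 0 + c 1 * a 1 + c 2 * a 2 = 0) ↔
      ∃ s t r : k, w = cmb e s t r η ∧ c 0 * s + c 1 * t + c 2 * r = 0 := by
    intro c w
    constructor
    · rintro ⟨a, h1, h2⟩
      exact ⟨a 0, a 1, a 2, h1, h2⟩
    · rintro ⟨s, t, r, h1, h2⟩
      exact ⟨![s, t, r], h1, h2⟩
  obtain ⟨m', hm'⟩ := exists_sec hF he hη hg fun a ha => by
    rw [h', ha, mul_zero, zero_mul]
  obtain ⟨m'', hm''⟩ := exists_sec hF he hη hl fun a ha => by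
    rw [h', ha, mul_zero]
  obtain ⟨m, hm⟩ := exists_sec hF he hη (c := ![0, 0, 1])
    (fun h0 => one_ne_zero (congrFun h0 2)) fun a ha => by
    have h2 : a 2 = 0 := by
      have h3 : (0 : k) * a 0 + 0 * a 1 + 1 * a 2 = 0 := ha
      linear_combination h3
    rw [h', h2, mul_zero, zero_mul, zero_mul]
  have hP : ∀ w, w ∈ LinearMap.range (phi e η) ↔ ∃ s t r : k, w = cmb e s t r η := by
    intro w
    constructor
    · rintro ⟨a, rfl⟩
      exact ⟨a 0, a 1, a 2, rfl⟩
    · rintro ⟨s, t, r, rfl⟩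
      exact ⟨![s, t, r], rfl⟩
  refine ⟨LinearMap.range (phi e η), m, m', m'', ?_, hP, ?_, fun w => (hm' w).trans (key g w),
    fun w => (hm'' w).trans (key l w), ?_⟩
  · rw [LinearMap.finrank_range_of_inj (phi_inj he.li hη), Module.finrank_fin_fun]
  · ext w
    rw [hm, Submodule.mem_span_pair]
    constructor
    · rintro ⟨a, rfl, ha⟩
      have h2 : a 2 = 0 := by
        have h3 : (0 : k) * a 0 + 0 * a 1 + 1 * a 2 = 0 := ha
        linear_combination h3
      refine ⟨a 0, a 1, ?_⟩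
      rw [phi_apply, h2, cmb, zero_smul, add_zero, em_self, em_self]
    · rintro ⟨s, t, rfl⟩
      refine ⟨![s, t, 0], ?_, ?_⟩
      · change _ = cmb e s t 0 η
        rw [cmb, zero_smul, add_zero, em_self, em_self]
      · change (0 : k) * s + 0 * t + 1 * 0 = 0
        ring
  · rcases eq_or_ne δ 0 with rfl | hδ
    · left
      rintro _ ⟨a, rfl⟩
      rw [← tri_self hF.hom, h']
      ring
    · right
      obtain ⟨Ψ, hΨ⟩ := exists_form he.li hη
      refine ⟨LinearMap.range (phi e η), ![Ψ ![0, 0, δ], Ψ g, Ψ l], ?_, ?_, ?_⟩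
      · rw [LinearMap.finrank_range_of_inj (phi_inj he.li hη), Module.finrank_fin_fun]
      · intro i x
        fin_cases i
        · change x ∈ m.W ↔ x ∈ LinearMap.range (phi e η) ∧ Ψ ![0, 0, δ] x = 0
          rw [hm]
          constructor
          · rintro ⟨a, rfl, ha⟩
            refine ⟨⟨a, rfl⟩, ?_⟩
            have h3 : (0 : k) * a 0 + 0 * a 1 + 1 * a 2 = 0 := ha
            rw [hΨ]
            change (0 : k) * a 0 + 0 * a 1 + δ * a 2 = 0
            linear_combination δ * h3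
          · rintro ⟨⟨a, rfl⟩, ha⟩
            refine ⟨a, rfl, ?_⟩
            rw [hΨ] at ha
            have h3 : (0 : k) * a 0 + 0 * a 1 + δ * a 2 = 0 := ha
            change (0 : k) * a 0 + 0 * a 1 + 1 * a 2 = 0
            refine mul_left_cancel₀ hδ ?_
            linear_combination h3
        · change x ∈ m'.W ↔ x ∈ LinearMap.range (phi e η) ∧ Ψ g x = 0
          rw [hm']
          constructor
          · rintro ⟨a, rfl, ha⟩
            exact ⟨⟨a, rfl⟩, (hΨ g a).trans ha⟩
          · rintro ⟨⟨a, rfl⟩, ha⟩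
            exact ⟨a, rfl, (hΨ g a).symm.trans ha⟩
        · change x ∈ m''.W ↔ x ∈ LinearMap.range (phi e η) ∧ Ψ l x = 0
          rw [hm'']
          constructor
          · rintro ⟨a, rfl, ha⟩
            exact ⟨⟨a, rfl⟩, (hΨ l a).trans ha⟩
          · rintro ⟨⟨a, rfl⟩, ha⟩
            exact ⟨a, rfl, (hΨ l a).symm.trans ha⟩
      · rintro _ ⟨a, rfl⟩
        rw [← tri_self hF.hom, h', Fin.prod_univ_three]
        change _ = Ψ ![0, 0, δ] _ * Ψ g _ * Ψ l _
        rw [hΨ, hΨ, hΨ]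
        change _ = ((0 : k) * a 0 + 0 * a 1 + δ * a 2) * _ * _
        ring

end Pool.Agent.CUB
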