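import Pool.Agent.CUB.StarB
import Pool.Agent.CUB.StarC

/-!
# Good lines through a point
-/

set_option autoImplicit false

noncomputable section

namespace Pool.Agent.CUB

open Pool.Agent.ZCyc Pool.Agent.Dess Pool.Agent.GT
open Pool.Agent.VFP (Om tt)
open scoped Classical

variable {k : Type} [Field k] [IsAlgClosed k] [CharZero k] {F : MvPolynomial (Fin 6) k}

/-- `3 [m] - [t₀] - [t₁] - [t₂]`, where the sum of the lines `t i` is a plane section -/
def gd (t : Fin 3 → Ln F k) (m : Ln F k) : Ln F k →₀ ℚ :=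
  Finsupp.single m 3 - ∑ i, Finsupp.single (t i) 1

/-- a subspace of given dimension between two subspaces -/
private theorem gd_between {k : Type} [Field k] {W T : Submodule k (Fin 6 → k)} (h : W ≤ T)
    {n : ℕ} (h1 : Module.finrank k W ≤ n) (h2 : n ≤ Module.finrank k T) :
    ∃ V : Submodule k (Fin 6 → k), W ≤ V ∧ V ≤ T ∧ Module.finrank k V = n := by
  induction n, h1 using Nat.le_induction with
  | base => exact ⟨W, le_rfl, h, rfl⟩
  | succ n hn ih =>
    obtain ⟨V, hWV, hVT, hV⟩ := ih (by omega)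
    have hne : ¬ T ≤ V := by
      intro hTV
      have := Submodule.finrank_mono hTV
      omega
    obtain ⟨w, hwT, hwV⟩ := Set.not_subset.1 hne
    have hw0 : w ≠ 0 := by
      rintro rfl
      exact hwV V.zero_mem
    refine ⟨V ⊔ Submodule.span k {w}, hWV.trans le_sup_left, sup_le hVT ?_, ?_⟩
    · rw [Submodule.span_singleton_le_iff_mem]
      exact hwT
    · have h3 := Submodule.finrank_sup_add_finrank_inf_eq V (Submodule.span k {w})
      have h4 : V ⊓ Submodule.span k {w} = ⊥ :=
        ((Submodule.disjoint_span_singleton' hw0).2 hwV).eq_bot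
      rw [h4, finrank_bot, finrank_span_singleton hw0, hV] at h3
      omega

/-- if all lines through `z` in the cone are equivalent modulo `G` then `gd t m ∈ G` for them:
`no_three`, `exists_tri`, `tri_mem` -/
theorem gd_star (hF : Smooth F) {t : Fin 3 → Ln F k} (ht : Tri t)
    {G : Submodule ℚ (Ln F k →₀ ℚ)} (hG : R1 F ≤ G) {z : Fin 6 → k} (hz : z ≠ 0)
    {V : Submodule k (Fin 6 → k)} (hV : Cne F z V)
    (h : ∀ m m' : Ln F k, z ∈ m.W → m.W ≤ V → z ∈ m'.W → m'.W ≤ V →
      Finsupp.single m (1 : ℚ) - Finsupp.single m' 1 ∈ G) {m : Ln F k} (hm : z ∈ m.W)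
    (hmV : m.W ≤ V) : gd t m ∈ G := by
  obtain ⟨x, hxV, hx⟩ := no_three hF hV.four
  have h1 : Submodule.span k (Set.range ![z, x]) ≤ V := by
    rw [Submodule.span_le]
    rintro _ ⟨i, rfl⟩
    fin_cases i
    · exact hV.mem
    · exact hxV
  have h2 : Module.finrank k (Submodule.span k (Set.range ![z, x])) ≤ 3 := by
    have := finrank_range_le_card (R := k) ![z, x]
    rw [Fintype.card_fin] at this
    exact le_trans this (by norm_num)
  obtain ⟨P, hWP, hPV, hP⟩ := gd_between h1 h2 (by rw [hV.four]; norm_num)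
  have hzP : z ∈ P := hWP (Submodule.subset_span ⟨0, rfl⟩)
  have hxP : x ∈ P := hWP (Submodule.subset_span ⟨1, rfl⟩)
  obtain ⟨t', ht', ht2⟩ := exists_tri hF hz hP hzP
    (fun a ha b hb => hV.zero a (hPV ha) b (hPV hb)) ⟨x, hxP, hx⟩
  have h3 : ∀ i, Finsupp.single m (1 : ℚ) - Finsupp.single (t' i) 1 ∈ G := fun i =>
    h m (t' i) hm hmV (ht2 i).1 ((ht2 i).2.trans hPV)
  have h4 := hG (tri_mem ht' ht)
  have h5 : gd t m = ∑ i, (Finsupp.single m (1 : ℚ) - Finsupp.single (t' i) 1) +
      ∑ i, (Finsupp.single (t' i) (1 : ℚ) - Finsupp.single (t i) 1) := by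
    have h6 : Finsupp.single m (3 : ℚ) = Finsupp.single m 1 + Finsupp.single m 1 +
        Finsupp.single m 1 := by
      rw [← Finsupp.single_add, ← Finsupp.single_add]
      norm_num
    rw [gd, h6]
    simp only [Fin.sum_univ_three]
    abel
  rw [h5]
  exact G.add_mem (G.sum_mem fun i _ => h3 i) h4

/-- the case of `cone_eqv`: `V` is any subspace of dimension four of the tangent hyperplane which
contains `m` -/
theorem gd_cone (hF : Smooth F) {t : Fin 3 → Ln F k} (ht : Tri t) {z : Fin 6 → k} (hz : z ≠ 0)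
    (hq : ∀ y, tri F z z y = 0 → tri F z y y = 0) {m : Ln F k} (hm : z ∈ m.W) :
    gd t m ∈ R1 F := by
  have h1 : m.W ≤ LinearMap.ker (trl F z z) := fun y hy => by
    rw [LinearMap.mem_ker, trl_apply]
    exact m.tri_zero hF hm hm hy
  have h2 : 4 ≤ Module.finrank k (LinearMap.ker (trl F z z)) := by
    have h3 := LinearMap.finrank_range_add_finrank_ker (trl F z z)
    have h4 : Module.finrank k (LinearMap.range (trl F z z)) ≤ 1 := by
      have := Submodule.finrank_le (LinearMap.range (trl F z z))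
      rwa [Module.finrank_self] at this
    rw [Module.finrank_fin_fun] at h3
    omega
  obtain ⟨V, hmV, hVT, hV⟩ := gd_between h1 (n := 4) (by rw [m.two]; norm_num) h2
  have hT : ∀ y ∈ V, tri F z z y = 0 := fun y hy => by
    have := hVT hy
    rwa [LinearMap.mem_ker, trl_apply] at this
  have hC : Cne F z V := by
    refine ⟨hV, hmV hm, fun x hx y hy => ?_⟩
    have e1 := hq x (hT x hx)
    have e2 := hq y (hT y hy)
    have e3 := hq (x + y) (hT _ (V.add_mem hx hy))
    rw [tri_add2, tri_add3, tri_add3, e1, e2, tri_swap23 F z y x] at e3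
    have e4 : (2 : k) * tri F z x y = 0 := by linear_combination e3
    exact (mul_eq_zero.1 e4).resolve_left two_ne_zero
  exact gd_star hF ht le_rfl hz hC (fun m₁ m₂ h₁ _ h₂ _ => cone_eqv hF hz hq h₁ h₂) hm hmV

end Pool.Agent.CUB
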