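import Pool.Agent.CUB.NotB
import Pool.Agent.CUB.FamA
import Pool.Agent.CUB.StarD

/-!
# Lines of constant points
-/

set_option autoImplicit false

noncomputable section

namespace Pool.Agent.CUB

open Pool.Agent.ZCyc Pool.Agent.Dess Pool.Agent.GT
open Pool.Agent.VFP (Om tt)
open scoped Classical

variable {k : Type} [Field k] [IsAlgClosed k] [CharZero k] {F : MvPolynomial (Fin 6) k}

/-- the line through `o` which belongs to a constant point `(x, y)` of the plane cubic -/
def CLn (o : Fin 6 → Om k) (b : Fin 3 → Fin 6 → Om k) (α B x y : k) (n : Ln F (Om k)) : Prop :=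
  y ^ 2 = x ^ 3 - 3 * α * x + B ∧
    n.W = Submodule.span (Om k) {o, pnt b (algebraMap k (Om k) x) (algebraMap k (Om k) y) 1}

/-- For two constant points, the difference of the values at two places: `n`, `n'` are the lines of the
two points, `m`, `m'` their values at `v`, and `p`, `p'` their values at `v'`. -/
def TC (F : MvPolynomial (Fin 6) k) (o : Fin 6 → Om k) (b : Fin 3 → Fin 6 → Om k) (α B : k) :
    Submodule ℚ (Ln F k →₀ ℚ) :=
  Submodule.span ℚ {z | ∃ (x y x' y' : k) (v v' : Place k (Om k)) (n n' : Ln F (Om k))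
    (m m' p p' : Ln F k), CLn o b α B x y n ∧ CLn o b α B x' y' n' ∧ IsVal v n m ∧
    IsVal v n' m' ∧ IsVal v' n p ∧ IsVal v' n' p' ∧
    z = (Finsupp.single m 1 - Finsupp.single m' 1) - (Finsupp.single p 1 - Finsupp.single p' 1)}

private theorem pnt_apply {K : Type} [Field K] (b : Fin 3 → Fin 6 → K) (x y w : K) (j : Fin 6) :
    pnt b x y w j = x * b 0 j + y * b 1 j + w * b 2 j := by
  simp [pnt]

omit [IsAlgClosed k] [CharZero k] in
private theorem wei_zero {K : Type} [Field K] [Algebra k K] {z : Fin 6 → K}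
    {W : Submodule K (Fin 6 → K)} {b' : Fin 3 → Fin 6 → K} {α B : K} (h : Wei F z W b' α B)
    {c x y w : K} (he : c • z + pnt b' x y w = 0) : c = 0 ∧ x = 0 ∧ y = 0 ∧ w = 0 := by
  have h1 := Fintype.linearIndependent_iff.1 h.li ![c, x, y, w] (by
    rw [Fin.sum_univ_four, ← he]
    simp only [pnt, Matrix.cons_val_zero, Matrix.cons_val_one, Matrix.cons_val]
    abel)
  exact ⟨h1 0, h1 1, h1 2, h1 3⟩

private theorem wei_pair {K : Type} [Field K] [Algebra k K] {z : Fin 6 → K}
    {W : Submodule K (Fin 6 → K)} {b' : Fin 3 → Fin 6 → K} {α B : K} (h : Wei F z W b' α B)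
    {x y w : K} (hxyw : x ≠ 0 ∨ y ≠ 0 ∨ w ≠ 0) : LinearIndependent K ![z, pnt b' x y w] := by
  rw [LinearIndependent.pair_iff]
  intro s t hst
  have h1 : s • z + pnt b' (t * x) (t * y) (t * w) = 0 := by
    rw [← hst]
    congr 1
    funext j
    simp only [pnt_apply, Pi.smul_apply, smul_eq_mul]
    ring
  obtain ⟨h2, h3, h4, h5⟩ := wei_zero h h1
  refine ⟨h2, ?_⟩
  rcases hxyw with hx | hx | hx
  · exact (mul_eq_zero.1 h3).resolve_right hx
  · exact (mul_eq_zero.1 h4).resolve_right hx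
  · exact (mul_eq_zero.1 h5).resolve_right hx

private theorem val_pt {o : Fin 6 → Om k} {v : Place k (Om k)} {c : Om k} {z : Fin 6 → k}
    (hv : Lm o v c z) {b : Fin 3 → Fin 6 → Om k} {σ : Fin 3 → Om k} {b' : Fin 3 → Fin 6 → k}
    (hσ : ∀ i j, v.At (b i j + σ i * o j) (b' i j)) {W : Submodule k (Fin 6 → k)} {α B : k}
    (hb' : Wei F z W b' α B) {x y w : k} (hxyw : x ≠ 0 ∨ y ≠ 0 ∨ w ≠ 0) {n : Ln F (Om k)}
    (hn : n.W = Submodule.span (Om k) {o, pnt b (algebraMap k (Om k) x) (algebraMap k (Om k) y)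
      (algebraMap k (Om k) w)}) {m : Ln F k} (hm : m.W = Submodule.span k {z, pnt b' x y w}) :
    IsVal v n m := by
  have hc : c ≠ 0 := by
    rintro rfl
    apply hv.ne
    funext i
    have h1 := hv.at' i
    rw [zero_mul] at h1
    have h2 := Place.at_const (v := v) (0 : k)
    rw [map_zero] at h2
    exact h1.unique h2
  set X := algebraMap k (Om k) x with hX
  set Y := algebraMap k (Om k) y with hY
  set Z := algebraMap k (Om k) w with hZ
  set τ : Om k := X * σ 0 + Y * σ 1 + Z * σ 2 with hτ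
  have hn' : n.W = Submodule.span (Om k) {(fun j => c * o j), (pnt b X Y Z + τ • o)} := by
    rw [hn]
    apply le_antisymm
    · rw [Submodule.span_le]
      have h1 : o ∈ Submodule.span (Om k) {(fun j => c * o j), (pnt b X Y Z + τ • o)} := by
        rw [Submodule.mem_span_pair]
        refine ⟨c⁻¹, 0, ?_⟩
        funext j
        simp only [Pi.add_apply, Pi.smul_apply, smul_eq_mul, zero_mul, add_zero]
        rw [inv_mul_cancel_left₀ hc]
      rintro a (rfl | rfl)
      · exact h1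
      · have h2 := Submodule.sub_mem _ (Submodule.subset_span (by simp) :
          pnt b X Y Z + τ • o ∈ Submodule.span (Om k) {(fun j => c * o j), (pnt b X Y Z + τ • o)})
          (Submodule.smul_mem _ τ h1)
        rwa [add_sub_cancel_right] at h2
    · rw [Submodule.span_le]
      have h1 : o ∈ Submodule.span (Om k) {o, pnt b X Y Z} := Submodule.subset_span (by simp)
      rintro a (rfl | rfl)
      · exact Submodule.smul_mem _ c h1
      · exact Submodule.add_mem _ (Submodule.subset_span (by simp)) (Submodule.smul_mem _ _ h1)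
  refine val_span hn' hm hv.at' (fun j => ?_) (wei_pair hb' hxyw)
  have h1 : (pnt b X Y Z + τ • o) j = X * (b 0 j + σ 0 * o j) + Y * (b 1 j + σ 1 * o j) +
      Z * (b 2 j + σ 2 * o j) := by
    simp only [Pi.add_apply, pnt_apply, Pi.smul_apply, smul_eq_mul, hτ]
    ring
  rw [h1, pnt_apply]
  exact (((Place.at_const x).mul (hσ 0 j)).add ((Place.at_const y).mul (hσ 1 j))).add
    ((Place.at_const w).mul (hσ 2 j))

private theorem pnt_inf {K : Type} [Field K] (b : Fin 3 → Fin 6 → K) : pnt b 0 1 0 = b 1 := by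
  funext j
  rw [pnt_apply]
  ring

/-- plane sections in the Weierstrass form -/
private theorem tri_wei (hF : Smooth F) {z : Fin 6 → k} {W : Submodule k (Fin 6 → k)}
    {b' : Fin 3 → Fin 6 → k} {α B : k} (h : Wei F z W b' α B) (u w : Fin 3 → k)
    (huw : ∀ s t : k, (∀ i, s * u i + t * w i = 0) → s = 0 ∧ t = 0) (r q μ : Fin 3 → k)
    (hμ : ∀ i, μ i ≠ 0) (hrq : ∀ i, r i ≠ 0 ∨ q i ≠ 0)
    (hprod : ∀ s t : k, (s * u 1 + t * w 1) ^ 2 * (s * u 2 + t * w 2) - (s * u 0 + t * w 0) ^ 3 +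
      3 * α * (s * u 0 + t * w 0) * (s * u 2 + t * w 2) ^ 2 - B * (s * u 2 + t * w 2) ^ 3 =
      ∏ i, (μ i * (q i * s - r i * t))) (a : Fin 3 → Ln F k)
    (ha : ∀ i, (a i).W = Submodule.span k {z, pnt b' (r i * u 0 + q i * w 0)
      (r i * u 1 + q i * w 1) (r i * u 2 + q i * w 2)}) : Tri a := by
  let f : (Fin 3 → k) →ₗ[k] (Fin 6 → k) :=
    { toFun := fun c => c 0 • z + pnt b' (c 1 * u 0 + c 2 * w 0) (c 1 * u 1 + c 2 * w 1)
        (c 1 * u 2 + c 2 * w 2)
      map_add' := by
        intro c c'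
        funext j
        simp only [Pi.add_apply, Pi.smul_apply, smul_eq_mul, pnt_apply]
        ring
      map_smul' := by
        intro c c'
        funext j
        simp only [Pi.add_apply, Pi.smul_apply, smul_eq_mul, pnt_apply, RingHom.id_apply]
        ring }
  have hf : ∀ c, f c = c 0 • z + pnt b' (c 1 * u 0 + c 2 * w 0) (c 1 * u 1 + c 2 * w 1)
      (c 1 * u 2 + c 2 * w 2) := fun c => rfl
  have hinj : Function.Injective f := by
    rw [← LinearMap.ker_eq_bot, LinearMap.ker_eq_bot']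
    intro c hc
    rw [hf] at hc
    obtain ⟨h1, h2, h3, h4⟩ := wei_zero h hc
    obtain ⟨h5, h6⟩ := huw (c 1) (c 2) (fun i => by
      fin_cases i
      · exact h2
      · exact h3
      · exact h4)
    funext i
    fin_cases i
    · exact h1
    · exact h5
    · exact h6
  obtain ⟨g, hg⟩ := LinearMap.exists_leftInverse_of_injective f (LinearMap.ker_eq_bot.2 hinj)
  have hgf : ∀ c, g (f c) = c := fun c => by
    have h1 := congrArg (fun φ : (Fin 3 → k) →ₗ[k] (Fin 3 → k) => φ c) hg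
    exact h1
  let l : Fin 3 → (Fin 6 → k) →ₗ[k] k := fun i =>
    (μ i) • ((q i) • (LinearMap.proj 1 ∘ₗ g) - (r i) • (LinearMap.proj 2 ∘ₗ g))
  have hl : ∀ i c, l i (f c) = μ i * (q i * c 1 - r i * c 2) := by
    intro i c
    simp only [l, LinearMap.smul_apply, LinearMap.sub_apply, LinearMap.comp_apply,
      LinearMap.proj_apply, hgf, smul_eq_mul]
  refine ⟨LinearMap.range f, l, ?_, ?_, ?_⟩
  · rw [LinearMap.finrank_range_of_inj hinj]
    simp
  · intro i x
    rw [ha i, Submodule.mem_span_pair]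
    constructor
    · rintro ⟨s, t, rfl⟩
      have h1 : s • z + t • pnt b' (r i * u 0 + q i * w 0) (r i * u 1 + q i * w 1)
          (r i * u 2 + q i * w 2) = f ![s, t * r i, t * q i] := by
        rw [hf]
        funext j
        simp only [Pi.add_apply, Pi.smul_apply, smul_eq_mul, pnt_apply, Matrix.cons_val_zero,
          Matrix.cons_val_one, Matrix.cons_val]
        ring
      refine ⟨⟨_, h1.symm⟩, ?_⟩
      rw [h1, hl]
      simp only [Matrix.cons_val_one, Matrix.cons_val_zero, Matrix.cons_val]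
      ring
    · rintro ⟨⟨c, rfl⟩, h1⟩
      rw [hl, mul_eq_zero] at h1
      have h2 := h1.resolve_left (hμ i)
      obtain ⟨t, ht1, ht2⟩ : ∃ t, c 1 = t * r i ∧ c 2 = t * q i := by
        rcases hrq i with hr | hq
        · refine ⟨c 1 / r i, by field_simp, ?_⟩
          field_simp
          linear_combination -h2
        · refine ⟨c 2 / q i, ?_, by field_simp⟩
          field_simp
          linear_combination h2
      refine ⟨c 0, t, ?_⟩
      rw [hf, ht1, ht2]
      funext j
      simp only [Pi.add_apply, Pi.smul_apply, smul_eq_mul, pnt_apply]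
      ring
  · rintro x ⟨c, rfl⟩
    rw [← tri_self hF.hom]
    have hmem : ∀ x y w : k, pnt b' x y w ∈ W := fun x y w =>
      W.add_mem (W.add_mem (W.smul_mem _ (h.mem 0)) (W.smul_mem _ (h.mem 1)))
        (W.smul_mem _ (h.mem 2))
    set X := pnt b' (c 1 * u 0 + c 2 * w 0) (c 1 * u 1 + c 2 * w 1)
      (c 1 * u 2 + c 2 * w 2) with hXdef
    have hXW : X ∈ W := hmem _ _ _
    have h0 : ∀ x ∈ W, ∀ y ∈ W, tri F x z y = 0 := fun x hx y hy => by
      rw [tri_swap12]
      exact h.cne.zero x hx y hy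
    have h1 : tri F (f c) (f c) (f c) = tri F X X X := by
      have hz := h.cne.mem
      have e : f c = c 0 • z + X := hf c
      have hfW : c 0 • z + X ∈ W := W.add_mem (W.smul_mem _ hz) hXW
      rw [e, tri_add1, tri_smul1, h.cne.zero _ hfW _ hfW, tri_add2, tri_smul2,
        h0 _ hXW _ hfW, tri_add3, tri_smul3, tri_swap23 F X X z, h0 _ hXW _ hXW]
      ring
    rw [h1, hXdef, h.eq, hprod]
    exact Finset.prod_congr rfl fun i _ => (hl i c).symm

/-- the flex tangent -/
private theorem tri_flex (hF : Smooth F) {z : Fin 6 → k} {W : Submodule k (Fin 6 → k)}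
    {b' : Fin 3 → Fin 6 → k} {α B : k} (h : Wei F z W b' α B) {m : Ln F k}
    (hm : m.W = Submodule.span k {z, b' 1}) : Tri fun _ => m := by
  refine tri_wei hF h ![1, 0, 0] ![0, 1, 0] ?_ (fun _ => 0) (fun _ => 1) (fun _ => -1)
    (fun _ => neg_ne_zero.2 one_ne_zero) (fun _ => Or.inr one_ne_zero) ?_ _ ?_
  · intro s t hst
    have h0 := hst 0
    have h1 := hst 1
    simp at h0 h1
    exact ⟨h0, h1⟩
  · intro s t
    rw [Fin.prod_univ_three]
    simp
    ring
  · intro i
    rw [hm, ← pnt_inf b']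
    simp

/-- the vertical plane through a point -/
private theorem tri_vert (hF : Smooth F) {z : Fin 6 → k} {W : Submodule k (Fin 6 → k)}
    {b' : Fin 3 → Fin 6 → k} {α B : k} (h : Wei F z W b' α B) {x y : k}
    (hxy : y ^ 2 = x ^ 3 - 3 * α * x + B) {m₀ m m' : Ln F k}
    (hm₀ : m₀.W = Submodule.span k {z, b' 1}) (hm : m.W = Submodule.span k {z, pnt b' x y 1})
    (hm' : m'.W = Submodule.span k {z, pnt b' x (-y) 1}) : Tri ![m₀, m, m'] := by
  refine tri_wei hF h ![x, 0, 1] ![0, 1, 0] ?_ ![0, 1, 1] ![1, y, -y] (fun _ => 1)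
    (fun _ => one_ne_zero) ?_ ?_ _ ?_
  · intro s t hst
    have h0 := hst 1
    have h1 := hst 2
    simp at h0 h1
    exact ⟨h1, h0⟩
  · intro i
    fin_cases i
    · right; simp
    · left; simp
    · left; simp
  · intro s t
    rw [Fin.prod_univ_three]
    simp
    linear_combination (s ^ 3) * hxy
  · intro i
    fin_cases i
    · simp [hm₀, ← pnt_inf b']
    · simp [hm]
    · simp [hm']

/-- the plane of the three points with vertical tangents -/
private theorem tri_horiz (hF : Smooth F) {z : Fin 6 → k} {W : Submodule k (Fin 6 → k)}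
    {b' : Fin 3 → Fin 6 → k} {α B : k} (h : Wei F z W b' α B) {e : Fin 3 → k}
    (he : ∀ s t : k, s ^ 3 - 3 * α * s * t ^ 2 + B * t ^ 3 = ∏ i, (s - e i * t))
    {m : Fin 3 → Ln F k} (hm : ∀ i, (m i).W = Submodule.span k {z, pnt b' (e i) 0 1}) : Tri m := by
  refine tri_wei hF h ![1, 0, 0] ![0, 0, 1] ?_ e (fun _ => 1) (fun _ => -1)
    (fun _ => neg_ne_zero.2 one_ne_zero) (fun _ => Or.inr one_ne_zero) ?_ _ ?_
  · intro s t hst
    have h0 := hst 0
    have h1 := hst 2
    simp at h0 h1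
    exact ⟨h0, h1⟩
  · intro s t
    have h1 := he s t
    rw [Fin.prod_univ_three] at h1 ⊢
    simp
    linear_combination -h1
  · intro i
    rw [hm]
    simp

private theorem exists_roots (α B : k) : ∃ e : Fin 3 → k,
    (∀ s t : k, s ^ 3 - 3 * α * s * t ^ 2 + B * t ^ 3 = ∏ i, (s - e i * t)) ∧
      ∀ i, (0 : k) ^ 2 = e i ^ 3 - 3 * α * e i + B := by
  obtain ⟨e₀, h₀⟩ : ∃ x : k, x ^ 3 - 3 * α * x + B = 0 := by
    obtain ⟨x, hx⟩ := IsAlgClosed.exists_root
      (Polynomial.X ^ 3 + Polynomial.C (-3 * α) * Polynomial.X + Polynomial.C B : Polynomial k)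
      (by
        have : (Polynomial.X ^ 3 + Polynomial.C (-3 * α) * Polynomial.X + Polynomial.C B :
          Polynomial k).degree = 3 := by compute_degree!
        rw [this]
        decide)
    refine ⟨x, ?_⟩
    simp [Polynomial.IsRoot] at hx
    linear_combination hx
  obtain ⟨e₁, h₁⟩ : ∃ x : k, x ^ 2 + e₀ * x + (e₀ ^ 2 - 3 * α) = 0 := by
    obtain ⟨x, hx⟩ := IsAlgClosed.exists_root
      (Polynomial.X ^ 2 + Polynomial.C e₀ * Polynomial.X + Polynomial.C (e₀ ^ 2 - 3 * α) :
        Polynomial k)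
      (by
        have : (Polynomial.X ^ 2 + Polynomial.C e₀ * Polynomial.X +
          Polynomial.C (e₀ ^ 2 - 3 * α) : Polynomial k).degree = 2 := by compute_degree!
        rw [this]
        decide)
    refine ⟨x, ?_⟩
    simp [Polynomial.IsRoot] at hx
    linear_combination hx
  have hprod : ∀ s t : k, s ^ 3 - 3 * α * s * t ^ 2 + B * t ^ 3 =
      (s - e₀ * t) * (s - e₁ * t) * (s - (-e₀ - e₁) * t) := by
    intro s t
    linear_combination (t ^ 3) * h₀ + (s * t ^ 2 - e₀ * t ^ 3) * h₁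
  refine ⟨![e₀, e₁, -e₀ - e₁], ?_, ?_⟩
  · intro s t
    rw [Fin.prod_univ_three, hprod]
    simp
  · intro i
    have h2 : ∀ x : k, (x - e₀) * (x - e₁) * (x - (-e₀ - e₁)) = 0 →
        (0 : k) ^ 2 = x ^ 3 - 3 * α * x + B := by
      intro x hx
      have h3 := hprod x 1
      simp only [mul_one, one_pow] at h3
      rw [hx] at h3
      rw [h3]
      ring
    fin_cases i
    · exact h2 e₀ (by ring)
    · exact h2 e₁ (by ring)
    · exact h2 (-e₀ - e₁) (by ring)

private theorem cln_exists (hF : Smooth F) {o : Fin 6 → Om k} {V : Submodule (Om k) (Fin 6 → Om k)}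
    {b : Fin 3 → Fin 6 → Om k} {α B : k}
    (h : Wei F o V b (algebraMap k (Om k) α) (algebraMap k (Om k) B)) {x y : k}
    (hxy : y ^ 2 = x ^ 3 - 3 * α * x + B) : ∃ n : Ln F (Om k), CLn o b α B x y n := by
  obtain ⟨n, hn, -⟩ := wei_exists hF h (x := algebraMap k (Om k) x) (y := algebraMap k (Om k) y)
    (z := 1) (Or.inr (Or.inr one_ne_zero)) (by
      have h1 := congrArg (algebraMap k (Om k)) hxy
      simp only [map_pow, map_add, map_sub, map_mul] at h1
      rw [map_ofNat] at h1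
      linear_combination h1)
  exact ⟨n, hxy, hn⟩

private theorem ln_exists (hF : Smooth F) {z : Fin 6 → k} {W : Submodule k (Fin 6 → k)}
    {b' : Fin 3 → Fin 6 → k} {α B : k} (h : Wei F z W b' α B) {x y : k}
    (hxy : y ^ 2 = x ^ 3 - 3 * α * x + B) :
    ∃ m : Ln F k, m.W = Submodule.span k {z, pnt b' x y 1} := by
  obtain ⟨n, hn, -⟩ := wei_exists hF h (x := x) (y := y) (z := 1)
    (Or.inr (Or.inr one_ne_zero)) (by linear_combination hxy)
  exact ⟨n, hn⟩

private theorem ln_inf (hF : Smooth F) {z : Fin 6 → k} {W : Submodule k (Fin 6 → k)}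
    {b' : Fin 3 → Fin 6 → k} {α B : k} (h : Wei F z W b' α B) :
    ∃ m : Ln F k, m.W = Submodule.span k {z, b' 1} := by
  obtain ⟨n, hn, -⟩ := wei_exists hF h (x := 0) (y := 1) (z := 0)
    (Or.inr (Or.inl one_ne_zero)) (by ring)
  rw [pnt_inf] at hn
  exact ⟨n, hn⟩

private theorem val_inf {o : Fin 6 → Om k} {v : Place k (Om k)} {c : Om k} {z : Fin 6 → k}
    (hv : Lm o v c z) {b : Fin 3 → Fin 6 → Om k} {σ : Fin 3 → Om k} {b' : Fin 3 → Fin 6 → k}
    (hσ : ∀ i j, v.At (b i j + σ i * o j) (b' i j)) {W : Submodule k (Fin 6 → k)} {α B : k}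
    (hb' : Wei F z W b' α B) {n : Ln F (Om k)}
    (hn : n.W = Submodule.span (Om k) {o, b 1}) {m : Ln F k}
    (hm : m.W = Submodule.span k {z, b' 1}) : IsVal v n m := by
  refine val_pt hv hσ hb' (x := 0) (y := 1) (w := 0) (Or.inr (Or.inl one_ne_zero)) ?_ ?_
  · rw [map_zero, map_one, pnt_inf]
    exact hn
  · rw [pnt_inf]
    exact hm

private theorem val_cln {o : Fin 6 → Om k} {v : Place k (Om k)} {c : Om k} {z : Fin 6 → k}
    (hv : Lm o v c z) {b : Fin 3 → Fin 6 → Om k} {σ : Fin 3 → Om k} {b' : Fin 3 → Fin 6 → k}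
    (hσ : ∀ i j, v.At (b i j + σ i * o j) (b' i j)) {W : Submodule k (Fin 6 → k)} {α B : k}
    (hb' : Wei F z W b' α B) {x y : k} {n : Ln F (Om k)} (hn : CLn o b α B x y n) {m : Ln F k}
    (hm : m.W = Submodule.span k {z, pnt b' x y 1}) : IsVal v n m := by
  refine val_pt hv hσ hb' (Or.inr (Or.inr one_ne_zero)) ?_ hm
  rw [map_one]
  exact hn.2

/-- If all plane cubics in the limits are smooth: the lines through `z` in the limit are the values of
the lines of the constant points and of the line at infinity: `lattice`, `wei_line`, `val_span`. -/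
theorem cst_lines (hF : Smooth F) {o : Fin 6 → Om k} {V : Submodule (Om k) (Fin 6 → Om k)}
    {b : Fin 3 → Fin 6 → Om k} {α B : k}
    (h : Wei F o V b (algebraMap k (Om k) α) (algebraMap k (Om k) B)) {n₀ : Ln F (Om k)}
    (hn₀ : n₀.W = Submodule.span (Om k) {o, b 1}) {v : Place k (Om k)} {c : Om k} {z : Fin 6 → k}
    (hv : Lm o v c z) (hs : SmC F z (limW v V)) {m : Ln F k} (hm : z ∈ m.W)
    (hmV : m.W ≤ limW v V) :
    IsVal v n₀ m ∨ ∃ (x y : k) (n : Ln F (Om k)), CLn o b α B x y n ∧ IsVal v n m := by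
  obtain ⟨σ, b', hσ, hb'⟩ := lattice hF h hv.ne hv.at' hs
  rcases wei_line hF hb' hm hmV with h1 | ⟨x, y, hxy, h1⟩
  · exact Or.inl (val_inf hv hσ hb' hn₀ h1)
  · obtain ⟨n, hn⟩ := cln_exists hF h hxy
    exact Or.inr ⟨x, y, n, hn, val_cln hv hσ hb' hn h1⟩

/-- The value of the line at infinity is good, if the limit is smooth: the inflectional tangent is
the plane `⟨z, b'₁, b'₀⟩`, it intersects the cubic fourfold in three times this line. -/
theorem gd_inf (hF : Smooth F) {t : Fin 3 → Ln F k} (ht : Tri t) {o : Fin 6 → Om k}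
    {V : Submodule (Om k) (Fin 6 → Om k)} {b : Fin 3 → Fin 6 → Om k} {α B : k}
    (h : Wei F o V b (algebraMap k (Om k) α) (algebraMap k (Om k) B)) {n₀ : Ln F (Om k)}
    (hn₀ : n₀.W = Submodule.span (Om k) {o, b 1}) {v : Place k (Om k)} {c : Om k} {z : Fin 6 → k}
    (hv : Lm o v c z) (hs : SmC F z (limW v V)) {m : Ln F k} (hm : IsVal v n₀ m) :
    gd t m ∈ R1 F := by
  obtain ⟨σ, b', hσ, hb'⟩ := lattice hF h hv.ne hv.at' hs
  obtain ⟨m', hm'⟩ := ln_inf hF hb'
  have h1 := val_unique hm (val_inf hv hσ hb' hn₀ hm')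
  subst h1
  have h2 := tri_mem (tri_flex hF hb' hm') ht
  have h3 : gd t m = ∑ i, (Finsupp.single m (1 : ℚ) - Finsupp.single (t i) 1) := by
    rw [gd, Finset.sum_sub_distrib, Finset.sum_const, Finset.card_univ, Fintype.card_fin,
      Finsupp.smul_single]
    norm_num
  rw [h3]
  exact h2

/-- The line at infinity in `TC`: choose constant points `e`, `-e`, and `e₁`, `e₂`, `e₃` on a line, all
affine. At every place with a smooth limit, modulo `R1` (`tri_mem`):
`[n₀] + [e] + [-e] = [t₀] + [t₁] + [t₂] = [e₁] + [e₂] + [e₃]`. So the difference of the values at two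
places of `[n_(x,y)] - [n₀]` is in `TC` modulo `R1`. -/
theorem tc_inf (hF : Smooth F) {o : Fin 6 → Om k} {V : Submodule (Om k) (Fin 6 → Om k)}
    {b : Fin 3 → Fin 6 → Om k} {α B : k}
    (h : Wei F o V b (algebraMap k (Om k) α) (algebraMap k (Om k) B)) {n₀ : Ln F (Om k)}
    (hn₀ : n₀.W = Submodule.span (Om k) {o, b 1}) {v v' : Place k (Om k)} {c c' : Om k}
    {z z' : Fin 6 → k} (hv : Lm o v c z) (hv' : Lm o v' c' z') (hs : SmC F z (limW v V))
    (hs' : SmC F z' (limW v' V)) {x y : k} {n : Ln F (Om k)} (hn : CLn o b α B x y n)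
    {m m₀ p p₀ : Ln F k} (hm : IsVal v n m) (hm₀ : IsVal v n₀ m₀) (hp : IsVal v' n p)
    (hp₀ : IsVal v' n₀ p₀) :
    (Finsupp.single m (1 : ℚ) - Finsupp.single m₀ 1) -
      (Finsupp.single p 1 - Finsupp.single p₀ 1) ∈ R1 F ⊔ TC F o b α B := by
  obtain ⟨e, he, he'⟩ := exists_roots α B
  have hy' : (-y) ^ 2 = x ^ 3 - 3 * α * x + B := by rw [neg_sq]; exact hn.1
  obtain ⟨n', hn'⟩ := cln_exists hF h hy'
  choose ne hne using fun i => cln_exists hF h (he' i)
  -- a place
  have key : ∀ {v : Place k (Om k)} {c : Om k} {z : Fin 6 → k}, Lm o v c z →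
      SmC F z (limW v V) → ∀ {m m₀ : Ln F k}, IsVal v n m → IsVal v n₀ m₀ →
      ∃ (m' : Ln F k) (me : Fin 3 → Ln F k), IsVal v n' m' ∧ (∀ i, IsVal v (ne i) (me i)) ∧
        (Finsupp.single m₀ (1 : ℚ) + Finsupp.single m 1 + Finsupp.single m' 1) -
          (Finsupp.single (me 0) 1 + Finsupp.single (me 1) 1 + Finsupp.single (me 2) 1) ∈
            R1 F := by
    intro v c z hv hs m m₀ hm hm₀
    obtain ⟨σ, b', hσ, hb'⟩ := lattice hF h hv.ne hv.at' hs
    obtain ⟨p₀, hp₀⟩ := ln_inf hF hb'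
    obtain ⟨p, hp⟩ := ln_exists hF hb' hn.1
    obtain ⟨p', hp'⟩ := ln_exists hF hb' hy'
    choose pe hpe using fun i => ln_exists hF hb' (he' i)
    have e1 := val_unique hm₀ (val_inf hv hσ hb' hn₀ hp₀)
    have e2 := val_unique hm (val_cln hv hσ hb' hn hp)
    subst e1 e2
    refine ⟨p', pe, val_cln hv hσ hb' hn' hp', fun i => val_cln hv hσ hb' (hne i) (hpe i), ?_⟩
    have h1 := tri_mem (tri_vert hF hb' hn.1 hp₀ hp hp') (tri_horiz hF hb' he hpe)
    rw [Fin.sum_univ_three] at h1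
    simp only [Matrix.cons_val_zero, Matrix.cons_val_one, Matrix.cons_val] at h1
    convert h1 using 1
    abel
  obtain ⟨m', me, hm', hme, h1⟩ := key hv hs hm hm₀
  obtain ⟨p', pe, hp', hpe, h2⟩ := key hv' hs' hp hp₀
  have t1 : (Finsupp.single m (1 : ℚ) - Finsupp.single (me 0) 1) -
      (Finsupp.single p 1 - Finsupp.single (pe 0) 1) ∈ TC F o b α B :=
    Submodule.subset_span ⟨x, y, e 0, 0, v, v', n, ne 0, m, me 0, p, pe 0, hn, hne 0, hm, hme 0,
      hp, hpe 0, rfl⟩
  have t2 : (Finsupp.single m (1 : ℚ) - Finsupp.single (me 1) 1) -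
      (Finsupp.single p 1 - Finsupp.single (pe 1) 1) ∈ TC F o b α B :=
    Submodule.subset_span ⟨x, y, e 1, 0, v, v', n, ne 1, m, me 1, p, pe 1, hn, hne 1, hm, hme 1,
      hp, hpe 1, rfl⟩
  have t3 : (Finsupp.single m' (1 : ℚ) - Finsupp.single (me 2) 1) -
      (Finsupp.single p' 1 - Finsupp.single (pe 2) 1) ∈ TC F o b α B :=
    Submodule.subset_span ⟨x, -y, e 2, 0, v, v', n', ne 2, m', me 2, p', pe 2, hn', hne 2, hm',
      hme 2, hp', hpe 2, rfl⟩
  have h3 : (Finsupp.single m (1 : ℚ) - Finsupp.single m₀ 1) -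
      (Finsupp.single p 1 - Finsupp.single p₀ 1) =
      (((Finsupp.single p₀ (1 : ℚ) + Finsupp.single p 1 + Finsupp.single p' 1) -
        (Finsupp.single (pe 0) 1 + Finsupp.single (pe 1) 1 + Finsupp.single (pe 2) 1)) -
      ((Finsupp.single m₀ (1 : ℚ) + Finsupp.single m 1 + Finsupp.single m' 1) -
        (Finsupp.single (me 0) 1 + Finsupp.single (me 1) 1 + Finsupp.single (me 2) 1))) +
      (((Finsupp.single m (1 : ℚ) - Finsupp.single (me 0) 1) -
        (Finsupp.single p 1 - Finsupp.single (pe 0) 1)) +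
      ((Finsupp.single m (1 : ℚ) - Finsupp.single (me 1) 1) -
        (Finsupp.single p 1 - Finsupp.single (pe 1) 1)) +
      ((Finsupp.single m' (1 : ℚ) - Finsupp.single (me 2) 1) -
        (Finsupp.single p' 1 - Finsupp.single (pe 2) 1))) := by
    abel
  rw [h3]
  exact Submodule.add_mem _ (Submodule.mem_sup_left (Submodule.sub_mem _ h2 h1))
    (Submodule.mem_sup_right (Submodule.add_mem _ (Submodule.add_mem _ t1 t2) t3))

end Pool.Agent.CUB
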