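import Pool.Agent.CUB.IsoB
import Pool.Agent.GT.IsoT

/-!
# Families of plane cubics with constant `j`-invariant: finite dimension
-/

set_option autoImplicit false

noncomputable section

namespace Pool.Agent.CUB

open Pool.Agent.ZCyc Pool.Agent.Dess Pool.Agent.GT
open Pool.Agent.VFP (Om tt)
open scoped Classical

variable {k : Type} [Field k] [IsAlgClosed k] [CharZero k] {F : MvPolynomial (Fin 6) k}

/-- the map from the plane cubic to the variety of lines -/
private def mpC (o : Fin 6 → Om k) (b : Fin 3 → Fin 6 → Om k) : Mp (Om k) 35 :=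
  ⟨fun n => Polynomial.C (pl o (b 2) n) + Polynomial.C (pl o (b 0) n) * Polynomial.X,
    fun n => Polynomial.C (pl o (b 1) n)⟩

omit [IsAlgClosed k] [CharZero k] in
private theorem mpC_co (o : Fin 6 → Om k) (b : Fin 3 → Fin 6 → Om k) (x y : Om k) :
    (mpC o b).co x y = pl o (pnt b x y 1) := by
  funext n
  unfold Mp.co mpC
  simp only [Polynomial.eval_add, Polynomial.eval_mul, Polynomial.eval_C, Polynomial.eval_X]
  unfold pl pnt
  simp only [Pi.add_apply, Pi.smul_apply, smul_eq_mul]
  ring

omit [IsAlgClosed k] [CharZero k] in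
private theorem isoc_ext {T T' : Type} (e : T ≃ T') {n : ℕ} (z : Fin n → (T' →₀ ℚ)) :
    Finsupp.mapDomain (fun (x : Fin n → T) j => e (x j))
      (GT.ext fun j => Finsupp.mapDomain e.symm (z j)) = ext z := by
  have v1 : ∀ (w : Fin n → (T →₀ ℚ)) (x : Fin n → T), GT.ext w x = ∏ j, w j (x j) := by
    intro w x
    unfold GT.ext
    rw [Finsupp.finsetSum_apply]
    simp only [Finsupp.single_apply]
    rw [Finset.sum_ite_eq' (Fintype.piFinset fun j => (w j).support) x
      (fun x => ∏ j, w j (x j))]
    split_ifs with h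
    · rfl
    · rw [Fintype.mem_piFinset] at h
      push Not at h
      obtain ⟨j, hj⟩ := h
      have h0 : w j (x j) = 0 := Finsupp.notMem_support_iff.1 hj
      exact (Finset.prod_eq_zero (f := fun j => w j (x j)) (Finset.mem_univ j) h0).symm
  have v2 : ∀ (w : Fin n → (T' →₀ ℚ)) (x : Fin n → T'), ext w x = ∏ j, w j (x j) := by
    intro w x
    unfold ext
    rw [Finsupp.finsetSum_apply]
    simp only [Finsupp.single_apply]
    rw [Finset.sum_ite_eq' (Fintype.piFinset fun j => (w j).support) x
      (fun x => ∏ j, w j (x j))]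
    split_ifs with h
    · rfl
    · rw [Fintype.mem_piFinset] at h
      push Not at h
      obtain ⟨j, hj⟩ := h
      have h0 : w j (x j) = 0 := Finsupp.notMem_support_iff.1 hj
      exact (Finset.prod_eq_zero (f := fun j => w j (x j)) (Finset.mem_univ j) h0).symm
  have hinj : Function.Injective (fun (x : Fin n → T) j => e (x j)) := by
    intro x y h
    funext j
    exact e.injective (congrFun h j)
  apply Finsupp.ext
  intro y
  obtain ⟨x, rfl⟩ : ∃ x : Fin n → T, y = fun j => e (x j) :=
    ⟨fun j => e.symm (y j), funext fun j => (e.apply_symm_apply _).symm⟩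
  rw [Finsupp.mapDomain_apply hinj, v1, v2]
  refine Finset.prod_congr rfl fun j _ => ?_
  rw [Finsupp.mapDomain_equiv_apply, Equiv.symm_symm]

/-- From the theorem on constant elliptic curves in `GT` (helper31): for `M.Ok α B X` with constant
`α`, `B` there is `N` with `Alt (Ext hX N) (hV (v j) (e j) - hV (v' j) (e j)) = 0`. The generators of
`TC` are `hV v (e - e') - hV v' (e - e')`, `M` as in `fam`. -/
theorem fam_cst (hF : Smooth F) {o : Fin 6 → Om k} {V : Submodule (Om k) (Fin 6 → Om k)}
    {b : Fin 3 → Fin 6 → Om k} {α B : k}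
    (h : Wei F o V b (algebraMap k (Om k) α) (algebraMap k (Om k) B)) :
    Fd F (TC F o b α B) := by
  have hli : ∀ x y z : Om k, (x ≠ 0 ∨ y ≠ 0 ∨ z ≠ 0) →
      LinearIndependent (Om k) ![o, pnt b x y z] := by
    intro x y z hxyz
    rw [LinearIndependent.pair_iff]
    intro s t hst
    have h1 := Fintype.linearIndependent_iff.1 h.li ![s, t * x, t * y, t * z] (by
      rw [Fin.sum_univ_four]
      simp only [Matrix.cons_val_zero, Matrix.cons_val_one, Matrix.cons_val]
      rw [← hst]
      unfold pnt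
      simp only [smul_add, smul_smul]
      abel)
    have e0 : s = 0 := h1 0
    have e1 : t * x = 0 := h1 1
    have e2 : t * y = 0 := h1 2
    have e3 : t * z = 0 := h1 3
    refine ⟨e0, ?_⟩
    by_contra ht
    rcases hxyz with hx | hx | hx
    · exact hx ((mul_eq_zero.1 e1).resolve_left ht)
    · exact hx ((mul_eq_zero.1 e2).resolve_left ht)
    · exact hx ((mul_eq_zero.1 e3).resolve_left ht)
  have hM : (mpC o b).Ok (algebraMap k (Om k) α) (algebraMap k (Om k) B) (PX F) := by
    refine ⟨h.disc, ?_, fun f hf x y hxy => ?_⟩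
    · have h1 := pl_ne (hli 0 1 0 (Or.inr (Or.inl one_ne_zero)))
      have h2 : ∃ n, pl o (b 1) n ≠ 0 := by
        by_contra hcon
        push Not at hcon
        apply h1
        have h3 : pnt b 0 1 0 = b 1 := by simp [pnt]
        rw [h3]
        exact funext hcon
      obtain ⟨n, hn⟩ := h2
      exact ⟨n, Or.inr (Polynomial.C_ne_zero.2 hn)⟩
    · obtain ⟨n, hn, -⟩ := wei_exists hF h (x := x) (y := y) (z := 1)
        (Or.inr (Or.inr one_ne_zero)) (by rw [hxy]; ring)
      rw [mpC_co]
      exact pl_mem hF hn f hf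
  -- values
  have hval : ∀ (v : Place k (Om k)) (x y : k) (n : Ln F (Om k)) (m : Ln F k),
      CLn o b α B x y n → IsVal v n m → ∃ l : Om k, ∀ i,
        v.At (l * (mpC o b).co (algebraMap k (Om k) x) (algebraMap k (Om k) y) i)
          (((pe hF k).symm m).1.rep i) := by
    intro v x y n m hn hv
    have h1 : GT.IsVal v ((pe hF (Om k)).symm n) ((pe hF k).symm m) := by
      rw [pe_val hF, Equiv.apply_symm_apply, Equiv.apply_symm_apply]
      exact hv
    have h2 := hli (algebraMap k (Om k) x) (algebraMap k (Om k) y) 1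
      (Or.inr (Or.inr one_ne_zero))
    have h3 : ((pe hF (Om k)).symm n).1 = Projectivization.mk (Om k) _ (pl_ne h2) := by
      rw [pe_spec hF h2, Equiv.apply_symm_apply]
      exact hn.2
    rw [mpC_co]
    exact (GT.isVal_iff (pl_ne h2) ((pe hF k).symm m).1.rep_nonzero h3
      (Projectivization.mk_rep _).symm).1 h1
  obtain ⟨N, -, hN⟩ := isoT_cyc (hom_PX hF) hM
  refine ⟨N, fun z hz => ?_⟩
  let φ : (Ln F k →₀ ℚ) →ₗ[ℚ] (Pt (PX F) k →₀ ℚ) := Finsupp.lmapDomain ℚ ℚ (pe hF k).symm
  have h1 : ∀ j, φ (z j) ∈ Submodule.span ℚ (CstGen (mpC o b) α B (PX F)) := by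
    intro j
    have h2 : TC F o b α B ≤ (Submodule.span ℚ (CstGen (mpC o b) α B (PX F))).comap φ := by
      unfold TC
      rw [Submodule.span_le]
      rintro _ ⟨x, y, x', y', v, v', n, n', m, m', p, p', hn, hn', hm, hm', hp, hp', rfl⟩
      rw [SetLike.mem_coe, Submodule.mem_comap]
      refine Submodule.subset_span ⟨v, v', x, y, x', y', (pe hF k).symm m, (pe hF k).symm m',
        (pe hF k).symm p, (pe hF k).symm p', hn.1, hn'.1, hval v x y n m hn hm,
        hval v x' y' n' m' hn' hm', hval v' x y n p hn hp, hval v' x' y' n' p' hn' hp', ?_⟩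
      simp only [φ, map_sub, Finsupp.lmapDomain_apply, Finsupp.mapDomain_single]
    exact h2 (hz j)
  have h3 := rat_fin hF (hN (fun j => φ (z j)) h1)
  have h4 : Finsupp.mapDomain (fun (x : Fin N → Pt (PX F) k) j => pe hF k (x j))
      (∑ π : Equiv.Perm (Fin N), ((Equiv.Perm.sign π : ℤˣ) : ℤ) •
        GT.ext (fun j => φ (z (π j)))) = alt z := by
    have h5 : Finsupp.mapDomain (fun (x : Fin N → Pt (PX F) k) j => pe hF k (x j))
        (∑ π : Equiv.Perm (Fin N), ((Equiv.Perm.sign π : ℤˣ) : ℤ) •
          GT.ext (fun j => φ (z (π j)))) = ∑ π : Equiv.Perm (Fin N),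
        ((Equiv.Perm.sign π : ℤˣ) : ℤ) • Finsupp.mapDomain
          (fun (x : Fin N → Pt (PX F) k) j => pe hF k (x j)) (GT.ext (fun j => φ (z (π j)))) := by
      have h6 : ∀ w, Finsupp.mapDomain (fun (x : Fin N → Pt (PX F) k) j => pe hF k (x j)) w =
          Finsupp.lmapDomain ℚ ℚ (fun (x : Fin N → Pt (PX F) k) j => pe hF k (x j)) w :=
        fun w => rfl
      simp only [h6]
      rw [map_sum]
      refine Finset.sum_congr rfl fun π _ => ?_
      rw [map_zsmul]
    rw [h5]
    unfold alt
    refine Finset.sum_congr rfl fun π _ => ?_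
    congr 1
    exact isoc_ext (pe hF k) fun j => z (π j)
  rw [← h4]
  exact h3

end Pool.Agent.CUB
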