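import Pool.Agent.CUB.WeiB
import Pool.Agent.CUB.FacB
import Pool.Agent.CUB.Cartan

/-!
# Smooth reduction determines the lattice
-/

set_option autoImplicit false

noncomputable section

namespace Pool.Agent.CUB

open Pool.Agent.ZCyc Pool.Agent.Dess Pool.Agent.GT
open Pool.Agent.VFP (Om tt)
open scoped Classical

/-! ### The diagonal entries -/

private theorem diag_mem {M : Type} [Field M] (R : ValuationSubring M) (d : Fin 3 → M)
    (t s : Fin 3 → Fin 3 → M) (h : ∀ i j, s i j = d i ^ 2 * d j * t i j)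
    (ht : ∀ i j, t i j ∈ R) (hs : ∀ i j, s i j ∈ R)
    (ht1 : ∀ i, ∃ j, R.valuation (t i j) = 1) (hs1 : ∀ i, ∃ j, R.valuation (s i j) = 1)
    (i : Fin 3) : d i ∈ R := by
  obtain ⟨a, ha⟩ := Finite.exists_max fun i => R.valuation (d i)
  obtain ⟨b, hb⟩ := Finite.exists_min fun i => R.valuation (d i)
  obtain ⟨j, hj⟩ := ht1 a
  obtain ⟨l, hl⟩ := hs1 b
  have hsv : ∀ i j, R.valuation (s i j) = R.valuation (d i) ^ 2 * R.valuation (d j) *
      R.valuation (t i j) := fun i j => by rw [h, map_mul, map_mul, map_pow]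
  have h1 : R.valuation (d a) ^ 2 * R.valuation (d b) ≤ 1 := by
    have h2 := (R.valuation_le_one_iff _).2 (hs a j)
    rw [hsv, hj, mul_one] at h2
    exact le_trans (mul_le_mul_right (hb j) _) h2
  have h2 : 1 ≤ R.valuation (d b) ^ 2 * R.valuation (d a) := by
    have h3 := (R.valuation_le_one_iff _).2 (ht b l)
    rw [hsv] at hl
    rw [← hl]
    calc R.valuation (d b) ^ 2 * R.valuation (d l) * R.valuation (t b l)
        ≤ R.valuation (d b) ^ 2 * R.valuation (d l) * 1 := mul_le_mul_right h3 _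
      _ = R.valuation (d b) ^ 2 * R.valuation (d l) := mul_one _
      _ ≤ R.valuation (d b) ^ 2 * R.valuation (d a) := mul_le_mul_right (ha l) _
  have hb0 : R.valuation (d b) ≠ 0 := by
    intro h0
    rw [h0] at h2
    simp at h2
  have ha0 : R.valuation (d a) ≠ 0 := by
    intro h0
    rw [h0] at h2
    simp at h2
  have hab : R.valuation (d a) * R.valuation (d b) ≠ 0 := mul_ne_zero ha0 hb0
  have h3 : R.valuation (d a) ≤ R.valuation (d b) := by
    have h4 := le_trans h1 h2
    have h5 : R.valuation (d a) * (R.valuation (d a) * R.valuation (d b)) ≤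
        R.valuation (d b) * (R.valuation (d a) * R.valuation (d b)) := by
      calc R.valuation (d a) * (R.valuation (d a) * R.valuation (d b))
          = R.valuation (d a) ^ 2 * R.valuation (d b) := by rw [pow_two, mul_assoc]
        _ ≤ R.valuation (d b) ^ 2 * R.valuation (d a) := h4
        _ = R.valuation (d b) * (R.valuation (d a) * R.valuation (d b)) := by
          rw [pow_two, mul_assoc, mul_comm (R.valuation (d a)) (R.valuation (d b))]
    exact (mul_le_mul_iff_left₀ (zero_lt_iff.2 hab)).1 h5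
  have h4 : R.valuation (d a) ^ 3 ≤ 1 := by
    calc R.valuation (d a) ^ 3 = R.valuation (d a) ^ 2 * R.valuation (d a) := pow_succ _ _
      _ ≤ R.valuation (d a) ^ 2 * R.valuation (d b) := mul_le_mul_right h3 _
      _ ≤ 1 := h1
  have h5 : R.valuation (d a) ≤ 1 := (pow_le_one_iff (by norm_num)).1 h4
  exact (R.valuation_le_one_iff _).1 (le_trans (ha i) h5)

private theorem mat_mem {M : Type} [Field M] {R : ValuationSubring M}
    {x y : Matrix (Fin 3) (Fin 3) M} (hx : ∀ i j, x i j ∈ R) (hy : ∀ i j, y i j ∈ R) (i j) :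
    (x * y) i j ∈ R := by
  rw [Matrix.mul_apply]
  exact sum_mem fun l _ => mul_mem (hx i l) (hy l j)

/-! ### Combinations of three vectors -/

section Cmb

variable {k : Type} [Field k] {K : Type} [Field K] [Algebra k K] (F : MvPolynomial (Fin 6) k)

private def cmb {K : Type} [Field K] (b : Fin 3 → Fin 6 → K) (x : Fin 3 → K) : Fin 6 → K :=
  ∑ i, x i • b i

private theorem cmb_apply (b : Fin 3 → Fin 6 → K) (x : Fin 3 → K) (j : Fin 6) :
    cmb b x j = ∑ i, x i * b i j := by
  simp [cmb]

private theorem cmb_add (b : Fin 3 → Fin 6 → K) (x y : Fin 3 → K) :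
    cmb b (x + y) = cmb b x + cmb b y := by
  simp [cmb, add_smul, Finset.sum_add_distrib]

private theorem cmb_smul (b : Fin 3 → Fin 6 → K) (c : K) (x : Fin 3 → K) :
    cmb b (c • x) = c • cmb b x := by
  simp [cmb, mul_smul, Finset.smul_sum]

private theorem pnt_eq (b : Fin 3 → Fin 6 → K) (x y z : K) : pnt b x y z = cmb b ![x, y, z] := by
  simp [pnt, cmb, Fin.sum_univ_three]

private theorem cmb_mem {V : Submodule K (Fin 6 → K)} {b : Fin 3 → Fin 6 → K}
    (hb : ∀ i, b i ∈ V) (x : Fin 3 → K) : cmb b x ∈ V :=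
  V.sum_mem fun i _ => V.smul_mem _ (hb i)

private theorem tri_cmb (x y : Fin 6 → K) (b : Fin 3 → Fin 6 → K) (w : Fin 3 → K) :
    tri F x y (cmb b w) = ∑ i, w i * tri F x y (b i) := by
  rw [← trl_apply, cmb, map_sum]
  simp only [map_smul, smul_eq_mul, trl_apply]

private theorem cube_add (x y : Fin 6 → K) : tri F (x + y) (x + y) (x + y) =
    tri F x x x + 3 * tri F x x y + 3 * tri F x y y + tri F y y y := by
  rw [tri_add1, tri_add2, tri_add2, tri_add3, tri_add3, tri_add3, tri_add3]
  rw [tri_swap23 F x y x, tri_swap12 F y x x, tri_swap23 F x y x, tri_swap12 F y x y,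
    tri_swap23 F y y x, tri_swap12 F y x y]
  ring

/-- the gradient of the Weierstrass form -/
private def G {K : Type} [Field K] (α B : K) (x y : Fin 3 → K) : K :=
  -(x 0) ^ 2 * y 0 + α * (2 * x 0 * x 2 * y 2 + x 2 ^ 2 * y 0) +
    (2 * x 1 * x 2 * y 1 + x 1 ^ 2 * y 2) / 3 - B * x 2 ^ 2 * y 2

private theorem G_sum (α B : K) (x y : Fin 3 → K) :
    G α B x y = ∑ l, y l * G α B x (Pi.single l 1) := by
  simp [G, Fin.sum_univ_three]
  ring

private theorem G_ns [CharZero K] {α B : K} (h : B ^ 2 ≠ 4 * α ^ 3) {x : Fin 3 → K}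
    (hx : ∀ l, G α B x (Pi.single l 1) = 0) : x = 0 := by
  have h0 := hx 0
  have h1 := hx 1
  have h2 := hx 2
  simp [G] at h0 h1 h2
  by_cases hz : x 2 = 0
  · have h3 : x 0 = 0 := by
      rw [hz] at h0
      simpa using h0
    have h4 : x 1 = 0 := by
      rw [hz, h3] at h2
      simpa using h2
    funext i
    fin_cases i <;> simp [h3, h4, hz]
  · have h4 : x 1 = 0 := by
      rcases h1 with h1 | h1
      · exact h1
      · exact absurd h1 hz
    rw [h4] at h2
    exfalso
    apply h
    have h5 : x 0 ^ 2 = α * x 2 ^ 2 := by linear_combination -h0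
    have h6 : x 2 * (2 * α * x 0 - B * x 2) = 0 := by linear_combination h2
    have h7 : 2 * α * x 0 - B * x 2 = 0 := by
      rcases mul_eq_zero.1 h6 with h6 | h6
      · exact absurd h6 hz
      · exact h6
    have h8 : x 2 ^ 2 * (B ^ 2 - 4 * α ^ 3) = 0 := by
      linear_combination -(2 * α * x 0 + B * x 2) * h7 + 4 * α ^ 2 * h5
    rcases mul_eq_zero.1 h8 with h8 | h8
    · exact absurd (pow_eq_zero_iff (by norm_num) |>.1 h8) hz
    · linear_combination h8

private theorem grad [CharZero K] {b : Fin 3 → Fin 6 → K} {α B : K}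
    (h : ∀ x y z : K, tri F (pnt b x y z) (pnt b x y z) (pnt b x y z) =
      y ^ 2 * z - x ^ 3 + 3 * α * x * z ^ 2 - B * z ^ 3) (x y : Fin 3 → K) :
    tri F (cmb b x) (cmb b x) (cmb b y) = G α B x y := by
  have h' : ∀ x : Fin 3 → K, tri F (cmb b x) (cmb b x) (cmb b x) =
      x 1 ^ 2 * x 2 - x 0 ^ 3 + 3 * α * x 0 * x 2 ^ 2 - B * x 2 ^ 3 := by
    intro x
    have := h (x 0) (x 1) (x 2)
    rw [pnt_eq] at this
    have hx : ![x 0, x 1, x 2] = x := by
      funext i
      fin_cases i <;> rfl
    rwa [hx] at this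
  have h1 := h' (x + y)
  have h2 := h' (x + (-1 : K) • y)
  rw [cmb_add, cube_add] at h1 h2
  rw [cmb_smul] at h2
  simp only [tri_smul1, tri_smul2, tri_smul3] at h2
  have h3 := h' y
  have h4 : (6 : K) * tri F (cmb b x) (cmb b x) (cmb b y) = 6 * G α B x y := by
    simp only [Pi.add_apply, Pi.smul_apply, smul_eq_mul] at h1 h2
    unfold G
    linear_combination h1 - h2 - 2 * h3
  exact mul_left_cancel₀ (by norm_num) h4

/-- invariance modulo `o` -/
private theorem mod_o {o : Fin 6 → K} {V : Submodule K (Fin 6 → K)} (hV : Cne F o V)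
    {x y z : Fin 6 → K} (hx : x ∈ V) (hy : y ∈ V) (hz : z ∈ V) (r s t : K) :
    tri F (r • o + x) (s • o + y) (t • o + z) = tri F x y z := by
  have ho := hV.mem
  have h1 : ∀ a ∈ V, ∀ b ∈ V, tri F o a b = 0 := hV.zero
  have h2 : ∀ a ∈ V, ∀ b ∈ V, tri F a o b = 0 := fun a ha b hb => by
    rw [tri_swap12]
    exact h1 a ha b hb
  have h3 : ∀ a ∈ V, ∀ b ∈ V, tri F a b o = 0 := fun a ha b hb => by
    rw [tri_swap23]
    exact h2 a ha b hb
  rw [tri_add1, tri_smul1, h1 _ (V.add_mem (V.smul_mem _ ho) hy) _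
    (V.add_mem (V.smul_mem _ ho) hz), tri_add2, tri_smul2, h2 _ hx _
    (V.add_mem (V.smul_mem _ ho) hz), tri_add3, tri_smul3, h3 _ hx _ hy]
  ring

end Cmb

/-! ### Frames -/

section Frame

variable {K : Type} [Field K]

private theorem frame_li {o : Fin 6 → K} {β : Fin 3 → Fin 6 → K} :
    LinearIndependent K ![o, β 0, β 1, β 2] ↔
      ∀ (r : K) (x : Fin 3 → K), r • o + cmb β x = 0 → r = 0 ∧ x = 0 := by
  rw [Fintype.linearIndependent_iff]
  constructor
  · intro h r x hx
    have h1 := h ![r, x 0, x 1, x 2] (by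
      rw [← hx]
      simp [Fin.sum_univ_four, cmb, Fin.sum_univ_three, add_assoc])
    exact ⟨h1 0, funext fun i => by fin_cases i; exacts [h1 1, h1 2, h1 3]⟩
  · intro h g hg
    have h1 := h (g 0) ![g 1, g 2, g 3] (by
      rw [← hg]
      simp [Fin.sum_univ_four, cmb, Fin.sum_univ_three, add_assoc])
    intro i
    have h2 := h1.2
    fin_cases i
    · exact h1.1
    · exact congrFun h2 0
    · exact congrFun h2 1
    · exact congrFun h2 2

private theorem frame_span {o : Fin 6 → K} {β : Fin 3 → Fin 6 → K}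
    {V : Submodule K (Fin 6 → K)} (h4 : Module.finrank K V = 4) (ho : o ∈ V)
    (hβ : ∀ i, β i ∈ V) (h : LinearIndependent K ![o, β 0, β 1, β 2]) {y : Fin 6 → K}
    (hy : y ∈ V) : ∃ (r : K) (x : Fin 3 → K), y = r • o + cmb β x := by
  have h1 : Submodule.span K (Set.range ![o, β 0, β 1, β 2]) = V := by
    apply Submodule.eq_of_le_of_finrank_eq
    · rw [Submodule.span_le]
      rintro _ ⟨i, rfl⟩
      fin_cases i
      exacts [ho, hβ 0, hβ 1, hβ 2]
    · rw [finrank_span_eq_card h, h4, Fintype.card_fin]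
  rw [← h1, Submodule.mem_span_range_iff_exists_fun] at hy
  obtain ⟨g, hg⟩ := hy
  refine ⟨g 0, ![g 1, g 2, g 3], ?_⟩
  rw [← hg]
  simp [Fin.sum_univ_four, cmb, Fin.sum_univ_three, add_assoc]

private theorem ext_one {n : ℕ} {W : Submodule K (Fin 6 → K)} {f : Fin n → Fin 6 → K}
    (hf : LinearIndependent K f) (hn : n < Module.finrank K W) :
    ∃ x ∈ W, x ∉ Submodule.span K (Set.range f) := by
  by_contra hcon
  push Not at hcon
  have h2 := Submodule.finrank_mono (R := K) (s := W) (t := Submodule.span K (Set.range f))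
    fun x hx => hcon x hx
  rw [finrank_span_eq_card hf, Fintype.card_fin] at h2
  omega

private theorem exists_frame {z : Fin 6 → K} (hz : z ≠ 0) {W : Submodule K (Fin 6 → K)}
    (h4 : Module.finrank K W = 4) :
    ∃ β : Fin 3 → Fin 6 → K, (∀ i, β i ∈ W) ∧ LinearIndependent K ![z, β 0, β 1, β 2] := by
  have h1 : LinearIndependent K ![z] := by
    rw [linearIndependent_unique_iff]
    simpa using hz
  obtain ⟨x₁, hx₁, hx₁'⟩ := ext_one h1 (W := W) (by rw [h4]; norm_num)
  have h2 : LinearIndependent K ![x₁, z] := linearIndependent_finCons.2 ⟨h1, hx₁'⟩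
  obtain ⟨x₂, hx₂, hx₂'⟩ := ext_one h2 (W := W) (by rw [h4]; norm_num)
  have h3 : LinearIndependent K ![x₂, x₁, z] := linearIndependent_finCons.2 ⟨h2, hx₂'⟩
  obtain ⟨x₃, hx₃, hx₃'⟩ := ext_one h3 (W := W) (by rw [h4]; norm_num)
  have h5 : LinearIndependent K ![x₃, x₂, x₁, z] := linearIndependent_finCons.2 ⟨h3, hx₃'⟩
  refine ⟨![x₁, x₂, x₃], fun i => by fin_cases i; exacts [hx₁, hx₂, hx₃], ?_⟩
  have h6 := h5.comp Fin.rev Fin.rev_injective
  convert h6 using 1
  funext i
  fin_cases i <;> rfl

end Frame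

/-! ### Values -/

section Values

variable {k : Type} [Field k] [IsAlgClosed k] [CharZero k] {F : MvPolynomial (Fin 6) k}

private theorem val_one {v : Place k (Om k)} {f : Om k} {c : k} (h : v.At f c) (hc : c ≠ 0) :
    v.ring.valuation f = 1 := by
  refine le_antisymm ((v.ring.valuation_le_one_iff _).2 h.mem) (not_lt.1 fun h1 => hc ?_)
  exact h.unique (Place.at_zero_iff.2 ((v.vanishes_iff f).2 h1))

private theorem G_at {v : Place k (Om k)} (α B : k) {x y : Fin 3 → Om k} {x' y' : Fin 3 → k}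
    (hx : ∀ i, v.At (x i) (x' i)) (hy : ∀ i, v.At (y i) (y' i)) :
    v.At (G (algebraMap k (Om k) α) (algebraMap k (Om k) B) x y) (G α B x' y') := by
  unfold G
  have h2 : v.At (2 : Om k) 2 := VFP.at_num 2
  have h3 : v.At (3 : Om k) 3 := VFP.at_num 3
  have ha := Place.at_const (v := v) α
  have hb := Place.at_const (v := v) B
  have e1 := ((hx 0).pow 2).neg.mul (hy 0)
  have e2 := ha.mul ((((h2.mul (hx 0)).mul (hx 2)).mul (hy 2)).add (((hx 2).pow 2).mul (hy 0)))
  have e3 := ((((h2.mul (hx 1)).mul (hx 2)).mul (hy 1)).add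
    (((hx 1).pow 2).mul (hy 2))).div h3 (by norm_num)
  have e4 := (hb.mul ((hx 2).pow 2)).mul (hy 2)
  exact ((e1.add e2).add e3).sub e4

private theorem cmb_at {v : Place k (Om k)} {b : Fin 3 → Fin 6 → Om k}
    {b' : Fin 3 → Fin 6 → k} (hb : ∀ i j, v.At (b i j) (b' i j)) {x : Fin 3 → Om k}
    {x' : Fin 3 → k} (hx : ∀ i, v.At (x i) (x' i)) (j : Fin 6) :
    v.At (cmb b x j) (cmb b' x' j) := by
  rw [cmb_apply, cmb_apply]
  exact Place.At.sum fun i _ => (hx i).mul (hb i j)

private theorem li_lift {v : Place k (Om k)} {n : ℕ} {x : Fin n → Fin 6 → Om k}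
    {x' : Fin n → Fin 6 → k} (h : ∀ i j, v.At (x i j) (x' i j))
    (hli : LinearIndependent k x') : LinearIndependent (Om k) x := by
  rw [Fintype.linearIndependent_iff] at hli ⊢
  intro g hg
  by_contra hcon
  have hg0 : g ≠ 0 := by
    rintro rfl
    exact hcon fun i => rfl
  obtain ⟨l, y, hl, hy, hly⟩ := exists_scale v g hg0
  apply hy
  funext i
  refine hli y ?_ i
  funext j
  rw [Finset.sum_apply]
  have h1 : v.At (∑ i, l * g i * x i j) (∑ i, y i * x' i j) :=
    Place.At.sum fun i _ => (hly i).mul (h i j)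
  have h2 : ∑ i, l * g i * x i j = 0 := by
    have h3 := congrFun hg j
    rw [Finset.sum_apply] at h3
    simp only [Pi.smul_apply, smul_eq_mul, Pi.zero_apply] at h3
    simp only [mul_assoc, ← Finset.mul_sum, h3, mul_zero]
  rw [h2] at h1
  exact h1.unique VFP.at_zero

private theorem mat_at {v : Place k (Om k)} {x y : Matrix (Fin 3) (Fin 3) (Om k)}
    {x' y' : Fin 3 → Fin 3 → k} (hx : ∀ i j, v.At (x i j) (x' i j))
    (hy : ∀ i j, v.At (y i j) (y' i j)) (h : x * y = 1) (i j : Fin 3) :
    ∑ l, x' i l * y' l j = if i = j then 1 else 0 := by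
  have h1 : v.At ((x * y) i j) (∑ l, x' i l * y' l j) := by
    rw [Matrix.mul_apply]
    exact Place.At.sum fun l _ => (hx i l).mul (hy l j)
  rw [h, Matrix.one_apply] at h1
  split_ifs with hij
  · rw [if_pos hij] at h1
    exact h1.unique VFP.at_one
  · rw [if_neg hij] at h1
    exact h1.unique VFP.at_zero

private theorem inv_ne {x y : Fin 3 → Fin 3 → k}
    (h : ∀ i j, ∑ l, y i l * x l j = if i = j then 1 else 0) {θ : Fin 3 → k}
    (hθ : ¬ ∀ l, θ l = 0) : ∃ j, ∑ l, x j l * θ l ≠ 0 := by
  by_contra hcon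
  push Not at hcon
  apply hθ
  intro i
  have h1 : ∑ l, y i l * ∑ j, x l j * θ j = 0 := by
    simp only [hcon, mul_zero, Finset.sum_const_zero]
  have h2 : ∑ l, y i l * ∑ j, x l j * θ j = ∑ j, (∑ l, y i l * x l j) * θ j := by
    simp only [Finset.mul_sum, Finset.sum_mul]
    rw [Finset.sum_comm]
    refine Finset.sum_congr rfl fun j _ => Finset.sum_congr rfl fun l _ => ?_
    ring
  rw [h2] at h1
  simp only [h] at h1
  simpa using h1

private theorem row_ne {x y : Fin 3 → Fin 3 → k}
    (h : ∀ i j, ∑ l, x i l * y l j = if i = j then 1 else 0) (i : Fin 3) : x i ≠ 0 := by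
  intro h0
  have h1 := h i i
  simp [h0] at h1

end Values

variable {k : Type} [Field k] [IsAlgClosed k] [CharZero k] {F : MvPolynomial (Fin 6) k}

/-- A smooth reduction of a plane cubic determines the lattice. Two ternary cubic forms `p`, `q`
with coefficients in the valuation ring, which are related by a linear substitution `a` over the
field: `q(x) = p(a x)`. If both reductions are smooth then the entries of `a` are in the ring.
Proof: by `cartan` we may assume that `a = diag d`. Let `t i j`, `s i j` be the coefficients of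
`x_i² x_j` of `p` and `q`, so `s i j = d i ^ 2 * d j * t i j`. Let `|d a|` be the largest and `|d b|`
the smallest of the `|d i|`. The reduction of `p` is smooth at the point `a`, so some `t a j` is a
unit and `|d a|² |d b| ≤ 1`. The reduction of `q` is smooth at the point `b`, so some `s b j` is a
unit and `|d b|² |d a| ≥ 1`. So `|d a| ≤ |d b|`, and all `|d i|` are equal to `1`. Here the forms are
given as functions `p(x) = F(∑ x_i β_i)`, `q(x) = F(∑ x_i b_i)` for two bases of `V` modulo `o`. The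
vectors `z`, `b' i` are linearly independent because the Weierstrass form is not singular. -/
theorem lattice (hF : Smooth F) {o : Fin 6 → Om k} {V : Submodule (Om k) (Fin 6 → Om k)}
    {b : Fin 3 → Fin 6 → Om k} {α B : k}
    (h : Wei F o V b (algebraMap k (Om k) α) (algebraMap k (Om k) B)) {v : Place k (Om k)}
    {c : Om k} {z : Fin 6 → k} (hz : z ≠ 0) (hv : ∀ i, v.At (c * o i) (z i))
    (hs : SmC F z (limW v V)) :
    ∃ (σ : Fin 3 → Om k) (b' : Fin 3 → Fin 6 → k), (∀ i j, v.At (b i j + σ i * o j) (b' i j)) ∧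
      Wei F z (limW v V) b' α B := by
  have hz4 : Module.finrank k (limW v V) = 4 := (finrank_limW v V).trans h.cne.four
  obtain ⟨β', hβ'W, hβ'li⟩ := exists_frame hz hz4
  choose β hβV hβ using hβ'W
  have hcne := cne_lim h.cne hz hv
  have hβ'W : ∀ i, β' i ∈ limW v V := fun i => ⟨β i, hβV i, hβ i⟩
  have hli : LinearIndependent (Om k) ![c • o, β 0, β 1, β 2] := by
    refine li_lift (v := v) (x' := ![z, β' 0, β' 1, β' 2]) ?_ hβ'li
    intro i j
    fin_cases i
    exacts [hv j, hβ 0 j, hβ 1 j, hβ 2 j]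
  have hco : c • o ∈ V := V.smul_mem _ h.cne.mem
  have hb : ∀ i, ∃ (s : Om k) (a : Fin 3 → Om k), b i = s • o + cmb β a := by
    intro i
    obtain ⟨r, x, hx⟩ := frame_span h.cne.four hco hβV hli (h.mem i)
    exact ⟨r * c, x, by rw [hx, mul_smul]⟩
  choose s a hsa using hb
  obtain ⟨u, u', w, w', d, huw, huw', hu, hw, hu', hw', hd⟩ := cartan v.ring (Matrix.of a)
  have hwu : w * u = 1 := mul_eq_one_comm.1 huw
  have hwu' : w' * u' = 1 := mul_eq_one_comm.1 huw'
  have hua : u * Matrix.of a = Matrix.diagonal d * w' := by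
    rw [← hd, Matrix.mul_assoc, huw', Matrix.mul_one]
  choose ub hub using fun i j => HasRes.res v _ (hu i j)
  choose wb hwb using fun i j => HasRes.res v _ (hw i j)
  choose ub' hub' using fun i j => HasRes.res v _ (hu' i j)
  choose wb' hwb' using fun i j => HasRes.res v _ (hw' i j)
  have hf : ∀ i, cmb b (u i) = (∑ l, u i l * s l) • o + d i • cmb β (w' i) := by
    intro i
    have h1 : cmb β ((u * Matrix.of a) i) = d i • cmb β (w' i) := by
      rw [hua, ← cmb_smul]
      congr 1
      funext j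
      rw [Matrix.diagonal_mul]
      rfl
    rw [← h1]
    funext j
    simp only [cmb_apply, Pi.add_apply, Pi.smul_apply, smul_eq_mul, hsa, Matrix.mul_apply,
      Matrix.of_apply, Finset.sum_mul, mul_add, Finset.sum_add_distrib, Finset.mul_sum]
    congr 1
    · exact Finset.sum_congr rfl fun l _ => by ring
    · rw [Finset.sum_comm]
      exact Finset.sum_congr rfl fun l _ => Finset.sum_congr rfl fun m _ => by ring
  have hdm : ∀ i, d i ∈ v.ring := by
    have ht : ∀ i j, v.At (tri F (cmb β (w' i)) (cmb β (w' i)) (cmb β (w' j)))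
        (tri F (cmb β' (wb' i)) (cmb β' (wb' i)) (cmb β' (wb' j))) := fun i j =>
      tri_at F (cmb_at hβ (hwb' i)) (cmb_at hβ (hwb' i)) (cmb_at hβ (hwb' j))
    have hg : ∀ i j, v.At (tri F (cmb b (u i)) (cmb b (u i)) (cmb b (u j)))
        (G α B (ub i) (ub j)) := by
      intro i j
      rw [grad F h.eq]
      exact G_at α B (hub i) (hub j)
    refine diag_mem v.ring d (fun i j => tri F (cmb β (w' i)) (cmb β (w' i)) (cmb β (w' j)))
      (fun i j => tri F (cmb b (u i)) (cmb b (u i)) (cmb b (u j))) ?_ (fun i j => (ht i j).mem)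
      (fun i j => (hg i j).mem) ?_ ?_
    · intro i j
      have hm : ∀ i, d i • cmb β (w' i) ∈ V := fun i => V.smul_mem _ (cmb_mem hβV _)
      show tri F (cmb b (u i)) (cmb b (u i)) (cmb b (u j)) = _
      rw [hf i, hf j, mod_o F h.cne (hm i) (hm i) (hm j), tri_smul1, tri_smul2, tri_smul3]
      ring
    · intro i
      have h1 : ¬ ∀ l, tri F (cmb β' (wb' i)) (cmb β' (wb' i)) (β' l) = 0 := by
        intro h0
        have hmW : cmb β' (wb' i) ∈ limW v V := cmb_mem hβ'W _
        have h2 := hs (cmb β' (wb' i)) hmW (by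
          intro y hy
          obtain ⟨r, x, rfl⟩ := frame_span hz4 hcne.mem hβ'W hβ'li hy
          have h3 : tri F (cmb β' (wb' i)) (cmb β' (wb' i)) z = 0 := by
            rw [tri_swap23, tri_swap12]
            exact hcne.zero _ hmW _ hmW
          rw [tri_add3, tri_smul3, h3, tri_cmb]
          simp only [h0, mul_zero, Finset.sum_const_zero, add_zero])
        obtain ⟨r, hr⟩ := Submodule.mem_span_singleton.1 h2
        have h4 := frame_li.1 hβ'li (-r) (wb' i) (by rw [← hr, neg_smul, neg_add_cancel])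
        exact row_ne (mat_at hwb' hub' hwu') i h4.2
      obtain ⟨j, hj⟩ := inv_ne (mat_at hub' hwb' huw') h1
      refine ⟨j, val_one (ht i j) ?_⟩
      rw [tri_cmb]
      exact hj
    · intro i
      have h1 : ¬ ∀ l, G α B (ub i) (Pi.single l 1) = 0 := by
        intro h0
        have hdisc : B ^ 2 ≠ 4 * α ^ 3 := by
          intro h2
          apply h.disc
          rw [← map_pow, ← map_pow, h2, map_mul, map_ofNat]
        exact row_ne (mat_at hub hwb huw) i (G_ns hdisc h0)
      obtain ⟨j, hj⟩ := inv_ne (mat_at hwb hub hwu) h1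
      refine ⟨j, val_one (hg i j) ?_⟩
      rw [G_sum]
      exact hj
  have ha : ∀ i j, a i j ∈ v.ring := by
    have h1 : Matrix.of a = w * (Matrix.diagonal d * w') := by
      rw [← hua, ← Matrix.mul_assoc, hwu, Matrix.one_mul]
    intro i j
    have h2 : a i j = (Matrix.of a) i j := rfl
    rw [h2, h1]
    refine mat_mem hw (mat_mem (fun i j => ?_) hw') i j
    rw [Matrix.diagonal_apply]
    split_ifs
    · exact hdm i
    · exact zero_mem _
  choose ab hab using fun i j => HasRes.res v _ (ha i j)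
  have hval : ∀ i j, v.At (b i j + -s i * o j) (cmb β' (ab i) j) := by
    intro i j
    have h1 : b i j + -s i * o j = cmb β (a i) j := by
      have h2 := congrFun (hsa i) j
      rw [Pi.add_apply, Pi.smul_apply, smul_eq_mul] at h2
      rw [h2]
      ring
    rw [h1]
    exact cmb_at hβ (hab i) j
  have hb'W : ∀ i, cmb β' (ab i) ∈ limW v V := fun i => cmb_mem hβ'W _
  have hdisc : B ^ 2 ≠ 4 * α ^ 3 := by
    intro h2
    apply h.disc
    rw [← map_pow, ← map_pow, h2, map_mul, map_ofNat]
  have heq : ∀ x y w : k, tri F (pnt (fun i => cmb β' (ab i)) x y w)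
      (pnt (fun i => cmb β' (ab i)) x y w) (pnt (fun i => cmb β' (ab i)) x y w) =
      y ^ 2 * w - x ^ 3 + 3 * α * x * w ^ 2 - B * w ^ 3 := by
    intro x y w
    rw [pnt_eq]
    have hx : ∀ i, v.At ((![algebraMap k (Om k) x, algebraMap k (Om k) y,
        algebraMap k (Om k) w] : Fin 3 → Om k) i) ((![x, y, w] : Fin 3 → k) i) := by
      intro i
      fin_cases i
      exacts [Place.at_const x, Place.at_const y, Place.at_const w]
    have h1 := cmb_at (b := fun i => b i + -s i • o) (b' := fun i => cmb β' (ab i)) hval hx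
    have h2 := tri_at F h1 h1 h1
    have h3 : ∀ y : Fin 3 → Om k, cmb (fun i => b i + -s i • o) y =
        (-∑ i, y i * s i) • o + cmb b y := by
      intro y
      funext j
      simp only [cmb_apply, Pi.add_apply, Pi.smul_apply, smul_eq_mul, mul_add,
        Finset.sum_add_distrib]
      rw [add_comm, neg_mul, Finset.sum_mul, ← Finset.sum_neg_distrib]
      congr 1
      exact Finset.sum_congr rfl fun l _ => by ring
    have hm : ∀ y : Fin 3 → Om k, cmb b y ∈ V := fun y => cmb_mem h.mem y
    rw [h3, mod_o F h.cne (hm _) (hm _) (hm _), ← pnt_eq, h.eq] at h2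
    have h4 := Place.at_const (v := v) (y ^ 2 * w - x ^ 3 + 3 * α * x * w ^ 2 - B * w ^ 3)
    simp only [map_sub, map_add, map_mul, map_pow, map_ofNat] at h4
    exact h2.unique h4
  refine ⟨fun i => -s i, fun i => cmb β' (ab i), hval, hcne, hb'W, ?_, hdisc, heq⟩
  rw [frame_li (β := fun i => cmb β' (ab i))]
  intro r x hx
  have hx0 : x = 0 := by
    refine G_ns hdisc fun l => ?_
    rw [← grad F heq]
    have hmem : ∀ y, cmb (fun i => cmb β' (ab i)) y ∈ limW v V := fun y => cmb_mem hb'W y
    have h1 : cmb (fun i => cmb β' (ab i)) x = (-r) • z := by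
      rw [neg_smul]
      exact eq_neg_of_add_eq_zero_right hx
    have h2 : tri F (cmb (fun i => cmb β' (ab i)) x) (cmb (fun i => cmb β' (ab i)) x)
        (cmb (fun i => cmb β' (ab i)) (Pi.single l 1)) =
        tri F ((-r) • z) (cmb (fun i => cmb β' (ab i)) x)
        (cmb (fun i => cmb β' (ab i)) (Pi.single l 1)) := by
      rw [← h1]
    rw [h2, tri_smul1, hcne.zero _ (hmem _) _ (hmem _), mul_zero]
  refine ⟨?_, hx0⟩
  rw [hx0] at hx
  have h1 : cmb (fun i => cmb β' (ab i)) (0 : Fin 3 → k) = 0 := by simp [cmb]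
  rw [h1, add_zero] at hx
  exact (smul_eq_zero.1 hx).resolve_right hz

/-- singular plane cubics have singular limits -/
theorem sing_lim {o : Fin 6 → Om k} {V : Submodule (Om k) (Fin 6 → Om k)} (hV : Cne F o V)
    (hs : ¬ SmC F o V) {v : Place k (Om k)} {c : Om k} {z : Fin 6 → k} (hz : z ≠ 0)
    (hv : ∀ i, v.At (c * o i) (z i)) : ¬ SmC F z (limW v V) := by
  intro hsm
  unfold SmC at hs
  push Not at hs
  obtain ⟨s, hsV, hsing, hso⟩ := hs
  have ho : o ≠ 0 := by
    rintro rfl
    apply hz
    funext i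
    have h1 := hv i
    rw [Pi.zero_apply, mul_zero] at h1
    exact h1.unique VFP.at_zero
  have hli : LinearIndependent (Om k) ![s, o] := by
    have h1 : LinearIndependent (Om k) ![o] := by
      rw [linearIndependent_unique_iff]
      simpa using ho
    refine linearIndependent_finCons.2 ⟨h1, ?_⟩
    simpa using hso
  have h2 : Module.finrank k (limW v (Submodule.span (Om k) (Set.range ![s, o]))) = 2 := by
    rw [finrank_limW, finrank_span_eq_card hli, Fintype.card_fin]
  have h3 : LinearIndependent k ![z] := by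
    rw [linearIndependent_unique_iff]
    simpa using hz
  obtain ⟨s', hs'U, hs'⟩ := ext_one h3 (W := limW v (Submodule.span (Om k)
    (Set.range ![s, o]))) (by rw [h2]; norm_num)
  obtain ⟨s'', hs'', hval⟩ := hs'U
  obtain ⟨g, hg⟩ := (Submodule.mem_span_range_iff_exists_fun _).1 hs''
  have hg' : s'' = g 1 • o + g 0 • s := by
    rw [← hg, Fin.sum_univ_two, add_comm]
    rfl
  apply hs'
  have h4 : s' ∈ Submodule.span k {z} := by
    refine hsm s' ?_ ?_
    · refine ⟨s'', ?_, hval⟩
      rw [hg']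
      exact V.add_mem (V.smul_mem _ hV.mem) (V.smul_mem _ hsV)
    · rintro y ⟨y', hy', hy⟩
      have h5 := tri_at F hval hval hy
      have h6 : tri F s'' s'' y' = 0 := by
        have h7 : y' = (0 : Om k) • o + y' := by simp
        rw [hg', h7, mod_o F hV (V.smul_mem _ hsV) (V.smul_mem _ hsV) hy', tri_smul1,
          tri_smul2, hsing y' hy', mul_zero, mul_zero]
      rw [h6] at h5
      exact h5.unique VFP.at_zero
  simpa using h4

end Pool.Agent.CUB
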