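import Pool.Agent.CUB.StarD
import Pool.Agent.CUB.GeoE

/-!
# Good lines in tangent hyperplanes
-/

set_option autoImplicit false

noncomputable section

namespace Pool.Agent.CUB

open Pool.Agent.ZCyc Pool.Agent.Dess Pool.Agent.GT
open Pool.Agent.VFP (Om tt)
open scoped Classical

variable {k : Type} [Field k] [IsAlgClosed k] [CharZero k] {F : MvPolynomial (Fin 6) k}

omit [IsAlgClosed k] [CharZero k] in
private theorem gd_eq (t : Fin 3 → Ln F k) (m : Ln F k) :
    gd t m = (3 : ℚ) • Finsupp.single m (1 : ℚ) - ∑ i, Finsupp.single (t i) (1 : ℚ) := by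
  unfold gd
  rw [Finsupp.smul_single, smul_eq_mul, mul_one]

private theorem gd_diff {t : Fin 3 → Ln F k} {G : Submodule ℚ (Ln F k →₀ ℚ)} {l m : Ln F k}
    (h : Finsupp.single m (1 : ℚ) - Finsupp.single l 1 ∈ G) (hm : gd t m ∈ G) : gd t l ∈ G := by
  have e : gd t l = gd t m - (3 : ℚ) • (Finsupp.single m (1 : ℚ) - Finsupp.single l 1) := by
    rw [gd_eq, gd_eq]
    module
  rw [e]
  exact G.sub_mem hm (G.smul_mem _ h)

private theorem gd_three {t : Fin 3 → Ln F k} (ht : Tri t) {G : Submodule ℚ (Ln F k →₀ ℚ)}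
    (hG : R1 F ≤ G) {l m m' : Ln F k} (h : Tri ![l, m, m']) (hm : gd t m ∈ G)
    (hm' : m' = l ∨ gd t m' ∈ G) : gd t l ∈ G := by
  have h1 := hG (tri_mem h ht)
  rw [Finset.sum_sub_distrib, Fin.sum_univ_three] at h1
  simp only [Matrix.cons_val_zero, Matrix.cons_val_one, Matrix.cons_val] at h1
  set T : Ln F k →₀ ℚ := ∑ i, Finsupp.single (t i) (1 : ℚ) with hT
  rcases hm' with rfl | hm'
  · have e : gd t m' = (3 / 2 : ℚ) • (Finsupp.single m' (1 : ℚ) + Finsupp.single m 1 +
        Finsupp.single m' 1 - T) - (1 / 2 : ℚ) • gd t m := by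
      rw [gd_eq, gd_eq, ← hT]
      module
    rw [e]
    exact G.sub_mem (G.smul_mem _ h1) (G.smul_mem _ hm)
  · have e : gd t l = (3 : ℚ) • (Finsupp.single l (1 : ℚ) + Finsupp.single m 1 +
        Finsupp.single m' 1 - T) - gd t m - gd t m' := by
      rw [gd_eq, gd_eq, gd_eq, ← hT]
      module
    rw [e]
    exact G.sub_mem (G.sub_mem (G.smul_mem _ h1) hm) hm'

/-- A line has a basis whose first vector is a zero of the quadratic form `tri F z y y`. -/
private theorem exists_zero_basis (z : Fin 6 → k) (l : Ln F k) :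
    ∃ a b : Fin 6 → k, LinearIndependent k ![a, b] ∧ l.W = Submodule.span k {a, b} ∧
      tri F z a a = 0 := by
  obtain ⟨a, b, hab, hW⟩ := exists_basis l
  by_cases hb : tri F z b b = 0
  · refine ⟨b, a, ?_, ?_, hb⟩
    · rw [LinearIndependent.pair_iff] at hab ⊢
      intro s t hst
      exact (hab t s (by rw [add_comm]; exact hst)).symm
    · rw [hW, Set.pair_comm]
  · obtain ⟨x, hx⟩ := exists_quadratic_eq_zero (a := tri F z b b) (b := 2 * tri F z a b)
      (c := tri F z a a) hb (IsAlgClosed.exists_eq_mul_self _)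
    refine ⟨a + x • b, b, ?_, ?_, ?_⟩
    · rw [LinearIndependent.pair_iff] at hab ⊢
      intro s t hst
      have h1 := hab s (s * x + t) (by rw [← hst]; module)
      have h2 : s = 0 := h1.1
      refine ⟨h2, ?_⟩
      have h3 := h1.2
      rw [h2, zero_mul, zero_add] at h3
      exact h3
    · rw [hW]
      apply le_antisymm
      · rw [Submodule.span_le]
        rintro c (rfl | rfl)
        · exact Submodule.mem_span_pair.2 ⟨1, -x, by module⟩
        · exact Submodule.subset_span (by simp)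
      · rw [Submodule.span_le]
        rintro c (rfl | rfl)
        · exact Submodule.mem_span_pair.2 ⟨1, x, by module⟩
        · exact Submodule.subset_span (by simp)
    · simp only [tri_add2, tri_add3, tri_smul2, tri_smul3]
      rw [tri_swap23 F z b a]
      linear_combination hx

/-- Lines in the tangent hyperplane at `z`. If `z ∈ l` this is the assumption. Otherwise let `P` be
the plane `⟨z, l⟩`; for `y ∈ l`: `F(a z + y) = 3 a tri F z y y`, and `tri F z y y` is zero on `l` or a
product of two linear forms on `l`. If it is zero then `P` is contained in the cubic fourfold, take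
`m = ⟨z, y⟩`, `y ∈ l` (`plane_eqv`). Otherwise `l + m₁ + m₂` is a plane section, where `m₁`, `m₂` are
lines through `z`. -/
theorem gd_tan (hF : Smooth F) {t : Fin 3 → Ln F k} (ht : Tri t)
    {G : Submodule ℚ (Ln F k →₀ ℚ)} (hG : R1 F ≤ G) {z : Fin 6 → k} (hz : z ≠ 0)
    (hzF : tri F z z z = 0) (h : ∀ m : Ln F k, z ∈ m.W → gd t m ∈ G) {l : Ln F k}
    (hl : Tan F z l) : gd t l ∈ G := by
  by_cases hzl : z ∈ l.W
  · exact h l hzl
  obtain ⟨y₁, y₂, hy, hW, hq⟩ := exists_zero_basis z l
  have hy₁ : y₁ ∈ l.W := by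
    rw [hW]
    exact Submodule.subset_span (by simp)
  have hy₂ : y₂ ∈ l.W := by
    rw [hW]
    exact Submodule.subset_span (by simp)
  have hli : ∀ a b c : k, a • z + b • y₁ + c • y₂ = 0 → a = 0 ∧ b = 0 ∧ c = 0 := by
    intro a b c habc
    have ha : a = 0 := by
      by_contra ha
      apply hzl
      have e : z = (-(b / a)) • y₁ + (-(c / a)) • y₂ := by
        have e1 : z = a⁻¹ • (a • z + b • y₁ + c • y₂) + ((-(b / a)) • y₁ + (-(c / a)) • y₂) := by
          rw [smul_add, smul_add, smul_smul, smul_smul, smul_smul, inv_mul_cancel₀ ha]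
          rw [div_eq_inv_mul, div_eq_inv_mul]
          module
        rw [habc, smul_zero, zero_add] at e1
        exact e1
      rw [e]
      exact l.W.add_mem (l.W.smul_mem _ hy₁) (l.W.smul_mem _ hy₂)
    rw [ha, zero_smul, zero_add] at habc
    exact ⟨ha, (LinearIndependent.pair_iff.1 hy) b c habc⟩
  have hv : LinearIndependent k ![z, y₁, y₂] := by
    rw [Fintype.linearIndependent_iff]
    intro g hg
    rw [Fin.sum_univ_three] at hg
    simp only [Matrix.cons_val_zero, Matrix.cons_val_one, Matrix.cons_val] at hg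
    obtain ⟨h0, h1, h2⟩ := hli _ _ _ hg
    intro i
    fin_cases i
    · exact h0
    · exact h1
    · exact h2
  have hzy : ∀ y ∈ l.W, y ≠ 0 → LinearIndependent k ![z, y] := by
    intro y hyW hy0
    rw [LinearIndependent.pair_iff]
    intro s t hst
    have hs : s = 0 := by
      by_contra hs
      apply hzl
      have e : z = (-(t / s)) • y := by
        have e1 : z = s⁻¹ • (s • z + t • y) + (-(t / s)) • y := by
          rw [smul_add, smul_smul, smul_smul, inv_mul_cancel₀ hs, div_eq_inv_mul]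
          module
        rw [hst, smul_zero, zero_add] at e1
        exact e1
      rw [e]
      exact l.W.smul_mem _ hyW
    rw [hs, zero_smul, zero_add] at hst
    exact ⟨hs, (smul_eq_zero.1 hst).resolve_right hy0⟩
  -- lines through `z`
  have hline : ∀ y ∈ l.W, y ≠ 0 → tri F z y y = 0 → ∃ m : Ln F k,
      m.W = Submodule.span k {z, y} ∧ gd t m ∈ G := by
    intro y hyW hy0 hqy
    obtain ⟨m, hm⟩ := exists_ln hF (hzy y hyW hy0) hzF (hl y hyW) hqy
      (l.tri_zero hF hyW hyW hyW)
    refine ⟨m, hm, h m ?_⟩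
    rw [hm]
    exact Submodule.subset_span (by simp)
  have hy₁0 : y₁ ≠ 0 := by
    rintro rfl
    have h1 := (LinearIndependent.pair_iff.1 hy) 1 0 (by rw [smul_zero, zero_smul, add_zero])
    exact one_ne_zero h1.1
  obtain ⟨m₁, hm₁, hgm₁⟩ := hline y₁ hy₁ hy₁0 hq
  -- the plane
  let T : (Fin 3 → k) →ₗ[k] (Fin 6 → k) := Fintype.linearCombination k ![z, y₁, y₂]
  have hTinj : Function.Injective T :=
    linearIndependent_iff_injective_fintypeLinearCombination.1 hv
  have hT : ∀ c, T c = c 0 • z + c 1 • y₁ + c 2 • y₂ := by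
    intro c
    change Fintype.linearCombination k ![z, y₁, y₂] c = _
    rw [Fintype.linearCombination_apply, Fin.sum_univ_three]
    rfl
  obtain ⟨g, hg⟩ := T.exists_leftInverse_of_injective (LinearMap.ker_eq_bot.2 hTinj)
  have hgT : ∀ c, g (T c) = c := fun c => by
    rw [← LinearMap.comp_apply, hg, LinearMap.id_apply]
  set P := LinearMap.range T with hP
  have hP3 : Module.finrank k P = 3 := by
    rw [hP, LinearMap.finrank_range_of_inj hTinj, Module.finrank_fin_fun]
  set B := tri F z y₁ y₂ with hB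
  set C := tri F z y₂ y₂ with hC
  have hF' : ∀ c, MvPolynomial.aeval (T c) F = 3 * c 0 * c 2 * (2 * B * c 1 + C * c 2) := by
    intro c
    have e1 := hl y₁ hy₁
    have e2 := hl y₂ hy₂
    have e3 := l.tri_zero hF hy₁ hy₁ hy₁
    have e4 := l.tri_zero hF hy₁ hy₁ hy₂
    have e5 := l.tri_zero hF hy₁ hy₂ hy₂
    have e6 := l.tri_zero hF hy₂ hy₂ hy₂
    have e7 := l.tri_zero hF hy₁ hy₂ hy₁
    have e8 := l.tri_zero hF hy₂ hy₁ hy₁
    have e9 := l.tri_zero hF hy₂ hy₁ hy₂
    have e10 := l.tri_zero hF hy₂ hy₂ hy₁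
    rw [← tri_self hF.hom, hT]
    simp only [tri_add1, tri_add2, tri_add3, tri_smul1, tri_smul2, tri_smul3]
    rw [tri_swap12 F y₁ z z, tri_swap12 F y₂ z z, tri_swap23 F z y₁ z, tri_swap23 F z y₂ z,
      tri_swap12 F y₁ z y₁, tri_swap12 F y₁ z y₂, tri_swap12 F y₂ z y₁, tri_swap12 F y₂ z y₂,
      tri_swap23 F y₁ y₁ z, tri_swap23 F y₁ y₂ z, tri_swap23 F y₂ y₁ z, tri_swap23 F y₂ y₂ z,
      tri_swap12 F y₁ z y₁, tri_swap12 F y₁ z y₂, tri_swap12 F y₂ z y₁, tri_swap12 F y₂ z y₂,
      tri_swap23 F z y₂ y₁, e1, e2, e3, e4, e5, e6, e7, e8, e9, e10, hzF, hq, ← hB, ← hC]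
    ring
  have hlP : ∀ x, x ∈ l.W ↔ x ∈ P ∧ (LinearMap.proj 0 ∘ₗ g) x = 0 := by
    intro x
    constructor
    · intro hx
      rw [hW] at hx
      obtain ⟨s, u, rfl⟩ := Submodule.mem_span_pair.1 hx
      have e : s • y₁ + u • y₂ = T ![0, s, u] := by
        rw [hT]
        simp
      refine ⟨⟨_, e.symm⟩, ?_⟩
      rw [e, LinearMap.comp_apply, hgT]
      rfl
    · rintro ⟨⟨c, rfl⟩, hx⟩
      rw [LinearMap.comp_apply, hgT] at hx
      have hc : c 0 = 0 := hx
      rw [hT, hc, zero_smul, zero_add]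
      exact l.W.add_mem (l.W.smul_mem _ hy₁) (l.W.smul_mem _ hy₂)
  by_cases hBC : B = 0 ∧ C = 0
  · -- the plane is contained in the cubic fourfold
    have hPF : ∀ x ∈ P, MvPolynomial.aeval x F = 0 := by
      rintro x ⟨c, rfl⟩
      rw [hF', hBC.1, hBC.2]
      ring
    refine gd_diff (hG (plane_eqv hF hP3 hPF ?_ fun x hx => ((hlP x).1 hx).1)) hgm₁
    rw [hm₁, Submodule.span_le]
    rintro x (rfl | rfl)
    · exact ⟨![1, 0, 0], by rw [hT]; simp⟩
    · exact ⟨![0, 1, 0], by rw [hT]; simp⟩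
  · -- three lines
    have hy₃ : C • y₁ - (2 * B) • y₂ ∈ l.W :=
      l.W.sub_mem (l.W.smul_mem _ hy₁) (l.W.smul_mem _ hy₂)
    have hy₃0 : C • y₁ - (2 * B) • y₂ ≠ 0 := by
      intro h0
      have h1 := (LinearIndependent.pair_iff.1 hy) C (-(2 * B)) (by rw [← h0]; module)
      apply hBC
      refine ⟨?_, h1.1⟩
      have h2 := neg_eq_zero.1 h1.2
      exact (mul_eq_zero.1 h2).resolve_left two_ne_zero
    have hq₃ : tri F z (C • y₁ - (2 * B) • y₂) (C • y₁ - (2 * B) • y₂) = 0 := by
      rw [sub_eq_add_neg, ← neg_smul]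
      simp only [tri_add2, tri_add3, tri_smul2, tri_smul3]
      rw [tri_swap23 F z y₂ y₁, hq, ← hB, ← hC]
      ring
    obtain ⟨m₂, hm₂, hgm₂⟩ := hline _ hy₃ hy₃0 hq₃
    refine gd_three ht hG (l := l) (m := m₁) (m' := m₂) ?_ hgm₁ (Or.inr hgm₂)
    refine ⟨P, ![(3 : k) • (LinearMap.proj 0 ∘ₗ g), LinearMap.proj 2 ∘ₗ g,
      (2 * B) • (LinearMap.proj 1 ∘ₗ g) + C • (LinearMap.proj 2 ∘ₗ g)], hP3, ?_, ?_⟩
    · intro i x
      fin_cases i
      · change x ∈ l.W ↔ x ∈ P ∧ ((3 : k) • (LinearMap.proj 0 ∘ₗ g)) x = 0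
        rw [hlP, LinearMap.smul_apply, smul_eq_zero]
        simp only [OfNat.ofNat_ne_zero, false_or]
      · change x ∈ m₁.W ↔ x ∈ P ∧ (LinearMap.proj 2 ∘ₗ g) x = 0
        constructor
        · intro hx
          rw [hm₁] at hx
          obtain ⟨s, u, rfl⟩ := Submodule.mem_span_pair.1 hx
          have e : s • z + u • y₁ = T ![s, u, 0] := by
            rw [hT]
            simp
          refine ⟨⟨_, e.symm⟩, ?_⟩
          rw [e, LinearMap.comp_apply, hgT]
          rfl
        · rintro ⟨⟨c, rfl⟩, hx⟩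
          rw [LinearMap.comp_apply, hgT] at hx
          have hc : c 2 = 0 := hx
          rw [hT, hc, zero_smul, add_zero, hm₁]
          exact Submodule.mem_span_pair.2 ⟨_, _, rfl⟩
      · change x ∈ m₂.W ↔ x ∈ P ∧
          ((2 * B) • (LinearMap.proj 1 ∘ₗ g) + C • (LinearMap.proj 2 ∘ₗ g)) x = 0
        constructor
        · intro hx
          rw [hm₂] at hx
          obtain ⟨s, u, rfl⟩ := Submodule.mem_span_pair.1 hx
          have e : s • z + u • (C • y₁ - (2 * B) • y₂) = T ![s, u * C, -(u * (2 * B))] := by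
            rw [hT]
            simp only [Matrix.cons_val_zero, Matrix.cons_val_one, Matrix.cons_val]
            module
          refine ⟨⟨_, e.symm⟩, ?_⟩
          rw [e, LinearMap.add_apply, LinearMap.smul_apply, LinearMap.smul_apply,
            LinearMap.comp_apply, LinearMap.comp_apply, hgT]
          simp only [LinearMap.proj_apply, Matrix.cons_val_one, Matrix.cons_val, smul_eq_mul]
          ring
        · rintro ⟨⟨c, rfl⟩, hx⟩
          rw [LinearMap.add_apply, LinearMap.smul_apply, LinearMap.smul_apply,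
            LinearMap.comp_apply, LinearMap.comp_apply, hgT] at hx
          simp only [LinearMap.proj_apply, smul_eq_mul] at hx
          rw [hT, hm₂]
          refine Submodule.mem_span_pair.2 ?_
          by_cases hB0 : B = 0
          · have hC0 : C ≠ 0 := fun h0 => hBC ⟨hB0, h0⟩
            rw [hB0, mul_zero, zero_mul, zero_add] at hx
            have hc : c 2 = 0 := (mul_eq_zero.1 hx).resolve_left hC0
            refine ⟨c 0, c 1 / C, ?_⟩
            rw [hB0, hc, mul_zero, zero_smul, sub_zero, smul_smul, div_mul_cancel₀ _ hC0,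
              add_zero]
          · have h2B : 2 * B ≠ 0 := mul_ne_zero two_ne_zero hB0
            refine ⟨c 0, -(c 2) / (2 * B), ?_⟩
            have hc1 : c 1 = -(c 2) / (2 * B) * C := by
              rw [div_mul_eq_mul_div, eq_div_iff h2B]
              linear_combination hx
            rw [smul_sub, smul_smul, smul_smul, div_mul_cancel₀ _ h2B, ← hc1]
            module
    · rintro x ⟨c, rfl⟩
      rw [hF', Fin.prod_univ_three]
      change _ = ((3 : k) • (LinearMap.proj 0 ∘ₗ g)) (T c) * (LinearMap.proj 2 ∘ₗ g) (T c) *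
        ((2 * B) • (LinearMap.proj 1 ∘ₗ g) + C • (LinearMap.proj 2 ∘ₗ g)) (T c)
      rw [LinearMap.add_apply, LinearMap.smul_apply, LinearMap.smul_apply, LinearMap.smul_apply,
        LinearMap.comp_apply, LinearMap.comp_apply, LinearMap.comp_apply, hgT]
      simp only [LinearMap.proj_apply, smul_eq_mul]

/-- By `chain` all lines are good if all lines through the values of `o` are. -/
theorem gd_chain (hF : Smooth F) {t : Fin 3 → Ln F k} (ht : Tri t)
    {G : Submodule ℚ (Ln F k →₀ ℚ)} (hG : R1 F ≤ G) {o : Fin 6 → Om k} (hB : Bp F o)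
    (h : ∀ z, Gam o z → ∀ m : Ln F k, z ∈ m.W → gd t m ∈ G) {l : Ln F k} (hl : Chn F o l) :
    gd t l ∈ G := by
  have hon : ∀ z, Gam o z → tri F z z z = 0 := by
    rintro z ⟨-, v, c, hc⟩
    have h1 := tri_at F hc hc hc
    have h2 : tri F (fun i => c * o i) (fun i => c * o i) (fun i => c * o i) = 0 := by
      have e : (fun i => c * o i) = c • o := rfl
      rw [e, tri_smul1, tri_smul2, tri_smul3, hB.on]
      ring
    rw [h2] at h1
    have h3 := Place.at_const (v := v) (0 : k)
    rw [map_zero] at h3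
    exact h1.unique h3
  have htan : ∀ m : Ln F k, (∃ z, Gam o z ∧ Tan F z m) → gd t m ∈ G := by
    rintro m ⟨z, hz, hm⟩
    exact gd_tan hF ht hG hz.1 (hon z hz) (h z hz) hm
  rcases hl with hl | ⟨l', P, hP, hPF, hlP, hlP', hl'⟩ | ⟨l', l'', htri, hl', hl''⟩
  · exact htan l hl
  · exact gd_diff (hG (plane_eqv hF hP hPF hlP' hlP)) (htan l' hl')
  · refine gd_three ht hG htri (htan l' hl') ?_
    rcases hl'' with rfl | hl''
    · exact Or.inl rfl
    · exact Or.inr (htan l'' hl'')

end Pool.Agent.CUB
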