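import Mathlib

/-!
# Subspaces of given dimension
-/

set_option autoImplicit false

namespace Pool.Agent.CUB

/-- a subspace of given dimension between two subspaces -/
theorem exists_between {K W : Type*} [Field K] [AddCommGroup W] [Module K W]
    [FiniteDimensional K W] {S V : Submodule K W} (h : S ≤ V) {n : ℕ}
    (h₁ : Module.finrank K S ≤ n) (h₂ : n ≤ Module.finrank K V) :
    ∃ P : Submodule K W, S ≤ P ∧ P ≤ V ∧ Module.finrank K P = n := by
  induction n, h₁ using Nat.le_induction with
  | base => exact ⟨S, le_refl _, h, rfl⟩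
  | succ n hn ih =>
    obtain ⟨P, hSP, hPV, hP⟩ := ih (by omega)
    have hlt : P < V := by
      refine lt_of_le_of_ne hPV ?_
      rintro rfl
      omega
    obtain ⟨v, hv, hvP⟩ := SetLike.exists_of_lt hlt
    refine ⟨P ⊔ Submodule.span K {v}, hSP.trans le_sup_left,
      sup_le hPV (by simpa [Submodule.span_singleton_le_iff_mem] using hv), ?_⟩
    have hv0 : v ≠ 0 := by
      rintro rfl
      exact hvP P.zero_mem
    have hinf : P ⊓ Submodule.span K {v} = ⊥ := by
      rw [eq_bot_iff]
      rintro x ⟨hx, hx'⟩
      obtain ⟨c, rfl⟩ := Submodule.mem_span_singleton.1 hx'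
      by_cases hc : c = 0
      · simp [hc]
      · exact absurd ((P.smul_mem_iff hc).1 hx) hvP
    have := Submodule.finrank_sup_add_finrank_inf_eq P (Submodule.span K {v})
    rw [hinf, finrank_bot, finrank_span_singleton hv0, hP] at this
    omega

end Pool.Agent.CUB
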