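import Pool.Agent.CUB.Gen3
import Pool.Agent.CUB.Chain
import Pool.Agent.CUB.StarE
import Pool.Agent.CUB.AltC
import Pool.Agent.CUB.Sub

/-!
# Lines on smooth cubic fourfolds
-/

set_option autoImplicit false

noncomputable section

namespace Pool.Agent.CUB

open Pool.Agent.ZCyc Pool.Agent.Dess Pool.Agent.GT
open Pool.Agent.VFP (Om tt)
open scoped Classical

variable {k : Type} [Field k] [IsAlgClosed k] [CharZero k] {F : MvPolynomial (Fin 6) k}

omit [IsAlgClosed k] in
/-- a cone gives a plane section -/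
private theorem tri_of_cne (hF : Smooth F) [IsAlgClosed k] {z : Fin 6 → k} (hz : z ≠ 0)
    {V : Submodule k (Fin 6 → k)} (hV : Cne F z V) : ∃ t : Fin 3 → Ln F k, Tri t := by
  obtain ⟨x, hx, hxF⟩ := no_three hF hV.four
  have hS : Submodule.span k {z, x} ≤ V := by
    rw [Submodule.span_le]
    rintro y (rfl | hy)
    · exact hV.mem
    · rw [Set.mem_singleton_iff.1 hy]
      exact hx
  have h₁ : Module.finrank k (Submodule.span k ({z, x} : Set (Fin 6 → k))) ≤ 3 := by
    refine (finrank_span_le_card _).trans ?_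
    have := Finset.card_le_two (a := z) (b := x)
    simp only [Set.toFinset_insert, Set.toFinset_singleton]
    omega
  obtain ⟨P, hSP, hPV, hP⟩ := exists_between hS h₁ (by rw [hV.four]; omega)
  obtain ⟨t, ht, -⟩ := exists_tri hF hz hP
    (hSP (Submodule.subset_span (Set.mem_insert _ _)))
    (fun a ha b hb => hV.zero a (hPV ha) b (hPV hb))
    ⟨x, hSP (Submodule.subset_span (Set.mem_insert_of_mem _ rfl)), hxF⟩
  exact ⟨t, ht⟩

omit [IsAlgClosed k] in
/-- a subspace of dimension four of the tangent hyperplane, if the quadratic form is zero -/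
private theorem cne_of_quad {z : Fin 6 → k} (hzz : tri F z z z = 0)
    (hq : ∀ y, tri F z z y = 0 → tri F z y y = 0) :
    ∃ V : Submodule k (Fin 6 → k), Cne F z V := by
  let T : Submodule k (Fin 6 → k) := LinearMap.ker (trl F z z)
  have hT : ∀ y, y ∈ T ↔ tri F z z y = 0 := fun y => by
    rw [LinearMap.mem_ker, trl_apply]
  have hS : Submodule.span k {z} ≤ T := by
    rw [Submodule.span_singleton_le_iff_mem, hT]
    exact hzz
  have h₁ : Module.finrank k (Submodule.span k ({z} : Set (Fin 6 → k))) ≤ 4 := by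
    refine (finrank_span_le_card _).trans ?_
    simp
  have h₂ : 4 ≤ Module.finrank k T := by
    have h := LinearMap.finrank_range_add_finrank_ker (trl F z z)
    have h' : Module.finrank k (LinearMap.range (trl F z z)) ≤ 1 := by
      refine (Submodule.finrank_le _).trans ?_
      simp
    have h'' : Module.finrank k (Fin 6 → k) = 6 := by simp
    change 4 ≤ Module.finrank k (LinearMap.ker (trl F z z))
    omega
  obtain ⟨V, hSV, hVT, hV⟩ := exists_between hS h₁ h₂
  refine ⟨V, hV, hSV (Submodule.mem_span_singleton_self z), fun x hx y hy => ?_⟩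
  have hx' := (hT x).1 (hVT hx)
  have hy' := (hT y).1 (hVT hy)
  have h1 := hq x hx'
  have h2 := hq y hy'
  have h3 := hq (x + y) (by rw [tri_add3, hx', hy', add_zero])
  rw [tri_add2, tri_add3, tri_add3, h1, h2, tri_swap23 F z y x] at h3
  have h4 : (2 : k) * tri F z x y = 0 := by linear_combination h3
  simpa using h4

/-- There are three lines whose sum is a plane section: take a value `z` of `o`; if the quadratic form
at `z` is zero on the tangent hyperplane take for `V` any subspace of dimension four of the tangent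
hyperplane which contains `z`, otherwise the limit of `V₁`; `no_three`, `exists_tri`. -/
theorem exists_t (hF : Smooth F) : ∃ t : Fin 3 → Ln F k, Tri t := by
  obtain ⟨o, hB⟩ := exists_bp hF
  obtain ⟨v, l, z, hl, -, hz, hv⟩ := pole (x := o) (fun ⟨a, ha⟩ =>
    hB.ncst ⟨1, a, one_ne_zero, fun i => by rw [one_mul, ha i]⟩)
  have hG : Gam o z := ⟨hz, v, l, hv⟩
  by_cases hq : ∀ y, tri F z z y = 0 → tri F z y y = 0
  · have hzz : tri F z z z = 0 := by
      have h1 := tri_at F hv hv hv
      have h2 : tri F (fun i => l * o i) (fun i => l * o i) (fun i => l * o i) = 0 := by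
        change tri F (l • o) (l • o) (l • o) = 0
        rw [tri_smul1, tri_smul2, tri_smul3, hB.on]
        simp
      rw [h2] at h1
      have h3 : v.At (0 : Om k) (0 : k) := by simpa using Place.at_const (v := v) (0 : k)
      exact h1.unique h3
    obtain ⟨V, hV⟩ := cne_of_quad hzz hq
    exact tri_of_cne hF hz hV
  · rcases exists_fac hF hB with h | ⟨V₁, V₂, h₁, h₂, h⟩
    · exact absurd (quad_lim hF h hG) hq
    · exact tri_of_cne hF hz (cne_lim h₁ hz hv)

/-- The theorem: `exists_bp`, `exists_t`, `gen`, `chain`, `gd_chain`: all lines are good modulo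
`G = R1 ⊔ A₁ ⊔ A₂`, so all cycles of degree zero are in `G` (`3 z = ∑ a_m gd t m`); now `alt_sup`. -/
theorem main (hF : Smooth F) : ∃ N₀ : ℕ, ∀ N ≥ N₀, ∀ z : Fin N → (Ln F k →₀ ℚ),
    (∀ j, ((z j).sum fun _ a => a) = 0) → alt z ∈ Rel F N := by
  obtain ⟨t, ht⟩ := exists_t hF
  obtain ⟨o, hB⟩ := exists_bp hF
  obtain ⟨A₁, A₂, ⟨m₁, hA₁⟩, ⟨m₂, hA₂⟩, hg⟩ := gen hF ht hB
  have hgd : ∀ l : Ln F k, gd t l ∈ R1 F ⊔ A₁ ⊔ A₂ := fun l =>
    gd_chain hF ht (le_sup_left.trans le_sup_left) hB hg (chain hF hB l)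
  refine ⟨m₁ + m₂, fun N hN z hz => alt_sup (rsys hF) hA₁ hA₂ hN z fun j => ?_⟩
  have h3 : (3 : ℚ) • z j ∈ R1 F ⊔ A₁ ⊔ A₂ := by
    have h : (3 : ℚ) • z j = (z j).sum fun m a => a • gd t m := by
      have h0 : ((z j).sum fun m a => a • gd t m) =
          ((z j).sum fun m a => a • Finsupp.single m (3 : ℚ)) -
          ((z j).sum fun m a => a) • ∑ i, Finsupp.single (t i) (1 : ℚ) := by
        simp only [Finsupp.sum, gd, smul_sub, Finset.sum_sub_distrib, Finset.sum_smul]
      rw [h0, hz j, zero_smul, sub_zero]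
      conv_lhs => rw [← Finsupp.sum_single (z j)]
      simp only [Finsupp.sum, Finset.smul_sum, Finsupp.smul_single, smul_eq_mul]
      exact Finset.sum_congr rfl fun m _ => by rw [mul_comm]
    rw [h]
    exact Submodule.sum_mem _ fun m _ => Submodule.smul_mem _ _ (hgd m)
  exact (Submodule.smul_mem_iff _ (by norm_num : (3 : ℚ) ≠ 0)).1 h3

end Pool.Agent.CUB
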