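import Pool.Agent.CUB.Lattice

/-!
# Not both cones have constant j-invariant and smooth limits
-/

set_option autoImplicit false

noncomputable section

namespace Pool.Agent.CUB

open Pool.Agent.ZCyc Pool.Agent.Dess Pool.Agent.GT
open Pool.Agent.VFP (Om tt)
open scoped Classical

variable {k : Type} [Field k] [IsAlgClosed k] [CharZero k] {F : MvPolynomial (Fin 6) k}

/-- The coordinates of the point `z` at the place `v` -/
structure Lm (o : Fin 6 → Om k) (v : Place k (Om k)) (c : Om k) (z : Fin 6 → k) : Prop where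
  ne : z ≠ 0
  at' : ∀ i, v.At (c * o i) (z i)

private theorem nb_det_mem {K : Type} [Field K] (R : ValuationSubring K) {n : ℕ}
    (M : Matrix (Fin n) (Fin n) K) (h : ∀ i j, M i j ∈ R) : M.det ∈ R := by
  rw [Matrix.det_apply]
  refine sum_mem fun σ _ => ?_
  have h1 : ∏ i, M (σ i) i ∈ R := prod_mem fun i _ => h _ _
  rcases Int.units_eq_one_or (Equiv.Perm.sign σ) with h2 | h2
  · rw [h2, one_smul]; exact h1
  · rw [h2]
    have : (-1 : ℤˣ) • ∏ i, M (σ i) i = -∏ i, M (σ i) i := by simp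
    rw [this]
    exact neg_mem h1

/-- the rows -/
private def nb_R {K : Type} [Field K] (o : Fin 6 → K) (b : Fin 3 → Fin 6 → K) (w y : Fin 6 → K) :
    Fin 6 → Fin 6 → K := ![o, b 0, b 1, b 2, w, y]

private theorem nb_det {K : Type} [Field K] (R : ValuationSubring K) (o : Fin 6 → K)
    (b : Fin 3 → Fin 6 → K) (w y : Fin 6 → K) (c : K) (σ : Fin 3 → K) (s : K)
    (h0 : ∀ j, c * o j ∈ R) (h1 : ∀ i j, b i j + σ i * o j ∈ R) (h2 : ∀ j, w j + s * o j ∈ R)
    (h3 : ∀ j, y j ∈ R) : c * (Matrix.of (nb_R o b w y)).det ∈ R := by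
  set A : Matrix (Fin 6) (Fin 6) K := Matrix.of (nb_R o (fun i j => b i j + σ i * o j)
    (fun j => w j + s * o j) y) with hA
  have h4 : A.det = (Matrix.of (nb_R o b w y)).det := by
    refine Matrix.det_eq_of_forall_row_eq_smul_add_const
      (![0, σ 0, σ 1, σ 2, s, 0] : Fin 6 → K) 0 rfl ?_
    intro i j
    fin_cases i <;> simp [hA, nb_R]
  have h5 : (A.updateRow 0 (c • o)).det = c * A.det := by
    rw [Matrix.det_updateRow_smul]
    congr 2
    ext i j
    by_cases hi : i = 0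
    · subst hi; simp [hA, nb_R]
    · rw [Matrix.updateRow_ne hi]
  rw [← h4, ← h5]
  refine nb_det_mem R _ ?_
  intro i j
  by_cases hi : i = 0
  · subst hi
    rw [Matrix.updateRow_self]
    exact h0 j
  · rw [Matrix.updateRow_ne hi]
    fin_cases i
    · exact absurd rfl hi
    · exact h1 0 j
    · exact h1 1 j
    · exact h1 2 j
    · exact h2 j
    · exact h3 j

private theorem nb_li {K : Type} [Field K] {o : Fin 6 → K} {b : Fin 3 → Fin 6 → K} {w y : Fin 6 → K}
    (h : LinearIndependent K ![o, b 0, b 1, b 2]) {V T : Submodule K (Fin 6 → K)}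
    (ho : o ∈ V) (hb : ∀ i, b i ∈ V) (hw : w ∉ V) (hVT : V ≤ T) (hwT : w ∈ T) (hy : y ∉ T) :
    LinearIndependent K (nb_R o b w y) := by
  have e1 : nb_R o b w y = Fin.snoc (α := fun _ => Fin 6 → K)
      (Fin.snoc (α := fun _ => Fin 6 → K) ![o, b 0, b 1, b 2] w) y := by
    ext i j
    fin_cases i <;> rfl
  rw [e1, linearIndependent_finSnoc]
  refine ⟨?_, ?_⟩
  · rw [linearIndependent_finSnoc]
    refine ⟨h, fun hc => hw ?_⟩
    refine Submodule.span_le.2 ?_ hc
    rintro _ ⟨i, rfl⟩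
    fin_cases i
    · exact ho
    · exact hb 0
    · exact hb 1
    · exact hb 2
  · intro hc
    refine hy (Submodule.span_le.2 ?_ hc)
    rintro _ ⟨i, rfl⟩
    fin_cases i
    · exact hVT ho
    · exact hVT (hb 0)
    · exact hVT (hb 1)
    · exact hVT (hb 2)
    · exact hwT

/-- `V` is spanned by `o` and the `b i` -/
private theorem nb_span {K : Type} [Field K] {o : Fin 6 → K} {b : Fin 3 → Fin 6 → K}
    {V V' : Submodule K (Fin 6 → K)} (h : LinearIndependent K ![o, b 0, b 1, b 2])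
    (h4 : Module.finrank K V = 4) (ho : o ∈ V) (hb : ∀ i, b i ∈ V) (ho' : o ∈ V')
    (hb' : ∀ i, b i ∈ V') : V ≤ V' := by
  have h1 : Submodule.span K (Set.range ![o, b 0, b 1, b 2]) ≤ V := by
    refine Submodule.span_le.2 ?_
    rintro _ ⟨i, rfl⟩
    fin_cases i
    · exact ho
    · exact hb 0
    · exact hb 1
    · exact hb 2
  have h2 : Submodule.span K (Set.range ![o, b 0, b 1, b 2]) = V := by
    refine Submodule.eq_of_le_of_finrank_eq h1 ?_
    rw [finrank_span_eq_card h, h4]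
    rfl
  rw [← h2]
  refine Submodule.span_le.2 ?_
  rintro _ ⟨i, rfl⟩
  fin_cases i
  · exact ho'
  · exact hb' 0
  · exact hb' 1
  · exact hb' 2

private theorem nb_row {K : Type} [Field K] (o : Fin 6 → K) (b : Fin 3 → Fin 6 → K)
    (w x : Fin 6 → K) (i : Fin 5) :
    nb_R o b w x i.castSucc = (![o, b 0, b 1, b 2, w] : Fin 5 → Fin 6 → K) i := by
  fin_cases i
  · exact (rfl : nb_R o b w x 0 = o)
  · exact (rfl : nb_R o b w x 1 = b 0)
  · exact (rfl : nb_R o b w x 2 = b 1)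
  · exact (rfl : nb_R o b w x 3 = b 2)
  · exact (rfl : nb_R o b w x 4 = w)

private theorem nb_last {K : Type} [Field K] (o : Fin 6 → K) (b : Fin 3 → Fin 6 → K)
    (w x : Fin 6 → K) : nb_R o b w x 5 = x := rfl

private theorem nb_upd {K : Type} [Field K] (o : Fin 6 → K) (b : Fin 3 → Fin 6 → K)
    (w x : Fin 6 → K) :
    Matrix.of (nb_R o b w x) = (Matrix.of (nb_R o b w 0)).updateRow 5 x := by
  ext i j
  by_cases hi : i = 5
  · subst hi
    rw [Matrix.updateRow_self, Matrix.of_apply, nb_last]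
  · obtain ⟨i', rfl⟩ := Fin.exists_castSucc_eq.2 hi
    rw [Matrix.updateRow_ne hi, Matrix.of_apply, Matrix.of_apply, nb_row _ _ _ x i',
      nb_row _ _ _ 0 i']

private theorem nb_lin {K : Type} [Field K] (o : Fin 6 → K) (b : Fin 3 → Fin 6 → K)
    (w y y' : Fin 6 → K) (a : K) : (Matrix.of (nb_R o b w (y + a • y'))).det =
      (Matrix.of (nb_R o b w y)).det + a * (Matrix.of (nb_R o b w y')).det := by
  rw [nb_upd, nb_upd o b w y, nb_upd o b w y', Matrix.det_updateRow_add, Matrix.det_updateRow_smul]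

private theorem nb_zero {K : Type} [Field K] {o : Fin 6 → K} {b : Fin 3 → Fin 6 → K}
    {w y : Fin 6 → K} {T : Submodule K (Fin 6 → K)} (hT : T ≠ ⊤) (ho : o ∈ T)
    (hb : ∀ i, b i ∈ T) (hw : w ∈ T) (hy : y ∈ T) : (Matrix.of (nb_R o b w y)).det = 0 := by
  by_contra h
  have hli : LinearIndependent K (nb_R o b w y) :=
    Matrix.linearIndependent_rows_of_det_ne_zero h
  have hT5 : Module.finrank K T < 6 := by
    have := Submodule.finrank_lt hT
    simpa using this
  have h6 : Submodule.span K (Set.range (nb_R o b w y)) ≤ T := by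
    refine Submodule.span_le.2 ?_
    rintro _ ⟨i, rfl⟩
    fin_cases i
    · exact ho
    · exact hb 0
    · exact hb 1
    · exact hb 2
    · exact hw
    · exact hy
  have h7 := Submodule.finrank_mono h6
  rw [finrank_span_eq_card hli, Fintype.card_fin] at h7
  omega

/-- The determinant is a multiple of the linear form. -/
private theorem nb_rho {K : Type} [Field K] {o : Fin 6 → K} {b : Fin 3 → Fin 6 → K}
    {w y₁ : Fin 6 → K} (φ : (Fin 6 → K) →ₗ[K] K) {V : Submodule K (Fin 6 → K)}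
    (h : LinearIndependent K ![o, b 0, b 1, b 2]) (ho : o ∈ V) (hb : ∀ i, b i ∈ V) (hw : w ∉ V)
    (hV : ∀ y ∈ V, φ y = 0) (hwφ : φ w = 0) (hy₁ : φ y₁ ≠ 0) :
    ∃ ρ : K, ρ ≠ 0 ∧ ∀ y, (Matrix.of (nb_R o b w y)).det = ρ * φ y := by
  have hT : LinearMap.ker φ ≠ ⊤ := fun h => hy₁ (by
    have : y₁ ∈ LinearMap.ker φ := by rw [h]; trivial
    exact this)
  have hli := nb_li (y := y₁) (T := LinearMap.ker φ) h ho hb hw (fun y hy => hV y hy) hwφ hy₁
  have h3 : IsUnit (Matrix.of (nb_R o b w y₁)) := Matrix.linearIndependent_rows_iff_isUnit.1 hli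
  have hδ1 : (Matrix.of (nb_R o b w y₁)).det ≠ 0 := ((Matrix.isUnit_iff_isUnit_det _).1 h3).ne_zero
  refine ⟨(Matrix.of (nb_R o b w y₁)).det / φ y₁, div_ne_zero hδ1 hy₁, fun y => ?_⟩
  have h3 : y + (-(φ y / φ y₁)) • y₁ ∈ LinearMap.ker φ := by
    rw [LinearMap.mem_ker, map_add, map_smul, smul_eq_mul]
    field_simp
    ring
  have h4 := nb_zero hT (hV o ho) (fun i => hV _ (hb i)) hwφ h3
  rw [nb_lin] at h4
  have h5 : (Matrix.of (nb_R o b w y)).det =
      φ y / φ y₁ * (Matrix.of (nb_R o b w y₁)).det := by linear_combination h4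
  rw [h5]
  field_simp

private theorem nb_div {K : Type} [Field K] {c ρ t : K} (hc : c ≠ 0) (ht : t ≠ 0) :
    c * (ρ * t) * (c * (c * t))⁻¹ = ρ / c := by
  field_simp

private theorem nb_div' {K : Type} [Field K] {l ρ : K} (hl : l ≠ 0) (hρ : ρ ≠ 0) :
    ρ / (l * ρ) = l⁻¹ := by
  field_simp

omit [IsAlgClosed k] [CharZero k] in
private theorem nb_pole {K : Type} [Field K] [Algebra k K] {v : Place k K} {l : K} (hl : l ≠ 0)
    (hl0 : v.At l 0) (h : l⁻¹ ∈ v.ring) : False := by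
  have h7 : l ∈ v.ring.nonunits := Place.at_zero_iff.1 hl0
  rw [ValuationSubring.mem_nonunits_iff] at h7
  have h8 : v.ring.valuation l⁻¹ ≤ 1 := (v.ring.valuation_le_one_iff _).2 h
  have h9 : v.ring.valuation l * v.ring.valuation l⁻¹ = 1 := by
    rw [← map_mul, mul_inv_cancel₀ hl, map_one]
  exact absurd h9 (ne_of_lt (mul_lt_one_of_nonneg_of_lt_one_left zero_le h7 h8))

omit [IsAlgClosed k] [CharZero k] in
private theorem nb_ne {K : Type} [Field K] [Algebra k K] {v : Place k K} {t : K} {a : k}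
    (h : v.At t a) (ha : a ≠ 0) : t ≠ 0 := by
  rintro rfl
  have h1 := Place.at_const (v := v) (F := K) (0 : k)
  rw [map_zero] at h1
  exact ha (h.unique h1)

/-- NOT BOTH. If both plane cubics have constant `j` and `V₁ ≠ V₂` then one of them has a singular
limit. Proof. Otherwise `lattice` applies to both at all places. Choose four vectors `τ` among the `b₁ i`,
`b₂ i` such that `o`, `τ` is a basis of the tangent hyperplane at `o`; then
`det (o, τ, y) = ρ tri F o o y` for all `y`, `ρ ≠ 0`. At every place `c det (o, τ, y)` is regular for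
constant `y` (it is `det (c o, τ + σ o, y)`), and `c² tri F o o y` has the value `tri F z z y`, which is
not zero for some `y`; so `ρ / c` is regular. But by `pole` for `ρ o` (not constant) there is a place
with `l ρ o → z ≠ 0`, `l → 0`, and `c = l ρ` there, `ρ / c = 1 / l`, contradiction. -/
theorem not_both (hF : Smooth F) {o : Fin 6 → Om k} (hB : Bp F o)
    {V₁ V₂ : Submodule (Om k) (Fin 6 → Om k)} {b₁ b₂ : Fin 3 → Fin 6 → Om k} {α₁ B₁ α₂ B₂ : k}
    (h₁ : Wei F o V₁ b₁ (algebraMap k (Om k) α₁) (algebraMap k (Om k) B₁))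
    (h₂ : Wei F o V₂ b₂ (algebraMap k (Om k) α₂) (algebraMap k (Om k) B₂)) (hne : V₁ ≠ V₂) :
    ∃ v c z, Lm o v c z ∧ (¬ SmC F z (limW v V₁) ∨ ¬ SmC F z (limW v V₂)) := by
  by_contra hcon
  have hall : ∀ v c z, Lm o v c z → SmC F z (limW v V₁) ∧ SmC F z (limW v V₂) := by
    intro v c z hz
    by_contra h
    exact hcon ⟨v, c, z, hz, by tauto⟩
  have ho0 : o ≠ 0 := by
    intro h
    refine hB.ncst ⟨1, 0, one_ne_zero, fun i => ?_⟩
    rw [h, Pi.zero_apply, Pi.zero_apply, mul_zero, map_zero]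
  obtain ⟨y₁, hy₁⟩ : ∃ y, tri F o o y ≠ 0 := by
    by_contra h
    push Not at h
    exact ho0 (tri_ns_om hF h)
  -- one of the `b₂ i` is not in `V₁`
  obtain ⟨i₀, hi₀⟩ : ∃ i, b₂ i ∉ V₁ := by
    by_contra h
    push Not at h
    have h3 := nb_span h₂.li h₂.cne.four h₂.cne.mem h₂.mem h₁.cne.mem h
    exact hne (Submodule.eq_of_le_of_finrank_eq h3 (by rw [h₁.cne.four, h₂.cne.four])).symm
  obtain ⟨ρ, hρ0, hρδ⟩ := nb_rho (trl F o o) h₁.li h₁.cne.mem h₁.mem hi₀
    (fun y hy => h₁.cne.zero o h₁.cne.mem y hy) (h₂.cne.zero o h₂.cne.mem _ (h₂.mem i₀)) hy₁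
  -- the key: `ρ / c` is regular
  have key : ∀ v c z, Lm o v c z → c ≠ 0 → ρ / c ∈ v.ring := by
    intro v c z hz hc
    obtain ⟨s₁, s₂⟩ := hall v c z hz
    obtain ⟨σ₁, b₁', hb₁, -⟩ := lattice hF h₁ hz.ne hz.at' s₁
    obtain ⟨σ₂, b₂', hb₂, -⟩ := lattice hF h₂ hz.ne hz.at' s₂
    obtain ⟨y, hy⟩ : ∃ y, tri F z z y ≠ 0 := by
      by_contra h
      push Not at h
      exact hz.ne (tri_ns hF h)
    have h3 := nb_det v.ring o b₁ (b₂ i₀) (em (Om k) y) c σ₁ (σ₂ i₀) (fun j => (hz.at' j).mem)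
        (fun i j => (hb₁ i j).mem) (fun j => (hb₂ i₀ j).mem)
        (fun j => (Place.at_const (y j)).mem)
    have h4 := tri_at F (v := v) (x := c • o) (y := c • o) (z := em (Om k) y)
        (x' := z) (y' := z) (z' := y) (fun i => hz.at' i) (fun i => hz.at' i)
        (fun i => Place.at_const (y i))
    rw [tri_smul1, tri_smul2] at h4
    have h7 : tri F o o (em (Om k) y) ≠ 0 := fun h => nb_ne h4 hy (by rw [h, mul_zero, mul_zero])
    have h6 := mul_mem h3 (h4.inv hy).mem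
    rw [hρδ, trl_apply, nb_div hc h7] at h6
    exact h6
  -- the pole
  obtain ⟨v, l, y, hl, hl0, hy, hly⟩ := pole (x := fun i => ρ * o i) (by
    rintro ⟨a, ha⟩
    exact hB.ncst ⟨ρ, a, hρ0, ha⟩)
  have h3 : Lm o v (l * ρ) y := ⟨hy, fun i => by rw [mul_assoc]; exact hly i⟩
  have h4 := key v (l * ρ) y h3 (mul_ne_zero hl hρ0)
  rw [nb_div' hl hρ0] at h4
  exact nb_pole hl hl0 h4

end Pool.Agent.CUB
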