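import Pool.Agent.CUB.LnA
import Pool.Agent.GT.Mov

/-!
# Pluecker coordinates
-/

set_option autoImplicit false

noncomputable section

namespace Pool.Agent.CUB

open Pool.Agent.ZCyc Pool.Agent.Dess
open Pool.Agent.VFP (Om tt)
open scoped Classical LinearAlgebra.Projectivization

variable {k : Type} [Field k] {K : Type} [Field K] [Algebra k K]

/-- pairs of indices as indices -/
def ix : Fin 6 × Fin 6 ≃ Fin 36 := finProdFinEquiv

/-- the Pluecker coordinates of the line spanned by `a` and `b` -/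
def pl (a b : Fin 6 → K) : Fin 36 → K :=
  fun n => a (ix.symm n).1 * b (ix.symm n).2 - a (ix.symm n).2 * b (ix.symm n).1

/-- The equations of the variety of lines: `p_ij + p_ji = 0`, the Pluecker relations, and for every
vector `ξ` the equation `F(q) = 0` for `q_j = ∑ ξ_i p_ij`. -/
def PX (F : MvPolynomial (Fin 6) k) : Set (MvPolynomial (Fin (35 + 1)) k) :=
  {f | (∃ i j, f = MvPolynomial.X (ix (i, j)) + MvPolynomial.X (ix (j, i))) ∨
    (∃ i j l m, f = MvPolynomial.X (ix (i, j)) * MvPolynomial.X (ix (l, m)) -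
      MvPolynomial.X (ix (i, l)) * MvPolynomial.X (ix (j, m)) +
      MvPolynomial.X (ix (i, m)) * MvPolynomial.X (ix (j, l))) ∨
    ∃ ξ : Fin 6 → k, f = MvPolynomial.bind₁ (fun j => ∑ i, MvPolynomial.C (ξ i) *
      MvPolynomial.X (ix (i, j))) F}

variable [CharZero k] {F : MvPolynomial (Fin 6) k}

theorem hom_PX (hF : Smooth F) : GT.Hom (PX F) := by
  rintro f (⟨i, j, rfl⟩ | ⟨i, j, l, m, rfl⟩ | ⟨ξ, rfl⟩)
  · exact ⟨1, (MvPolynomial.isHomogeneous_X _ _).add (MvPolynomial.isHomogeneous_X _ _)⟩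
  · exact ⟨1 + 1, (((MvPolynomial.isHomogeneous_X _ _).mul (MvPolynomial.isHomogeneous_X _ _)).sub
      ((MvPolynomial.isHomogeneous_X _ _).mul (MvPolynomial.isHomogeneous_X _ _))).add
      ((MvPolynomial.isHomogeneous_X _ _).mul (MvPolynomial.isHomogeneous_X _ _))⟩
  · refine ⟨1 * 3, ?_⟩
    have h1 : ∀ j : Fin 6, (∑ i, MvPolynomial.C (ξ i) * MvPolynomial.X (ix (i, j)) :
        MvPolynomial (Fin (35 + 1)) k).IsHomogeneous 1 := by
      intro j
      refine MvPolynomial.IsHomogeneous.sum _ _ _ fun i _ => ?_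
      have h2 := (MvPolynomial.isHomogeneous_C (Fin (35 + 1)) (ξ i)).mul
        (MvPolynomial.isHomogeneous_X k (ix (i, j)))
      rwa [zero_add] at h2
    exact hF.hom.aeval _ h1

private theorem pl_ix (a b : Fin 6 → K) (i j : Fin 6) :
    pl a b (ix (i, j)) = a i * b j - a j * b i := by
  unfold pl
  rw [Equiv.symm_apply_apply]

/-- a line as a point of the variety -/
theorem pl_mem (hF : Smooth F) {x : Ln F K} {a b : Fin 6 → K}
    (h : x.W = Submodule.span K {a, b}) : ∀ f ∈ PX F, MvPolynomial.aeval (pl a b) f = 0 := by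
  rintro f (⟨i, j, rfl⟩ | ⟨i, j, l, m, rfl⟩ | ⟨ξ, rfl⟩)
  · rw [map_add, MvPolynomial.aeval_X, MvPolynomial.aeval_X, pl_ix, pl_ix]
    ring
  · simp only [map_add, map_sub, map_mul, MvPolynomial.aeval_X, pl_ix]
    ring
  · rw [MvPolynomial.aeval_bind₁]
    refine x.on _ ?_
    rw [h, Submodule.mem_span_pair]
    refine ⟨-∑ i, algebraMap k K (ξ i) * b i, ∑ i, algebraMap k K (ξ i) * a i, ?_⟩
    funext j
    simp only [Pi.add_apply, Pi.smul_apply, smul_eq_mul, map_sum, map_mul, MvPolynomial.aeval_X,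
      MvPolynomial.algHom_C, pl_ix]
    rw [neg_mul, Finset.sum_mul, Finset.sum_mul, ← Finset.sum_neg_distrib,
      ← Finset.sum_add_distrib]
    refine Finset.sum_congr rfl fun i _ => ?_
    ring

theorem pl_ne {a b : Fin 6 → K} (h : LinearIndependent K ![a, b]) : pl a b ≠ 0 := by
  intro h0
  have hcon : ∀ i j, a i * b j - a j * b i = 0 := by
    intro i j
    rw [← pl_ix, h0]
    rfl
  rw [LinearIndependent.pair_iff] at h
  have ha : a ≠ 0 := by
    rintro rfl
    have h1 := h 1 0 (by rw [smul_zero, zero_smul, add_zero])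
    exact one_ne_zero h1.1
  obtain ⟨i, hi⟩ : ∃ i, a i ≠ 0 := by
    by_contra h2
    push Not at h2
    exact ha (funext h2)
  have h1 := h (b i) (-(a i)) (by
    funext j
    have h2 := hcon i j
    simp only [Pi.add_apply, Pi.smul_apply, smul_eq_mul, Pi.zero_apply]
    linear_combination -h2)
  exact hi (neg_eq_zero.1 h1.2)

end Pool.Agent.CUB
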