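import Pool.Agent.CUB.Plu

/-!
# The points of the variety of lines
-/

set_option autoImplicit false

noncomputable section

namespace Pool.Agent.CUB

open Pool.Agent.ZCyc Pool.Agent.Dess
open Pool.Agent.VFP (Om tt)
open scoped Classical LinearAlgebra.Projectivization

variable {k : Type} [Field k] {K : Type} [Field K] [Algebra k K]

variable [CharZero k] {F : MvPolynomial (Fin 6) k}

section

omit [CharZero k]

private theorem pb_ix (a b : Fin 6 → K) (i j : Fin 6) :
    pl a b (ix (i, j)) = a i * b j - a j * b i := by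
  unfold pl
  rw [Equiv.symm_apply_apply]

private theorem pb_ext {p q : Fin 36 → K} (h : ∀ i j, p (ix (i, j)) = q (ix (i, j))) : p = q := by
  funext n
  have h1 := h (ix.symm n).1 (ix.symm n).2
  rwa [Prod.mk.eta, Equiv.apply_symm_apply] at h1

private theorem pb_li {a b : Fin 6 → K} (h : LinearIndependent K ![a, b]) :
    ∃ i j, a i * b j - a j * b i ≠ 0 := by
  by_contra hcon
  push Not at hcon
  refine pl_ne h (pb_ext fun i j => ?_)
  rw [pb_ix, hcon]
  rfl

private theorem pb_li' {a b : Fin 6 → K} {i j : Fin 6} (hij : a i * b j - a j * b i ≠ 0) :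
    LinearIndependent K ![a, b] := by
  rw [LinearIndependent.pair_iff]
  intro s t hst
  have hi := congrFun hst i
  have hj := congrFun hst j
  simp only [Pi.add_apply, Pi.smul_apply, smul_eq_mul, Pi.zero_apply] at hi hj
  have h1 : s * (a i * b j - a j * b i) = 0 := by linear_combination b j * hi - b i * hj
  have h2 : t * (a i * b j - a j * b i) = 0 := by linear_combination a i * hj - a j * hi
  exact ⟨(mul_eq_zero.1 h1).resolve_right hij, (mul_eq_zero.1 h2).resolve_right hij⟩

private theorem pb_mem {a b : Fin 6 → K} (h : LinearIndependent K ![a, b]) (x : Fin 6 → K) :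
    x ∈ Submodule.span K {a, b} ↔ ∀ i j l, x i * pl a b (ix (j, l)) - x j * pl a b (ix (i, l)) +
      x l * pl a b (ix (i, j)) = 0 := by
  simp only [pb_ix]
  constructor
  · intro hx
    obtain ⟨s, t, rfl⟩ := Submodule.mem_span_pair.1 hx
    intro i j l
    simp only [Pi.add_apply, Pi.smul_apply, smul_eq_mul]
    ring
  · intro hx
    obtain ⟨i, j, hij⟩ := pb_li h
    rw [Submodule.mem_span_pair]
    refine ⟨(x i * b j - x j * b i) / (a i * b j - a j * b i),
      (a i * x j - a j * x i) / (a i * b j - a j * b i), ?_⟩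
    funext l
    simp only [Pi.add_apply, Pi.smul_apply, smul_eq_mul]
    rw [div_mul_eq_mul_div, div_mul_eq_mul_div, ← add_div, div_eq_iff hij]
    linear_combination -(hx i j l)

private theorem pb_mk {a b a' b' : Fin 6 → K} (h : LinearIndependent K ![a, b])
    (h' : LinearIndependent K ![a', b']) :
    Projectivization.mk K (pl a b) (pl_ne h) = Projectivization.mk K (pl a' b') (pl_ne h') ↔
      Submodule.span K {a, b} = Submodule.span K {a', b'} := by
  constructor
  · intro hm
    rw [Projectivization.mk_eq_mk_iff] at hm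
    obtain ⟨c, hc⟩ := hm
    have hc' : ∀ n, pl a b n = (c : K) * pl a' b' n := fun n => (congrFun hc n).symm
    ext x
    rw [pb_mem h, pb_mem h']
    constructor
    · intro hx i j l
      have h1 := hx i j l
      rw [hc', hc', hc'] at h1
      have h2 : (c : K) * (x i * pl a' b' (ix (j, l)) - x j * pl a' b' (ix (i, l)) +
          x l * pl a' b' (ix (i, j))) = 0 := by linear_combination h1
      exact (mul_eq_zero.1 h2).resolve_left c.ne_zero
    · intro hx i j l
      rw [hc', hc', hc']
      linear_combination (c : K) * hx i j l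
  · intro hs
    have ha' : a' ∈ Submodule.span K {a, b} := by
      rw [hs]
      exact Submodule.subset_span (by simp)
    have hb' : b' ∈ Submodule.span K {a, b} := by
      rw [hs]
      exact Submodule.subset_span (by simp)
    obtain ⟨s, t, hst⟩ := Submodule.mem_span_pair.1 ha'
    obtain ⟨u, v, huv⟩ := Submodule.mem_span_pair.1 hb'
    have hpl : pl a' b' = (s * v - t * u) • pl a b := by
      refine pb_ext fun i j => ?_
      rw [Pi.smul_apply, smul_eq_mul, pb_ix, pb_ix, ← hst, ← huv]
      simp only [Pi.add_apply, Pi.smul_apply, smul_eq_mul]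
      ring
    have hd : s * v - t * u ≠ 0 := by
      intro h0
      rw [h0, zero_smul] at hpl
      exact pl_ne h' hpl
    rw [Projectivization.mk_eq_mk_iff]
    refine ⟨(Units.mk0 _ hd)⁻¹, ?_⟩
    rw [hpl, inv_smul_eq_iff]
    rfl

private theorem pb_cube (F : MvPolynomial (Fin 6) k) (s t : K) (a b : Fin 6 → K) :
    tri F (s • a + t • b) (s • a + t • b) (s • a + t • b) = s ^ 3 * tri F a a a +
      3 * s ^ 2 * t * tri F a a b + 3 * s * t ^ 2 * tri F a b b + t ^ 3 * tri F b b b := by
  simp only [tri_add1, tri_add2, tri_add3, tri_smul1, tri_smul2, tri_smul3]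
  have h1 : tri F a b a = tri F a a b := tri_swap23 F a b a
  have h2 : tri F b a a = tri F a a b := (tri_swap12 F b a a).trans h1
  have h3 : tri F b a b = tri F a b b := tri_swap12 F b a b
  have h4 : tri F b b a = tri F a b b := (tri_swap23 F b b a).trans h3
  rw [h1, h2, h3, h4]
  ring

end

private theorem pb_line (hF : Smooth F) {K : Type} [Field K] [Algebra k K] (x : GT.Pt (PX F) K) :
    ∃ (ℓ : Ln F K) (a b : Fin 6 → K) (h : LinearIndependent K ![a, b]),
      x.1 = Projectivization.mk K (pl a b) (pl_ne h) ∧ ℓ.W = Submodule.span K {a, b} := by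
  have hch : CharZero K := charZero_of_injective_algebraMap (algebraMap k K).injective
  set p : Fin 36 → K := x.1.rep with hp
  have hp0 : p ≠ 0 := x.1.rep_nonzero
  have hx : ∀ f ∈ PX F, MvPolynomial.aeval p f = 0 := x.2
  have e1 : ∀ i j, p (ix (i, j)) + p (ix (j, i)) = 0 := by
    intro i j
    have h := hx _ (Or.inl ⟨i, j, rfl⟩)
    rwa [map_add, MvPolynomial.aeval_X, MvPolynomial.aeval_X] at h
  have e2 : ∀ i j l m, p (ix (i, j)) * p (ix (l, m)) - p (ix (i, l)) * p (ix (j, m)) +
      p (ix (i, m)) * p (ix (j, l)) = 0 := by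
    intro i j l m
    have h := hx _ (Or.inr (Or.inl ⟨i, j, l, m, rfl⟩))
    simpa only [map_add, map_sub, map_mul, MvPolynomial.aeval_X] using h
  have e3 : ∀ ξ : Fin 6 → k,
      MvPolynomial.aeval (fun j => ∑ i, algebraMap k K (ξ i) * p (ix (i, j))) F = 0 := by
    intro ξ
    have h := hx _ (Or.inr (Or.inr ⟨ξ, rfl⟩))
    rw [MvPolynomial.aeval_bind₁] at h
    simpa only [map_sum, map_mul, MvPolynomial.aeval_X, MvPolynomial.algHom_C] using h
  have e4 : ∀ i, p (ix (i, i)) = 0 := by
    intro i
    have h := e1 i i
    have h2 : (2 : K) * p (ix (i, i)) = 0 := by linear_combination h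
    exact (mul_eq_zero.1 h2).resolve_left two_ne_zero
  obtain ⟨i, j, hij⟩ : ∃ i j, p (ix (i, j)) ≠ 0 := by
    by_contra hcon
    push Not at hcon
    exact hp0 (pb_ext fun i j => by rw [hcon]; rfl)
  set a : Fin 6 → K := fun l => p (ix (i, l)) with ha
  set b : Fin 6 → K := fun l => p (ix (j, l)) with hb
  have hji : p (ix (j, i)) = -p (ix (i, j)) := by linear_combination e1 i j
  have hminor : a i * b j - a j * b i ≠ 0 := by
    have : a i * b j - a j * b i = p (ix (i, j)) ^ 2 := by
      simp only [ha, hb]
      rw [e4 i, hji]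
      ring
    rw [this]
    exact pow_ne_zero 2 hij
  have h := pb_li' hminor
  have hpl : pl a b = p (ix (i, j)) • p := by
    refine pb_ext fun l m => ?_
    rw [Pi.smul_apply, smul_eq_mul, pb_ix]
    simp only [ha, hb]
    linear_combination -(e2 i j l m)
  have hF2 : ∀ s t : k, tri F (algebraMap k K s • a + algebraMap k K t • b)
      (algebraMap k K s • a + algebraMap k K t • b)
      (algebraMap k K s • a + algebraMap k K t • b) = 0 := by
    intro s t
    rw [tri_self hF.hom]
    have hne : i ≠ j := by
      rintro rfl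
      exact hij (e4 i)
    have h3 := e3 (Pi.single i s + Pi.single j t)
    have h4 : (fun l => ∑ m, algebraMap k K ((Pi.single i s + Pi.single j t : Fin 6 → k) m) *
        p (ix (m, l))) = algebraMap k K s • a + algebraMap k K t • b := by
      funext l
      simp only [Pi.add_apply, Pi.smul_apply, smul_eq_mul, map_add, add_mul,
        Finset.sum_add_distrib]
      congr 1
      · rw [Finset.sum_eq_single i]
        · rw [Pi.single_eq_same]
        · intro m _ hm
          rw [Pi.single_eq_of_ne hm, map_zero, zero_mul]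
        · intro hm
          exact absurd (Finset.mem_univ _) hm
      · rw [Finset.sum_eq_single j]
        · rw [Pi.single_eq_same]
        · intro m _ hm
          rw [Pi.single_eq_of_ne hm, map_zero, zero_mul]
        · intro hm
          exact absurd (Finset.mem_univ _) hm
    rw [h4] at h3
    exact h3
  have t1 := hF2 1 0
  have t2 := hF2 0 1
  have t3 := hF2 1 1
  have t4 := hF2 1 (-1)
  rw [pb_cube] at t1 t2 t3 t4
  simp only [map_zero, map_one, map_neg] at t1 t2 t3 t4
  have hA : tri F a a a = 0 := by linear_combination t1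
  have hD : tri F b b b = 0 := by linear_combination t2
  have hB : tri F a a b = 0 := by
    have : (6 : K) * tri F a a b = 0 := by linear_combination t3 - t4 - 2 * hD
    exact (mul_eq_zero.1 this).resolve_left (by norm_num)
  have hC : tri F a b b = 0 := by
    have : (6 : K) * tri F a b b = 0 := by linear_combination t3 + t4 - 2 * hA
    exact (mul_eq_zero.1 this).resolve_left (by norm_num)
  obtain ⟨ℓ, hℓ⟩ := exists_ln hF h hA hB hC hD
  refine ⟨ℓ, a, b, h, ?_, hℓ⟩
  rw [← Projectivization.mk_rep x.1, Projectivization.mk_eq_mk_iff]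
  refine ⟨(Units.mk0 _ hij)⁻¹, ?_⟩
  rw [inv_smul_eq_iff, hpl]
  rfl

/-- The points of the variety are the lines. The line of the point `p` is
`{x | x_i p_jl - x_j p_il + x_l p_ij = 0}`; if `p_ij ≠ 0` then it is spanned by the vectors
`(p_il)_l` and `(p_jl)_l`. (The equations for `ξ` in `k ^ 6` imply them for `ξ` in `K ^ 6`, because `k` is
infinite.) -/
theorem exists_pe (hF : Smooth F) (K : Type) [Field K] [Algebra k K] :
    ∃ e : GT.Pt (PX F) K ≃ Ln F K, ∀ (x : GT.Pt (PX F) K) (a b : Fin 6 → K)
      (h : LinearIndependent K ![a, b]), x.1 = Projectivization.mk K (pl a b) (pl_ne h) ↔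
        (e x).W = Submodule.span K {a, b} := by
  choose f u v huv hm hW using fun x : GT.Pt (PX F) K => pb_line hF x
  have key : ∀ (x : GT.Pt (PX F) K) (a b : Fin 6 → K) (h : LinearIndependent K ![a, b]),
      x.1 = Projectivization.mk K (pl a b) (pl_ne h) ↔ (f x).W = Submodule.span K {a, b} := by
    intro x a b h
    rw [hm x, hW x]
    exact pb_mk (huv x) h
  have hbij : Function.Bijective f := by
    constructor
    · intro x y hxy
      apply Subtype.ext
      have h1 := (key x (u y) (v y) (huv y)).2 (by rw [hxy, hW y])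
      rw [h1, ← hm y]
    · intro ℓ
      obtain ⟨a, b, h, hab⟩ := exists_basis ℓ
      refine ⟨GT.mkPt (hom_PX hF) (pl a b) (pl_ne h) (pl_mem hF hab), ?_⟩
      have h1 := (key (GT.mkPt (hom_PX hF) (pl a b) (pl_ne h) (pl_mem hF hab)) a b h).1 rfl
      exact Ln.ext (h1.trans hab.symm)
  exact ⟨Equiv.ofBijective f hbij, key⟩

/-- the bijection between points of the variety and lines -/
def pe (hF : Smooth F) (K : Type) [Field K] [Algebra k K] : GT.Pt (PX F) K ≃ Ln F K :=
  (exists_pe hF K).choose

theorem pe_spec (hF : Smooth F) {x : GT.Pt (PX F) K} {a b : Fin 6 → K}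
    (h : LinearIndependent K ![a, b]) : x.1 = Projectivization.mk K (pl a b) (pl_ne h) ↔
      (pe hF K x).W = Submodule.span K {a, b} :=
  (exists_pe hF K).choose_spec x a b h

end Pool.Agent.CUB
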