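import Pool.Agent.CUB.PluB

/-!
# Values of lines and points of the variety of lines
-/

set_option autoImplicit false

noncomputable section

namespace Pool.Agent.CUB

open Pool.Agent.ZCyc Pool.Agent.Dess
open Pool.Agent.VFP (Om tt)
open scoped Classical LinearAlgebra.Projectivization

variable {k : Type} [Field k] {K : Type} [Field K] [Algebra k K]

variable [CharZero k] {F : MvPolynomial (Fin 6) k}

/-- two independent vectors of a line span it -/
private theorem span_eq {L : Type} [Field L] [Algebra k L] {x : Ln F L} {a b : Fin 6 → L}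
    (h : LinearIndependent L ![a, b]) (ha : a ∈ x.W) (hb : b ∈ x.W) :
    x.W = Submodule.span L {a, b} := by
  refine (Submodule.eq_of_le_of_finrank_eq ?_ ?_).symm
  · rw [Submodule.span_le]
    rintro c (rfl | rfl)
    · exact ha
    · exact hb
  · have h1 := finrank_span_eq_card h
    rw [Matrix.range_cons, Matrix.range_cons, Matrix.range_empty, Set.union_empty,
      Set.singleton_union] at h1
    rw [h1, Fintype.card_fin, x.two]

/-- the point whose line is the value of the line of `x` is the value of `x` -/
private theorem exists_pe_val [GT.HasRes k K] (hF : Smooth F) (v : Place k K)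
    (x : GT.Pt (PX F) K) : ∃ y : GT.Pt (PX F) k, GT.IsVal v x y ∧
      IsVal v (pe hF K x) (pe hF k y) := by
  obtain ⟨a, b, a', b', h, hW, ha, hb, h'⟩ := exists_adapted v (pe hF K x)
  obtain ⟨Y, hY⟩ := exists_val hF v (pe hF K x)
  have haW : a ∈ (pe hF K x).W := by
    rw [hW]
    exact Submodule.subset_span (by simp)
  have hbW : b ∈ (pe hF K x).W := by
    rw [hW]
    exact Submodule.subset_span (by simp)
  have hYW : Y.W = Submodule.span k {a', b'} :=
    span_eq h' (hY a haW a' ha) (hY b hbW b' hb)
  have h1 : pe hF k ((pe hF k).symm Y) = Y := (pe hF k).apply_symm_apply Y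
  refine ⟨(pe hF k).symm Y, ?_, ?_⟩
  · have hx : x.1 = Projectivization.mk K (pl a b) (pl_ne h) := (pe_spec hF h).2 hW
    have hy : ((pe hF k).symm Y).1 = Projectivization.mk k (pl a' b') (pl_ne h') :=
      (pe_spec hF h').2 (by rw [h1, hYW])
    refine (GT.isVal_iff (pl_ne h) (pl_ne h') hx hy).2 ⟨1, fun n => ?_⟩
    rw [one_mul]
    exact ((ha _).mul (hb _)).sub ((ha _).mul (hb _))
  · rw [h1]
    exact hY

/-- values at places -/
theorem pe_val [GT.HasRes k K] (hF : Smooth F) {v : Place k K} {x : GT.Pt (PX F) K}
    {y : GT.Pt (PX F) k} : GT.IsVal v x y ↔ IsVal v (pe hF K x) (pe hF k y) := by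
  obtain ⟨z, hz, hz'⟩ := exists_pe_val hF v x
  constructor
  · intro h
    rw [GT.isVal_unique h hz]
    exact hz'
  · intro h
    rw [(pe hF k).injective (val_unique h hz')]
    exact hz

end Pool.Agent.CUB
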