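import Pool.Agent.CUB.TriA
import Pool.Agent.VFP.Util
import Pool.Agent.TInc.Ord
import Pool.Agent.GT.Mov

/-!
# Functions without poles are constant
-/

set_option autoImplicit false

noncomputable section

namespace Pool.Agent.CUB

open Pool.Agent.ZCyc Pool.Agent.Dess Pool.Agent.GT
open Pool.Agent.VFP (Om tt)
open scoped Classical

variable {k : Type} [Field k] [IsAlgClosed k] [CharZero k]

/-- The vector is proportional to a constant vector. -/
def Cst {ι : Type} (x : ι → Om k) : Prop :=
  ∃ (c : Om k) (a : ι → k), c ≠ 0 ∧ ∀ i, c * x i = algebraMap k (Om k) (a i)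

/-- A function which is not constant has a pole. (`x` is in a function field `L` of a curve,
`TInc.const_of_regular`, and places can be extended; compare `GT.exists_field`, `exists_above` in
`GT/Mov.lean`.) -/
theorem exists_pole {x : Om k} (h : ∀ c : k, x ≠ algebraMap k (Om k) c) :
    ∃ v : Place k (Om k), x ∉ v.ring := by
  by_contra hcon
  push Not at hcon
  have hX : Hom (∅ : Set (MvPolynomial (Fin (0 + 1)) k)) := fun f hf => absurd hf (by simp)
  obtain ⟨K, -, hK, hΓ, -, -⟩ := exists_field hX {x} (J := Empty) (fun e => e.elim)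
  have hx : x ∈ K := hΓ (by simp)
  obtain ⟨a, ha⟩ := TInc.const_of_regular hK (f := (⟨x, hx⟩ : K)) fun c => by
    obtain ⟨v, hv⟩ := TInc.exists_above hK c K.val
    rw [← hv, ValuationSubring.mem_comap]
    exact hcon v
  refine h a ?_
  have h1 := congrArg K.val ha
  rw [K.val.commutes] at h1
  exact h1

/-- every value is taken: `exists_pole` for `1 / (x - c)` -/
theorem exists_place_at {x : Om k} (h : ∀ c : k, x ≠ algebraMap k (Om k) c) (c : k) :
    ∃ v : Place k (Om k), v.At x c := by
  have h0 : x - algebraMap k (Om k) c ≠ 0 := sub_ne_zero.2 (h c)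
  obtain ⟨v, hv⟩ := exists_pole (x := (x - algebraMap k (Om k) c)⁻¹) fun d hd => by
    apply h (d⁻¹ + c)
    rw [map_add, map_inv₀, ← hd, inv_inv, sub_add_cancel]
  have h1 := VFP.inv_at_of_not_mem hv
  rw [inv_inv] at h1
  have h2 := h1.add (Place.at_const (v := v) c)
  rw [sub_add_cancel, zero_add] at h2
  exact ⟨v, h2⟩

/-- THE POLE ARGUMENT: a vector which is not constant has a pole, and if we scale it at this place
such that it has a value which is not zero then the factor vanishes at this place. (Take a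
coordinate with the largest valuation.) -/
theorem pole {ι : Type} [Finite ι] {x : ι → Om k}
    (h : ¬ ∃ a : ι → k, ∀ i, x i = algebraMap k (Om k) (a i)) :
    ∃ (v : Place k (Om k)) (l : Om k) (y : ι → k), l ≠ 0 ∧ v.At l 0 ∧ y ≠ 0 ∧
      ∀ i, v.At (l * x i) (y i) := by
  obtain ⟨i, hi⟩ : ∃ i, ∀ c : k, x i ≠ algebraMap k (Om k) c := by
    by_contra hcon
    push Not at hcon
    choose a ha using hcon
    exact h ⟨a, ha⟩
  obtain ⟨v, hv⟩ := exists_pole hi
  have hx : x ≠ 0 := fun h0 => VFP.ne_zero_of_not_mem hv (congrFun h0 i)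
  obtain ⟨l, y, hl, hy, hly⟩ := exists_scale v x hx
  refine ⟨v, l, y, hl, ?_, hy, hly⟩
  have h1 := (hly i).mul (VFP.inv_at_of_not_mem hv)
  rwa [mul_zero, mul_assoc, mul_inv_cancel₀ (VFP.ne_zero_of_not_mem hv), mul_one] at h1

end Pool.Agent.CUB
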