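import Pool.Agent.CUB.PluC

/-!
# Relations for one line
-/

set_option autoImplicit false

noncomputable section

namespace Pool.Agent.CUB

open Pool.Agent.ZCyc Pool.Agent.Dess Pool.Agent.GT
open Pool.Agent.VFP (Om tt)
open scoped Classical

variable {k : Type} [Field k]

/-- the relations for one line -/
def R1 (F : MvPolynomial (Fin 6) k) : Submodule ℚ (Ln F k →₀ ℚ) :=
  Submodule.span ℚ ({z | ∃ (K : Type) (_ : Field K) (_ : Algebra k K) (_ : IsCurve k K)
    (x : Ln F K) (y : Place k K → Ln F k) (f : K) (D : Place k K →₀ ℤ), f ≠ 0 ∧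
    (∀ v, HasOrd v f (D v)) ∧ (∀ v, IsVal v x (y v)) ∧
    z = D.sum fun v a => Finsupp.single (y v) (a : ℚ)} ∪
    {z | ∃ a b : Fin 3 → Ln F k, Tri a ∧ Tri b ∧
      z = ∑ i, (Finsupp.single (a i) 1 - Finsupp.single (b i) 1)})

variable [IsAlgClosed k] [CharZero k] {F : MvPolynomial (Fin 6) k}

theorem tri_mem {a b : Fin 3 → Ln F k} (ha : Tri a) (hb : Tri b) :
    ∑ i, (Finsupp.single (a i) (1 : ℚ) - Finsupp.single (b i) 1) ∈ R1 F :=
  Submodule.subset_span (Or.inr ⟨a, b, ha, hb, rfl⟩)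

/-- rational equivalences in the variety of lines are relations: `pe_val` -/
theorem rat_unit (hF : Smooth F) {z : (Unit → Pt (PX F) k) →₀ ℚ} (hz : z ∈ GT.Rat (PX F) Unit) :
    Finsupp.mapDomain (fun x => pe hF k (x ())) z ∈ R1 F := by
  have hle : GT.Rat (PX F) Unit ≤ Submodule.comap (Finsupp.lmapDomain ℚ ℚ
      fun x : Unit → Pt (PX F) k => pe hF k (x ())) (R1 F) := by
    refine Submodule.span_le.2 ?_
    rintro _ ⟨K, i1, i2, i3, x, y, f, D, hf, hD, hval, rfl⟩
    have : HasRes k K := hasRes_of_isCurve i3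
    change Finsupp.lmapDomain ℚ ℚ _ _ ∈ R1 F
    rw [map_finsuppSum]
    refine Submodule.subset_span (Or.inl ⟨K, i1, i2, i3, pe hF K (x ()),
      fun v => pe hF k (y v ()), f, D, hf, hD, fun v => (pe_val hF).1 (hval v ()), ?_⟩)
    exact Finsupp.sum_congr fun v _ => by
      rw [Finsupp.lmapDomain_apply, Finsupp.mapDomain_single]
  exact hle hz

theorem rat_fin (hF : Smooth F) {N : ℕ} {z : (Fin N → Pt (PX F) k) →₀ ℚ}
    (hz : z ∈ GT.Rat (PX F) (Fin N)) :
    Finsupp.mapDomain (fun x j => pe hF k (x j)) z ∈ Rel F N := by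
  have hle : GT.Rat (PX F) (Fin N) ≤ Submodule.comap (Finsupp.lmapDomain ℚ ℚ
      fun (x : Fin N → Pt (PX F) k) j => pe hF k (x j)) (Rel F N) := by
    refine Submodule.span_le.2 ?_
    rintro _ ⟨K, i1, i2, i3, x, y, f, D, hf, hD, hval, rfl⟩
    have : HasRes k K := hasRes_of_isCurve i3
    change Finsupp.lmapDomain ℚ ℚ _ _ ∈ Rel F N
    rw [map_finsuppSum]
    refine (le_sup_left : Rat F N ≤ Rel F N) (Submodule.subset_span ⟨K, i1, i2, i3,
      fun j => pe hF K (x j), fun v j => pe hF k (y v j), f, D, hf, hD,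
      fun v j => (pe_val hF).1 (hval v j), ?_⟩)
    exact Finsupp.sum_congr fun v _ => by
      rw [Finsupp.lmapDomain_apply, Finsupp.mapDomain_single]
  exact hle hz

/-- Two values of a family of lines over the parameter line: `GT.bridge` (for `PX F`, with the cycle
`single x 1`, `x` the point of the variety of the line `n`) and `rat_unit`. -/
theorem bridge_ln (hF : Smooth F) {n : Ln F (Om k)} {m₀ m₁ : Ln F k} {c₀ c₁ : k}
    (h₀ : ∀ v : Place k (Om k), v.At (tt k) c₀ → IsVal v n m₀)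
    (h₁ : ∀ v : Place k (Om k), v.At (tt k) c₁ → IsVal v n m₁) :
    Finsupp.single m₀ (1 : ℚ) - Finsupp.single m₁ 1 ∈ R1 F := by
  have hlim : ∀ (m : Ln F k) (v : Place k (Om k)), IsVal v n m →
      lim (hom_PX hF) v (Finsupp.single (fun _ : Unit => (pe hF (Om k)).symm n) 1) =
        Submodule.Quotient.mk (Finsupp.single (fun _ : Unit => (pe hF k).symm m) (1 : ℚ)) := by
    intro m v h
    rw [lim_single]
    have h1 : GT.IsVal v ((pe hF (Om k)).symm n) ((pe hF k).symm m) := by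
      rw [pe_val hF, Equiv.apply_symm_apply, Equiv.apply_symm_apply]
      exact h
    have h2 : pv (hom_PX hF) v ((pe hF (Om k)).symm n) = (pe hF k).symm m := pv_eq h1
    simp only [h2]
  have hb := bridge (hom_PX hF) (Finsupp.single (fun _ : Unit => (pe hF (Om k)).symm n) 1)
    (fun v hv => hlim m₀ v (h₀ v hv)) (fun v hv => hlim m₁ v (h₁ v hv))
  rw [Submodule.Quotient.eq] at hb
  have h3 := rat_unit hF hb
  rw [← Finsupp.lmapDomain_apply ℚ ℚ, map_sub, Finsupp.lmapDomain_apply,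
    Finsupp.lmapDomain_apply, Finsupp.mapDomain_single, Finsupp.mapDomain_single,
    Equiv.apply_symm_apply, Equiv.apply_symm_apply] at h3
  exact h3

end Pool.Agent.CUB
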