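import Pool.Agent.CUB.RelA

/-!
# Lines in a plane
-/

set_option autoImplicit false

noncomputable section

namespace Pool.Agent.CUB

open Pool.Agent.ZCyc Pool.Agent.Dess Pool.Agent.GT
open Pool.Agent.VFP (Om tt)
open scoped Classical

variable {k : Type} [Field k] [IsAlgClosed k] [CharZero k] {F : MvPolynomial (Fin 6) k}

omit [IsAlgClosed k] [CharZero k] in
private theorem sta_cube (s t : k) (a b : Fin 6 → k) :
    tri F (s • a + t • b) (s • a + t • b) (s • a + t • b) = s ^ 3 * tri F a a a +
      3 * s ^ 2 * t * tri F a a b + 3 * s * t ^ 2 * tri F a b b + t ^ 3 * tri F b b b := by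
  simp only [tri_add1, tri_add2, tri_add3, tri_smul1, tri_smul2, tri_smul3]
  have h1 : tri F a b a = tri F a a b := tri_swap23 F a b a
  have h2 : tri F b a a = tri F a a b := (tri_swap12 F b a a).trans h1
  have h3 : tri F b a b = tri F a b b := tri_swap12 F b a b
  have h4 : tri F b b a = tri F a b b := (tri_swap23 F b b a).trans h3
  rw [h1, h2, h3, h4]
  ring

omit [IsAlgClosed k] in
/-- polarisation on a plane -/
private theorem sta_zero (hF : Smooth F) {P : Submodule k (Fin 6 → k)}
    (h : ∀ x ∈ P, MvPolynomial.aeval x F = 0) {a b c : Fin 6 → k} (ha : a ∈ P) (hb : b ∈ P)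
    (hc : c ∈ P) : tri F a b c = 0 := by
  have h0 : ∀ a ∈ P, tri F a a a = 0 := fun a ha => by
    rw [tri_self hF.hom]
    exact h a ha
  have h1 : ∀ a ∈ P, ∀ b ∈ P, tri F a a b = 0 := by
    intro a ha b hb
    have e1 := sta_cube (F := F) 1 1 a b
    have e2 := sta_cube (F := F) 1 (-1) a b
    rw [h0 _ (P.add_mem (P.smul_mem _ ha) (P.smul_mem _ hb)), h0 a ha, h0 b hb] at e1 e2
    have e3 : (6 : k) * tri F a a b = 0 := by linear_combination e2 - e1
    exact (mul_eq_zero.1 e3).resolve_left (by norm_num)
  have h2 := h1 (a + b) (P.add_mem ha hb) c hc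
  rw [tri_add1, tri_add2, tri_add2, h1 a ha c hc, h1 b hb c hc, tri_swap12 F b a c] at h2
  have h3 : (2 : k) * tri F a b c = 0 := by linear_combination h2
  exact (mul_eq_zero.1 h3).resolve_left (by norm_num)

omit [IsAlgClosed k] [CharZero k] in
/-- a line through `x` which is in it -/
private theorem sta_span (m : Ln F k) {x : Fin 6 → k} (hx0 : x ≠ 0) (hx : x ∈ m.W) :
    ∃ a : Fin 6 → k, m.W = Submodule.span k {x, a} ∧ LinearIndependent k ![x, a] := by
  have h1 : Submodule.span k {x} ≠ m.W := by
    intro h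
    have h2 := m.two
    rw [← h, finrank_span_singleton hx0] at h2
    omega
  have h2 : Submodule.span k {x} < m.W :=
    lt_of_le_of_ne ((Submodule.span_singleton_le_iff_mem _ _).2 hx) h1
  obtain ⟨a, ha, hna⟩ := SetLike.exists_of_lt h2
  have hli : LinearIndependent k ![x, a] := by
    rw [LinearIndependent.pair_iff' hx0]
    intro c hc
    exact hna (Submodule.mem_span_singleton.2 ⟨c, hc⟩)
  refine ⟨a, ?_, hli⟩
  refine (Submodule.eq_of_le_of_finrank_eq ?_ ?_).symm
  · rw [Submodule.span_le]
    rintro c (rfl | rfl)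
    · exact hx
    · exact ha
  · have h3 := finrank_span_eq_card hli
    rw [Matrix.range_cons, Matrix.range_cons, Matrix.range_empty, Set.union_empty,
      Set.singleton_union] at h3
    rw [h3, m.two, Fintype.card_fin]

/-- Two lines in a plane which is contained in the cubic fourfold: `m = ⟨x, a⟩`, `m' = ⟨x, b⟩`, use
`bridge_ln` for the family `⟨x, (1 - t) a + t b⟩`. -/
theorem plane_eqv (hF : Smooth F) {P : Submodule k (Fin 6 → k)} (hP : Module.finrank k P = 3)
    (h : ∀ x ∈ P, MvPolynomial.aeval x F = 0) {m m' : Ln F k} (hm : m.W ≤ P) (hm' : m'.W ≤ P) :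
    Finsupp.single m (1 : ℚ) - Finsupp.single m' 1 ∈ R1 F := by
  -- a common vector
  obtain ⟨x, hx0, hxm, hxm'⟩ : ∃ x : Fin 6 → k, x ≠ 0 ∧ x ∈ m.W ∧ x ∈ m'.W := by
    have h1 := Submodule.finrank_sup_add_finrank_inf_eq m.W m'.W
    have h2 : Module.finrank k ↥(m.W ⊔ m'.W) ≤ 3 := by
      rw [← hP]
      exact Submodule.finrank_mono (sup_le hm hm')
    rw [m.two, m'.two] at h1
    have h3 : 0 < Module.finrank k ↥(m.W ⊓ m'.W) := by omega
    have h4 : m.W ⊓ m'.W ≠ ⊥ := by
      intro h5
      rw [h5, finrank_bot] at h3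
      exact lt_irrefl _ h3
    obtain ⟨x, hx, hx0⟩ := Submodule.exists_mem_ne_zero_of_ne_bot h4
    exact ⟨x, hx0, hx.1, hx.2⟩
  obtain ⟨a, ha, hia⟩ := sta_span m hx0 hxm
  obtain ⟨b, hb, hib⟩ := sta_span m' hx0 hxm'
  have haP : a ∈ P := hm (by rw [ha]; exact Submodule.subset_span (by simp))
  have hbP : b ∈ P := hm' (by rw [hb]; exact Submodule.subset_span (by simp))
  have hxP : x ∈ P := hm hxm
  -- the family
  set T : Om k := tt k with hT
  let w : Fin 6 → Om k := (1 - T) • em (Om k) a + T • em (Om k) b
  have hz : ∀ p ∈ P, ∀ q ∈ P, ∀ r ∈ P, tri F (em (Om k) p) (em (Om k) q) (em (Om k) r) = 0 := by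
    intro p hp q hq r hr
    rw [tri_em, sta_zero hF h hp hq hr, map_zero]
  have hli : LinearIndependent (Om k) ![em (Om k) x, w] := by
    have hx0' : em (Om k) x ≠ 0 := by
      intro h1
      apply hx0
      funext i
      have h2 := congrFun h1 i
      exact (map_eq_zero _).1 h2
    rw [LinearIndependent.pair_iff' hx0']
    intro c hc
    -- all minors vanish
    have hmin : ∀ i j, algebraMap k (Om k) (x i * a j - x j * a i) +
        T * (algebraMap k (Om k) (x i * b j - x j * b i) -
          algebraMap k (Om k) (x i * a j - x j * a i)) = 0 := by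
      intro i j
      have hi := congrFun hc i
      have hj := congrFun hc j
      simp only [w, em, Pi.add_apply, Pi.smul_apply, smul_eq_mul] at hi hj
      simp only [map_sub, map_mul]
      linear_combination algebraMap k (Om k) (x j) * hi - algebraMap k (Om k) (x i) * hj
    have hma : ∀ i j, x i * a j - x j * a i = 0 := by
      intro i j
      by_contra hne
      have h1 := hmin i j
      by_cases hd : x i * b j - x j * b i - (x i * a j - x j * a i) = 0
      · rw [← map_sub, hd, map_zero, mul_zero, add_zero] at h1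
        exact hne ((map_eq_zero _).1 h1)
      · apply VFP.tt_ne (k := k)
          (-(x i * a j - x j * a i) / (x i * b j - x j * b i - (x i * a j - x j * a i)))
        rw [map_div₀, eq_div_iff (by rwa [Ne, map_eq_zero]), map_neg, map_sub]
        linear_combination h1
    obtain ⟨i, hi⟩ := Function.ne_iff.1 hx0
    have h2 := LinearIndependent.pair_iff.1 hia (-(a i)) (x i) (by
      funext j
      simp only [Pi.add_apply, Pi.smul_apply, smul_eq_mul, Pi.zero_apply]
      linear_combination hma i j)
    exact hi h2.2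
  obtain ⟨n, hn⟩ := exists_ln hF hli (hz x hxP x hxP x hxP)
    (by simp only [w, tri_add3, tri_smul3]
        rw [hz x hxP x hxP a haP, hz x hxP x hxP b hbP]; ring)
    (by simp only [w, tri_add3, tri_smul3, tri_add2, tri_smul2]
        rw [hz x hxP a haP a haP, hz x hxP a haP b hbP, hz x hxP b hbP a haP,
          hz x hxP b hbP b hbP]; ring)
    (by simp only [w, tri_add3, tri_smul3, tri_add2, tri_smul2, tri_add1, tri_smul1]
        rw [hz a haP a haP a haP, hz a haP a haP b hbP, hz a haP b hbP a haP,
          hz a haP b hbP b hbP, hz b hbP a haP a haP, hz b hbP a haP b hbP, hz b hbP b hbP a haP,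
          hz b hbP b hbP b hbP]; ring)
  refine bridge_ln hF (n := n) (c₀ := 0) (c₁ := 1) (fun v hv => ?_) (fun v hv => ?_)
  · refine val_span hn ha (fun i => Place.at_const (x i)) (fun i => ?_) hia
    have h1 := ((VFP.at_one (v := v)).sub hv).mul (Place.at_const (v := v) (a i))
    have h2 := hv.mul (Place.at_const (v := v) (b i))
    have h3 := h1.add h2
    have h4 : (1 - 0) * a i + 0 * b i = a i := by ring
    rw [h4] at h3
    exact h3
  · refine val_span hn hb (fun i => Place.at_const (x i)) (fun i => ?_) hib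
    have h1 := ((VFP.at_one (v := v)).sub hv).mul (Place.at_const (v := v) (a i))
    have h2 := hv.mul (Place.at_const (v := v) (b i))
    have h3 := h1.add h2
    have h4 : (1 - 1) * a i + 1 * b i = b i := by ring
    rw [h4] at h3
    exact h3

end Pool.Agent.CUB
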