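import Pool.Agent.CUB.Star
import Pool.Agent.ZIso.Krull

/-!
# Lines through a point where the quadratic form is zero
-/

set_option autoImplicit false

noncomputable section

namespace Pool.Agent.CUB

open Pool.Agent.ZCyc Pool.Agent.Dess Pool.Agent.GT
open Pool.Agent.VFP (Om tt)
open scoped Classical

variable {k : Type} [Field k] [IsAlgClosed k] [CharZero k] {F : MvPolynomial (Fin 6) k}

/-- subspaces of an intermediate dimension -/
private theorem sb_exists_dim {K V : Type} [Field K] [AddCommGroup V] [Module K V]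
    [Module.Finite K V] {A U : Submodule K V} (hAU : A ≤ U) (n : ℕ)
    (hA : Module.finrank K A ≤ n) (hU : n ≤ Module.finrank K U) :
    ∃ W : Submodule K V, A ≤ W ∧ W ≤ U ∧ Module.finrank K W = n := by
  induction h : n - Module.finrank K A generalizing A with
  | zero => exact ⟨A, le_rfl, hAU, by omega⟩
  | succ d ih =>
    have hlt : A < U := lt_of_le_of_ne hAU (by rintro rfl; omega)
    obtain ⟨x, hxU, hxA⟩ := SetLike.exists_of_lt hlt
    have hf := Submodule.finrank_sup_span_singleton (K := K) hxA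
    obtain ⟨W, h1, h2, h3⟩ := ih (A := A ⊔ Submodule.span K {x})
      (sup_le hAU (by rwa [Submodule.span_singleton_le_iff_mem])) (by omega) (by omega)
    exact ⟨W, le_sup_left.trans h1, h2, h3⟩

/-- the intersection with the kernel of a linear form -/
private theorem sb_inf_ker {K V : Type} [Field K] [AddCommGroup V] [Module K V]
    [Module.Finite K V] (U : Submodule K V) (φ : V →ₗ[K] K) :
    Module.finrank K U ≤ Module.finrank K (U ⊓ LinearMap.ker φ : Submodule K V) + 1 := by
  have h1 := Submodule.finrank_sup_add_finrank_inf_eq U (LinearMap.ker φ)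
  have h2 := LinearMap.finrank_range_add_finrank_ker φ
  have h3 : Module.finrank K (LinearMap.range φ) ≤ 1 := by
    have := Submodule.finrank_le (LinearMap.range φ)
    rwa [Module.finrank_self] at this
  have h4 := Submodule.finrank_le (U ⊔ LinearMap.ker φ)
  omega

omit [IsAlgClosed k] [CharZero k] in
/-- the restriction of a polynomial to a plane -/
private theorem sb_eval (u w : Fin 6 → k) (F : MvPolynomial (Fin 6) k) (c : Fin 2 → k) :
    MvPolynomial.eval c (MvPolynomial.aeval (fun i : Fin 6 =>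
      (MvPolynomial.X 0 * MvPolynomial.C (u i) + MvPolynomial.X 1 * MvPolynomial.C (w i) :
        MvPolynomial (Fin 2) k)) F) = MvPolynomial.aeval (c 0 • u + c 1 • w) F := by
  have h : (MvPolynomial.aeval c : MvPolynomial (Fin 2) k →ₐ[k] k).comp
      (MvPolynomial.aeval (fun i : Fin 6 =>
      (MvPolynomial.X 0 * MvPolynomial.C (u i) + MvPolynomial.X 1 * MvPolynomial.C (w i) :
        MvPolynomial (Fin 2) k))) = MvPolynomial.aeval (c 0 • u + c 1 • w) := by
    apply MvPolynomial.algHom_ext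
    intro i
    simp
  have h1 := congrArg (fun φ => φ F) h
  simpa [MvPolynomial.aeval_eq_eval] using h1

/-- If `tri F z y y = 0` for all `y` in the tangent hyperplane then all lines through `z` are
equivalent. Proof: `m₁ = ⟨z, y₁⟩`, `m₂ = ⟨z, y₂⟩`; the subspace of the `y` in the tangent hyperplane
(dimension `5`, it contains `z`, `y₁`, `y₂`) with `tri F y_i y_i y = 0` contains a subspace `V_i` of
dimension four which contains `z`, `y_i`; `V₁ ∩ V₂` has dimension at least `3` and contains `z`, so it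
contains a vector `y₃`, not in `⟨z⟩`, with `F(y₃) = 0` (a cubic form on a complement of `⟨z⟩` of dimension
two has a zero); apply `sing_eqv` in `V₁` to `m₁`, `m₃` and in `V₂` to `m₂`, `m₃`. -/
theorem cone_eqv (hF : Smooth F) {z : Fin 6 → k} (hz : z ≠ 0)
    (hq : ∀ y, tri F z z y = 0 → tri F z y y = 0) {m m' : Ln F k} (hm : z ∈ m.W)
    (hm' : z ∈ m'.W) : Finsupp.single m (1 : ℚ) - Finsupp.single m' 1 ∈ R1 F := by
  classical
  have hzz : tri F z z z = 0 := Ln.tri_zero hF m hm hm hm
  set H : Submodule k (Fin 6 → k) := LinearMap.ker (trl F z z) with hH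
  have memH : ∀ y, y ∈ H ↔ tri F z z y = 0 := fun y => by
    rw [hH, LinearMap.mem_ker, trl_apply]
  have hH5 : Module.finrank k H = 5 := by
    have h1 := sb_inf_ker (⊤ : Submodule k (Fin 6 → k)) (trl F z z)
    rw [top_inf_eq, finrank_top, Module.finrank_fin_fun] at h1
    have h2 : H ≠ ⊤ := by
      intro h
      apply hz
      apply tri_ns hF
      intro y
      rw [← memH, h]
      trivial
    have h3 := Submodule.finrank_lt h2
    rw [Module.finrank_fin_fun] at h3
    change 6 ≤ Module.finrank k H + 1 at h1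
    omega
  have hpol : ∀ x ∈ H, ∀ y ∈ H, tri F z x y = 0 := by
    intro x hx y hy
    have h1 := hq (x + y) ((memH _).1 (H.add_mem hx hy))
    rw [tri_add2, tri_add3, tri_add3, hq x ((memH x).1 hx), hq y ((memH y).1 hy),
      tri_swap23 F z y x] at h1
    have h2 : (2 : k) * tri F z x y = 0 := by linear_combination h1
    exact (mul_eq_zero.1 h2).resolve_left two_ne_zero
  -- a subspace of dimension four for a line
  have key : ∀ m : Ln F k, z ∈ m.W → ∃ (y : Fin 6 → k) (V : Submodule k (Fin 6 → k)), y ∈ V ∧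
      y ∉ Submodule.span k {z} ∧ (∀ x ∈ V, tri F y y x = 0) ∧ m.W ≤ V ∧ V ≤ H ∧
      Module.finrank k V = 4 := by
    intro m hm
    have h1 : Submodule.span k {z} < m.W := by
      refine lt_of_le_of_ne (by rwa [Submodule.span_singleton_le_iff_mem]) ?_
      intro h
      have h2 := m.two
      rw [← h, finrank_span_singleton hz] at h2
      omega
    obtain ⟨y, hy, hyz⟩ := SetLike.exists_of_lt h1
    have h2 := sb_inf_ker H (trl F y y)
    have hle : m.W ≤ H ⊓ LinearMap.ker (trl F y y) := by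
      intro a ha
      refine ⟨(memH a).2 (Ln.tri_zero hF m hm hm ha), ?_⟩
      rw [SetLike.mem_coe, LinearMap.mem_ker, trl_apply]
      exact Ln.tri_zero hF m hy hy ha
    obtain ⟨V, h3, h4, h5⟩ := sb_exists_dim hle 4 (by rw [m.two]; omega) (by omega)
    refine ⟨y, V, h3 hy, hyz, ?_, h3, h4.trans inf_le_left, h5⟩
    intro x hx
    have h6 := (h4 hx).2
    rwa [SetLike.mem_coe, LinearMap.mem_ker, trl_apply] at h6
  obtain ⟨y₁, V₁, hy₁, hyz₁, hs₁, hm₁, hV₁, hd₁⟩ := key m hm
  obtain ⟨y₂, V₂, hy₂, hyz₂, hs₂, hm₂, hV₂, hd₂⟩ := key m' hm'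
  have hC₁ : Cne F z V₁ := ⟨hd₁, hm₁ hm, fun x hx y hy => hpol x (hV₁ hx) y (hV₁ hy)⟩
  have hC₂ : Cne F z V₂ := ⟨hd₂, hm₂ hm', fun x hx y hy => hpol x (hV₂ hx) y (hV₂ hy)⟩
  -- the intersection
  have hD : 3 ≤ Module.finrank k (V₁ ⊓ V₂ : Submodule k (Fin 6 → k)) := by
    have h1 := Submodule.finrank_sup_add_finrank_inf_eq V₁ V₂
    have h2 := Submodule.finrank_mono (sup_le hV₁ hV₂)
    omega
  have hzD : z ∈ V₁ ⊓ V₂ := ⟨hm₁ hm, hm₂ hm'⟩
  have hz1 : Module.finrank k (Submodule.span k {z}) = 1 := finrank_span_singleton hz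
  obtain ⟨u, huD, hu⟩ : ∃ u ∈ V₁ ⊓ V₂, u ∉ Submodule.span k {z} := by
    have h1 : Submodule.span k {z} < V₁ ⊓ V₂ := by
      refine lt_of_le_of_ne (by rwa [Submodule.span_singleton_le_iff_mem]) ?_
      intro h
      rw [← h, hz1] at hD
      omega
    exact SetLike.exists_of_lt h1
  have hz2 := Submodule.finrank_sup_span_singleton (K := k) hu
  obtain ⟨w, hwD, hw⟩ : ∃ w ∈ V₁ ⊓ V₂, w ∉ Submodule.span k {z} ⊔ Submodule.span k {u} := by
    have h1 : Submodule.span k {z} ⊔ Submodule.span k {u} < V₁ ⊓ V₂ := by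
      refine lt_of_le_of_ne (sup_le (by rwa [Submodule.span_singleton_le_iff_mem])
        (by rwa [Submodule.span_singleton_le_iff_mem])) ?_
      intro h
      rw [← h, hz2, hz1] at hD
      omega
    exact SetLike.exists_of_lt h1
  -- a zero of the cubic form
  obtain ⟨c, hc, hc0⟩ := Pool.Agent.ZIso.exists_ne_zero (K := k) (ι := Fin 2) (κ := Unit)
    (by simp) (fun _ => MvPolynomial.aeval (fun i : Fin 6 =>
      (MvPolynomial.X 0 * MvPolynomial.C (u i) + MvPolynomial.X 1 * MvPolynomial.C (w i) :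
        MvPolynomial (Fin 2) k)) F) (by
      intro _
      have h1 := sb_eval u w F 0
      rw [h1]
      simp only [Pi.zero_apply, zero_smul, add_zero]
      rw [← tri_self hF.hom, tri_zero1])
  have hc1 := hc0 ()
  rw [sb_eval] at hc1
  set y₃ := c 0 • u + c 1 • w with hy₃
  have hy₃D : y₃ ∈ V₁ ⊓ V₂ :=
    (V₁ ⊓ V₂).add_mem ((V₁ ⊓ V₂).smul_mem _ huD) ((V₁ ⊓ V₂).smul_mem _ hwD)
  have hy₃z : y₃ ∉ Submodule.span k {z} := by
    intro h
    by_cases h1 : c 1 = 0
    · have h0 : c 0 ≠ 0 := by
        intro h0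
        apply hc
        funext i
        fin_cases i
        · exact h0
        · exact h1
      apply hu
      rw [hy₃, h1, zero_smul, add_zero] at h
      exact (Submodule.smul_mem_iff _ h0).1 h
    · apply hw
      have h2 : c 1 • w ∈ Submodule.span k {z} ⊔ Submodule.span k {u} := by
        have h3 : c 1 • w = y₃ - c 0 • u := by rw [hy₃]; abel
        rw [h3]
        exact Submodule.sub_mem _ (Submodule.mem_sup_left h)
          (Submodule.mem_sup_right (Submodule.smul_mem _ _ (Submodule.mem_span_singleton_self u)))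
      exact (Submodule.smul_mem_iff _ h1).1 h2
  have hy₃H : y₃ ∈ H := hV₁ hy₃D.1
  have hli : LinearIndependent k ![z, y₃] := by
    rw [LinearIndependent.pair_iff' hz]
    intro a ha
    apply hy₃z
    rw [← ha]
    exact Submodule.smul_mem _ _ (Submodule.mem_span_singleton_self z)
  obtain ⟨m₃, hm₃⟩ := exists_ln hF hli hzz ((memH _).1 hy₃H) (hq _ ((memH _).1 hy₃H)) (by
    rw [tri_self hF.hom]
    exact hc1)
  have hzm₃ : z ∈ m₃.W := by
    rw [hm₃]
    exact Submodule.subset_span (by simp)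
  have hm₃D : m₃.W ≤ V₁ ⊓ V₂ := by
    rw [hm₃, Submodule.span_le]
    rintro x (rfl | rfl)
    · exact hzD
    · exact hy₃D
  have e₁ := sing_eqv hF hz hC₁ hy₁ hyz₁ hs₁ hm hm₁ hzm₃ (hm₃D.trans inf_le_left)
  have e₂ := sing_eqv hF hz hC₂ hy₂ hyz₂ hs₂ hzm₃ (hm₃D.trans inf_le_right) hm' hm₂
  have e₃ := (R1 F).add_mem e₁ e₂
  rwa [sub_add_sub_cancel] at e₃

end Pool.Agent.CUB
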