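import Pool.Agent.CUB.Defs
import Pool.Agent.GT.Val

/-!
# The symmetric trilinear form of a cubic form
-/

set_option autoImplicit false

noncomputable section

namespace Pool.Agent.CUB

open Pool.Agent.ZCyc Pool.Agent.Dess
open scoped Classical

variable {k : Type} [Field k] {K : Type} [Field K] [Algebra k K]

/-- constant vectors -/
def em (K : Type) [Field K] [Algebra k K] {ι : Type} (x : ι → k) : ι → K :=
  fun i => algebraMap k K (x i)

/-- the coefficients of the symmetric trilinear form -/
def cf (F : MvPolynomial (Fin 6) k) (i j l : Fin 6) : k :=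
  MvPolynomial.coeff 0 (MvPolynomial.pderiv i (MvPolynomial.pderiv j (MvPolynomial.pderiv l F))) / 6

/-- the symmetric trilinear form with `tri F x x x = F(x)` -/
def tri (F : MvPolynomial (Fin 6) k) (x y z : Fin 6 → K) : K :=
  ∑ i, ∑ j, ∑ l, algebraMap k K (cf F i j l) * x i * y j * z l

variable (F : MvPolynomial (Fin 6) k)

private theorem pd_comm (i j : Fin 6) (G : MvPolynomial (Fin 6) k) :
    MvPolynomial.pderiv i (MvPolynomial.pderiv j G) =
      MvPolynomial.pderiv j (MvPolynomial.pderiv i G) := by
  have h : ⁅MvPolynomial.pderiv (R := k) i, MvPolynomial.pderiv (R := k) j⁆ = 0 := by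
    refine MvPolynomial.derivation_ext fun l => ?_
    rw [Derivation.commutator_apply, MvPolynomial.pderiv_X, MvPolynomial.pderiv_X]
    by_cases h1 : i = l <;> by_cases h2 : j = l <;> simp [h1, h2]
  have h1 := congrArg (fun D => D G) h
  simp only [Derivation.commutator_apply, Derivation.zero_apply] at h1
  exact sub_eq_zero.1 h1

private theorem cf_swap12 (i j l : Fin 6) : cf F i j l = cf F j i l := by
  unfold cf
  rw [pd_comm]

private theorem cf_swap23 (i j l : Fin 6) : cf F i j l = cf F i l j := by
  unfold cf
  rw [pd_comm j l]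

theorem tri_swap12 (x y z : Fin 6 → K) : tri F x y z = tri F y x z := by
  unfold tri
  rw [Finset.sum_comm]
  refine Finset.sum_congr rfl fun i _ => Finset.sum_congr rfl fun j _ =>
    Finset.sum_congr rfl fun l _ => ?_
  rw [cf_swap12]
  ring

theorem tri_swap23 (x y z : Fin 6 → K) : tri F x y z = tri F x z y := by
  unfold tri
  refine Finset.sum_congr rfl fun i _ => ?_
  rw [Finset.sum_comm]
  refine Finset.sum_congr rfl fun j _ => Finset.sum_congr rfl fun l _ => ?_
  rw [cf_swap23]
  ring

theorem tri_add1 (x x' y z : Fin 6 → K) : tri F (x + x') y z = tri F x y z + tri F x' y z := by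
  unfold tri
  simp only [← Finset.sum_add_distrib]
  refine Finset.sum_congr rfl fun i _ => Finset.sum_congr rfl fun j _ =>
    Finset.sum_congr rfl fun l _ => ?_
  rw [Pi.add_apply]
  ring

theorem tri_add2 (x y y' z : Fin 6 → K) : tri F x (y + y') z = tri F x y z + tri F x y' z := by
  rw [tri_swap12, tri_add1, tri_swap12 F y, tri_swap12 F y']

theorem tri_add3 (x y z z' : Fin 6 → K) : tri F x y (z + z') = tri F x y z + tri F x y z' := by
  rw [tri_swap23, tri_add2, tri_swap23 F x z, tri_swap23 F x z']

theorem tri_smul1 (c : K) (x y z : Fin 6 → K) : tri F (c • x) y z = c * tri F x y z := by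
  unfold tri
  simp only [Finset.mul_sum]
  refine Finset.sum_congr rfl fun i _ => Finset.sum_congr rfl fun j _ =>
    Finset.sum_congr rfl fun l _ => ?_
  rw [Pi.smul_apply, smul_eq_mul]
  ring

theorem tri_smul2 (c : K) (x y z : Fin 6 → K) : tri F x (c • y) z = c * tri F x y z := by
  rw [tri_swap12, tri_smul1, tri_swap12 F y]

theorem tri_smul3 (c : K) (x y z : Fin 6 → K) : tri F x y (c • z) = c * tri F x y z := by
  rw [tri_swap23, tri_smul2, tri_swap23 F x z]

theorem tri_zero1 (y z : Fin 6 → K) : tri F 0 y z = 0 := by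
  have h := tri_smul1 F 0 0 y z
  rwa [zero_smul, zero_mul] at h

theorem tri_zero2 (x z : Fin 6 → K) : tri F x 0 z = 0 := by
  rw [tri_swap12, tri_zero1]

theorem tri_zero3 (x y : Fin 6 → K) : tri F x y 0 = 0 := by
  rw [tri_swap23, tri_zero2]

/-- `tri F x y z` for fixed `x`, `y` as a linear form in `z` -/
def trl (x y : Fin 6 → K) : (Fin 6 → K) →ₗ[K] K where
  toFun := tri F x y
  map_add' := tri_add3 F x y
  map_smul' := fun c z => by rw [tri_smul3]; rfl

theorem trl_apply (x y z : Fin 6 → K) : trl F x y z = tri F x y z := rfl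

/-- `z ↦ tri F x y z` is given by its values on the standard basis -/
theorem tri_sum (x y z : Fin 6 → K) : tri F x y z = ∑ i, tri F x y (Pi.single i 1) * z i := by
  have h : z = ∑ i, z i • (Pi.single i 1 : Fin 6 → K) := by
    funext j
    simp [Finset.sum_apply, Pi.single_apply]
  conv_lhs => rw [h, ← trl_apply, map_sum]
  refine Finset.sum_congr rfl fun i _ => ?_
  rw [map_smul, smul_eq_mul, trl_apply]
  ring

theorem tri_map {K' : Type} [Field K'] [Algebra k K'] (φ : K →ₐ[k] K') (x y z : Fin 6 → K) :
    φ (tri F x y z) = tri F (fun i => φ (x i)) (fun i => φ (y i)) fun i => φ (z i) := by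
  unfold tri
  simp only [map_sum, map_mul, AlgHom.commutes]

theorem tri_em (x y z : Fin 6 → k) :
    tri F (em K x) (em K y) (em K z) = algebraMap k K (tri F x y z) := by
  unfold tri em
  simp only [map_sum, map_mul, Algebra.algebraMap_self, RingHom.id_apply]

/-- values at a place -/
theorem tri_at {v : Place k K} {x y z : Fin 6 → K} {x' y' z' : Fin 6 → k}
    (hx : ∀ i, v.At (x i) (x' i)) (hy : ∀ i, v.At (y i) (y' i)) (hz : ∀ i, v.At (z i) (z' i)) :
    v.At (tri F x y z) (tri F x' y' z') := by
  unfold tri
  simp only [Algebra.algebraMap_self, RingHom.id_apply]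
  exact Place.At.sum fun i _ => Place.At.sum fun j _ => Place.At.sum fun l _ =>
    (((Place.at_const (cf F i j l)).mul (hx i)).mul (hy j)).mul (hz l)

variable {F} [CharZero k]

omit [CharZero k] in
private theorem third_const (hF : F.IsHomogeneous 3) (i j l : Fin 6) :
    MvPolynomial.pderiv i (MvPolynomial.pderiv j (MvPolynomial.pderiv l F)) =
      MvPolynomial.C (MvPolynomial.coeff 0
        (MvPolynomial.pderiv i (MvPolynomial.pderiv j (MvPolynomial.pderiv l F)))) := by
  have h : (MvPolynomial.pderiv i (MvPolynomial.pderiv j (MvPolynomial.pderiv l F))).IsHomogeneous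
      0 := ((hF.pderiv (i := l)).pderiv (i := j)).pderiv (i := i)
  exact MvPolynomial.totalDegree_eq_zero_iff_eq_C.1 ((MvPolynomial.totalDegree_zero_iff_isHomogeneous _).2 h)

private theorem first_deriv (hF : F.IsHomogeneous 3) (x : Fin 6 → K) (l : Fin 6) :
    MvPolynomial.aeval x (MvPolynomial.pderiv l F) = 3 * tri F x x (Pi.single l 1) := by
  have h2 : (MvPolynomial.pderiv l F).IsHomogeneous 2 := hF.pderiv
  have e2 := congrArg (MvPolynomial.aeval x) h2.sum_X_mul_pderiv
  have e1 : ∀ j, MvPolynomial.aeval x (MvPolynomial.pderiv j (MvPolynomial.pderiv l F)) =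
      ∑ i, x i * algebraMap k K (MvPolynomial.coeff 0
        (MvPolynomial.pderiv i (MvPolynomial.pderiv j (MvPolynomial.pderiv l F)))) := by
    intro j
    have h1 : (MvPolynomial.pderiv j (MvPolynomial.pderiv l F)).IsHomogeneous 1 := h2.pderiv
    have e := congrArg (MvPolynomial.aeval x) h1.sum_X_mul_pderiv
    rw [one_smul, map_sum] at e
    rw [← e]
    refine Finset.sum_congr rfl fun i _ => ?_
    rw [map_mul, MvPolynomial.aeval_X]
    congr 1
    conv_lhs => rw [third_const hF, MvPolynomial.aeval_C]
  have h6 : ∀ i j, algebraMap k K (MvPolynomial.coeff 0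
      (MvPolynomial.pderiv i (MvPolynomial.pderiv j (MvPolynomial.pderiv l F)))) =
      6 * algebraMap k K (cf F i j l) := by
    intro i j
    have h7 : (6 : K) = algebraMap k K 6 := (map_ofNat (algebraMap k K) 6).symm
    rw [h7, ← map_mul]
    congr 1
    unfold cf
    rw [mul_div_cancel₀]
    norm_num
  have h3 : tri F x x (Pi.single l 1) = ∑ i, ∑ j, algebraMap k K (cf F i j l) * x i * x j := by
    unfold tri
    refine Finset.sum_congr rfl fun i _ => Finset.sum_congr rfl fun j _ => ?_
    rw [Finset.sum_eq_single l]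
    · rw [Pi.single_eq_same, mul_one]
    · intro b _ hb
      rw [Pi.single_eq_of_ne hb, mul_zero]
    · intro h
      exact absurd (Finset.mem_univ _) h
  have e4 : (2 : K) * MvPolynomial.aeval x (MvPolynomial.pderiv l F) =
      2 * (3 * tri F x x (Pi.single l 1)) := by
    rw [h3]
    have e5 : (2 : K) * MvPolynomial.aeval x (MvPolynomial.pderiv l F) =
        MvPolynomial.aeval x (2 • MvPolynomial.pderiv l F) := by
      rw [two_smul, map_add]
      ring
    rw [e5, ← e2, map_sum, Finset.sum_comm, Finset.mul_sum, Finset.mul_sum]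
    refine Finset.sum_congr rfl fun j _ => ?_
    rw [map_mul, MvPolynomial.aeval_X, e1, Finset.mul_sum, Finset.mul_sum, Finset.mul_sum]
    refine Finset.sum_congr rfl fun i _ => ?_
    rw [h6]
    ring
  have hch : CharZero K := charZero_of_injective_algebraMap (algebraMap k K).injective
  exact mul_left_cancel₀ two_ne_zero e4

/-- Taylor: `F` is homogeneous of degree three. (It is enough to check it for monomials, or: Euler's
formula three times, `∑ x_i ∂_i F = 3 F`, and the third derivatives are constants.) -/
theorem tri_self (hF : F.IsHomogeneous 3) (x : Fin 6 → K) :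
    tri F x x x = MvPolynomial.aeval x F := by
  have hch : CharZero K := charZero_of_injective_algebraMap (algebraMap k K).injective
  have e := congrArg (MvPolynomial.aeval x) hF.sum_X_mul_pderiv
  have e5 : (3 : K) * MvPolynomial.aeval x F = MvPolynomial.aeval x (3 • F) := by
    rw [map_nsmul, nsmul_eq_mul]
    norm_num
  have h : (3 : K) * tri F x x x = 3 * MvPolynomial.aeval x F := by
    rw [e5, ← e, map_sum, tri_sum, Finset.mul_sum]
    refine Finset.sum_congr rfl fun l _ => ?_
    rw [map_mul, MvPolynomial.aeval_X, first_deriv hF]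
    ring
  exact mul_left_cancel₀ three_ne_zero h

/-- `3 tri F x x e_i = ∂_i F (x)`; so smoothness is: `tri F x x` is zero only for `x = 0`. -/
theorem tri_ns (hF : Smooth F) {x : Fin 6 → k} (h : ∀ z, tri F x x z = 0) : x = 0 := by
  refine hF.ns x fun i => ?_
  have h1 := first_deriv hF.hom x i
  rw [h, mul_zero] at h1
  rwa [MvPolynomial.aeval_eq_eval] at h1

end Pool.Agent.CUB
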