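import Pool.Agent.CUB.Base
import Pool.Agent.CUB.Star
import Pool.Agent.ZIso.Krull

/-!
# The Weierstrass form of the plane cubic
-/

set_option autoImplicit false

noncomputable section

namespace Pool.Agent.CUB

open Pool.Agent.ZCyc Pool.Agent.Dess Pool.Agent.GT
open Pool.Agent.VFP (Om tt)
open scoped Classical

variable {k : Type} [Field k] [IsAlgClosed k] [CharZero k] {F : MvPolynomial (Fin 6) k}

/-- the point of the plane cubic with the coordinates `x`, `y`, `z` -/
def pnt {K : Type} [Field K] (b : Fin 3 → Fin 6 → K) (x y z : K) : Fin 6 → K :=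
  x • b 0 + y • b 1 + z • b 2

/-- `o`, `b 0`, `b 1`, `b 2` is a basis of `V`, and `F` restricted to `V` has the Weierstrass form -/
structure Wei {K : Type} [Field K] [Algebra k K] (F : MvPolynomial (Fin 6) k) (o : Fin 6 → K)
    (V : Submodule K (Fin 6 → K)) (b : Fin 3 → Fin 6 → K) (α B : K) : Prop where
  cne : Cne F o V
  mem : ∀ i, b i ∈ V
  li : LinearIndependent K ![o, b 0, b 1, b 2]
  disc : B ^ 2 ≠ 4 * α ^ 3
  eq : ∀ x y z : K, tri F (pnt b x y z) (pnt b x y z) (pnt b x y z) =
    y ^ 2 * z - x ^ 3 + 3 * α * x * z ^ 2 - B * z ^ 3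

/-- the plane cubic is smooth -/
def SmC {K : Type} [Field K] [Algebra k K] (F : MvPolynomial (Fin 6) k) (o : Fin 6 → K)
    (V : Submodule K (Fin 6 → K)) : Prop :=
  ∀ s ∈ V, (∀ y ∈ V, tri F s s y = 0) → s ∈ Submodule.span K {o}

section

variable {K : Type} [Field K]

private theorem li4_iff {o a b c : Fin 6 → K} : LinearIndependent K ![o, a, b, c] ↔
    ∀ s t u v : K, s • o + t • a + u • b + v • c = 0 → s = 0 ∧ t = 0 ∧ u = 0 ∧ v = 0 := by
  rw [Fintype.linearIndependent_iff]
  constructor
  · intro h s t u v hs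
    have h1 := h ![s, t, u, v] (by
      rw [Fin.sum_univ_four]
      exact hs)
    exact ⟨h1 0, h1 1, h1 2, h1 3⟩
  · intro h g hg i
    rw [Fin.sum_univ_four] at hg
    obtain ⟨h0, h1, h2, h3⟩ := h (g 0) (g 1) (g 2) (g 3) hg
    fin_cases i
    · exact h0
    · exact h1
    · exact h2
    · exact h3

private theorem wei_span {V : Submodule K (Fin 6 → K)} (h4 : Module.finrank K V = 4)
    {o a b c : Fin 6 → K} (ho : o ∈ V) (ha : a ∈ V) (hb : b ∈ V) (hc : c ∈ V)
    (hli : LinearIndependent K ![o, a, b, c]) {y : Fin 6 → K} (hy : y ∈ V) :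
    ∃ s t u v : K, s • o + t • a + u • b + v • c = y := by
  have h1 : Submodule.span K (Set.range ![o, a, b, c]) ≤ V := by
    rw [Submodule.span_le]
    rintro _ ⟨i, rfl⟩
    fin_cases i
    · exact ho
    · exact ha
    · exact hb
    · exact hc
  have h2 : Submodule.span K (Set.range ![o, a, b, c]) = V := by
    refine Submodule.eq_of_le_of_finrank_eq h1 ?_
    rw [finrank_span_eq_card hli, h4]
    rfl
  rw [← h2, Submodule.mem_span_range_iff_exists_fun] at hy
  obtain ⟨g, hg⟩ := hy
  rw [Fin.sum_univ_four] at hg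
  exact ⟨g 0, g 1, g 2, g 3, hg⟩

private theorem wei_basis {V : Submodule K (Fin 6 → K)} (h4 : Module.finrank K V = 4)
    {o : Fin 6 → K} (ho : o ∈ V) (h0 : o ≠ 0) : ∃ a ∈ V, ∃ b ∈ V, ∃ c ∈ V,
    LinearIndependent K ![o, a, b, c] := by
  have hfin : Module.Finite K V := inferInstance
  have e0 : LinearIndependent K (![⟨o, ho⟩] : Fin 1 → V) := by
    rw [linearIndependent_unique_iff]
    intro h
    exact h0 (congrArg Subtype.val h)
  obtain ⟨a, ha⟩ := exists_linearIndependent_snoc_of_lt_finrank e0 (by rw [h4]; norm_num)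
  obtain ⟨b, hb⟩ := exists_linearIndependent_snoc_of_lt_finrank ha (by rw [h4]; norm_num)
  obtain ⟨c, hc⟩ := exists_linearIndependent_snoc_of_lt_finrank hb (by rw [h4]; norm_num)
  refine ⟨a, a.2, b, b.2, c, c.2, ?_⟩
  have h1 := hc.map' V.subtype (Submodule.ker_subtype V)
  have h2 : (V.subtype ∘ (Fin.snoc (Fin.snoc (Fin.snoc (![⟨o, ho⟩] : Fin 1 → V) a) b) c :
      Fin 4 → V)) = ![o, (a : Fin 6 → K), b, c] := by
    funext i
    fin_cases i <;> rfl
  rw [← h2]
  exact h1

variable {k : Type} [Field k] [Algebra k K] (F : MvPolynomial (Fin 6) k)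

private theorem tri_baa (a b : Fin 6 → K) : tri F b a a = tri F a a b := by
  rw [tri_swap12, tri_swap23]

private theorem tri_aba (a b : Fin 6 → K) : tri F a b a = tri F a a b := by
  rw [tri_swap23]

/-- the cubic form in coordinates -/
private theorem tri_expand (a b c : Fin 6 → K) (x y z : K) :
    tri F (x • a + y • b + z • c) (x • a + y • b + z • c) (x • a + y • b + z • c) =
      x ^ 3 * tri F a a a + 3 * x ^ 2 * y * tri F a a b + 3 * x ^ 2 * z * tri F a a c +
      3 * x * y ^ 2 * tri F b b a + 6 * x * y * z * tri F a b c + 3 * x * z ^ 2 * tri F c c a +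
      y ^ 3 * tri F b b b + 3 * y ^ 2 * z * tri F b b c + 3 * y * z ^ 2 * tri F c c b +
      z ^ 3 * tri F c c c := by
  have e1 : tri F a c b = tri F a b c := tri_swap23 F a c b
  have e2 : tri F b a c = tri F a b c := tri_swap12 F b a c
  have e3 : tri F b c a = tri F a b c := by rw [tri_swap23, tri_swap12]
  have e4 : tri F c a b = tri F a b c := by rw [tri_swap12, tri_swap23]
  have e5 : tri F c b a = tri F a b c := by rw [tri_swap12, tri_swap23, tri_swap12]
  simp only [tri_add1, tri_add2, tri_add3, tri_smul1, tri_smul2, tri_smul3, e1, e2, e3, e4, e5,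
    tri_baa F a b, tri_baa F a c, tri_baa F b a, tri_baa F b c, tri_baa F c a, tri_baa F c b,
    tri_aba F a b, tri_aba F a c, tri_aba F b a, tri_aba F b c, tri_aba F c a, tri_aba F c b]
  ring

/-- the polar form in coordinates -/
private theorem tri_expand2 (a b c d : Fin 6 → K) (x y z : K) :
    tri F (x • a + y • b + z • c) (x • a + y • b + z • c) d =
      x ^ 2 * tri F a a d + y ^ 2 * tri F b b d + z ^ 2 * tri F c c d +
      2 * x * y * tri F a b d + 2 * x * z * tri F a c d + 2 * y * z * tri F b c d := by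
  have e1 : tri F b a d = tri F a b d := tri_swap12 F b a d
  have e2 : tri F c a d = tri F a c d := tri_swap12 F c a d
  have e3 : tri F c b d = tri F b c d := tri_swap12 F c b d
  simp only [tri_add1, tri_add2, tri_smul1, tri_smul2, e1, e2, e3]
  ring

/-- A singular point lies in `⟨o⟩`; so there is none with nonzero last coordinates. -/
private theorem sing_criterion {o : Fin 6 → K} {V : Submodule K (Fin 6 → K)} (hV : Cne F o V)
    (hs : SmC F o V) {a b c : Fin 6 → K} (ha : a ∈ V) (hb : b ∈ V) (hc : c ∈ V)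
    (hli : LinearIndependent K ![o, a, b, c]) {x y z : K}
    (h1 : tri F (x • a + y • b + z • c) (x • a + y • b + z • c) a = 0)
    (h2 : tri F (x • a + y • b + z • c) (x • a + y • b + z • c) b = 0)
    (h3 : tri F (x • a + y • b + z • c) (x • a + y • b + z • c) c = 0) :
    x = 0 ∧ y = 0 ∧ z = 0 := by
  set w := x • a + y • b + z • c with hw
  have hwV : w ∈ V := V.add_mem (V.add_mem (V.smul_mem _ ha) (V.smul_mem _ hb)) (V.smul_mem _ hc)
  have h4 : ∀ d ∈ V, tri F w w d = 0 := by
    intro d hd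
    obtain ⟨s, t, u, v, rfl⟩ := wei_span hV.four hV.mem ha hb hc hli hd
    have h5 : tri F w w o = 0 := by
      rw [tri_swap23, tri_swap12]
      exact hV.zero _ hwV _ hwV
    rw [tri_add3, tri_add3, tri_add3, tri_smul3, tri_smul3, tri_smul3, tri_smul3, h1, h2, h3, h5]
    ring
  obtain ⟨r, hr⟩ := Submodule.mem_span_singleton.1 (hs w hwV h4)
  have h6 := li4_iff.1 hli (-r) x y z (by
    rw [neg_smul, hr, hw]
    abel)
  exact h6.2

end

omit [IsAlgClosed k] in
private theorem charZero_wei : CharZero (Om k) :=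
  charZero_of_injective_algebraMap (algebraMap k (Om k)).injective

omit [IsAlgClosed k] [CharZero k] in
/-- A flex of the plane cubic. -/
private theorem exists_flex {K : Type} [Field K] [IsAlgClosed K] [Algebra k K] {o : Fin 6 → K}
    (ho : o ≠ 0) {V : Submodule K (Fin 6 → K)} (hV : Cne F o V) : ∃ p ∈ V, ∃ q ∈ V,
    tri F p p p = 0 ∧ (∀ y ∈ V, tri F p q y = 0) ∧
      (∀ s t : K, s • o + t • p = 0 → s = 0 ∧ t = 0) ∧
      ∀ s t : K, s • o + t • q = 0 → s = 0 ∧ t = 0 := by
  obtain ⟨a, ha, b, hb, c, hc, hli⟩ := wei_basis hV.four hV.mem ho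
  obtain ⟨u, hu⟩ : ∃ u : Fin 3 → Fin 6 → K, u = ![a, b, c] := ⟨_, rfl⟩
  have huV : ∀ i, u i ∈ V := by
    intro i
    rw [hu]
    fin_cases i
    · exact ha
    · exact hb
    · exact hc
  have hcomb : ∀ x : Fin 3 → K, ∑ i, x i • u i ∈ V := fun x =>
    V.sum_mem fun i _ => V.smul_mem _ (huV i)
  have hind : ∀ x : Fin 3 → K, x ≠ 0 → ∀ s t : K, s • o + t • ∑ i, x i • u i = 0 →
      s = 0 ∧ t = 0 := by
    intro x hx s t hst
    rw [Fin.sum_univ_three, hu] at hst
    have h1 := li4_iff.1 hli s (t * x 0) (t * x 1) (t * x 2) (by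
      rw [← hst]
      simp only [Matrix.cons_val_zero, Matrix.cons_val_one, Matrix.cons_val, smul_add, smul_smul]
      abel)
    refine ⟨h1.1, ?_⟩
    by_contra ht
    apply hx
    funext i
    obtain ⟨-, h2, h3, h4⟩ := h1
    fin_cases i
    · exact (mul_eq_zero.1 h2).resolve_left ht
    · exact (mul_eq_zero.1 h3).resolve_left ht
    · exact (mul_eq_zero.1 h4).resolve_left ht
  -- the two equations
  have tsum1 : ∀ (x : Fin 3 → K) (y z : Fin 6 → K),
      tri F (∑ i, x i • u i) y z = ∑ i, x i * tri F (u i) y z := by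
    intro x y z
    rw [Fin.sum_univ_three, Fin.sum_univ_three, tri_add1, tri_add1, tri_smul1, tri_smul1, tri_smul1]
  have tsum2 : ∀ (x : Fin 3 → K) (y z : Fin 6 → K),
      tri F y (∑ i, x i • u i) z = ∑ i, x i * tri F y (u i) z := by
    intro x y z
    rw [Fin.sum_univ_three, Fin.sum_univ_three, tri_add2, tri_add2, tri_smul2, tri_smul2, tri_smul2]
  have tsum3 : ∀ (x : Fin 3 → K) (y z : Fin 6 → K),
      tri F y z (∑ i, x i • u i) = ∑ i, x i * tri F y z (u i) := by
    intro x y z
    rw [Fin.sum_univ_three, Fin.sum_univ_three, tri_add3, tri_add3, tri_smul3, tri_smul3, tri_smul3]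
  let L : Fin 3 → Fin 3 → MvPolynomial (Fin 3) K := fun i j =>
    ∑ l, MvPolynomial.C (tri F (u l) (u i) (u j)) * MvPolynomial.X l
  have hL : ∀ (x : Fin 3 → K) i j,
      MvPolynomial.eval x (L i j) = tri F (∑ l, x l • u l) (u i) (u j) := by
    intro x i j
    simp only [L, map_sum, map_mul, MvPolynomial.eval_C, MvPolynomial.eval_X]
    rw [tsum1]
    exact Finset.sum_congr rfl fun l _ => mul_comm _ _
  let f : Fin 2 → MvPolynomial (Fin 3) K := ![∑ i, ∑ j, L i j * MvPolynomial.X i * MvPolynomial.X j,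
    Matrix.det (Matrix.of L)]
  have hf0 : ∀ x : Fin 3 → K, MvPolynomial.eval x (f 0) =
      tri F (∑ l, x l • u l) (∑ l, x l • u l) (∑ l, x l • u l) := by
    intro x
    change MvPolynomial.eval x (∑ i, ∑ j, L i j * MvPolynomial.X i * MvPolynomial.X j) = _
    simp only [map_sum, map_mul, MvPolynomial.eval_X, hL]
    rw [tsum2]
    refine Finset.sum_congr rfl fun i _ => ?_
    rw [tsum3, Finset.mul_sum]
    refine Finset.sum_congr rfl fun j _ => ?_
    ring
  have hf1 : ∀ x : Fin 3 → K, MvPolynomial.eval x (f 1) =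
      Matrix.det (Matrix.of fun i j => tri F (∑ l, x l • u l) (u i) (u j)) := by
    intro x
    change MvPolynomial.eval x (Matrix.det (Matrix.of L)) = _
    rw [RingHom.map_det]
    congr 1
    ext i j
    exact hL x i j
  obtain ⟨x, hx, hfx⟩ := ZIso.exists_ne_zero (κ := Fin 2) (ι := Fin 3) (by simp) f (by
    intro i
    have h0 : ∑ l, (0 : Fin 3 → K) l • u l = 0 := by simp
    fin_cases i
    · change MvPolynomial.eval (0 : Fin 3 → K) (f 0) = 0
      rw [hf0, h0, tri_zero1]
    · change MvPolynomial.eval (0 : Fin 3 → K) (f 1) = 0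
      rw [hf1, h0]
      have h1 : (Matrix.of fun i j => tri F (0 : Fin 6 → K) (u i) (u j)) = 0 := by
        ext i j
        exact tri_zero1 F _ _
      rw [h1]
      exact Matrix.det_zero)
  have e0 := hfx 0
  have e1 := hfx 1
  rw [hf0] at e0
  rw [hf1] at e1
  obtain ⟨y, hy, hy0⟩ := Matrix.exists_mulVec_eq_zero_iff.2 e1
  refine ⟨_, hcomb x, _, hcomb y, e0, ?_, hind x hx, hind y hy⟩
  intro w hw
  have h1 : ∀ i, tri F (∑ l, x l • u l) (∑ l, y l • u l) (u i) = 0 := by
    intro i
    have h2 := congrFun hy0 i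
    rw [Matrix.mulVec, dotProduct] at h2
    rw [tsum2, ← Pi.zero_apply (M := fun _ : Fin 3 => K) i, ← h2]
    refine Finset.sum_congr rfl fun j _ => ?_
    rw [Matrix.of_apply, tri_swap23, mul_comm]
  obtain ⟨s, t, r, v, rfl⟩ := wei_span hV.four hV.mem ha hb hc hli hw
  have h2 : tri F (∑ l, x l • u l) (∑ l, y l • u l) o = 0 := by
    rw [tri_swap23, tri_swap12]
    exact hV.zero _ (hcomb x) _ (hcomb y)
  have h3 := h1 0
  have h4 := h1 1
  have h5 := h1 2
  rw [hu] at h3 h4 h5 h2 ⊢
  simp only [Matrix.cons_val_zero, Matrix.cons_val_one, Matrix.cons_val] at h3 h4 h5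
  rw [tri_add3, tri_add3, tri_add3, tri_smul3, tri_smul3, tri_smul3, tri_smul3, h2, h3, h4, h5]
  ring

omit [IsAlgClosed k] [CharZero k] in
private theorem wei_gen {K : Type} [Field K] [IsAlgClosed K] [CharZero K] [Algebra k K]
    {o : Fin 6 → K} (ho : o ≠ 0) {V : Submodule K (Fin 6 → K)} (hV : Cne F o V)
    (hs : SmC F o V) : ∃ (b : Fin 3 → Fin 6 → K) (α B : K), Wei F o V b α B := by
  obtain ⟨p, hp, q, hq, hppp, hpq, hpo, hqo⟩ := exists_flex ho hV
  -- smoothness at `p`
  obtain ⟨e, he, hppe⟩ : ∃ e ∈ V, tri F p p e ≠ 0 := by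
    by_contra hcon
    push Not at hcon
    obtain ⟨r, hr⟩ := Submodule.mem_span_singleton.1 (hs p hp hcon)
    have := (hpo (-r) 1 (by rw [neg_smul, hr, one_smul]; abel)).2
    exact one_ne_zero this
  have hppo : tri F p p o = 0 := by
    rw [tri_swap23, tri_swap12]
    exact hV.zero _ hp _ hp
  have hppq : tri F p p q = 0 := by
    rw [tri_swap23]
    exact hpq p hp
  have hqqp : tri F q q p = 0 := by
    rw [tri_swap23, tri_swap12]
    exact hpq q hq
  have hli : LinearIndependent K ![o, q, p, e] := by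
    rw [li4_iff]
    intro s t u v h
    have h1 : v = 0 := by
      have h2 := congrArg (fun w => tri F p p w) h
      simp only [tri_add3, tri_smul3, tri_zero3] at h2
      rw [hppo, hppq, hppp] at h2
      simp only [mul_zero, zero_add, add_zero] at h2
      exact (mul_eq_zero.1 h2).resolve_right hppe
    subst h1
    rw [zero_smul, add_zero] at h
    have h3 : u = 0 := by
      -- `tri F p _ e`
      have h2 := congrArg (fun w => tri F p w e) h
      simp only [tri_add2, tri_smul2, tri_zero2] at h2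
      have h4 : tri F p o e = 0 := by
        rw [tri_swap12]
        exact hV.zero _ hp _ he
      rw [h4, hpq e he] at h2
      simp only [mul_zero, zero_add] at h2
      exact (mul_eq_zero.1 h2).resolve_right hppe
    subst h3
    rw [zero_smul, add_zero] at h
    obtain ⟨h5, h6⟩ := hqo s t h
    exact ⟨h5, h6, rfl, rfl⟩
  -- the coefficient of `x ^ 3`
  have hqqq : tri F q q q ≠ 0 := by
    intro h0
    obtain ⟨s, hs2⟩ := IsAlgClosed.exists_pow_nat_eq (-(tri F q q e / tri F p p e)) (n := 2)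
      two_pos
    have h1 := sing_criterion F hV hs hq hp he hli (x := 1) (y := s) (z := 0) ?_ ?_ ?_
    · exact one_ne_zero h1.1
    · rw [tri_expand2]
      have a1 : tri F q p q = 0 := by rw [tri_swap23]; exact hqqp
      rw [h0, tri_swap23 F p p q] at *
      rw [hpq p hp, a1]
      ring
    · rw [tri_expand2]
      have a1 : tri F q p p = 0 := by rw [tri_swap12]; exact hpq p hp
      rw [hqqp, hppp, a1]
      ring
    · rw [tri_expand2]
      have a1 : tri F q p e = 0 := by rw [tri_swap12]; exact hpq e he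
      rw [a1, hs2]
      field_simp
      ring
  -- complete the square and the cube
  obtain ⟨μ, hμ⟩ : ∃ μ : K, μ = -(tri F q q e / tri F q q q) := ⟨_, rfl⟩
  obtain ⟨lam, hlam⟩ : ∃ lam : K, lam = -(tri F e e p / (2 * tri F p p e)) := ⟨_, rfl⟩
  obtain ⟨σ, hσ⟩ := IsAlgClosed.exists_pow_nat_eq (-(1 / tri F q q q)) (n := 3) (by norm_num)
  obtain ⟨τ, hτ⟩ := IsAlgClosed.exists_pow_nat_eq (1 / (3 * tri F p p e)) (n := 2) two_pos
  have hσ0 : σ ≠ 0 := by
    rintro rfl
    rw [zero_pow (by norm_num)] at hσ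
    exact (neg_ne_zero.2 (one_div_ne_zero hqqq)) hσ.symm
  have hτ0 : τ ≠ 0 := by
    rintro rfl
    rw [zero_pow (by norm_num)] at hτ
    exact (one_div_ne_zero (mul_ne_zero three_ne_zero hppe)) hτ.symm
  obtain ⟨f, hf⟩ : ∃ f : Fin 6 → K, f = μ • q + lam • p + (1 : K) • e := ⟨_, rfl⟩
  have hfV : f ∈ V := by
    rw [hf]
    exact V.add_mem (V.add_mem (V.smul_mem _ hq) (V.smul_mem _ hp)) (V.smul_mem _ he)
  have hpqe := hpq e he
  have hqpe : tri F q p e = 0 := by rw [tri_swap12]; exact hpqe
  have hpqp : tri F p q p = 0 := hpq p hp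
  have hpqq : tri F p q q = 0 := hpq q hq
  have hqqf : tri F q q f = 0 := by
    rw [hf, tri_add3, tri_add3, tri_smul3, tri_smul3, tri_smul3, hqqp, hμ]
    field_simp
    ring
  have hffp : tri F f f p = 0 := by
    rw [hf, tri_expand2, hqqp, hppp]
    have a1 : tri F q p p = 0 := by rw [tri_swap12]; exact hpqp
    have a2 : tri F q e p = 0 := by rw [tri_swap23]; exact hqpe
    have a3 : tri F p e p = tri F p p e := tri_swap23 F p e p
    rw [a1, a2, a3, hlam]
    field_simp
    ring
  have hppf : tri F p p f = tri F p p e := by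
    rw [hf, tri_add3, tri_add3, tri_smul3, tri_smul3, tri_smul3, hppq, hppp]
    ring
  have hqpf : tri F q p f = 0 := by
    rw [tri_swap12]
    exact hpq f hfV
  have hli' : LinearIndependent K ![o, σ • q, τ • p, f] := by
    rw [li4_iff]
    intro s t u v h
    have h1 := li4_iff.1 hli s (t * σ + v * μ) (u * τ + v * lam) v (by
      rw [← h, hf]
      module)
    obtain ⟨h2, h3, h4, h5⟩ := h1
    subst h5
    rw [zero_mul, add_zero] at h3 h4
    exact ⟨h2, (mul_eq_zero.1 h3).resolve_right hσ0, (mul_eq_zero.1 h4).resolve_right hτ0, rfl⟩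
  have hqV := V.smul_mem σ hq
  have hpV := V.smul_mem τ hp
  have eq : ∀ x y z : K, tri F (x • σ • q + y • τ • p + z • f) (x • σ • q + y • τ • p + z • f)
      (x • σ • q + y • τ • p + z • f) = y ^ 2 * z - x ^ 3 + 3 * (σ * tri F f f q) * x * z ^ 2 -
        -tri F f f f * z ^ 3 := by
    intro x y z
    rw [tri_expand]
    simp only [tri_smul1, tri_smul2, tri_smul3]
    rw [hqqp, hqqf, hppq, hqpf, hppp, hppf, hffp]
    have h1 : σ * (σ * (σ * tri F q q q)) = -1 := by
      have : σ * (σ * (σ * tri F q q q)) = σ ^ 3 * tri F q q q := by ring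
      rw [this, hσ]
      field_simp
    have h2 : τ * (τ * tri F p p e) = 1 / 3 := by
      have : τ * (τ * tri F p p e) = τ ^ 2 * tri F p p e := by ring
      rw [this, hτ]
      field_simp
    rw [h1, h2]
    ring
  refine ⟨![σ • q, τ • p, f], σ * tri F f f q, -tri F f f f, hV, ?_, hli', ?_, fun x y z => ?_⟩
  · intro i
    fin_cases i
    · exact hqV
    · exact hpV
    · exact hfV
  · -- the discriminant
    intro hd
    obtain ⟨s, hs2⟩ := IsAlgClosed.exists_pow_nat_eq (σ * tri F f f q) (n := 2) two_pos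
    obtain ⟨r, hr1, hr2⟩ : ∃ r : K, r ^ 2 = σ * tri F f f q ∧ 2 * r ^ 3 = -tri F f f f := by
      have h1 : (2 * s ^ 3 - -tri F f f f) * (2 * s ^ 3 + -tri F f f f) = 0 := by
        have : (2 * s ^ 3 - -tri F f f f) * (2 * s ^ 3 + -tri F f f f) =
            4 * (s ^ 2) ^ 3 - (-tri F f f f) ^ 2 := by ring
        rw [this, hs2, hd]
        ring
      rcases mul_eq_zero.1 h1 with h2 | h2
      · exact ⟨s, hs2, sub_eq_zero.1 h2⟩
      · refine ⟨-s, by rw [neg_sq, hs2], ?_⟩
        have : 2 * (-s) ^ 3 = -(2 * s ^ 3) := by ring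
        rw [this]
        exact (neg_eq_of_add_eq_zero_right h2)
    have hσq : tri F (σ • q) (σ • q) (σ • q) = -1 := by
      have := eq 1 0 0
      simp only [one_smul, zero_smul, add_zero] at this
      rw [this]
      ring
    have h1 := sing_criterion F hV hs hqV hpV hfV hli' (x := r) (y := 0) (z := 1) ?_ ?_ ?_
    · exact one_ne_zero h1.2.2
    · rw [tri_expand2]
      have a1 : tri F (σ • q) f (σ • q) = 0 := by
        rw [tri_swap23, tri_smul1, tri_smul2, hqqf]
        ring
      rw [hσq, a1, hr1, tri_smul3 F σ f f q]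
      ring
    · rw [tri_expand2]
      have a1 : tri F (σ • q) (σ • q) (τ • p) = 0 := by
        rw [tri_smul1, tri_smul2, tri_smul3, hqqp]
        ring
      have a2 : tri F f f (τ • p) = 0 := by
        rw [tri_smul3, hffp]
        ring
      have a3 : tri F (σ • q) f (τ • p) = 0 := by
        rw [tri_swap23, tri_smul1, tri_smul2, hqpf]
        ring
      rw [a1, a2, a3]
      ring
    · rw [tri_expand2]
      have a1 : tri F (σ • q) (σ • q) f = 0 := by
        rw [tri_smul1, tri_smul2, hqqf]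
        ring
      have a2 : tri F (σ • q) f f = σ * tri F f f q := by
        rw [tri_smul1, tri_swap12, tri_swap23]
      rw [a1, a2, ← hr1]
      have : tri F f f f = -(2 * r ^ 3) := by rw [hr2]; ring
      rw [this]
      ring
  · exact eq x y z

/-- The normal form of a smooth plane cubic. Let `U` be a complement of `⟨o⟩` in `V`, dimension `3`.
FLEX: there is `p ∈ U`, `p ≠ 0`, with `F(p) = 0` and `det (tri F p u_i u_j) = 0` (`u_i` a basis of `U`; two
homogeneous equations, `ZIso.exists_ne_zero`), so there is `q ∈ U`, `q ≠ 0`, with `tri F p q u = 0` for all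
`u ∈ U`. By smoothness there is `e ∈ U` with `tri F p p e ≠ 0`; so `q` is not in `⟨p⟩`, and `q`, `p`, `e` is a
basis of `U` (`tri F p p q = 0`). `tri F q q q ≠ 0`: otherwise for `w = s p + t q` we have
`tri F w w p = tri F w w q = 0` and `tri F w w e = s ² tri F p p e + t ² tri F q q e`, so there is a singular
point. In the coordinates `x q + y p + z e` the form is
`γ x³ + 3 A x² z + 3 C x z² + D z³ + 3 E y² z + 3 G y z²`, `γ ≠ 0`, `E ≠ 0`; now complete the square and the
cube, and scale. Every vector of `V` is `c o + u`, and `F` and `tri F _ _ y` do not see `o`. The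
discriminant is not zero because of the smoothness (`(e, 0, 1)` is singular for `e ² = α`,
`2 e ³ = B`). -/
theorem exists_wei (hF : Smooth F) {o : Fin 6 → Om k} (ho : o ≠ 0)
    {V : Submodule (Om k) (Fin 6 → Om k)} (hV : Cne F o V) (hs : SmC F o V) :
    ∃ (b : Fin 3 → Fin 6 → Om k) (α B : Om k), Wei F o V b α B := by
  have hch : CharZero (Om k) := charZero_wei
  exact wei_gen ho hV hs

end Pool.Agent.CUB
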