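import Pool.Agent.CUB.Wei

/-!
# Lines and the Weierstrass form
-/

set_option autoImplicit false

noncomputable section

namespace Pool.Agent.CUB

open Pool.Agent.ZCyc Pool.Agent.Dess Pool.Agent.GT
open Pool.Agent.VFP (Om tt)
open scoped Classical

variable {k : Type} [Field k] [IsAlgClosed k] [CharZero k] {F : MvPolynomial (Fin 6) k}

section Aux

variable {K : Type} [Field K] [Algebra k K] {o : Fin 6 → K} {V : Submodule K (Fin 6 → K)}
  {b : Fin 3 → Fin 6 → K} {α B : K}

omit [IsAlgClosed k] [CharZero k] in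
private theorem weib_li (h : Wei F o V b α B) {s x y z : K}
    (e : s • o + x • b 0 + y • b 1 + z • b 2 = 0) : s = 0 ∧ x = 0 ∧ y = 0 ∧ z = 0 := by
  have h1 := Fintype.linearIndependent_iff.1 h.li ![s, x, y, z] (by
    rw [Fin.sum_univ_four]
    simpa using e)
  exact ⟨h1 0, h1 1, h1 2, h1 3⟩

omit [IsAlgClosed k] [CharZero k] in
private theorem weib_span (h : Wei F o V b α B) {w : Fin 6 → K} (hw : w ∈ V) :
    ∃ c x y z : K, w = c • o + pnt b x y z := by
  have h1 : Submodule.span K (Set.range ![o, b 0, b 1, b 2]) = V := by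
    apply Submodule.eq_of_le_of_finrank_eq
    · rw [Submodule.span_le]
      rintro _ ⟨i, rfl⟩
      fin_cases i
      · exact h.cne.mem
      · exact h.mem 0
      · exact h.mem 1
      · exact h.mem 2
    · rw [finrank_span_eq_card h.li, h.cne.four, Fintype.card_fin]
  rw [← h1, Submodule.mem_span_range_iff_exists_fun] at hw
  obtain ⟨c, hc⟩ := hw
  refine ⟨c 0, c 1, c 2, c 3, ?_⟩
  rw [← hc, Fin.sum_univ_four]
  simp [pnt, add_assoc]

omit [IsAlgClosed k] [CharZero k] in
private theorem weib_pair (h : Wei F o V b α B) {x y z : K} (hxyz : x ≠ 0 ∨ y ≠ 0 ∨ z ≠ 0) :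
    LinearIndependent K ![o, pnt b x y z] := by
  rw [LinearIndependent.pair_iff]
  intro s t e
  have h1 := weib_li h (s := s) (x := t * x) (y := t * y) (z := t * z) (by
    rw [← e]
    simp only [pnt, smul_add, smul_smul, add_assoc])
  refine ⟨h1.1, ?_⟩
  rcases hxyz with h2 | h2 | h2
  · exact (mul_eq_zero.1 h1.2.1).resolve_right h2
  · exact (mul_eq_zero.1 h1.2.2.1).resolve_right h2
  · exact (mul_eq_zero.1 h1.2.2.2).resolve_right h2

omit [IsAlgClosed k] [CharZero k] in
private theorem weib_eq {x : Ln F K} {a b : Fin 6 → K} (h : LinearIndependent K ![a, b])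
    (ha : a ∈ x.W) (hb : b ∈ x.W) : x.W = Submodule.span K {a, b} := by
  refine (Submodule.eq_of_le_of_finrank_eq ?_ ?_).symm
  · rw [Submodule.span_le]
    rintro c (rfl | rfl)
    · exact ha
    · exact hb
  · have h1 : ({a, b} : Set (Fin 6 → K)) = Set.range ![a, b] := by
      simp [Matrix.range_cons, Set.pair_comm]
    rw [h1, finrank_span_eq_card h, x.two, Fintype.card_fin]

omit [IsAlgClosed k] [CharZero k] in
private theorem weib_scale (h : Wei F o V b α B) {v : K} (hv : v ≠ 0) :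
    Wei F o V ![b 0, v • b 1, (v ^ 2)⁻¹ • b 2] (α * (v ^ 4)⁻¹) (B * (v ^ 6)⁻¹) where
  cne := h.cne
  mem := by
    intro i
    fin_cases i
    · exact h.mem 0
    · exact V.smul_mem _ (h.mem 1)
    · exact V.smul_mem _ (h.mem 2)
  li := by
    rw [Fintype.linearIndependent_iff]
    intro g hg
    rw [Fin.sum_univ_four] at hg
    have h1 := weib_li h (s := g 0) (x := g 1) (y := g 2 * v) (z := g 3 * (v ^ 2)⁻¹) (by
      rw [← hg]
      simp [smul_smul])
    intro i
    fin_cases i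
    · exact h1.1
    · exact h1.2.1
    · exact (mul_eq_zero.1 h1.2.2.1).resolve_right hv
    · exact (mul_eq_zero.1 h1.2.2.2).resolve_right (inv_ne_zero (pow_ne_zero 2 hv))
  disc := by
    intro e
    apply h.disc
    have h1 : B ^ 2 = (B * (v ^ 6)⁻¹) ^ 2 * v ^ 12 := by field_simp
    have h2 : 4 * α ^ 3 = 4 * (α * (v ^ 4)⁻¹) ^ 3 * v ^ 12 := by field_simp
    rw [h1, h2, e]
  eq := by
    intro x y z
    have h1 : pnt ![b 0, v • b 1, (v ^ 2)⁻¹ • b 2] x y z = pnt b x (v * y) ((v ^ 2)⁻¹ * z) := by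
      simp [pnt, smul_smul, mul_comm]
    rw [h1, h.eq]
    field_simp

end Aux

/-- If the `j`-invariant is constant then the coefficients can be chosen constant: scale the
coordinates (`x ↦ c² x`, `y ↦ c³ y`, and a cube root of `c ^ 6` is `c ²`). -/
theorem wei_cst {o : Fin 6 → Om k} {V : Submodule (Om k) (Fin 6 → Om k)}
    {b : Fin 3 → Fin 6 → Om k} {α B : Om k} (h : Wei F o V b α B) {a a' : k}
    (haa : a ≠ 0 ∨ a' ≠ 0)
    (hj : algebraMap k (Om k) a * α ^ 3 = algebraMap k (Om k) a' * B ^ 2) :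
    ∃ (b' : Fin 3 → Fin 6 → Om k) (α' B' : k),
      Wei F o V b' (algebraMap k (Om k) α') (algebraMap k (Om k) B') := by
  have hcst : ∀ {v : Om k}, v ≠ 0 → ∀ {α' B' : k}, α * (v ^ 4)⁻¹ = algebraMap k (Om k) α' →
      B * (v ^ 6)⁻¹ = algebraMap k (Om k) B' → ∃ (b' : Fin 3 → Fin 6 → Om k) (α' B' : k),
      Wei F o V b' (algebraMap k (Om k) α') (algebraMap k (Om k) B') := by
    intro v hv α' B' h1 h2
    exact ⟨_, α', B', h1 ▸ h2 ▸ weib_scale h hv⟩
  by_cases hα : α = 0
  · have hB : B ≠ 0 := by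
      rintro rfl
      apply h.disc
      rw [hα]
      ring
    obtain ⟨v, hv⟩ := IsAlgClosed.exists_pow_nat_eq B (n := 6) (by norm_num)
    have hv0 : v ≠ 0 := by
      rintro rfl
      exact hB (by rw [← hv]; ring)
    refine hcst hv0 (α' := 0) (B' := 1) ?_ ?_
    · rw [hα, zero_mul, map_zero]
    · rw [hv, map_one, mul_inv_cancel₀ hB]
  · obtain ⟨v, hv⟩ := IsAlgClosed.exists_pow_nat_eq α (n := 4) (by norm_num)
    have hv0 : v ≠ 0 := by
      rintro rfl
      exact hα (by rw [← hv]; ring)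
    have ha' : a' ≠ 0 := by
      rintro rfl
      rw [map_zero, zero_mul] at hj
      rcases mul_eq_zero.1 hj with h1 | h1
      · have h2 : a = 0 := (map_eq_zero_iff _ (algebraMap k (Om k)).injective).1 h1
        rcases haa with h3 | h3
        · exact h3 h2
        · exact h3 rfl
      · exact hα (pow_eq_zero_iff (by norm_num) |>.1 h1)
    obtain ⟨r, hr⟩ := IsAlgClosed.exists_pow_nat_eq (a / a') (n := 2) (by norm_num)
    have ha'' : algebraMap k (Om k) a' ≠ 0 :=
      (map_ne_zero_iff _ (algebraMap k (Om k)).injective).2 ha'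
    have h1 : (B * (v ^ 6)⁻¹) ^ 2 = (algebraMap k (Om k) r) ^ 2 := by
      rw [← map_pow, hr, map_div₀]
      have h2 : (B * (v ^ 6)⁻¹) ^ 2 = B ^ 2 / α ^ 3 := by
        rw [← hv]
        field_simp
      rw [h2, div_eq_div_iff (pow_ne_zero 3 hα) ha'']
      linear_combination -hj
    have h3 : α * (v ^ 4)⁻¹ = algebraMap k (Om k) 1 := by
      rw [hv, map_one, mul_inv_cancel₀ hα]
    rcases sq_eq_sq_iff_eq_or_eq_neg.1 h1 with h2 | h2
    · exact hcst hv0 h3 h2
    · exact hcst hv0 h3 (B' := -r) (by rw [h2, map_neg])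

/-- the lines through `o` in `V` -/
theorem wei_line {K : Type} [Field K] [Algebra k K] {o : Fin 6 → K}
    {V : Submodule K (Fin 6 → K)} {b : Fin 3 → Fin 6 → K} {α B : K} (hF : Smooth F)
    (h : Wei F o V b α B) {n : Ln F K} (hn : o ∈ n.W) (hnV : n.W ≤ V) :
    n.W = Submodule.span K {o, b 1} ∨ ∃ x y : K, y ^ 2 = x ^ 3 - 3 * α * x + B ∧
      n.W = Submodule.span K {o, pnt b x y 1} := by
  obtain ⟨w, hw, hwo⟩ : ∃ w ∈ n.W, w ∉ Submodule.span K {o} := by
    by_contra hc
    push Not at hc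
    have h1 : n.W ≤ Submodule.span K {o} := hc
    have h2 := Submodule.finrank_mono h1
    have h3 : o ≠ 0 := h.li.ne_zero 0
    rw [n.two, finrank_span_singleton h3] at h2
    omega
  obtain ⟨c, x, y, z, hxyz⟩ := weib_span h (hnV hw)
  have hp : pnt b x y z ∈ n.W := by
    have h1 : pnt b x y z = w - c • o := by rw [hxyz]; abel
    rw [h1]
    exact n.W.sub_mem hw (n.W.smul_mem _ hn)
  have he : y ^ 2 * z - x ^ 3 + 3 * α * x * z ^ 2 - B * z ^ 3 = 0 := by
    rw [← h.eq, n.tri_zero hF hp hp hp]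
  by_cases hz : z = 0
  · left
    subst hz
    have hx : x = 0 := by
      have h1 : x ^ 3 = 0 := by linear_combination -he
      exact pow_eq_zero_iff (by norm_num) |>.1 h1
    subst hx
    have hy : y ≠ 0 := by
      rintro rfl
      apply hwo
      rw [hxyz, Submodule.mem_span_singleton]
      exact ⟨c, by simp [pnt]⟩
    have hb : b 1 ∈ n.W := by
      have h1 : b 1 = y⁻¹ • pnt b 0 y 0 := by
        simp [pnt, smul_smul, inv_mul_cancel₀ hy]
      rw [h1]
      exact n.W.smul_mem _ hp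
    refine weib_eq ?_ hn hb
    have h2 := weib_pair h (x := 0) (y := 1) (z := 0) (Or.inr (Or.inl one_ne_zero))
    have h3 : pnt b 0 1 0 = b 1 := by simp [pnt]
    rwa [h3] at h2
  · right
    refine ⟨x / z, y / z, ?_, ?_⟩
    · field_simp
      linear_combination he
    · refine weib_eq (weib_pair h (Or.inr (Or.inr one_ne_zero))) hn ?_
      have h1 : pnt b (x / z) (y / z) 1 = z⁻¹ • pnt b x y z := by
        simp only [pnt, smul_add, smul_smul, inv_mul_cancel₀ hz, div_eq_inv_mul]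
      rw [h1]
      exact n.W.smul_mem _ hp

/-- the line of a point -/
theorem wei_exists {K : Type} [Field K] [Algebra k K] {o : Fin 6 → K}
    {V : Submodule K (Fin 6 → K)} {b : Fin 3 → Fin 6 → K} {α B : K} (hF : Smooth F)
    (h : Wei F o V b α B) {x y z : K} (hxyz : x ≠ 0 ∨ y ≠ 0 ∨ z ≠ 0)
    (he : y ^ 2 * z = x ^ 3 - 3 * α * x * z ^ 2 + B * z ^ 3) :
    ∃ n : Ln F K, n.W = Submodule.span K {o, pnt b x y z} ∧ n.W ≤ V := by
  have hpV : pnt b x y z ∈ V :=
    V.add_mem (V.add_mem (V.smul_mem _ (h.mem 0)) (V.smul_mem _ (h.mem 1)))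
      (V.smul_mem _ (h.mem 2))
  obtain ⟨n, hn⟩ := exists_ln hF (weib_pair h hxyz) (h.cne.zero _ h.cne.mem _ h.cne.mem)
    (h.cne.zero _ h.cne.mem _ hpV) (h.cne.zero _ hpV _ hpV) (by
      rw [h.eq]
      linear_combination he)
  refine ⟨n, hn, ?_⟩
  rw [hn, Submodule.span_le]
  rintro c (rfl | rfl)
  · exact h.cne.mem
  · exact hpV

end Pool.Agent.CUB
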